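import Pool.Agent.W_448so_h63.GI
import Pool.Agent.W_448e_h97.ED

/-!
The identity (6,4) at the window j (MP_448cb3_co, case B): the profile of a component whose
unmatched near elements form a star.
-/

namespace Pool.Agent.GaussPoset.Win.K2

set_option linter.unusedSectionVars false

open Finset I2

universe u

variable {P : Type u} [Fintype P] [PartialOrder P] [DecidableEq P] {r i : ℕ} {e : P → ℕ}

variable {ι : Type*} [DecidableEq ι] {κ : P → ι} {K C : Finset P} {psi : P → P}

/-- the window sum of a part with a star of unmatched elements -/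
theorem K_class (H : Gr P r) (hir : i ≤ r) (hq : NoQ P (i + 2))
    (hg : ∀ m, m + 1 = i → Good P m) (hM : Mat P i K psi) (hC : Part (i + 1) C)
    (hK : Star i C K) (n : ℕ) :
    dd ^ ((st i C).card - (n + 1) / 2) ∣ ZC i C n := by
  unfold ZC
  refine class_dvd hM H ?_ ?_
  · intro e he y hy
    rw [mem_pa] at he ⊢
    exact ⟨by rw [sum_sw]; exact he.1, spt_sw hM H hC he.2 hy⟩
  · intro e he
    rw [mem_pa] at he
    refine tC_dvd fun hL hU hd => ?_
    have h1 := K_bound H hir hq hg hM hK he.2 hL hU hd (δ := 0) (Or.inl rfl)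
    rw [he.1] at h1
    omega

/-- the configuration with a single unit on a double near element -/
lemma tC_ind (H : Gr P r) (hir : i ≤ r) (hC : Part (i + 1) C) {k : P}
    (hk : k ∈ dbL P i ∪ dbU P i) (hkC : k ∈ C) :
    1 ≤ (st i C).card ∧ tC i C (indK {k}) =
      dd ^ ((st i C).card - 1) * (if k ∈ dbU P i then xi else xx ^ 2) := by
  classical
  have hDj : Dj i {k} := by
    refine ⟨singleton_subset_iff.2 hk, ?_⟩
    intro x hx y hy hne
    rw [mem_singleton] at hx hy
    exact absurd (hx.trans hy.symm) hne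
  have hC' : Part i C := ⟨fun h1 h2 => hC.up h1 h2, fun h1 h2 h3 => hC.dn h1 (by omega) h3⟩
  have hs : Spt C (indK {k}) := by
    intro x hx
    apply indK_of_not
    rw [mem_singleton]
    rintro rfl
    exact hx hkC
  have hd := Dj_disj H hDj
  have hle := card_le_st H hC' hs hd
  have hA : AdmL i (indK {k}) := fun z hz h1 => Dj_FD H hDj hz h1.1
  have hB : AdmU i (indK {k}) := fun z hz h1 => Dj_FU H hDj hz h1.1
  have haL : aL i (indK {k}) = 0 := by
    unfold aL
    rw [card_eq_zero, filter_eq_empty_iff]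
    rintro z _ ⟨h1, h2⟩
    exact Dj_FD H hDj h1 h2
  have haU : aU i (indK {k}) = 0 := by
    unfold aU
    rw [card_eq_zero, filter_eq_empty_iff]
    rintro z _ ⟨h1, h2⟩
    exact Dj_FU H hDj h1 h2
  have h1 : (AL i (indK {k})).card = 2 * (({k} : Finset P) ∩ dbL P i).card := by
    rw [Dj_AL H hDj, Dj_bi_card hDj inter_subset_left]
  have h2 : (AU i (indK {k})).card = 2 * (({k} : Finset P) ∩ dbU P i).card := by
    rw [Dj_AU H hDj, Dj_bi_card hDj inter_subset_left]
  unfold tC
  rw [if_pos hd]
  unfold cw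
  rw [if_pos ⟨hA, hB⟩, haL, haU, Dj_pL H hDj, Dj_pU H hir hDj, h1, h2]
  rw [h1, h2] at hle
  by_cases h3 : k ∈ dbU P i
  · have h4 : k ∉ dbL P i := by
      intro h4
      have := mem_dbU'.1 h3
      have := mem_dbL'.1 h4
      omega
    rw [singleton_inter_of_mem h3, singleton_inter_of_notMem h4, card_singleton, card_empty] at *
    rw [if_pos h3]
    refine ⟨by omega, ?_⟩
    have h5 : (st i C).card - 1 = 1 + ((st i C).card - 2 * 0 - 2 * 1) := by omega
    rw [h5, pow_add]
    ring
  · have h4 : k ∈ dbL P i := (mem_union.1 hk).resolve_right h3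
    rw [singleton_inter_of_mem h4, singleton_inter_of_notMem h3, card_singleton, card_empty] at *
    rw [if_neg h3]
    refine ⟨by omega, ?_⟩
    have h5 : (st i C).card - 1 = 1 + ((st i C).card - 2 * 1 - 2 * 0) := by omega
    rw [h5, pow_add]
    ring

lemma dd_val : (dd : A) ∣ xi + xx ^ 2 := by
  have h : xi + xx ^ 2 = xx ^ 2 * (1 + xi ^ 3) := by
    have h1 : xx ^ 2 * xi ^ 3 = xi := by
      have h2 : xx ^ 2 * xi ^ 3 = (xx * xi) ^ 2 * xi := by ring
      rw [h2, xx_mul_xi, one_pow, one_mul]
    rw [mul_add, h1, mul_one]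
    ring
  rw [h]
  exact Dvd.dvd.mul_left (dd_dvd_odd (Or.inr rfl)) _

/-- a set of single units of signed number zero -/
lemma sum_units (H : Gr P r) (hir : i ≤ r) (hC : Part (i + 1) C) {K' : Finset P}
    (hK' : K' ⊆ dbL P i ∪ dbU P i) (hKC : K' ⊆ C) (h0 : ∑ k ∈ K', sgn i k = 0) :
    dd ^ (st i C).card ∣ ∑ k ∈ K', tC i C (indK {k}) := by
  classical
  rcases K'.eq_empty_or_nonempty with h | ⟨k0, hk0⟩
  · rw [h, Finset.sum_empty]
    exact dvd_zero _
  · have hb := (tC_ind H hir hC (hK' hk0) (hKC hk0)).1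
    rw [Finset.sum_congr rfl (fun k hk => (tC_ind H hir hC (hK' hk) (hKC hk)).2),
      ← Finset.mul_sum]
    have h1 : dd ^ (st i C).card = dd ^ ((st i C).card - 1) * dd := by
      rw [← pow_succ]
      congr 1
      omega
    rw [h1]
    refine mul_dvd_mul_left _ ?_
    have h2 : ∑ k ∈ K', (if k ∈ dbU P i then xi else xx ^ 2 : A) =
        ∑ k ∈ K', ((if k ∈ dbU P i then xi else xx ^ 2) - ((sgn i k : ℤ) : A) * xx ^ 2) := by
      rw [Finset.sum_sub_distrib, ← Finset.sum_mul, ← Int.cast_sum, h0]
      simp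
    rw [h2]
    refine Finset.dvd_sum fun k _ => ?_
    unfold sgn
    split_ifs with h3
    · have h4 : xi - ((-1 : ℤ) : A) * xx ^ 2 = xi + xx ^ 2 := by
        push_cast
        ring
      rw [h4]
      exact dd_val
    · simp

lemma ind_of_one (h : ∑ x, e x = 1) {k : P} (hk : 1 ≤ e k) : e = indK {k} := by
  classical
  funext x
  have h1 : ∑ x ∈ univ.erase k, e x + e k = ∑ x, e x := Finset.sum_erase_add _ _ (mem_univ k)
  have h2 : ∑ x ∈ univ.erase k, e x = 0 := by omega
  unfold indK
  rw [Finset.sum_eq_zero_iff] at h2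
  split_ifs with h3
  · rw [mem_singleton] at h3
    rw [h3]
    omega
  · rw [mem_singleton] at h3
    exact h2 x (mem_erase.2 ⟨h3, mem_univ x⟩)

/-- ENERGY ONE -/
theorem K_one (H : Gr P r) (hir : i ≤ r) (hq : NoQ P (i + 2))
    (hg : ∀ m, m + 1 = i → Good P m) (hM : Mat P i K psi) (hC : Part (i + 1) C)
    (hK : K ⊆ dbL P i ∪ dbU P i) (h0 : ∑ k ∈ K.filter (fun k => k ∈ C), sgn i k = 0) :
    dd ^ (st i C).card ∣ ZC i C 1 := by
  classical
  unfold ZC
  set K' := K.filter (fun k => k ∈ C) with hK'
  set Ω0 := K'.image (fun k => indK {k}) with hΩ0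
  have hsub : Ω0 ⊆ C.piAntidiag 1 := by
    intro e he
    rw [hΩ0, mem_image] at he
    obtain ⟨k, hk, rfl⟩ := he
    rw [hK', mem_filter] at hk
    rw [mem_pa]
    refine ⟨by rw [sum_indK, card_singleton], ?_⟩
    intro x hx
    apply indK_of_not
    rw [mem_singleton]
    rintro rfl
    exact hx hk.2
  rw [← Finset.sum_sdiff hsub]
  refine dvd_add ?_ ?_
  · refine class_dvd hM H ?_ ?_
    · intro e he y hy
      rw [mem_sdiff, mem_pa] at he ⊢
      obtain ⟨⟨h1, h2⟩, h3⟩ := he
      refine ⟨⟨by rw [sum_sw]; exact h1, spt_sw hM H hC h2 hy⟩, ?_⟩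
      intro h4
      rw [hΩ0, mem_image] at h4
      obtain ⟨k, hk, hke⟩ := h4
      rw [hK', mem_filter] at hk
      have hSK := SK_sw hM H hy
      rw [← hke] at hSK
      rw [← hSK, mem_SK] at hy
      obtain ⟨g1, g2, g3⟩ := hy
      obtain ⟨p1, p2, p3, p4⟩ := psi_low hM g1 g2
      rcases g3.one with ⟨g4, -⟩ | ⟨-, g4⟩
      · have : y ∈ ({k} : Finset P) := indK_pos.1 (by omega)
        rw [mem_singleton] at this
        rw [this] at g2
        exact g2 hk.1
      · have : psi y ∈ ({k} : Finset P) := indK_pos.1 (by omega)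
        rw [mem_singleton] at this
        rw [this] at p4
        exact p4 hk.1
    · intro e he
      rw [mem_sdiff, mem_pa] at he
      obtain ⟨⟨h1, h2⟩, h3⟩ := he
      have h4 : (st i C).card = (st i C).card - 0 := (Nat.sub_zero _).symm
      rw [h4]
      refine tC_dvd fun hL hU hd => ?_
      obtain ⟨XL, XU, hXL, hXU, h5⟩ := main_K hM H hir hq hg hL hU hd (δ := 0) (Or.inl rfl)
      have h6 : KB i K e = ∅ := by
        rw [Finset.eq_empty_iff_forall_notMem]
        intro k hk
        rw [mem_KB] at hk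
        have h7 : e k = 1 := by
          rcases hk.2 with h | h
          · exact (bL_data H hir hq hg h.1).2.2.1
          · exact (bU_data H hir hq hg h.1).2.2.1
        apply h3
        rw [hΩ0, mem_image]
        refine ⟨k, ?_, (ind_of_one h1 (by omega)).symm⟩
        rw [hK', mem_filter]
        refine ⟨hk.1, ?_⟩
        by_contra h8
        have := h2 k h8
        omega
      have h7 : XL = ∅ := by
        rw [Finset.eq_empty_iff_forall_notMem]
        intro x hx
        obtain ⟨l1, e1, ⟨y, hy⟩, h8⟩ := hXL x hx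
        have h9 := bL_data H hir hq hg (h8 y hy).1
        have h10 := ind_of_one h1 e1
        have h11 := h9.2.2.1
        rw [h10] at h11
        have : y ∈ ({x} : Finset P) := indK_pos.1 (by omega)
        rw [mem_singleton] at this
        rw [this] at h9
        omega
      have h8 : XU = ∅ := by
        rw [Finset.eq_empty_iff_forall_notMem]
        intro x hx
        obtain ⟨l1, e1, ⟨y, hy⟩, h8⟩ := hXU x hx
        have h9 := bU_data H hir hq hg (h8 y hy).1
        have h10 := ind_of_one h1 e1
        have h11 := h9.2.2.1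
        rw [h10] at h11
        have : y ∈ ({x} : Finset P) := indK_pos.1 (by omega)
        rw [mem_singleton] at this
        rw [this] at h9
        omega
      rw [h6, h7, h8] at h5
      have h9 : ∑ x ∈ lS P i, e x + ∑ x ∈ uS P i, e x ≤ ∑ x, e x := by
        rw [← Finset.sum_union]
        · exact Finset.sum_le_sum_of_subset (subset_univ _)
        · rw [disjoint_left]
          intro x hx hx'
          rw [mem_lS] at hx
          rw [mem_uS] at hx'
          omega
      simp only [card_empty, add_zero] at h5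
      omega
  · rw [hΩ0, Finset.sum_image]
    · exact sum_units H hir hC ((filter_subset _ _).trans hK)
        (fun k hk => (mem_filter.1 hk).2) h0
    · intro k _ k' _ h
      exact Finset.singleton_injective (indK_inj h)

/-- THE PROFILE of a component whose unmatched near elements form a star -/
theorem PG_star (H : Gr P r) (hir : i ≤ r) (hq : NoQ P (i + 2))
    (hg : ∀ m, m + 1 = i → Good P m) (hκ : Split (i + 1) κ) (hM : Mat P i K psi)
    (hK : K ⊆ dbL P i ∪ dbU P i) {a : ι} (hs : Star i (cext (i + 1) κ a) K) :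
    PG (bb i (i + 1) κ a) (VV i (i + 1) κ a) ∧ w6 (bb i (i + 1) κ a) (VV i (i + 1) κ a) = 0 := by
  have hC : Part (i + 1) (cext (i + 1) κ a) := part_cext H le_rfl hκ a
  have hcl := K_class H hir hq hg hM hC hs
  have h1 : dd ^ (st i (cext (i + 1) κ a)).card ∣ ZC i (cext (i + 1) κ a) 1 := by
    refine K_one H hir hq hg hM hC hK ?_
    have h2 : K.filter (fun k => k ∈ cext (i + 1) κ a) = K.filter (fun k => κ k = a) := by
      refine filter_congr fun k hk => ?_
      have hl : lev k ≤ i + 1 := by
        rcases mem_union.1 (hK hk) with h | h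
        · have := mem_dbL'.1 h
          omega
        · have := mem_dbU'.1 h
          omega
      constructor
      · intro h
        exact mem_cext.1 h k le_rfl hl
      · exact fun h => mem_cext_of_le hκ hl h
    rw [h2]
    exact EK.sum_K H hir hκ hM hK a
  constructor
  · intro n hn
    unfold bb VV
    rw [coeff_ZS]
    have h2 : n = 0 ∨ n = 1 ∨ 2 ≤ n := by omega
    rcases h2 with rfl | rfl | h2
    · rw [ZC_zero H hir]
      exact Dvd.intro_left _ rfl
    · exact Dvd.dvd.mul_left h1 _
    · have h3 : dd ^ gd n * dd ^ ((st i (cext (i + 1) κ a)).card - (n + 1) / 2) ∣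
          dd ^ gd n * ZC i (cext (i + 1) κ a) n := mul_dvd_mul_left _ (hcl n)
      rw [← pow_add] at h3
      refine (pow_dvd_pow dd ?_).trans h3
      have h4 : (n + 1) / 2 ≤ gd n := by
        unfold gd
        split_ifs <;> omega
      omega
  · unfold w6 bb VV
    rw [coeff_ZS]
    apply coeff_zero_of_dvd (a := (st i (cext (i + 1) κ a)).card + 1)
    · have h3 : dd ^ 4 * dd ^ ((st i (cext (i + 1) κ a)).card - (6 + 1) / 2) ∣
          dd ^ 4 * ZC i (cext (i + 1) κ a) 6 := mul_dvd_mul_left _ (hcl 6)
      rw [← pow_add] at h3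
      refine (pow_dvd_pow dd ?_).trans h3
      omega
    · omega

end Pool.Agent.GaussPoset.Win.K2
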