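import Pool.Agent.W_448so_h63.EC

/-!
SECOND ORDER THEOREM (MP_448cb3_co, proofs row 476): labels one on a set without sites.
-/

set_option autoImplicit false

namespace Pool.Agent.GaussPoset.Win.SO

set_option linter.unusedSectionVars false

open Finset

universe u

variable {P : Type u} [Fintype P] [PartialOrder P] [DecidableEq P] {r i : ℕ}
  {e : P → ℕ} {C s : Finset P} {K F B K' F' B' : Finset P}

/-- the value of a labelling with `k` deficits -/
theorem val_gen (H : Gr P r) (hC : Part (i + 1) C) (hs : Spt C e)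
    (D : LowD i e K F B) (D' : UppD i e K' F' B') (hd : Disjoint B B') {k : ℕ}
    (h2 : B.card + B'.card = F.card + F'.card + k) :
    dd ^ ((st i C).card - k) ∣ tC i C e ∧
      PowerSeries.coeff (st i C).card (dd ^ k * tC i C e : A) =
        (-1) ^ (K.card + B.card + (K'.card + F'.card)) := by
  classical
  have hCi : Part i C := ⟨fun h1 h2 => hC.up h1 h2, fun h1 h2 h3 => hC.dn h1 (by omega) h3⟩
  have hdis : Disjoint (AL i e) (AU i e) := by rw [D.AL_eq, D'.AU_eq]; exact hd
  have s1 : B ∪ B' ⊆ st i C := by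
    rw [← D.AL_eq, ← D'.AU_eq]
    exact union_subset (AL_sub hCi hs) (AU_sub H hCi hs)
  have s2 := card_le_card s1
  rw [card_union_of_disjoint hd] at s2
  have ht : tC i C e = dd ^ ((st i C).card - k) *
      (xx ^ (K.card + B.card) * xi ^ (K'.card + F'.card)) := by
    unfold tC cw
    rw [if_pos hdis, if_pos ⟨D.adm, D'.adm⟩, D.aL_eq, D.pL_eq, D.AL_eq, D'.aU_eq, D'.pU_eq,
      D'.AU_eq]
    have h3 : (st i C).card - k = (F.card + F'.card) + ((st i C).card - B.card - B'.card) := by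
      omega
    rw [h3, pow_add (dd : A) (F.card + F'.card), pow_add (xx : A)]
    ring
  refine ⟨?_, ?_⟩
  · rw [ht]
    exact dvd_mul_right _ _
  · rw [ht, ← mul_assoc, ← pow_add, show k + ((st i C).card - k) = (st i C).card by omega]
    exact coef_units _ _ _

/-- the labelling one on a set without sites, below the window -/
lemma low_cls (H : Gr P r)
    (he : ∀ y, e y = if y ∈ s then 1 else 0) (ns : ∀ x ∈ s, lev x ≠ i)
    (lo : ∀ x ∈ s, i + 1 < lev x → ∀ y, x ⋖ y → y ∈ s) {N : Finset P}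
    (hN : ∀ z, z ∈ N ↔ z ∈ s ∧ lev z = i + 1) (hB : ∀ v, v ∈ B ↔ lev v = i ∧ ∃ x ∈ s, x ⋖ v) :
    LowD i e ∅ N B := by
  have hk : ∀ z, i < lev z → ¬ FD e z := by
    rintro z hz ⟨y, hy, hlt⟩
    have hl := lev_cov H hy
    have h1 : y ∈ s := by
      by_contra h
      rw [he y, if_neg h] at hlt
      omega
    have h2 := lo y h1 (by omega) z hy
    rw [he z, he y, if_pos h1, if_pos h2] at hlt
    omega
  refine ⟨?_, ?_, ?_, ?_, ?_, fun v hv => ((hB v).1 hv).1⟩
  · intro z hz
    exact ⟨fun h => absurd h (hk z hz), fun h => absurd h (notMem_empty _)⟩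
  · intro z hz
    rw [hB]
    have hzs : z ∉ s := fun h => ns z h hz
    constructor
    · rintro ⟨y, hy, hlt⟩
      refine ⟨hz, y, ?_, hy⟩
      by_contra h
      rw [he y, if_neg h] at hlt
      omega
    · rintro ⟨-, y, hy, hyz⟩
      refine ⟨y, hyz, ?_⟩
      rw [he z, he y, if_pos hy, if_neg hzs]
      exact Nat.zero_lt_one
  · intro z hz
    constructor
    · rintro ⟨y, hy, hle⟩
      have hl := lev_cov H hy
      refine ⟨notMem_empty _, fun h => ?_⟩
      obtain ⟨h1, h2⟩ := (hN z).1 h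
      have hys : y ∉ s := fun h3 => ns y h3 (by omega)
      rw [he z, he y, if_pos h1, if_neg hys] at hle
      omega
    · rintro ⟨-, h⟩
      obtain ⟨y, hy⟩ := uc_nonempty H (x := z) (by omega)
      refine ⟨y, mem_uc.1 hy, ?_⟩
      by_cases h1 : z ∈ s
      · have h2 : lev z ≠ i + 1 := fun h3 => h ((hN z).2 ⟨h1, h3⟩)
        rw [he z, he y, if_pos h1, if_pos (lo z h1 (by omega) y (mem_uc.1 hy))]
      · rw [he z, if_neg h1]
        exact Nat.zero_le _
  · exact fun z hz => absurd hz (notMem_empty _)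
  · intro z hz
    obtain ⟨h1, h2⟩ := (hN z).1 hz
    exact ⟨by omega, notMem_empty _⟩

/-- the labelling one on a set without sites, above the window -/
lemma upp_cls (H : Gr P r) (hir : i ≤ r)
    (he : ∀ y, e y = if y ∈ s then 1 else 0) (ns : ∀ x ∈ s, lev x ≠ i)
    (up : ∀ x ∈ s, lev x + 1 < i → ∀ y, y ⋖ x → y ∈ s) {N : Finset P}
    (hN : ∀ z, z ∈ N ↔ z ∈ s ∧ lev z + 1 = i) (hB : ∀ v, v ∈ B ↔ lev v = i ∧ ∃ x ∈ s, v ⋖ x) :
    UppD i e ∅ N B := by
  have hk : ∀ z, lev z < i → ¬ FU e z := by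
    rintro z hz ⟨y, hy, hlt⟩
    have hl := lev_cov H hy
    have h1 : y ∈ s := by
      by_contra h
      rw [he y, if_neg h] at hlt
      omega
    have h2 := up y h1 (by omega) z hy
    rw [he z, he y, if_pos h1, if_pos h2] at hlt
    omega
  refine ⟨?_, ?_, ?_, ?_, ?_, fun v hv => ((hB v).1 hv).1⟩
  · intro z hz
    exact ⟨fun h => absurd h (hk z hz), fun h => absurd h (notMem_empty _)⟩
  · intro z hz
    rw [hB]
    have hzs : z ∉ s := fun h => ns z h hz
    constructor
    · rintro ⟨y, hy, hlt⟩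
      refine ⟨hz, y, ?_, hy⟩
      by_contra h
      rw [he y, if_neg h] at hlt
      omega
    · rintro ⟨-, y, hy, hyz⟩
      refine ⟨y, hyz, ?_⟩
      rw [he z, he y, if_pos hy, if_neg hzs]
      exact Nat.zero_lt_one
  · intro z hz
    constructor
    · rintro ⟨y, hy, hle⟩
      have hl := lev_cov H hy
      refine ⟨notMem_empty _, fun h => ?_⟩
      obtain ⟨h1, h2⟩ := (hN z).1 h
      have hys : y ∉ s := fun h3 => ns y h3 (by omega)
      rw [he z, he y, if_pos h1, if_neg hys] at hle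
      omega
    · rintro ⟨-, h⟩
      obtain ⟨y, hy⟩ := dc_nonempty H (x := z) (by omega)
      refine ⟨y, mem_dc.1 hy, ?_⟩
      by_cases h1 : z ∈ s
      · have h2 : lev z + 1 ≠ i := fun h3 => h ((hN z).2 ⟨h1, h3⟩)
        rw [he z, he y, if_pos h1, if_pos (up z h1 (by omega) y (mem_dc.1 hy))]
      · rw [he z, if_neg h1]
        exact Nat.zero_le _
  · exact fun z hz => absurd hz (notMem_empty _)
  · intro z hz
    obtain ⟨h1, h2⟩ := (hN z).1 hz
    exact ⟨by omega, notMem_empty _⟩

end Pool.Agent.GaussPoset.Win.SO
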