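import Pool.Agent.W_448so_h63.FF
import Pool.Agent.W_448so_h63.ED

/-!
S9 with Z2 (MP_448cb3_co, case B): classification of the cross cores and the sums at the energies five, six.
-/

set_option autoImplicit false

namespace Pool.Agent.GaussPoset.Win.So

set_option linter.unusedSectionVars false

open Finset SO

universe u

variable {P : Type u} [Fintype P] [PartialOrder P] [DecidableEq P] {r i : ℕ}

variable {ι : Type*} [DecidableEq ι] {κ : P → ι} {v p p' y y' x : P} {e : P → ℕ} {psi : P → P}

open Classical in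
/-- joins of the level `i + 3` between two pendants over disjoint pairs of sites -/
noncomputable def Z2s (i : ℕ) (κ : P → ι) : Finset P :=
  univ.filter (fun v => lev v = i + 3 ∧ v ∉ cuni (i + 2) κ ∧ up (i + 1) v = 2 ∧ up i v = 4)

lemma mem_Z2s {v : P} : v ∈ Z2s i κ ↔ lev v = i + 3 ∧ v ∉ cuni (i + 2) κ ∧ up (i + 1) v = 2 ∧
    up i v = 4 := by
  classical
  unfold Z2s
  rw [mem_filter]
  simp

lemma Z2s_ZD (H : Gr P r) (hκ : Split (i + 2) κ) (hv : v ∈ Z2s i κ) :
    ∃ p p' y y', ZD i κ v p p' y y' := by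
  classical
  obtain ⟨h1, h2, h3, h4⟩ := mem_Z2s.1 hv
  obtain ⟨p, p', hk, huc⟩ := two_labels H hκ h2 (by omega)
  have D : CrV i κ v p p' := ⟨h1, huc, hk⟩
  have lp := D.lp H
  have lp' := D.lp' H
  have n1 : 1 ≤ (uc p).card := card_pos.2 (uc_nonempty H (by omega))
  have n2 : 1 ≤ (uc p').card := card_pos.2 (uc_nonempty H (by omega))
  rw [D.up1 H hκ] at h3
  obtain ⟨y, hy⟩ := card_eq_one.1 (by omega : (uc p).card = 1)
  obtain ⟨y', hy'⟩ := card_eq_one.1 (by omega : (uc p').card = 1)
  have hs : up i v = (uc y ∪ uc y').card := by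
    rw [up_eq]
    congr 1
    ext x
    rw [mem_filter, mem_lv, D.mem0 H, mem_union, hy, hy']
    constructor
    · rintro ⟨w, hw, hx⟩
      rw [mem_union, mem_singleton, mem_singleton] at hw
      rcases hw with rfl | rfl
      · exact Or.inl hx
      · exact Or.inr hx
    · rintro (h | h)
      · exact ⟨y, by simp, h⟩
      · exact ⟨y', by simp, h⟩
  have h5 := card_union_le (uc y) (uc y')
  have h6 := uc_card_le H y
  have h7 := uc_card_le H y'
  exact ⟨p, p', y, y', D, hy, hy', by omega, by omega⟩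

lemma en_eq (H : Gr P r) (D : ZD i κ v p p' y y') (x : P) :
    en {v, p, p', y, y'} x = eN i v + Pi.single x 1 := by
  classical
  funext z
  rw [Pi.add_apply, Pi.single_apply]
  unfold en eN
  rw [← D.cn H]
  congr 1
  by_cases h : z ∈ Cn i v
  · rw [if_pos h, if_pos (mem_Cn.1 h)]
  · rw [if_neg h, if_neg (fun h' => h (mem_Cn.2 h'))]

lemma en_eq0 (x : P) : en (∅ : Finset P) x = Pi.single x 1 := by
  classical
  funext z
  rw [Pi.single_apply]
  unfold en
  rw [if_neg (notMem_empty z), zero_add]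

lemma eN_sum5 (H : Gr P r) (hκ : Split (i + 2) κ) (hv : v ∈ Z2s i κ) : ∑ x, eN i v x = 5 := by
  classical
  obtain ⟨p, p', y, y', D⟩ := Z2s_ZD H hκ hv
  have h5 : ∀ x, eN i v x = if x ∈ CrV.T v p p' then 1 else 0 := by
    intro x
    unfold eN
    by_cases hx : x ∈ CrV.T v p p'
    · rw [if_pos hx, if_pos ((D.T_iff H).1 hx)]
    · rw [if_neg hx, if_neg (fun h => hx ((D.T_iff H).2 h))]
  rw [Finset.sum_congr rfl (fun x _ => h5 x), Finset.sum_ite_mem, univ_inter, Finset.sum_const,
    smul_eq_mul, mul_one, D.card_T H hκ, D.hp, D.hp', card_singleton, card_singleton]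

/-- THE CROSS CORES of energy at most six, joins of two pendants allowed -/
theorem cross_core' (H : Gr P r) (hi : 1 ≤ i) (hi2 : i + 1 ≤ r) (hg : Good P i)
    (hκ : Split (i + 2) κ) (hM : Mat P i ∅ psi)
    (hc : IsCore i ∅ psi e) (hQ : CrO i κ e) (hn : ∑ x, e x ≤ 6) :
    Cheap 1 i e ∨ (∑ x, e x = 6 ∧ ∃ v ∈ N5s i κ, e = eN i v) ∨
      ∃ v ∈ Z2s i κ, ∀ x, eN i v x ≤ e x := by
  classical
  by_cases hA : AdmL i e
  swap
  · exact Or.inl (Or.inl hA)
  by_cases hB : AdmU i e
  swap
  · exact Or.inl (Or.inr (Or.inl hB))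
  by_cases hd : Disjoint (AL i e) (AU i e)
  swap
  · exact Or.inl (Or.inr (Or.inr (Or.inl hd)))
  obtain ⟨z, hz, hze⟩ := hQ
  have hlz := (two_up H hκ hz).1
  obtain ⟨v, lv', hvc, hv⟩ := cross_v H hκ hA hn (lev z - (i + 3)) z (by omega) hz hze
  obtain ⟨p, p', hk, huc⟩ := two_labels H hκ hvc (by omega)
  have D : CrV i κ v p p' := ⟨lv', huc, hk⟩
  have lp := D.lp H
  have lp' := D.lp' H
  have hcard := D.card_T H hκ
  have hpos := D.pos_T H hA hv
  have hle := card_le_sum hpos
  have n1 : 1 ≤ (uc p).card := card_pos.2 (uc_nonempty H (by omega))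
  have n2 : 1 ≤ (uc p').card := card_pos.2 (uc_nonempty H (by omega))
  have hup1 := D.up1 H hκ
  by_cases h3 : (uc p).card + (uc p').card = 2
  · have h0 := D.up0_le H
    have u1 := (up_le_four H lp).1
    have u2 := (up_le_four H lp').1
    rcases Nat.lt_or_ge (up i v) 4 with h4 | h4
    · left
      refine Or.inr (Or.inr (Or.inr ?_))
      obtain ⟨y, hy⟩ := card_eq_one.1 (by omega : (uc p).card = 1)
      obtain ⟨y', hy'⟩ := card_eq_one.1 (by omega : (uc p').card = 1)
      exact cross_one H (by omega) hκ D hA hB hd hv hM hc hy hy' hn (by omega)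
    · right
      right
      have h5 : (uc p).card = 1 ∧ (uc p').card = 1 := by omega
      rw [h5.1] at u1
      rw [h5.2] at u2
      refine ⟨v, mem_Z2s.2 ⟨lv', hvc, by omega, by omega⟩, ?_⟩
      intro x
      unfold eN
      split_ifs with hx
      · exact hpos x ((D.T_iff H).2 hx)
      · exact Nat.zero_le _
  · have hle2 := hle.trans hn
    have h4 : (uc p).card + (uc p').card = 3 := by omega
    have h5 : ∀ x, e x = if x ∈ CrV.T v p p' then 1 else 0 :=
      LowD_ind (fun x hx => hpos x hx) (by omega)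
    have h6 : e = eN i v := by
      funext x
      rw [h5 x]
      unfold eN
      by_cases hx : x ∈ CrV.T v p p'
      · rw [if_pos hx, if_pos ((D.T_iff H).1 hx)]
      · rw [if_neg hx, if_neg (fun h => hx ((D.T_iff H).2 h))]
    have h7 := cone_data H (i := i) (by omega) (v := v)
    obtain ⟨-, -, -, -, h8, h9, h10⟩ := h7
    obtain ⟨h11, h12⟩ := h10 (by omega)
    rw [← h6] at h8 h9 h11 h12
    have h13 : (AL i e).card = up i v := by rw [h12, up_eq]
    rw [if_neg (by omega)] at h11
    have h14 := D.up0_le H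
    have h32 := (I32' H hi hi2 hg).1
    have u1 := (up_le_four H lp).1
    have u2 := (up_le_four H lp').1
    have u3 := h32 p lp
    have u4 := h32 p' lp'
    have h15 : up i v ≤ 5 := by
      have c1 : (uc p).card = 1 ∨ (uc p').card = 1 := by omega
      rcases c1 with c1 | c1
      · rw [c1] at u1
        omega
      · rw [c1] at u2
        omega
    by_cases h16 : up i v = 5
    · right
      left
      exact ⟨by omega, v, mem_N5s.2 ⟨lv', hvc, by omega, h16⟩, h6⟩
    · left
      refine Or.inr (Or.inr (Or.inr ?_))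
      rw [h9, card_empty, h8]
      omega

/-! ### adding a unit -/

lemma eq_of_sum {a b : P → ℕ} (h : ∀ x, a x ≤ b x) (hs : ∑ x, b x ≤ ∑ x, a x) : b = a := by
  have h1 : ∑ x, a x = ∑ x, b x := le_antisymm (sum_le_sum fun x _ => h x) hs
  have h2 := (sum_eq_sum_iff_of_le (s := (univ : Finset P)) fun x _ => h x).1 h1
  funext x
  exact (h2 x (mem_univ x)).symm

lemma eq_add_single {a b : P → ℕ} (h : ∀ x, a x ≤ b x) (hs : ∑ x, b x = ∑ x, a x + 1) :
    ∃ x, b = a + Pi.single x 1 := by
  classical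
  have h1 : ∃ x, a x < b x := by
    by_contra hc
    push Not at hc
    have : ∑ x, b x ≤ ∑ x, a x := sum_le_sum fun x _ => hc x
    omega
  obtain ⟨x, hx⟩ := h1
  refine ⟨x, eq_of_sum (a := a + Pi.single x 1) ?_ ?_⟩
  · intro z
    rw [Pi.add_apply, Pi.single_apply]
    split_ifs with hz
    · subst hz
      omega
    · have := h z
      omega
  · have h2 : ∑ z, (a + Pi.single x 1 : P → ℕ) z = ∑ z, a z + 1 := by
      simp only [Pi.add_apply, sum_add_distrib]
      rw [Finset.sum_pi_single']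
      simp
    omega

lemma sum_single_one (x : P) : ∑ z, (Pi.single x 1 : P → ℕ) z = 1 := by
  classical
  rw [Finset.sum_pi_single']
  simp

end Pool.Agent.GaussPoset.Win.So
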