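import Pool.Agent.W_448so_h63.FE

/-!
S9 with Z2 (MP_448cb3_co, case B): the environment number of a join of two pendants.
-/

set_option autoImplicit false

namespace Pool.Agent.GaussPoset.Win.So

set_option linter.unusedSectionVars false

open Finset SO

universe u

variable {P : Type u} [Fintype P] [PartialOrder P] [DecidableEq P] {r i : ℕ}

open Classical in
/-- the sites above `v` -/
noncomputable def Sv (i : ℕ) (v : P) : Finset P := univ.filter (fun x => lev x = i ∧ v < x)

open Classical in
/-- the lower elements above `v` (with `v`) -/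
noncomputable def Cn (i : ℕ) (v : P) : Finset P := univ.filter (fun x => v ≤ x ∧ i < lev x)

open Classical in
/-- near lower elements with a site above `v` -/
noncomputable def nLs (i : ℕ) (v : P) : Finset P :=
  univ.filter (fun w => lev w = i + 1 ∧ ¬ Disjoint (uc w) (Sv i v))

open Classical in
/-- near upper elements with a site above `v` -/
noncomputable def nUs (i : ℕ) (v : P) : Finset P :=
  univ.filter (fun w => lev w + 1 = i ∧ ¬ Disjoint (dc w) (Sv i v))

open Classical in
/-- elements outside the cone of `v`, not near, with all upper covers in the cone -/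
noncomputable def chs (i : ℕ) (v : P) : Finset P :=
  univ.filter (fun x => i + 1 < lev x ∧ x ∉ Cn i v ∧ uc x ⊆ Cn i v)

/-- the environment number -/
noncomputable def env (i : ℕ) (v : P) : ℤ :=
  ((chs i v).card : ℤ) + (nLs i v).card + (nUs i v).card - 6

variable {ι : Type*} [DecidableEq ι] {κ : P → ι} {v p p' y y' x : P}

lemma mem_Cn : x ∈ Cn i v ↔ v ≤ x ∧ i < lev x := by
  classical
  unfold Cn
  simp

lemma mem_Sv : x ∈ Sv i v ↔ lev x = i ∧ v < x := by
  classical
  unfold Sv
  simp

lemma ZD.cn (H : Gr P r) (D : ZD i κ v p p' y y') : Cn i v = {v, p, p', y, y'} := by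
  classical
  ext x
  rw [mem_Cn, ← D.T_iff H, CrV.mem_T, D.hp, D.hp']
  simp only [mem_insert, mem_singleton, mem_union]

lemma ZD.sv (H : Gr P r) (D : ZD i κ v p p' y y') : Sv i v = uc y ∪ uc y' := by
  classical
  ext x
  rw [mem_Sv, D.mem0 H, D.hp, D.hp', mem_union]
  constructor
  · rintro ⟨w, hw, hx⟩
    rw [mem_union, mem_singleton, mem_singleton] at hw
    rcases hw with rfl | rfl
    · exact Or.inl hx
    · exact Or.inr hx
  · rintro (h | h)
    · exact ⟨y, by simp, h⟩
    · exact ⟨y', by simp, h⟩

/-- another near element shares at most one site with the join -/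
lemma ZD.share (H : Gr P r) (hκ : Split (i + 2) κ) (D : ZD i κ v p p' y y')
    (hu : ∀ w w' : P, lev w = i + 1 → lev w' = i + 1 → w ≠ w' → (uc w ∩ uc w').card ≤ 1)
    (hl : lev x = i + 1) (hx : x ≠ y ∧ x ≠ y') :
    (uc x).card ≤ (uc x \ (uc y ∪ uc y')).card + 1 := by
  have h1 : (uc x ∩ (uc y ∪ uc y')).card ≤ 1 := by
    rw [inter_union_distrib_left]
    have l1 := hu x y hl (D.ly H) hx.1
    have l2 := hu x y' hl (D.ly' H) hx.2
    rcases (uc x ∩ uc y).eq_empty_or_nonempty with h | ⟨s, hs⟩
    · rw [h, empty_union]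
      exact l2
    · rcases (uc x ∩ uc y').eq_empty_or_nonempty with h' | ⟨s', hs'⟩
      · rw [h', union_empty]
        exact l1
      · exfalso
        rw [mem_inter] at hs hs'
        have k1 : κ x = κ s := hκ (mem_uc.1 hs.1) (by omega)
        have k2 : κ x = κ s' := hκ (mem_uc.1 hs'.1) (by omega)
        have k3 := D.lab2 hκ H (mem_uc.2 D.yp) hs.2
        have k4 := D.toCrV.symm.lab2 hκ H (mem_uc.2 D.yp') hs'.2
        exact D.ne (by rw [← k3, ← k1, k2, k4])
  have h2 := card_sdiff_add_card_inter (uc x) (uc y ∪ uc y')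
  omega

lemma not_disj_iff {s t : Finset P} : (¬ Disjoint s t) ↔ (s \ t).card < s.card := by
  rw [not_disjoint_iff_nonempty_inter]
  have h2 := card_sdiff_add_card_inter s t
  constructor
  · intro h
    have := card_pos.2 h
    omega
  · intro h
    rw [← card_pos]
    omega

open Classical in
/-- the contribution of the unit `x` to the environment -/
noncomputable def dl (i : ℕ) (v p p' y y' x : P) : ℤ :=
  (if x ∈ Sv i v then -2 else 0) + (if x ∈ nLs i v then 1 else 0) +
  (if x = y ∨ x = y' then 2 else 0) +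
  (if x ∈ dbL P i ∧ Disjoint (uc x) (Sv i v) then -4 else 0) +
  (if x ∈ nUs i v then 1 else 0) +
  (if x ∈ dbU P i ∧ Disjoint (dc x) (Sv i v) then 4 else 0) +
  (if x = p ∨ x = p' then -1 else 0) + (if x ∈ chs i v then 1 else 0)

/-- the difference of the coefficients at `x` -/
theorem delta (H : Gr P r) (hir : i ≤ r) (hκ : Split (i + 2) κ) (D : ZD i κ v p p' y y')
    (hu : ∀ w w' : P, lev w = i + 1 → lev w' = i + 1 → w ≠ w' → (uc w ∩ uc w').card ≤ 1)
    (x : P) :
    PowerSeries.coeff (lv P i).card (dd ^ 2 * trm i (en {v, p, p', y, y'} x) : A) =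
      PowerSeries.coeff (lv P i).card (trm i (en ∅ x) : A) + dl i v p p' y y' x := by
  classical
  have lv' := D.lv
  have lp := D.lp H
  have lp' := D.lp' H
  have ly := D.ly H
  have ly' := D.ly' H
  have hSv := D.sv H
  have hCn := D.cn H
  have mS : ∀ z, z ∈ Sv i v → lev z = i := fun z hz => (mem_Sv.1 hz).1
  have mL : ∀ z, z ∈ nLs i v ↔ lev z = i + 1 ∧ ¬ Disjoint (uc z) (Sv i v) := by
    intro z
    unfold nLs
    simp
  have mU : ∀ z, z ∈ nUs i v ↔ lev z + 1 = i ∧ ¬ Disjoint (dc z) (Sv i v) := by
    intro z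
    unfold nUs
    simp
  have mC : ∀ z, z ∈ chs i v ↔ i + 1 < lev z ∧ z ∉ Cn i v ∧ uc z ⊆ Cn i v := by
    intro z
    unfold chs
    simp
  unfold dl
  rcases Nat.lt_trichotomy (lev x) i with hl | hl | hl
  · -- above the window
    have n1 : x ∉ Sv i v := fun h => by have := mS x h; omega
    have n2 : x ∉ nLs i v := fun h => by have := ((mL x).1 h).1; omega
    have n3 : ¬ (x = y ∨ x = y') := by rintro (rfl | rfl) <;> omega
    have n4 : ¬ (x ∈ dbL P i ∧ Disjoint (uc x) (Sv i v)) := fun h => by
      have := (mem_dbL.1 h.1).1; omega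
    have n5 : ¬ (x = p ∨ x = p') := by rintro (rfl | rfl) <;> omega
    have n6 : x ∉ chs i v := fun h => by have := ((mC x).1 h).1; omega
    rw [if_neg n1, if_neg n2, if_neg n3, if_neg n4, if_neg n5, if_neg n6]
    rcases Nat.lt_or_ge (lev x + 1) i with h1 | h1
    · have n7 : x ∉ nUs i v := fun h => by have := ((mU x).1 h).1; omega
      have n8 : ¬ (x ∈ dbU P i ∧ Disjoint (dc x) (Sv i v)) := fun h => by
        have := (mem_dbU.1 h.1).1; omega
      rw [if_neg n7, if_neg n8, zv_upp_far H hir hκ D h1, e0_upp_far H hir h1]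
      simp
    · have h2 : lev x + 1 = i := by omega
      rw [e0_upp H hir h2]
      have c1 : 1 ≤ (dc x).card := card_pos.2 (dc_nonempty H (by omega))
      have c2 := dc_card_le H x
      by_cases h3 : Disjoint (uc y ∪ uc y') (dc x)
      · rw [zv_upp_near H hir hκ D h2 h3]
        have h4 : Disjoint (dc x) (Sv i v) := by rw [hSv]; exact h3.symm
        have n7 : x ∉ nUs i v := fun h => ((mU x).1 h).2 h4
        rw [if_neg n7]
        by_cases h5 : (dc x).card = 1
        · have n8 : ¬ (x ∈ dbU P i ∧ Disjoint (dc x) (Sv i v)) := fun h => by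
            have := (mem_dbU.1 h.1).2; omega
          rw [if_pos h5, if_neg n8]
          norm_num
        · have n8 : x ∈ dbU P i ∧ Disjoint (dc x) (Sv i v) := ⟨mem_dbU.2 ⟨h2, by omega⟩, h4⟩
          rw [if_neg h5, if_pos n8]
          norm_num
      · rw [zv_upp_meet H hir hκ D h2 h3]
        have h4 : ¬ Disjoint (dc x) (Sv i v) := by rw [hSv]; exact fun h => h3 h.symm
        have n7 : x ∈ nUs i v := (mU x).2 ⟨h2, h4⟩
        have n8 : ¬ (x ∈ dbU P i ∧ Disjoint (dc x) (Sv i v)) := fun h => h4 h.2
        rw [if_pos n7, if_neg n8]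
        simp
  · -- sites
    have n2 : x ∉ nLs i v := fun h => by have := ((mL x).1 h).1; omega
    have n3 : ¬ (x = y ∨ x = y') := by rintro (rfl | rfl) <;> omega
    have n4 : ¬ (x ∈ dbL P i ∧ Disjoint (uc x) (Sv i v)) := fun h => by
      have := (mem_dbL.1 h.1).1; omega
    have n5 : ¬ (x = p ∨ x = p') := by rintro (rfl | rfl) <;> omega
    have n6 : x ∉ chs i v := fun h => by have := ((mC x).1 h).1; omega
    have n7 : x ∉ nUs i v := fun h => by have := ((mU x).1 h).1; omega
    have n8 : ¬ (x ∈ dbU P i ∧ Disjoint (dc x) (Sv i v)) := fun h => by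
      have := (mem_dbU.1 h.1).1; omega
    rw [if_neg n2, if_neg n3, if_neg n4, if_neg n5, if_neg n6, if_neg n7, if_neg n8,
      e0_site H hir hl]
    by_cases h1 : x ∈ uc y ∪ uc y'
    · rw [zv_site_in H hir hκ D hl h1, if_pos (by rw [hSv]; exact h1)]
      norm_num
    · rw [zv_site_out H hir hκ D hl h1, if_neg (by rw [hSv]; exact h1)]
      norm_num
  · -- below the window
    have n1 : x ∉ Sv i v := fun h => by have := mS x h; omega
    have n7 : x ∉ nUs i v := fun h => by have := ((mU x).1 h).1; omega
    have n8 : ¬ (x ∈ dbU P i ∧ Disjoint (dc x) (Sv i v)) := fun h => by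
      have := (mem_dbU.1 h.1).1; omega
    rw [if_neg n1, if_neg n7, if_neg n8]
    rcases Nat.lt_or_ge (i + 1) (lev x) with h1 | h1
    · -- far
      have n2 : x ∉ nLs i v := fun h => by have := ((mL x).1 h).1; omega
      have n3 : ¬ (x = y ∨ x = y') := by rintro (rfl | rfl) <;> omega
      have n4 : ¬ (x ∈ dbL P i ∧ Disjoint (uc x) (Sv i v)) := fun h => by
        have := (mem_dbL.1 h.1).1; omega
      rw [if_neg n2, if_neg n3, if_neg n4, e0_low_far H h1]
      by_cases h2 : x ∈ ({v, p, p', y, y'} : Finset P)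
      · have n6 : x ∉ chs i v := fun h => ((mC x).1 h).2.1 (by rw [hCn]; exact h2)
        rw [if_neg n6]
        simp only [mem_insert, mem_singleton] at h2
        rcases h2 with rfl | rfl | rfl | rfl | rfl
        · have n5 : ¬ (x = p ∨ x = p') := by rintro (rfl | rfl) <;> omega
          rw [if_neg n5, zv_top H hir hκ D]
          simp
        · rw [if_pos (Or.inl rfl), zv_mid H hir hκ D (Or.inl rfl)]
          simp
        · rw [if_pos (Or.inr rfl), zv_mid H hir hκ D (Or.inr rfl)]
          simp
        · omega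
        · omega
      · have n5 : ¬ (x = p ∨ x = p') := by
          rintro (rfl | rfl)
          · exact h2 (by simp)
          · exact h2 (by simp)
        rw [if_neg n5]
        by_cases h3 : uc x ⊆ ({v, p, p', y, y'} : Finset P)
        · have n6 : x ∈ chs i v := (mC x).2 ⟨h1, by rw [hCn]; exact h2, by rw [hCn]; exact h3⟩
          rw [if_pos n6, zv_child H hir hκ D h1 h2 h3]
          simp
        · have n6 : x ∉ chs i v := fun h => h3 (by rw [← hCn]; exact ((mC x).1 h).2.2)
          rw [if_neg n6, zv_child_bad H hir hκ D h1 h2 h3]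
          simp
    · -- near
      have h2 : lev x = i + 1 := by omega
      have n5 : ¬ (x = p ∨ x = p') := by rintro (rfl | rfl) <;> omega
      have n6 : x ∉ chs i v := fun h => by have := ((mC x).1 h).1; omega
      rw [if_neg n5, if_neg n6, e0_low H hir h2]
      by_cases h3 : x = y ∨ x = y'
      · rw [if_pos h3, zv_near_in H hir hκ D h3]
        have hc2 : (uc x).card = 2 := by
          rcases h3 with rfl | rfl
          · exact D.c
          · exact D.c'
        have hnd : ¬ Disjoint (uc x) (Sv i v) := by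
          rw [not_disjoint_iff_nonempty_inter, hSv]
          have hne : (uc x).Nonempty := card_pos.1 (by omega)
          obtain ⟨s, hs⟩ := hne
          refine ⟨s, mem_inter.2 ⟨hs, ?_⟩⟩
          rcases h3 with rfl | rfl
          · exact mem_union_left _ hs
          · exact mem_union_right _ hs
        have n2 : x ∈ nLs i v := (mL x).2 ⟨h2, hnd⟩
        have n4 : ¬ (x ∈ dbL P i ∧ Disjoint (uc x) (Sv i v)) := fun h => hnd h.2
        rw [if_pos n2, if_neg n4, hc2]
        norm_num
      · rw [if_neg h3]
        push Not at h3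
        rw [zv_near_out H hir hκ D h2 h3]
        have h4 := D.share H hκ hu h2 h3
        have h5 : (uc x \ (uc y ∪ uc y')).card ≤ (uc x).card := card_le_card sdiff_subset
        have h6 := uc_card_cases H (x := x) (by omega)
        have hdj : (¬ Disjoint (uc x) (Sv i v)) ↔
            (uc x \ (uc y ∪ uc y')).card < (uc x).card := by
          rw [hSv]
          exact not_disj_iff
        generalize (uc x \ (uc y ∪ uc y')).card = m at h4 h5 hdj ⊢
        by_cases h7 : Disjoint (uc x) (Sv i v)
        · have n2 : x ∉ nLs i v := fun h => ((mL x).1 h).2 h7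
          rw [if_neg n2]
          have h8 : ¬ (m < (uc x).card) := fun h => (hdj.2 h) h7
          rcases h6 with h6 | h6
          · have n4 : ¬ (x ∈ dbL P i ∧ Disjoint (uc x) (Sv i v)) := fun h => by
              have := (mem_dbL.1 h.1).2; omega
            rw [if_neg n4, h6, if_neg (by omega), if_pos (by omega)]
            norm_num
          · have n4 : x ∈ dbL P i ∧ Disjoint (uc x) (Sv i v) := ⟨mem_dbL.2 ⟨h2, h6⟩, h7⟩
            rw [if_pos n4, h6, if_neg (by omega), if_neg (by omega)]
            norm_num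
        · have n2 : x ∈ nLs i v := (mL x).2 ⟨h2, h7⟩
          have n4 : ¬ (x ∈ dbL P i ∧ Disjoint (uc x) (Sv i v)) := fun h => h7 h.2
          have h8 := hdj.1 h7
          rw [if_pos n2, if_neg n4]
          rcases h6 with h6 | h6
          · rw [h6, if_pos (by omega)]
            norm_num
          · rw [h6, if_neg (by omega), if_pos (by omega)]
            norm_num

/-- the sum of the differences -/
theorem sum_dl (H : Gr P r) (hκ : Split (i + 2) κ) (D : ZD i κ v p p' y y')
    {psi : P → P} (hM : Mat P i ∅ psi) : ∑ x, dl i v p p' y y' x = env i v := by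
  classical
  have lp := D.lp H
  have hpp : p ≠ p' := fun h => D.ne (by rw [h])
  have hyy := D.nyy H hκ
  have hS4 : (Sv i v).card = 4 := by rw [D.sv H, D.four H hκ]
  unfold dl env
  simp only [sum_add_distrib]
  have s1 : ∑ x : P, (if x ∈ Sv i v then (-2 : ℤ) else 0) = -8 := by
    rw [sum_ite_mem, univ_inter, sum_const, hS4]
    norm_num
  have s2 : ∑ x : P, (if x ∈ nLs i v then (1 : ℤ) else 0) = (nLs i v).card := by
    rw [sum_ite_mem, univ_inter, sum_const]
    simp
  have s3 : ∑ x : P, (if x = y ∨ x = y' then (2 : ℤ) else 0) = 4 := by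
    have h : ∀ x : P, (x = y ∨ x = y') ↔ x ∈ ({y, y'} : Finset P) := by
      intro x
      rw [mem_insert, mem_singleton]
    simp only [h]
    rw [sum_ite_mem, univ_inter, sum_const, card_pair hyy]
    norm_num
  have s5 : ∑ x : P, (if x ∈ nUs i v then (1 : ℤ) else 0) = (nUs i v).card := by
    rw [sum_ite_mem, univ_inter, sum_const]
    simp
  have s7 : ∑ x : P, (if x = p ∨ x = p' then (-1 : ℤ) else 0) = -2 := by
    have h : ∀ x : P, (x = p ∨ x = p') ↔ x ∈ ({p, p'} : Finset P) := by
      intro x
      rw [mem_insert, mem_singleton]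
    simp only [h]
    rw [sum_ite_mem, univ_inter, sum_const, card_pair hpp]
    norm_num
  have s8 : ∑ x : P, (if x ∈ chs i v then (1 : ℤ) else 0) = (chs i v).card := by
    rw [sum_ite_mem, univ_inter, sum_const]
    simp
  have s46 : ∑ x : P, (if x ∈ dbL P i ∧ Disjoint (uc x) (Sv i v) then (-4 : ℤ) else 0) +
      ∑ x : P, (if x ∈ dbU P i ∧ Disjoint (dc x) (Sv i v) then (4 : ℤ) else 0) = 0 := by
    rw [← sum_filter, ← sum_filter, sum_const, sum_const]
    have h1 : (univ.filter (fun x : P => x ∈ dbL P i ∧ Disjoint (uc x) (Sv i v))).card =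
        (univ.filter (fun x : P => x ∈ dbU P i ∧ Disjoint (dc x) (Sv i v))).card := by
      refine card_bij (fun x _ => psi x) ?_ ?_ ?_
      · intro x hx
        rw [mem_filter] at hx ⊢
        obtain ⟨h1, h2⟩ := hM.low x hx.2.1 (notMem_empty x)
        exact ⟨mem_univ _, h1, by rw [h2]; exact hx.2.2⟩
      · intro x hx x' hx' h
        rw [mem_filter] at hx hx'
        have h1 := (hM.invol x (mem_union_left _ hx.2.1) (notMem_empty x)).1
        have h2 := (hM.invol x' (mem_union_left _ hx'.2.1) (notMem_empty x')).1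
        rw [← h1, ← h2, h]
      · intro x hx
        rw [mem_filter] at hx
        obtain ⟨h1, h2⟩ := hM.upp x hx.2.1 (notMem_empty x)
        refine ⟨psi x, ?_, (hM.invol x (mem_union_right _ hx.2.1) (notMem_empty x)).1⟩
        rw [mem_filter]
        exact ⟨mem_univ _, h1, by rw [h2]; exact hx.2.2⟩
    rw [h1]
    simp only [nsmul_eq_mul]
    ring
  rw [s1, s2, s3, s5, s7, s8]
  linarith [s46]

/-- THE ENVIRONMENT of a join of two pendants -/
theorem env_sum (H : Gr P r) (hir : i ≤ r) (hκ : Split (i + 2) κ) (D : ZD i κ v p p' y y')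
    {psi : P → P} (hM : Mat P i ∅ psi)
    (hu : ∀ w w' : P, lev w = i + 1 → lev w' = i + 1 → w ≠ w' → (uc w ∩ uc w').card ≤ 1) :
    ∑ x : P, PowerSeries.coeff (lv P i).card (dd ^ 2 * trm i (en {v, p, p', y, y'} x) : A) =
      ∑ x : P, PowerSeries.coeff (lv P i).card (trm i (en ∅ x) : A) + env i v := by
  rw [sum_congr rfl fun x _ => delta H hir hκ D hu x, sum_add_distrib, sum_dl H hκ D hM]

end Pool.Agent.GaussPoset.Win.So
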