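import Pool.Agent.W_448so_h63.EA
import Pool.Agent.W_448so_h64.SoV
import Pool.Agent.W_448wd_h84.WdK

/-!
S9 (row 476): the second order input `Wd.SO` for the windows `i + 3 ≤ j`.
-/

set_option autoImplicit false

namespace Pool.Agent.GaussPoset.Win

set_option linter.unusedSectionVars false

open Finset

universe u

variable {P : Type u} [Fintype P] [PartialOrder P] [DecidableEq P] {r i j : ℕ} {t : P}
  {lo hi : ℕ → ℕ} {x : ℕ → ℕ → P} {S : Finset P} {psi : P → P}

/-- the data of a natural component, energy five -/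
theorem pt_nat (h : GoodTo P r j) (C : Comp P t j lo hi x) (ht : lev t = 0) (hi1 : 1 ≤ i)
    (h3 : i + 2 ≤ j) (hS : ∀ y, lev y ≤ i + 2 → (y ∈ S ↔ y ≤ t)) (hP : Part (i + 1) S)
    (hM : Mat P i ∅ psi) : SO.PT r i psi S := by
  have K := cm5_of h C ht hi1 h3 hS hP
  refine ⟨K.ps5 hM, ?_, ?_⟩
  · obtain ⟨hc1, hc2⟩ := indiv_21 K.g i le_rfl t K.ht
    constructor
    · rintro ⟨p, hp, hpd⟩
      have hpt := (hS p (lev_PD hpd).1.le).1 hp
      have h1 : (PDt i t).Nonempty := ⟨p, mem_PDt.2 ⟨hpd, hpt⟩⟩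
      rw [← card_pos, hc2, card_pos] at h1
      obtain ⟨q, hq⟩ := h1
      obtain ⟨hq1, hqt⟩ := mem_PUt.1 hq
      have lq := lev_PU hq1
      exact ⟨q, (hS q (by omega)).2 hqt, hq1⟩
    · rintro ⟨p, hp, hpd⟩
      have lp := lev_PU hpd
      have hpt := (hS p (by omega)).1 hp
      have h1 : (PUt i t).Nonempty := ⟨p, mem_PUt.2 ⟨hpd, hpt⟩⟩
      rw [← card_pos, ← hc2, card_pos] at h1
      obtain ⟨q, hq⟩ := h1
      obtain ⟨hq1, hqt⟩ := mem_PDt.1 hq
      exact ⟨q, (hS q (lev_PD hq1).1.le).2 hqt, hq1⟩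
  · intro p hp p' hp' y u h1 h2 h3' h4
    by_cases hf : Flip lo hi i
    · right
      rw [C.card_st (by omega) (fun y hy => hS y (by omega))]
      have := hf.1
      omega
    · left
      have K6 := cm6_of h C ht hi1 h3 hS hP hf
      have l2 := lev_PU h2
      have hs := K6.fl p h1 ((hS p (lev_PD h1).1.le).1 hp) p' h2 ((hS p' (by omega)).1 hp')
      rw [ClE_sts K.g.H (lev_PD h1).1 h3', ClE_stD K.g.H l2.1 h4] at hs
      obtain ⟨hl, hc, w, hw, hw2⟩ := mem_PD.1 h1
      have hwy : w = y := by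
        rw [← mem_uc, h3', mem_singleton] at hw
        exact hw
      subst hwy
      have hlw := lev_cov K.g.H hw
      exact psi_eq_of K.g hM (by omega) hw2 hs.symm

/-- THE SECOND ORDER VALUE of a natural component at energy five -/
theorem be5_nat (h : GoodTo P r j) (C : Comp P t j lo hi x) (ht : lev t = 0) (hi1 : 1 ≤ i)
    (h3 : i + 2 ≤ j) (hS : ∀ y, lev y ≤ i + 2 → (y ∈ S ↔ y ≤ t)) (hP : Part (i + 1) S) :
    2 * I2.be 5 (st i S).card (ZS i S) =
      - ((SO.O5 i S).card : ℤ) - 2 * ((SO.F5 i S).card : ℤ) := by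
  obtain ⟨psi, hM⟩ := good_mat h.H (h.good i (by omega))
  have Q := pt_nat h C ht hi1 h3 hS hP hM
  have hc := C.card_st (i := i) (S := S) (by omega) (fun y hy => hS y (by omega))
  have hl := C.lohi i (by omega)
  exact Q.five (by omega)

/-- the flip at a window with three sites gives an element of `F5` -/
theorem F5_flip (h : GoodTo P r j) (C : Comp P t j lo hi x) (ht : lev t = 0) (hi1 : 1 ≤ i)
    (h3 : i + 2 ≤ j) (hS : ∀ y, lev y ≤ i + 2 → (y ∈ S ↔ y ≤ t)) (hf : Flip lo hi i) :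
    (SO.F5 i S).Nonempty := by
  obtain ⟨hb, hf⟩ := hf
  have hi2 : 2 ≤ i := by rcases hf with ⟨g, -⟩ | ⟨g, -⟩ <;> exact g.1
  obtain ⟨k, rfl⟩ : ∃ k, i = k + 2 := ⟨i - 2, by omega⟩
  have e0 := C.lohi k (by omega)
  have e2 := C.lohi (k + 2 + 2) (by omega)
  have i1 : k + 2 - 1 = k + 1 := by omega
  have i2 : k + 2 - 2 = k := by omega
  have n1 := C.inj (k + 2) (by omega) (lo (k + 2)) (lo (k + 2) + 1) (by omega) (by omega) (by omega)
  have n2 := C.inj (k + 2) (by omega) (lo (k + 2)) (lo (k + 2) + 2) (by omega) (by omega) (by omega)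
  have n3 := C.inj (k + 2) (by omega) (lo (k + 2) + 1) (lo (k + 2) + 2) (by omega) (by omega)
    (by omega)
  have hinter : ∀ {s s' : Finset P}, (s = {x (k + 2) (lo (k + 2)), x (k + 2) (lo (k + 2) + 1)} ∧
      s' = {x (k + 2) (lo (k + 2) + 1), x (k + 2) (lo (k + 2) + 2)}) ∨
      (s' = {x (k + 2) (lo (k + 2)), x (k + 2) (lo (k + 2) + 1)} ∧
      s = {x (k + 2) (lo (k + 2) + 1), x (k + 2) (lo (k + 2) + 2)}) → (s ∩ s').card = 1 := by
    intro s s' hs
    rw [card_eq_one]
    refine ⟨x (k + 2) (lo (k + 2) + 1), ?_⟩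
    rcases hs with ⟨rfl, rfl⟩ | ⟨rfl, rfl⟩
    · ext v
      simp only [mem_inter, mem_insert, mem_singleton]
      constructor
      · rintro ⟨h5 | h5, h6 | h6⟩
        · exact h6
        · rw [h5] at h6
          exact absurd h6 n2
        · exact h5
        · exact h5
      · rintro rfl
        exact ⟨Or.inr rfl, Or.inl rfl⟩
    · ext v
      simp only [mem_inter, mem_insert, mem_singleton]
      constructor
      · rintro ⟨h5 | h5, h6 | h6⟩
        · exact h5
        · exact h5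
        · rw [h5] at h6
          exact absurd h6.symm n2
        · exact h6
      · rintro rfl
        exact ⟨Or.inl rfl, Or.inr rfl⟩
  rcases hf with ⟨hu, hd⟩ | ⟨hu, hd⟩
  · -- left pendant above, right pendant below
    have m1 : x (k + 2 + 2) (hi (k + 2 + 2)) ∈ PD P (k + 2) :=
      (C.mem_PD_iff h ht (by omega) e2 le_rfl).2 (Or.inr ⟨rfl, hd⟩)
    have m2 : x k (lo k) ∈ PU P (k + 2) :=
      (C.mem_PU_iff h ht (by omega) le_rfl e0).2 (Or.inl ⟨rfl, hu⟩)
    have t1 := C.le_t (k + 2 + 2) (by omega) _ e2 le_rfl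
    have t2 := C.le_t k (by omega) _ le_rfl e0
    have l1 := lev_PD m1
    have l2 := lev_PU m2
    have s1 : sit (k + 2) (x k (lo k)) =
        {x (k + 2) (lo (k + 2)), x (k + 2) (lo (k + 2) + 1)} := by
      rw [sit_upp h.H (by omega)]
      obtain ⟨-, g | g⟩ := C.PU_cases h ht (by omega) m2 t2
      · exact g.2.2.2
      · exfalso
        obtain ⟨g1, g2, g3, g4⟩ := g
        have h5 := C.inj' (by omega) le_rfl e0 e0 le_rfl g3
        obtain ⟨-, a1, a2, a3⟩ := hu
        rw [i1, i2] at a1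
        rw [i1] at a2
        omega
    have s2 : sit (k + 2) (x (k + 2 + 2) (hi (k + 2 + 2))) =
        {x (k + 2) (lo (k + 2) + 1), x (k + 2) (lo (k + 2) + 2)} := by
      rw [sit_low h.H (by omega)]
      obtain ⟨-, g | g⟩ := C.PD_cases h ht (by omega) m1 t1
      · exfalso
        obtain ⟨g1, g2, g3, g4⟩ := g
        have h5 := C.inj' (by omega) e2 le_rfl le_rfl e2 g3
        obtain ⟨a1, a2, a3⟩ := hd
        omega
      · rw [g.2.2.2, hb]
        rfl
    have k1 := (hS (x (k + 2 + 2) (hi (k + 2 + 2))) (by omega)).2 t1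
    have k2 := (hS (x k (lo k)) (by omega)).2 t2
    exact ⟨(x (k + 2 + 2) (hi (k + 2 + 2)), x k (lo k)),
      SO.mem_F5.2 ⟨k1, m1, k2, m2, hinter (Or.inr ⟨s1, s2⟩)⟩⟩
  · -- right pendant above, left pendant below
    have m1 : x (k + 2 + 2) (lo (k + 2 + 2)) ∈ PD P (k + 2) :=
      (C.mem_PD_iff h ht (by omega) le_rfl e2).2 (Or.inl ⟨rfl, hd⟩)
    have m2 : x k (hi k) ∈ PU P (k + 2) :=
      (C.mem_PU_iff h ht (by omega) e0 le_rfl).2 (Or.inr ⟨rfl, hu⟩)
    have t1 := C.le_t (k + 2 + 2) (by omega) _ le_rfl e2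
    have t2 := C.le_t k (by omega) _ e0 le_rfl
    have l1 := lev_PD m1
    have l2 := lev_PU m2
    have s1 : sit (k + 2) (x (k + 2 + 2) (lo (k + 2 + 2))) =
        {x (k + 2) (lo (k + 2)), x (k + 2) (lo (k + 2) + 1)} := by
      rw [sit_low h.H (by omega)]
      obtain ⟨-, g | g⟩ := C.PD_cases h ht (by omega) m1 t1
      · exact g.2.2.2
      · exfalso
        obtain ⟨g1, g2, g3, g4⟩ := g
        have h5 := C.inj' (by omega) le_rfl e2 e2 le_rfl g3
        obtain ⟨a1, a2, a3⟩ := hd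
        omega
    have s2 : sit (k + 2) (x k (hi k)) =
        {x (k + 2) (lo (k + 2) + 1), x (k + 2) (lo (k + 2) + 2)} := by
      rw [sit_upp h.H (by omega)]
      obtain ⟨-, g | g⟩ := C.PU_cases h ht (by omega) m2 t2
      · exfalso
        obtain ⟨g1, g2, g3, g4⟩ := g
        have h5 := C.inj' (by omega) e0 le_rfl le_rfl e0 g3
        obtain ⟨-, a1, a2, a3⟩ := hu
        rw [i1, i2] at a1
        rw [i1] at a2
        omega
      · rw [g.2.2.2, hb]
        rfl
    have k1 := (hS (x (k + 2 + 2) (lo (k + 2 + 2))) (by omega)).2 t1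
    have k2 := (hS (x k (hi k)) (by omega)).2 t2
    exact ⟨(x (k + 2 + 2) (lo (k + 2 + 2)), x k (hi k)),
      SO.mem_F5.2 ⟨k1, m1, k2, m2, hinter (Or.inl ⟨s1, s2⟩)⟩⟩

/-- THE INPUT of the laws: second order coefficients of natural components -/
theorem SO_holds (P : Type u) [Fintype P] [PartialOrder P] [DecidableEq P] (r : ℕ) :
    Wd.SO P r where
  be5_le := by
    intro j i t lo hi e h C hi1 h3 hb
    have W := C.toWin
    have h1 := be5_nat h W t.2 hi1 (by omega)
      (fun y hy => (Wd.SS_ext h (show i ≤ j by omega) t).mem y (by omega))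
      (Wd.SS_part h (by omega) (by omega) t)
    omega
  be5_flip := by
    intro j i t lo hi e h C hi1 h3 hb hf
    have W := C.toWin
    have hS : ∀ y, lev y ≤ i + 2 → (y ∈ Wd.SS i t ↔ y ≤ (t : P)) :=
      fun y hy => (Wd.SS_ext h (show i ≤ j by omega) t).mem y (by omega)
    have h1 := be5_nat h W t.2 hi1 (by omega) hS (Wd.SS_part h (by omega) (by omega) t)
    have h2 := F5_flip h W t.2 hi1 (by omega) hS hf
    rw [← card_pos] at h2
    omega
  be6_le := by
    intro j i t lo hi e h C hi1 h3 hb hf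
    have W := C.toWin
    have h1 := be6_nat h W t.2 hi1 h3
      (fun y hy => (Wd.SS_ext h (show i ≤ j by omega) t).mem y (by omega))
      (Wd.SS_part h (by omega) (by omega) t) hf
    have h2 := sq_nonneg ((Wd.flw lo hi i : ℤ) - Wd.fuw lo hi i)
    omega
  be6_al := by
    intro j i t lo hi e h C hi1 h3 hb hf hne
    have W := C.toWin
    have h1 := be6_nat h W t.2 hi1 h3
      (fun y hy => (Wd.SS_ext h (show i ≤ j by omega) t).mem y (by omega))
      (Wd.SS_part h (by omega) (by omega) t) hf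
    have h2 : 0 < ((Wd.flw lo hi i : ℤ) - Wd.fuw lo hi i) ^ 2 := by
      apply sq_pos_of_ne_zero
      intro h3
      apply hne
      omega
    omega
  be6_cco := by
    intro j i t lo hi e h C hi1 h3 hb hlt hc hf
    have W := C.toWin
    have hS : ∀ y, lev y ≤ i + 3 → (y ∈ Wd.SS i t ↔ y ≤ (t : P)) :=
      fun y hy => (Wd.SS_ext h (show i ≤ j by omega) t).mem y (by omega)
    have h1 := be6_nat h W t.2 hi1 h3 hS (Wd.SS_part h (by omega) (by omega) t) hf
    have h2 := N1f_cco h W t.2 h3 hS hb hc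
    rw [← card_pos] at h2
    have h4 := sq_nonneg ((Wd.flw lo hi i : ℤ) - Wd.fuw lo hi i)
    omega

end Pool.Agent.GaussPoset.Win
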