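import Pool.Agent.W_448so_h63.FJ
import Pool.Agent.W_448so_h63.EB
import Pool.Agent.W_448so_h39.FI
import Pool.Agent.W_448so_h64.SoW

/-!
S9 with Z2 (MP_448cb3_co): the window `i` when the level `i + 2` is known (joins on the level `i + 3`):
the number of joins of two pendants is the number of flips.
-/

set_option autoImplicit false

namespace Pool.Agent.GaussPoset.Win.So

set_option linter.unusedSectionVars false

open Finset I2

universe u

variable {P : Type u} [Fintype P] [PartialOrder P] [DecidableEq P] {r i j : ℕ}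

variable {ι : Type*} [DecidableEq ι] {κ : P → ι}

/-- two elements of the near level have at most one common upper cover -/
lemma hu_of (h : GoodTo P r (i + 1)) : ∀ w w' : P, lev w = i + 1 → lev w' = i + 1 → w ≠ w' →
    (uc w ∩ uc w').card ≤ 1 := by
  intro w w' hw hw' hne
  rw [card_uc_inter]
  exact ucv_le_one h (by omega) hne (by omega)

/-- TOTAL (5,2) from the profiles up to the energy five -/
theorem tot_five_P (H : Gr P r) (hi : 1 ≤ i) (hi2 : i + 1 ≤ r) (hg : Good P i)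
    (hκ : Split (i + 2) κ) (hb : 1 ≤ (lv P i).card)
    (hP : ∀ a ∈ univ.image κ, Prof 3 5 (bb i (i + 2) κ a) (VV i (i + 2) κ a)) :
    ∑ a ∈ univ.image κ, be 5 (bb i (i + 2) κ a) (VV i (i + 2) κ a) = -((Z2s i κ).card : ℤ) := by
  obtain ⟨-, -, -, h4⟩ := prod_all (univ.image κ) (e := 3) (m := 5) (by omega) (by omega)
    (by omega) (bb i (i + 2) κ) (VV i (i + 2) κ) hP (fun a _ => eps_sq H (by omega) a)
  have h5 := cf5_prod H hi hi2 hg hκ hb
  rw [cf_five] at h5
  rw [sum_bb hκ, eps_prod H (by omega) hκ, h5] at h4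
  simp only [show (5 : ℕ) ≠ 2 * 3 from by norm_num, if_false, eps_VV H (show i ≤ r by omega),
    one_mul, mul_zero, sub_zero, zero_sub] at h4
  rw [Finset.sum_neg_distrib, ← Finset.mul_sum] at h4
  linarith

/-- THE NUMBER OF JOINS of two pendants, when the level `i + 2` is natural -/
theorem Z2_count (h : GoodTo P r (i + 2)) (hi1 : 1 ≤ i) :
    2 * ((Z2s i (topOf : P → Tops P)).card : ℤ) = ∑ t ∈ univ.image (topOf : P → Tops P),
      (((SO.O5 i (Wd.SS i t)).card : ℤ) + 2 * ((SO.F5 i (Wd.SS i t)).card : ℤ)) := by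
  classical
  have H := h.H
  have hr := h.hr
  rcases isEmpty_or_nonempty P with hPe | ⟨⟨v0⟩⟩
  · have h1 : Z2s i (topOf : P → Tops P) = ∅ := eq_empty_iff_forall_notMem.2 fun v _ => hPe.false v
    have h2 : (univ.image (topOf : P → Tops P)) = ∅ := by
      rw [image_eq_empty]
      exact univ_eq_empty
    rw [h1, h2]
    simp
  have hb : 1 ≤ (lv P i).card := by
    obtain ⟨lo, hi, e, C⟩ := Cp.comp_exists h.H (topOf v0).2 h.hr h.good
    have C' := C.toWin
    have f1 := C'.lohi i (by omega)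
    exact card_pos.2 ⟨e i (lo i), mem_lv.2 (C'.lev_x i (by omega) (lo i) le_rfl f1)⟩
  have hκ : Split (i + 2) (topOf : P → Tops P) := Wd.split_gt h
  have key : ∀ t : Tops P, Prof 3 5 (st i (Wd.SS i t)).card (ZS i (Wd.SS i t)) ∧
      2 * be 5 (st i (Wd.SS i t)).card (ZS i (Wd.SS i t)) =
      - ((SO.O5 i (Wd.SS i t)).card : ℤ) - 2 * ((SO.F5 i (Wd.SS i t)).card : ℤ) := by
    intro t
    obtain ⟨lo, hi, e, C⟩ := Cp.comp_exists h.H t.2 h.hr h.good
    obtain ⟨psi, hM⟩ := good_mat H (h.good i (by omega))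
    have hS : ∀ y, lev y ≤ i + 2 → (y ∈ Wd.SS i t ↔ y ≤ (t : P)) :=
      fun y hy => (Wd.SS_ext h (by omega) t).mem y hy
    have hPt := Wd.SS_part h (k := i + 1) (show i ≤ i + 2 by omega) (by omega) t
    exact ⟨(pt_nat h C.toWin t.2 hi1 le_rfl hS hPt hM).prof5,
      be5_nat h C.toWin t.2 hi1 le_rfl hS hPt⟩
  have h1 := tot_five_P H hi1 (by omega) (h.good i (by omega)) hκ hb (fun a _ => by
    rw [Wd.bb_eq h (by omega), Wd.VV_eq h (by omega)]
    exact (key a).1)
  have h2 : 2 * ∑ a ∈ univ.image (topOf : P → Tops P), be 5 (bb i (i + 2) topOf a)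
      (VV i (i + 2) topOf a) = ∑ t ∈ univ.image (topOf : P → Tops P),
      (- ((SO.O5 i (Wd.SS i t)).card : ℤ) - 2 * ((SO.F5 i (Wd.SS i t)).card : ℤ)) := by
    rw [mul_sum]
    refine sum_congr rfl fun a _ => ?_
    rw [Wd.bb_eq h (by omega), Wd.VV_eq h (by omega)]
    exact (key a).2
  rw [h1] at h2
  have h3 : ∑ t ∈ univ.image (topOf : P → Tops P),
      (((SO.O5 i (Wd.SS i t)).card : ℤ) + 2 * ((SO.F5 i (Wd.SS i t)).card : ℤ)) =
      -∑ t ∈ univ.image (topOf : P → Tops P),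
      (- ((SO.O5 i (Wd.SS i t)).card : ℤ) - 2 * ((SO.F5 i (Wd.SS i t)).card : ℤ)) := by
    rw [← sum_neg_distrib]
    refine sum_congr rfl fun a _ => ?_
    ring
  rw [h3, ← h2]
  ring

/-- no closed pairs on a natural level -/
lemma O5_empty (h : GoodTo P r (i + 2)) (t : Tops P) : SO.O5 i (Wd.SS i t) = ∅ := by
  classical
  rw [eq_empty_iff_forall_notMem]
  rintro ⟨w, w'⟩ hq
  rw [SO.mem_O5] at hq
  obtain ⟨h1, h2, h3, h4⟩ := hq
  simp only at h1 h2 h3 h4
  obtain ⟨h5, h6, h7⟩ := mem_ZL.1 h1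
  obtain ⟨h5', h6', h7'⟩ := mem_ZL.1 h2
  have h8 := ucv_le_one h (v := w) (v' := w') (by omega) h3 (by omega)
  rw [← card_uc_inter, ← h4, inter_self] at h8
  have h9 := (up_le_four h.H h6).1
  omega

/-- flips of a natural component are flips of the window -/
lemma F5_empty (h : GoodTo P r (i + 2)) (hi1 : 1 ≤ i) (t : Tops P) {lo hi : ℕ → ℕ}
    {x : ℕ → ℕ → P} (C : Comp P (t : P) (i + 2) lo hi x) (hf : ¬ Flip lo hi i) :
    SO.F5 i (Wd.SS i t) = ∅ := by
  classical
  rw [eq_empty_iff_forall_notMem]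
  rintro ⟨p, p'⟩ hq
  rw [SO.mem_F5] at hq
  obtain ⟨h1, h2, h3, h4, h5⟩ := hq
  simp only at h1 h2 h3 h4 h5
  have hS : ∀ y, lev y ≤ i + 2 → (y ∈ Wd.SS i t ↔ y ≤ (t : P)) :=
    fun y hy => (Wd.SS_ext h (by omega) t).mem y hy
  have hPt := Wd.SS_part h (k := i + 1) (show i ≤ i + 2 by omega) (by omega) t
  have K := cm6_of h C t.2 hi1 le_rfl hS hPt hf
  have l1 := (lev_PD h2).1
  have l2 := lev_PU h4
  have h6 := K.fl p h2 ((hS p (by omega)).1 h1) p' h4 ((hS p' (by omega)).1 h3)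
  rw [sit_low h.H (by omega), sit_upp h.H (by omega), ← h6, inter_self, card_sts_PD h.H h2] at h5
  omega

/-- without flips there are no joins of two pendants -/
theorem Z2_empty (h : GoodTo P r (i + 2)) (hi1 : 1 ≤ i)
    (hf : ∀ t : Tops P, ∃ (lo hi : ℕ → ℕ) (x : ℕ → ℕ → P), Comp P (t : P) (i + 2) lo hi x ∧
      ¬ Flip lo hi i) : Z2s i (topOf : P → Tops P) = ∅ := by
  have h1 := Z2_count h hi1
  rw [sum_eq_zero (fun t _ => ?_)] at h1
  · rw [← card_eq_zero]
    omega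
  · obtain ⟨lo, hi, x, C, hfl⟩ := hf t
    rw [O5_empty h t, F5_empty h hi1 t C hfl]
    simp

end Pool.Agent.GaussPoset.Win.So
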