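import Pool.Agent.W_448so_h63.GC
import Pool.Agent.W_448kk_h94.KkD

/-!
The identity (6,4) at the window j (MP_448cb3_co, case B): the inequality for a configuration on a
component whose unmatched near elements form a star.
-/

namespace Pool.Agent.GaussPoset.Win.K2

set_option linter.unusedSectionVars false

open Finset I2

universe u

variable {P : Type u} [Fintype P] [PartialOrder P] [DecidableEq P] {r i : ℕ} {e : P → ℕ}

/-- the elements of `K` in the part `C` form a star -/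
structure Star (i : ℕ) (C K : Finset P) : Prop where
  two : ∀ k ∈ K, k ∈ C → ∀ k' ∈ K, k' ∈ C → k ≠ k' → ∃ x, x ∈ ns i k ∧ x ∈ ns i k'
  three : ∀ k ∈ K, k ∈ C → ∀ k' ∈ K, k' ∈ C → ∀ k'' ∈ K, k'' ∈ C → k ≠ k' → k ≠ k'' → k' ≠ k'' →
    ∀ x, x ∈ ns i k → x ∈ ns i k' → x ∈ ns i k'' →
    ns i k = ns i k' ∨ ns i k = ns i k'' ∨ ns i k' = ns i k''

/-- the bad elements -/
noncomputable def bN (i : ℕ) (e : P → ℕ) : Finset P := bL i e ∪ bU i e

section bad

variable (H : Gr P r) (hir : i ≤ r) (hq : NoQ P (i + 2)) (hg : ∀ m, m + 1 = i → Good P m)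
include H hir hq hg

lemma bL_data {y : P} (hy : y ∈ bL i e) : lev y = i + 1 ∧ (uc y).card = 2 ∧ e y = 1 ∧
    ns i y = uc y ∧ (∃ a ∈ ns i y, e a = 0) ∧ ∀ a ∈ ns i y, e a = 0 → kr dc e a = {y} := by
  have S := side_low (i := i) H hq
  unfold bL at hy
  rw [mem_bd, mem_lS] at hy
  obtain ⟨hyS, ty, ey, ⟨a, ha, hlt⟩, cy⟩ := hy
  obtain ⟨c1, c3⟩ := cc_eq_two S cy
  have hl : lev y = i + 1 := by omega
  have hn : ns i y = uc y := by unfold ns; rw [if_pos hl]
  refine ⟨hl, c1, ey, hn, ⟨a, by rw [hn]; exact ha, by omega⟩, ?_⟩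
  intro b hb hb0
  rw [hn] at hb
  have h1 := c3 b hb (by omega)
  rw [Finset.card_eq_one] at h1
  obtain ⟨w, hw⟩ := h1
  have h2 : y ∈ kr dc e b := mem_kr.2 ⟨mem_dc.2 (mem_uc.1 hb), by omega⟩
  rw [hw, mem_singleton] at h2
  rw [hw, h2]

lemma bU_data {y : P} (hy : y ∈ bU i e) : lev y + 1 = i ∧ (dc y).card = 2 ∧ e y = 1 ∧
    ns i y = dc y ∧ (∃ a ∈ ns i y, e a = 0) ∧ ∀ a ∈ ns i y, e a = 0 → kr uc e a = {y} := by
  have S := side_up (i := i) H hir hg
  unfold bU at hy
  rw [mem_bd, mem_uS] at hy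
  obtain ⟨hyS, ty, ey, ⟨a, ha, hlt⟩, cy⟩ := hy
  obtain ⟨c1, c3⟩ := cc_eq_two S cy
  have hl : lev y + 1 = i := by omega
  have hn : ns i y = dc y := by unfold ns; rw [if_neg (by omega)]
  refine ⟨hl, c1, ey, hn, ⟨a, by rw [hn]; exact ha, by omega⟩, ?_⟩
  intro b hb hb0
  rw [hn] at hb
  have h1 := c3 b hb (by omega)
  rw [Finset.card_eq_one] at h1
  obtain ⟨w, hw⟩ := h1
  have h2 : y ∈ kr uc e b := mem_kr.2 ⟨mem_uc.2 (mem_dc.1 hb), by omega⟩
  rw [hw, mem_singleton] at h2
  rw [hw, h2]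

lemma bN_data {y : P} (hy : y ∈ bN i e) : (ns i y).card = 2 ∧ e y = 1 ∧
    (∃ a ∈ ns i y, e a = 0) ∧ ∀ a ∈ ns i y, lev a = i := by
  unfold bN at hy
  rcases mem_union.1 hy with h | h
  · obtain ⟨h1, h2, h3, h4, h5, -⟩ := bL_data H hir hq hg h
    refine ⟨by rw [h4]; exact h2, h3, h5, ?_⟩
    intro a ha
    rw [h4] at ha
    have := lev_uc H ha
    omega
  · obtain ⟨h1, h2, h3, h4, h5, -⟩ := bU_data H hir hq hg h
    refine ⟨by rw [h4]; exact h2, h3, h5, ?_⟩
    intro a ha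
    rw [h4] at ha
    have := lev_dc H ha
    omega

/-- two bad elements have no common site with label zero -/
lemma bad_disj (hd : Disjoint (AL i e) (AU i e)) {k k' a : P} (hk : k ∈ bN i e)
    (hk' : k' ∈ bN i e) (hne : k ≠ k') (ha : a ∈ ns i k) (ha' : a ∈ ns i k') : e a ≠ 0 := by
  intro h0
  have key : ∀ {y w : P}, y ∈ bL i e → w ∈ bU i e → a ∈ ns i y → a ∈ ns i w → False := by
    intro y w hy hw h1 h2
    obtain ⟨l1, -, e1, n1, -, -⟩ := bL_data H hir hq hg hy
    obtain ⟨l2, -, e2, n2, -, -⟩ := bU_data H hir hq hg hw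
    rw [n1] at h1
    rw [n2] at h2
    have l3 := lev_uc H h1
    have h4 : a ∈ AL i e := by
      rw [NormD_mem_AL]
      exact ⟨by omega, y, mem_uc.1 h1, by omega⟩
    have h5 : a ∈ AU i e := by
      rw [NormD_mem_AU]
      exact ⟨by omega, w, mem_dc.1 h2, by omega⟩
    exact disjoint_left.1 hd h4 h5
  unfold bN at hk hk'
  rcases mem_union.1 hk with h | h <;> rcases mem_union.1 hk' with h' | h'
  · have h1 := (bL_data H hir hq hg h).2.2.2.2.2 a ha h0
    have h2 := (bL_data H hir hq hg h').2.2.2.2.2 a ha' h0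
    rw [h1] at h2
    exact hne (Finset.singleton_injective h2)
  · exact key h h' ha ha'
  · exact key h' h ha' ha
  · have h1 := (bU_data H hir hq hg h).2.2.2.2.2 a ha h0
    have h2 := (bU_data H hir hq hg h').2.2.2.2.2 a ha' h0
    rw [h1] at h2
    exact hne (Finset.singleton_injective h2)

lemma bad_ns_ne (hd : Disjoint (AL i e) (AU i e)) {k k' : P} (hk : k ∈ bN i e)
    (hk' : k' ∈ bN i e) (hne : k ≠ k') : ns i k ≠ ns i k' := by
  intro h
  obtain ⟨-, -, ⟨a, ha, h0⟩, -⟩ := bN_data H hir hq hg hk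
  exact bad_disj H hir hq hg hd hk hk' hne ha (by rw [← h]; exact ha) h0

/-- the sites of a bad element with a labelled site -/
lemma bad_two {k x : P} (hk : k ∈ bN i e) (hx : x ∈ ns i k) (h1 : 1 ≤ e x) :
    ∃ a ∈ ns i k, e a = 0 ∧ ∀ t ∈ ns i k, t = x ∨ t = a := by
  obtain ⟨h2, -, ⟨a, ha, h0⟩, -⟩ := bN_data H hir hq hg hk
  refine ⟨a, ha, h0, ?_⟩
  intro t ht
  by_contra h
  push_neg at h
  have h3 : ({x, a, t} : Finset P) ⊆ ns i k := by
    intro s hs
    rw [mem_insert, mem_insert, mem_singleton] at hs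
    rcases hs with rfl | rfl | rfl <;> assumption
  have h4 := card_le_card h3
  have hxa : x ≠ a := by
    rintro rfl
    omega
  rw [card_insert_of_notMem, card_pair (fun h5 => h.2 h5.symm)] at h4
  · omega
  · rw [mem_insert, mem_singleton]
    rintro (h5 | h5)
    · exact hxa h5
    · exact h.1 h5.symm

end bad

section star

variable {K C : Finset P} {psi : P → P}

/-- the count of the bad elements of a star and of the full sites -/
theorem star_bound (H : Gr P r) (hir : i ≤ r) (hq : NoQ P (i + 2))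
    (hg : ∀ m, m + 1 = i → Good P m) (hM : Mat P i K psi) (hK : Star i C K) (hs : Spt C e)
    (hd : Disjoint (AL i e) (AU i e)) {XL XU : Finset P}
    (hXL : ∀ x ∈ XL, lev x = i ∧ 1 ≤ e x ∧ (∃ y, y ∈ dc x) ∧
        ∀ y ∈ dc x, y ∈ bL i e ∧ ∃ z ∈ dc y, 1 ≤ e z)
    (hXU : ∀ x ∈ XU, lev x = i ∧ 1 ≤ e x ∧ (∃ y, y ∈ uc x) ∧
        ∀ y ∈ uc x, y ∈ bU i e ∧ ∃ z ∈ uc y, 1 ≤ e z) :
    (KB i K e).card + XL.card + XU.card ≤ ∑ x ∈ lv P i, e x + 1 := by
  classical
  have hC : ∀ y, y ∈ bN i e → y ∈ C := by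
    intro y hy
    by_contra h
    have h1 := hs y h
    have h2 := (bN_data H hir hq hg hy).2.1
    omega
  have hKB : ∀ k ∈ KB i K e, k ∈ K ∧ k ∈ C ∧ k ∈ bN i e := by
    intro k hk
    rw [mem_KB] at hk
    have h1 : k ∈ bN i e := by
      unfold bN
      rcases hk.2 with h | h
      · exact mem_union_left _ h.1
      · exact mem_union_right _ h.1
    exact ⟨hk.1, hC k h1, h1⟩
  -- elements of `KB` are not next to full sites of their side
  have P1 : ∀ x ∈ XL, ∀ k ∈ KB i K e, x ∈ ns i k → k ∈ bU i e ∧ k ∈ uc x := by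
    intro x hx k hk hxk
    obtain ⟨l1, -, -, hx2⟩ := hXL x hx
    rw [mem_KB] at hk
    rcases hk.2 with ⟨h, h0⟩ | ⟨h, h0⟩
    · obtain ⟨k1, -, -, k4, -, -⟩ := bL_data H hir hq hg h
      rw [k4] at hxk
      obtain ⟨z, hz, hz1⟩ := (hx2 k (mem_dc.2 (mem_uc.1 hxk))).2
      have := h0 z hz
      omega
    · obtain ⟨k1, -, -, k4, -, -⟩ := bU_data H hir hq hg h
      rw [k4] at hxk
      exact ⟨h, mem_uc.2 (mem_dc.1 hxk)⟩
  have P2 : ∀ x ∈ XU, ∀ k ∈ KB i K e, x ∈ ns i k → k ∈ bL i e ∧ k ∈ dc x := by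
    intro x hx k hk hxk
    obtain ⟨l1, -, -, hx2⟩ := hXU x hx
    rw [mem_KB] at hk
    rcases hk.2 with ⟨h, h0⟩ | ⟨h, h0⟩
    · obtain ⟨k1, -, -, k4, -, -⟩ := bL_data H hir hq hg h
      rw [k4] at hxk
      exact ⟨h, mem_dc.2 (mem_uc.1 hxk)⟩
    · obtain ⟨k1, -, -, k4, -, -⟩ := bU_data H hir hq hg h
      rw [k4] at hxk
      obtain ⟨z, hz, hz1⟩ := (hx2 k (mem_uc.2 (mem_dc.1 hxk))).2
      have := h0 z hz
      omega
  -- the partner of a matched element
  have Q1 : ∀ y ∈ bL i e, y ∉ K → ∀ x ∈ ns i y, psi y ∈ uc x ∧ psi y ∉ K ∧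
      ns i (psi y) = ns i y := by
    intro y hy hyK x hx
    obtain ⟨k1, k2, -, k4, -, -⟩ := bL_data H hir hq hg hy
    obtain ⟨p1, p2, -, p4⟩ := psi_low hM (mem_dbL'.2 ⟨k1, k2⟩) hyK
    have hl := mem_dbU'.1 p1
    rw [k4] at hx
    refine ⟨?_, p4, ?_⟩
    · rw [mem_uc, ← mem_dc, p2]
      exact hx
    · rw [k4, ← p2]
      unfold ns
      rw [if_neg (by omega)]
  have Q2 : ∀ y ∈ bU i e, y ∉ K → ∀ x ∈ ns i y, psi y ∈ dc x ∧ psi y ∉ K ∧
      ns i (psi y) = ns i y := by
    intro y hy hyK x hx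
    obtain ⟨k1, k2, -, k4, -, -⟩ := bU_data H hir hq hg hy
    obtain ⟨p1, p2, -, p4⟩ := psi_up hM (mem_dbU'.2 ⟨k1, k2⟩) hyK
    have hl := mem_dbL'.1 p1
    rw [k4] at hx
    refine ⟨?_, p4, ?_⟩
    · rw [mem_dc, ← mem_uc, p2]
      exact hx
    · rw [k4, ← p2]
      unfold ns
      rw [if_pos (by omega)]
  have bLN : ∀ y ∈ bL i e, y ∈ bN i e := fun y hy => mem_union_left _ hy
  have bUN : ∀ y ∈ bU i e, y ∈ bN i e := fun y hy => mem_union_right _ hy
  -- a labelled common site of two elements of `KB` is not full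
  have R1 : ∀ k ∈ KB i K e, ∀ k' ∈ KB i K e, k ≠ k' → ∀ q, q ∈ ns i k → q ∈ ns i k' →
      q ∉ XL := by
    intro k hk k' hk' hne q hqk hqk' hqX
    obtain ⟨u1, u2⟩ := P1 q hqX k hk hqk
    obtain ⟨u1', u2'⟩ := P1 q hqX k' hk' hqk'
    obtain ⟨lq, -, ⟨y, hy⟩, hyq⟩ := hXL q hqX
    have hyb := (hyq y hy).1
    obtain ⟨y1, y2, -, y4, -, -⟩ := bL_data H hir hq hg hyb
    have hqy : q ∈ ns i y := by
      rw [y4]
      exact mem_uc.2 (mem_dc.1 hy)
    have hluk := (bU_data H hir hq hg u1).1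
    have hluk' := (bU_data H hir hq hg u1').1
    have hyK : y ∈ K := by
      by_contra hyK
      obtain ⟨q1, q2, q3⟩ := Q1 y hyb hyK q hqy
      have h2 : ({k, k', psi y} : Finset P) ⊆ uc q := by
        intro s hs
        rw [mem_insert, mem_insert, mem_singleton] at hs
        rcases hs with rfl | rfl | rfl <;> assumption
      have h3 := card_le_card h2
      have h4 := uc_card_le H q
      rw [card_insert_of_notMem, card_pair] at h3
      · omega
      · rintro rfl
        exact q2 (hKB _ hk').1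
      · rw [mem_insert, mem_singleton]
        rintro (h5 | h5)
        · exact hne h5
        · rw [← h5] at q2
          exact q2 (hKB _ hk).1
    have hyk : y ≠ k := by rintro rfl; omega
    have hyk' : y ≠ k' := by rintro rfl; omega
    rcases hK.three y hyK (hC y (bLN y hyb)) k (hKB k hk).1 (hKB k hk).2.1 k' (hKB k' hk').1
      (hKB k' hk').2.1 hyk hyk' hne q hqy hqk hqk' with h | h | h
    · exact bad_ns_ne H hir hq hg hd (bLN y hyb) (hKB k hk).2.2 hyk h
    · exact bad_ns_ne H hir hq hg hd (bLN y hyb) (hKB k' hk').2.2 hyk' h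
    · exact bad_ns_ne H hir hq hg hd (hKB k hk).2.2 (hKB k' hk').2.2 hne h
  have R2 : ∀ k ∈ KB i K e, ∀ k' ∈ KB i K e, k ≠ k' → ∀ q, q ∈ ns i k → q ∈ ns i k' →
      q ∉ XU := by
    intro k hk k' hk' hne q hqk hqk' hqX
    obtain ⟨u1, u2⟩ := P2 q hqX k hk hqk
    obtain ⟨u1', u2'⟩ := P2 q hqX k' hk' hqk'
    obtain ⟨lq, -, ⟨y, hy⟩, hyq⟩ := hXU q hqX
    have hyb := (hyq y hy).1
    obtain ⟨y1, y2, -, y4, -, -⟩ := bU_data H hir hq hg hyb
    have hqy : q ∈ ns i y := by
      rw [y4]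
      exact mem_dc.2 (mem_uc.1 hy)
    have hluk := (bL_data H hir hq hg u1).1
    have hluk' := (bL_data H hir hq hg u1').1
    have hyK : y ∈ K := by
      by_contra hyK
      obtain ⟨q1, q2, q3⟩ := Q2 y hyb hyK q hqy
      have h2 : ({k, k', psi y} : Finset P) ⊆ dc q := by
        intro s hs
        rw [mem_insert, mem_insert, mem_singleton] at hs
        rcases hs with rfl | rfl | rfl <;> assumption
      have h3 := card_le_card h2
      have h4 := dc_card_le H q
      rw [card_insert_of_notMem, card_pair] at h3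
      · omega
      · rintro rfl
        exact q2 (hKB _ hk').1
      · rw [mem_insert, mem_singleton]
        rintro (h5 | h5)
        · exact hne h5
        · rw [← h5] at q2
          exact q2 (hKB _ hk).1
    have hyk : y ≠ k := by rintro rfl; omega
    have hyk' : y ≠ k' := by rintro rfl; omega
    rcases hK.three y hyK (hC y (bUN y hyb)) k (hKB k hk).1 (hKB k hk).2.1 k' (hKB k' hk').1
      (hKB k' hk').2.1 hyk hyk' hne q hqy hqk hqk' with h | h | h
    · exact bad_ns_ne H hir hq hg hd (bUN y hyb) (hKB k hk).2.2 hyk h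
    · exact bad_ns_ne H hir hq hg hd (bUN y hyb) (hKB k' hk').2.2 hyk' h
    · exact bad_ns_ne H hir hq hg hd (hKB k hk).2.2 (hKB k' hk').2.2 hne h
  -- at most two elements of `KB`
  have T3 : (KB i K e).card ≤ 2 := by
    by_contra hc
    obtain ⟨k, k', k'', hk, hk', hk'', h1, h2, h3⟩ := Finset.two_lt_card_iff.1
      (show 2 < (KB i K e).card by omega)
    obtain ⟨a1, a2, a3⟩ := hKB k hk
    obtain ⟨b1, b2, b3⟩ := hKB k' hk'
    obtain ⟨c1, c2, c3⟩ := hKB k'' hk''
    obtain ⟨q, q1, q2⟩ := hK.two k a1 a2 k' b1 b2 h1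
    obtain ⟨q', q1', q2'⟩ := hK.two k a1 a2 k'' c1 c2 h2
    have e1 := bad_disj H hir hq hg hd a3 b3 h1 q1 q2
    have e2 := bad_disj H hir hq hg hd a3 c3 h2 q1' q2'
    obtain ⟨a, ha, ha0, hall⟩ := bad_two H hir hq hg a3 q1 (by omega)
    have hqq : q' = q := by
      rcases hall q' q1' with h | h
      · exact h
      · rw [h] at e2
        exact absurd ha0 e2
    rw [hqq] at q2'
    rcases hK.three k a1 a2 k' b1 b2 k'' c1 c2 h1 h2 h3 q q1 q2 q2' with h | h | h
    · exact bad_ns_ne H hir hq hg hd a3 b3 h1 h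
    · exact bad_ns_ne H hir hq hg hd a3 c3 h2 h
    · exact bad_ns_ne H hir hq hg hd b3 c3 h3 h
  -- sets of labelled sites
  have hsum : ∀ S : Finset P, (∀ x ∈ S, lev x = i ∧ 1 ≤ e x) → S.card ≤ ∑ x ∈ lv P i, e x := by
    intro S hS
    rw [Finset.card_eq_sum_ones]
    refine le_trans (Finset.sum_le_sum (g := fun x => e x) fun x hx => (hS x hx).2) ?_
    exact Finset.sum_le_sum_of_subset fun x hx => mem_lv.2 (hS x hx).1
  have hUn : ∀ x ∈ XL ∪ XU, lev x = i ∧ 1 ≤ e x := by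
    intro x hx
    rcases mem_union.1 hx with h | h
    · exact ⟨(hXL x h).1, (hXL x h).2.1⟩
    · exact ⟨(hXU x h).1, (hXU x h).2.1⟩
  have hcu := Finset.card_union_add_card_inter XL XU
  by_cases hY : XL ∩ XU = ∅
  · rw [hY, card_empty] at hcu
    rcases Nat.lt_or_ge (KB i K e).card 2 with h2 | h2
    · have := hsum _ hUn
      omega
    · obtain ⟨k, hk, k', hk', hne⟩ := Finset.one_lt_card.1 (by omega : 1 < (KB i K e).card)
      obtain ⟨a1, a2, a3⟩ := hKB k hk
      obtain ⟨b1, b2, b3⟩ := hKB k' hk'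
      obtain ⟨q, q1, q2⟩ := hK.two k a1 a2 k' b1 b2 hne
      have e1 := bad_disj H hir hq hg hd a3 b3 hne q1 q2
      have hq' : q ∉ XL ∪ XU := by
        rw [mem_union]
        rintro (h | h)
        · exact R1 k hk k' hk' hne q q1 q2 h
        · exact R2 k hk k' hk' hne q q1 q2 h
      have h3 := hsum (insert q (XL ∪ XU)) (by
        intro x hx
        rcases mem_insert.1 hx with rfl | h
        · exact ⟨(bN_data H hir hq hg a3).2.2.2 x q1, by omega⟩
        · exact hUn x h)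
      rw [card_insert_of_notMem hq'] at h3
      omega
  · -- doubly full sites
    have hYx : ∀ x ∈ XL ∩ XU, ∃ y w a b, y ∈ K ∧ y ∈ bN i e ∧ w ∈ K ∧ w ∈ bN i e ∧ y ≠ w ∧
        x ∈ ns i y ∧ x ∈ ns i w ∧ a ∈ ns i y ∧ b ∈ ns i w ∧ e a = 0 ∧ e b = 0 ∧ a ≠ b ∧
        (∀ t ∈ ns i y, t = x ∨ t = a) ∧ (∀ t ∈ ns i w, t = x ∨ t = b) := by
      intro x hx
      rw [mem_inter] at hx
      obtain ⟨l1, x1, ⟨y, hy⟩, hxL⟩ := hXL x hx.1
      obtain ⟨-, -, ⟨w, hw⟩, hxU⟩ := hXU x hx.2
      have hyb := (hxL y hy).1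
      have hwb := (hxU w hw).1
      obtain ⟨y1, -, -, y4, -, -⟩ := bL_data H hir hq hg hyb
      obtain ⟨w1, -, -, w4, -, -⟩ := bU_data H hir hq hg hwb
      have hxy : x ∈ ns i y := by rw [y4]; exact mem_uc.2 (mem_dc.1 hy)
      have hxw : x ∈ ns i w := by rw [w4]; exact mem_dc.2 (mem_uc.1 hw)
      have hyK : y ∈ K := by
        by_contra hyK
        obtain ⟨q1, q2, q3⟩ := Q1 y hyb hyK x hxy
        have h5 := (hxU _ q1).1
        refine bad_ns_ne H hir hq hg hd (bUN _ h5) (bLN y hyb) ?_ q3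
        intro h6
        have h7 := (bU_data H hir hq hg h5).1
        rw [h6] at h7
        omega
      have hwK : w ∈ K := by
        by_contra hwK
        obtain ⟨q1, q2, q3⟩ := Q2 w hwb hwK x hxw
        have h5 := (hxL _ q1).1
        refine bad_ns_ne H hir hq hg hd (bLN _ h5) (bUN w hwb) ?_ q3
        intro h6
        have h7 := (bL_data H hir hq hg h5).1
        rw [h6] at h7
        omega
      have hyw : y ≠ w := by rintro rfl; omega
      obtain ⟨a, ha, ha0, hay⟩ := bad_two H hir hq hg (bLN y hyb) hxy x1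
      obtain ⟨b, hb, hb0, hbw⟩ := bad_two H hir hq hg (bUN w hwb) hxw x1
      refine ⟨y, w, a, b, hyK, bLN y hyb, hwK, bUN w hwb, hyw, hxy, hxw, ha, hb, ha0, hb0, ?_,
        hay, hbw⟩
      rintro rfl
      exact bad_disj H hir hq hg hd (bLN y hyb) (bUN w hwb) hyw ha hb ha0
    have hone : (XL ∩ XU).card ≤ 1 := by
      rw [Finset.card_le_one]
      intro x hx x' hx'
      by_contra hne
      obtain ⟨y, w, a, b, yK, yb, wK, wb, hyw, hxy, hxw, ha, hb, a0, b0, hab, hay, hbw⟩ := hYx x hx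
      obtain ⟨y', w', a', b', yK', yb', wK', wb', hyw', hxy', hxw', ha', hb', a0', b0', hab',
        hay', hbw'⟩ := hYx x' hx'
      have x1 : 1 ≤ e x := (hXL x (mem_inter.1 hx).1).2.1
      have x1' : 1 ≤ e x' := (hXL x' (mem_inter.1 hx').1).2.1
      have n1 : y' ≠ y := by
        rintro rfl
        rcases hay x' hxy' with h | h
        · exact hne h.symm
        · rw [h] at x1'
          omega
      have n2 : y' ≠ w := by
        rintro rfl
        rcases hbw x' hxy' with h | h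
        · exact hne h.symm
        · rw [h] at x1'
          omega
      obtain ⟨s, s1, s2⟩ := hK.two y yK (hC y yb) y' yK' (hC y' yb') (Ne.symm n1)
      obtain ⟨t, t1, t2⟩ := hK.two w wK (hC w wb) y' yK' (hC y' yb') (Ne.symm n2)
      have hs' : s = a ∧ s = a' := by
        rcases hay s s1 with h | h <;> rcases hay' s s2 with h' | h'
        · exact absurd (h.symm.trans h') hne
        · rw [h] at h'
          rw [h'] at x1
          omega
        · rw [h] at h'
          rw [← h'] at x1'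
          omega
        · exact ⟨h, h'⟩
      have ht' : t = b ∧ t = a' := by
        rcases hbw t t1 with h | h <;> rcases hay' t t2 with h' | h'
        · exact absurd (h.symm.trans h') hne
        · rw [h] at h'
          rw [h'] at x1
          omega
        · rw [h] at h'
          rw [← h'] at x1'
          omega
        · exact ⟨h, h'⟩
      apply hab
      rw [← hs'.1, ← ht'.1, hs'.2, ht'.2]
    have hKB0 : KB i K e = ∅ := by
      rw [Finset.eq_empty_iff_forall_notMem]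
      intro k hk
      obtain ⟨x, hx⟩ := Finset.nonempty_iff_ne_empty.2 hY
      obtain ⟨y, w, a, b, yK, yb, wK, wb, hyw, hxy, hxw, ha, hb, a0, b0, hab, hay, hbw⟩ := hYx x hx
      obtain ⟨k1, k2, k3⟩ := hKB k hk
      have x1 : 1 ≤ e x := (hXL x (mem_inter.1 hx).1).2.1
      have hxk : x ∉ ns i k := by
        intro h
        have h1 := P1 x (mem_inter.1 hx).1 k hk h
        have h2 := P2 x (mem_inter.1 hx).2 k hk h
        have h3 := (bU_data H hir hq hg h1.1).1
        have h4 := (bL_data H hir hq hg h2.1).1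
        omega
      have n1 : y ≠ k := by
        rintro rfl
        exact hxk hxy
      obtain ⟨s, s1, s2⟩ := hK.two y yK (hC y yb) k k1 k2 n1
      have hs' : s = a := by
        rcases hay s s1 with h | h
        · rw [h] at s2
          exact absurd s2 hxk
        · exact h
      rw [hs'] at s2
      exact bad_disj H hir hq hg hd yb k3 n1 ha s2 a0
    have h1 := hsum _ hUn
    rw [hKB0, card_empty]
    omega

/-- THE INEQUALITY on a component whose unmatched near elements form a star -/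
theorem K_bound (H : Gr P r) (hir : i ≤ r) (hq : NoQ P (i + 2))
    (hg : ∀ m, m + 1 = i → Good P m) (hM : Mat P i K psi) (hK : Star i C K) (hs : Spt C e)
    (hL : AdmL i e) (hU : AdmU i e) (hd : Disjoint (AL i e) (AU i e)) {δ : ℕ}
    (hδ : δ = 0 ∨ δ = 1 ∧ ∃ z : P, (i + 3 ≤ lev z ∨ lev z + 3 ≤ i) ∧ 1 ≤ e z) :
    2 * ((AL i e).card + (AU i e).card) + δ ≤
      ∑ x, e x + 2 * (pL i e + pU i e) + (SK i K psi e).card + 1 := by
  obtain ⟨XL, XU, hXL, hXU, h1⟩ := main_K hM H hir hq hg hL hU hd hδ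
  have h2 := star_bound H hir hq hg hM hK hs hd hXL hXU
  have h5 : ∑ x, e x = ∑ x ∈ lS P i, e x + ∑ x ∈ uS P i, e x + ∑ x ∈ lv P i, e x := by
    classical
    have h6 : (univ : Finset P) = (lS P i ∪ uS P i) ∪ lv P i := by
      ext x
      simp only [mem_univ, mem_union, mem_lS, mem_uS, mem_lv, true_iff]
      omega
    rw [h6, Finset.sum_union, Finset.sum_union]
    · rw [disjoint_left]
      intro x hx hx'
      rw [mem_lS] at hx
      rw [mem_uS] at hx'
      omega
    · rw [disjoint_left]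
      intro x hx hx'
      rw [mem_union, mem_lS, mem_uS] at hx
      rw [mem_lv] at hx'
      omega
  omega

end star

end Pool.Agent.GaussPoset.Win.K2
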