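import Pool.Agent.W_448so_h63.FA

/-!
S9 with Z2 (MP_448cb3_co, case B): algebra of the profiles `(3,1), (5,2), (6,2)` with nonzero `(5,2)`.
-/

set_option autoImplicit false

namespace Pool.Agent.GaussPoset.Win.So

set_option linter.unusedSectionVars false

open Finset I2

/-- number of deficits allowed at the energy `n` -/
def dk (n : ℕ) : ℕ := if n < 3 then 0 else if n < 5 then 1 else 2

/-- profile of a window series: one deficit from energy three on, two from energy five on -/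
def P6 (b : ℕ) (V : PowerSeries A) : Prop :=
  ∀ n, n ≤ 6 → dd ^ b ∣ dd ^ dk n * PowerSeries.coeff n V

/-- the leading coefficient at the energy `n` -/
noncomputable def cf (n b : ℕ) (V : PowerSeries A) : ℤ :=
  PowerSeries.coeff b (dd ^ dk n * PowerSeries.coeff n V : A)

lemma cf_zero (b : ℕ) (V : PowerSeries A) : cf 0 b V = eps b V := by
  unfold cf eps dk
  simp

lemma cf_three (b : ℕ) (V : PowerSeries A) : cf 3 b V = al 3 b V := by
  unfold cf al dk
  simp

lemma cf_five (b : ℕ) (V : PowerSeries A) : cf 5 b V = be 5 b V := by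
  unfold cf be dk
  simp

lemma cf_six (b : ℕ) (V : PowerSeries A) : cf 6 b V = be 6 b V := by
  unfold cf be dk
  simp

lemma cf_one (b : ℕ) (V : PowerSeries A) :
    cf 1 b V = PowerSeries.coeff b (PowerSeries.coeff 1 V : A) := by
  unfold cf dk
  simp

lemma P6.of_prof {b : ℕ} {V : PowerSeries A} (h : Prof 3 5 b V)
    (h6 : dd ^ b ∣ dd ^ 2 * PowerSeries.coeff 6 V) : P6 b V := by
  intro n hn
  unfold dk
  split_ifs with h1 h2
  · rw [pow_zero, one_mul]
    exact h.lo n h1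
  · rw [pow_one]
    exact h.mid n h2
  · have h3 : n = 5 ∨ n = 6 := by omega
    rcases h3 with rfl | rfl
    · exact h.top
    · exact h6

lemma dk_add {i j : ℕ} (h : i + j ≤ 6) : dk i + dk j ≤ dk (i + j) := by
  unfold dk
  split_ifs <;> omega

theorem P6.mul {b b' : ℕ} {V V' : PowerSeries A} (h : P6 b V) (h' : P6 b' V') :
    P6 (b + b') (V * V') := by
  intro n hn
  rw [PowerSeries.coeff_mul, Finset.mul_sum]
  refine Finset.dvd_sum ?_
  rintro ⟨i, j⟩ hij
  rw [Finset.HasAntidiagonal.mem_antidiagonal] at hij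
  simp only at hij ⊢
  subst hij
  have h1 := dk_add hn
  have h2 : dd ^ dk (i + j) * (PowerSeries.coeff i V * PowerSeries.coeff j V') =
      dd ^ (dk (i + j) - (dk i + dk j)) *
        ((dd ^ dk i * PowerSeries.coeff i V) * (dd ^ dk j * PowerSeries.coeff j V')) := by
    have h3 : (dd : A) ^ dk (i + j) = dd ^ (dk (i + j) - (dk i + dk j)) * (dd ^ dk i * dd ^ dk j) := by
      rw [← pow_add, ← pow_add]
      congr 1
      omega
    rw [h3]
    ring
  rw [h2, pow_add]
  exact dvd_mul_of_dvd_right (mul_dvd_mul (h i (by omega)) (h' j (by omega))) _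

theorem cf_mul {b b' : ℕ} {V V' : PowerSeries A} (h : P6 b V) (h' : P6 b' V') {n : ℕ}
    (hn : n ≤ 6) : cf n (b + b') (V * V') =
      ∑ p ∈ Finset.HasAntidiagonal.antidiagonal n,
        if dk p.1 + dk p.2 = dk n then cf p.1 b V * cf p.2 b' V' else 0 := by
  unfold cf
  rw [PowerSeries.coeff_mul n V V', Finset.mul_sum, map_sum]
  refine Finset.sum_congr rfl ?_
  rintro ⟨i, j⟩ hij
  rw [Finset.HasAntidiagonal.mem_antidiagonal] at hij
  simp only at hij ⊢
  subst hij
  have h1 := dk_add hn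
  have h2 : dd ^ dk (i + j) * (PowerSeries.coeff i V * PowerSeries.coeff j V') =
      dd ^ (dk (i + j) - (dk i + dk j)) *
        ((dd ^ dk i * PowerSeries.coeff i V) * (dd ^ dk j * PowerSeries.coeff j V')) := by
    have h3 : (dd : A) ^ dk (i + j) = dd ^ (dk (i + j) - (dk i + dk j)) * (dd ^ dk i * dd ^ dk j) := by
      rw [← pow_add, ← pow_add]
      congr 1
      omega
    rw [h3]
    ring
  have h4 := h i (by omega)
  have h5 := h' j (by omega)
  rw [h2]
  by_cases h6 : dk i + dk j = dk (i + j)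
  · rw [if_pos h6, h6, Nat.sub_self, pow_zero, one_mul]
    exact coeff_mul_of_dvd h4 h5
  · rw [if_neg h6]
    apply coeff_eq_zero_of_dvd
    rw [pow_succ', pow_add]
    refine mul_dvd_mul ?_ (mul_dvd_mul h4 h5)
    exact dvd_pow_self _ (by omega)

lemma anti_list (f : ℕ × ℕ → ℤ) :
    (∑ p ∈ Finset.HasAntidiagonal.antidiagonal 6, f p =
      f (0, 6) + f (1, 5) + f (2, 4) + f (3, 3) + f (4, 2) + f (5, 1) + f (6, 0)) ∧
    (∑ p ∈ Finset.HasAntidiagonal.antidiagonal 5, f p =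
      f (0, 5) + f (1, 4) + f (2, 3) + f (3, 2) + f (4, 1) + f (5, 0)) ∧
    (∑ p ∈ Finset.HasAntidiagonal.antidiagonal 3, f p =
      f (0, 3) + f (1, 2) + f (2, 1) + f (3, 0)) ∧
    (∑ p ∈ Finset.HasAntidiagonal.antidiagonal 1, f p = f (0, 1) + f (1, 0)) ∧
    (∑ p ∈ Finset.HasAntidiagonal.antidiagonal 0, f p = f (0, 0)) := by
  simp only [Finset.Nat.sum_antidiagonal_eq_sum_range_succ_mk, Finset.sum_range_succ,
    Finset.sum_range_zero]
  norm_num

section mul

variable {b b' : ℕ} {V V' : PowerSeries A} (h : P6 b V) (h' : P6 b' V')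
include h h'

lemma cf0_mul : cf 0 (b + b') (V * V') = cf 0 b V * cf 0 b' V' := by
  rw [cf_mul h h' (by omega), (anti_list _).2.2.2.2]
  simp [dk]

lemma cf1_mul : cf 1 (b + b') (V * V') = cf 0 b V * cf 1 b' V' + cf 1 b V * cf 0 b' V' := by
  rw [cf_mul h h' (by omega), (anti_list _).2.2.2.1]
  simp [dk]

lemma cf3_mul : cf 3 (b + b') (V * V') = cf 0 b V * cf 3 b' V' + cf 3 b V * cf 0 b' V' := by
  rw [cf_mul h h' (by omega), (anti_list _).2.2.1]
  simp [dk]

lemma cf5_mul : cf 5 (b + b') (V * V') = cf 0 b V * cf 5 b' V' + cf 5 b V * cf 0 b' V' := by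
  rw [cf_mul h h' (by omega), (anti_list _).2.1]
  simp [dk]

lemma cf6_mul : cf 6 (b + b') (V * V') = cf 0 b V * cf 6 b' V' + cf 1 b V * cf 5 b' V' +
    cf 3 b V * cf 3 b' V' + cf 5 b V * cf 1 b' V' + cf 6 b V * cf 0 b' V' := by
  rw [cf_mul h h' (by omega), (anti_list _).1]
  simp [dk]

end mul

/-- the second power sum at the energy six, normalised by the unit -/
noncomputable def Q6 (b : ℕ) (V : PowerSeries A) : ℤ :=
  cf 3 b V ^ 2 - 2 * cf 6 b V + 2 * (cf 1 b V * cf 5 b V)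

lemma P6_one : P6 0 (1 : PowerSeries A) := by
  intro n hn
  rw [pow_zero]
  exact one_dvd _

/-- the product over the components -/
theorem prod_six {ι : Type*} (s : Finset ι) (b : ι → ℕ) (V : ι → PowerSeries A)
    (h : ∀ c ∈ s, P6 (b c) (V c)) (h1 : ∀ c ∈ s, cf 0 (b c) (V c) = 1) :
    P6 (∑ c ∈ s, b c) (∏ c ∈ s, V c) ∧ cf 0 (∑ c ∈ s, b c) (∏ c ∈ s, V c) = 1 ∧
    cf 1 (∑ c ∈ s, b c) (∏ c ∈ s, V c) = ∑ c ∈ s, cf 1 (b c) (V c) ∧
    cf 3 (∑ c ∈ s, b c) (∏ c ∈ s, V c) = ∑ c ∈ s, cf 3 (b c) (V c) ∧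
    cf 5 (∑ c ∈ s, b c) (∏ c ∈ s, V c) = ∑ c ∈ s, cf 5 (b c) (V c) ∧
    Q6 (∑ c ∈ s, b c) (∏ c ∈ s, V c) = ∑ c ∈ s, Q6 (b c) (V c) := by
  classical
  induction s using Finset.induction_on with
  | empty =>
    simp only [Finset.sum_empty, Finset.prod_empty]
    refine ⟨P6_one, ?_, ?_, ?_, ?_, ?_⟩
    · simp [cf, dk]
    · simp [cf, dk, PowerSeries.coeff_one]
    · simp [cf, dk, PowerSeries.coeff_one]
    · simp [cf, dk, PowerSeries.coeff_one]
    · simp [Q6, cf, dk, PowerSeries.coeff_one]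
  | insert a s ha ih =>
    obtain ⟨i1, i2, i3, i4, i5, i6⟩ := ih (fun c hc => h c (Finset.mem_insert_of_mem hc))
      (fun c hc => h1 c (Finset.mem_insert_of_mem hc))
    have ha1 := h a (Finset.mem_insert_self a s)
    have ha2 := h1 a (Finset.mem_insert_self a s)
    simp only [Finset.sum_insert ha, Finset.prod_insert ha]
    rw [← i3, ← i4, ← i5, ← i6]
    refine ⟨ha1.mul i1, ?_, ?_, ?_, ?_, ?_⟩
    · rw [cf0_mul ha1 i1, ha2, i2, one_mul]
    · rw [cf1_mul ha1 i1, ha2, i2]; ring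
    · rw [cf3_mul ha1 i1, ha2, i2]; ring
    · rw [cf5_mul ha1 i1, ha2, i2]; ring
    · unfold Q6
      rw [cf3_mul ha1 i1, cf6_mul ha1 i1, cf5_mul ha1 i1, cf1_mul ha1 i1, ha2, i2]
      ring

end Pool.Agent.GaussPoset.Win.So
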