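import Pool.Agent.W_448so_h63.GJ

/-!
The identity (6,4) at the window j (MP_448cb3_co, case B): the final form.
-/

namespace Pool.Agent.GaussPoset.Win.K2

set_option linter.unusedSectionVars false

open Finset I2

universe u

variable {P : Type u} [Fintype P] [PartialOrder P] [DecidableEq P] {r i : ℕ} {e : P → ℕ}

variable {ι : Type*} [DecidableEq ι] {κ : P → ι} {K C : Finset P} {psi : P → P}

/-- a small component is a star -/
lemma star_small (H : Gr P r) (hir : i ≤ r) (hκ : Split (i + 1) κ) (R : EK.Red P i K psi) {a : ι}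
    (hs : EK.Small i κ a) : Star i (cext (i + 1) κ a) K := by
  have hk : ∀ k ∈ K, k ∈ cext (i + 1) κ a → κ k = a := by
    intro k hk hkC
    refine mem_cext.1 hkC k le_rfl ?_
    rcases mem_union.1 (R.sub hk) with h | h
    · have := mem_dbL'.1 h
      omega
    · have := mem_dbU'.1 h
      omega
  constructor
  · intro k h1 h2 k' h1' h2' _
    have h3 := R.same_of_small H hir hκ hs h1 h1' (hk k h1 h2) (hk k' h1' h2')
    rw [not_disjoint_iff] at h3
    exact h3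
  · intro k h1 h2 k' h1' h2' k'' h1'' h2'' n1 n2 n3 x hx hx' hx''
    exact R.three_of_small H hκ hs h1 h1' h1'' (hk k h1 h2) (hk k' h1' h2') (hk k'' h1'' h2'')
      n1 n2 n3 hx hx' hx''

/-- the product of the two signed numbers of a join -/
lemma ek_SD (h : EK.HK r i κ K psi) {z y v : P} (S : SD i κ z y v) :
    EK.Ek i K (Tz z) 3 = 0 ∧
    EK.Ek i K (Tz z) 2 = EK.sa i κ K (uc y) (κ y) * EK.sa i κ K (uc v) (κ v) := by
  have l1 := S.ly h.H
  have l2 := S.lv' h.H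
  have h1 := h.cross (T1 := uc y) (T2 := uc v) S.hk
    (fun s hs => (h.spl (mem_uc.1 hs) (by omega)).symm)
    (fun s hs => (h.spl (mem_uc.1 hs) (by omega)).symm)
  rw [S.Tz]
  exact ⟨h1.2.2.2.1, h1.2.2.1⟩

/-- THE IDENTITY (6,4) for small components -/
theorem identity_64 (H : Gr P r) (hir : i ≤ r) (hq : NoQ P (i + 2))
    (hg : ∀ m, m + 1 = i → Good P m) (hκ : Split (i + 1) κ) (R : EK.Red P i K psi)
    (hs : ∀ a, EK.Small i κ a) :
    ∑ a ∈ univ.image κ, w3 (bb i (i + 1) κ a) (VV i (i + 1) κ a) ^ 2 =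
      - (2 * ∑ z ∈ Z2 i κ, EK.Ek i K (Tz z) 2) := by
  have hPG := fun a => PG_star H hir hq hg hκ R.mat R.sub (star_small H hir hκ R (hs a))
  have h1 := six_four H hir hq hg hκ R.mat R.sub (fun a _ => (hPG a).1)
  have hHK := R.HK_of_small H hir hκ hs
  have h2 : ∑ a ∈ univ.image κ, (w3 (bb i (i + 1) κ a) (VV i (i + 1) κ a) ^ 2 -
      2 * w6 (bb i (i + 1) κ a) (VV i (i + 1) κ a)) =
      ∑ a ∈ univ.image κ, w3 (bb i (i + 1) κ a) (VV i (i + 1) κ a) ^ 2 := by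
    refine Finset.sum_congr rfl fun a _ => ?_
    rw [(hPG a).2]
    ring
  have h3 : ∑ z ∈ Z2 i κ, (EK.Ek i K (Tz z) 3 + EK.Ek i K (Tz z) 2) =
      ∑ z ∈ Z2 i κ, EK.Ek i K (Tz z) 2 := by
    refine Finset.sum_congr rfl fun z hz => ?_
    obtain ⟨-, y, v, S⟩ := mem_Z2.1 hz
    rw [(ek_SD hHK S).1, zero_add]
  rw [← h2, h1, h3]

/-- CONSEQUENCE: if no join has a negative product then all leading coefficients vanish -/
theorem w3_zero (H : Gr P r) (hir : i ≤ r) (hq : NoQ P (i + 2))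
    (hg : ∀ m, m + 1 = i → Good P m) (hκ : Split (i + 1) κ) (R : EK.Red P i K psi)
    (hs : ∀ a, EK.Small i κ a)
    (hE : ∀ z y v, SD i κ z y v → z ∉ cuni (i + 1) κ →
      0 ≤ EK.sa i κ K (uc y) (κ y) * EK.sa i κ K (uc v) (κ v)) :
    (∀ a ∈ univ.image κ, w3 (bb i (i + 1) κ a) (VV i (i + 1) κ a) = 0) ∧
    ∀ z y v, SD i κ z y v → z ∉ cuni (i + 1) κ →
      EK.sa i κ K (uc y) (κ y) * EK.sa i κ K (uc v) (κ v) = 0 := by
  have hHK := R.HK_of_small H hir hκ hs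
  have h1 := identity_64 H hir hq hg hκ R hs
  have h2 : ∀ z ∈ Z2 i κ, 0 ≤ EK.Ek i K (Tz z) 2 := by
    intro z hz
    obtain ⟨hz1, y, v, S⟩ := mem_Z2.1 hz
    rw [(ek_SD hHK S).2]
    exact hE z y v S hz1
  have h3 : 0 ≤ ∑ a ∈ univ.image κ, w3 (bb i (i + 1) κ a) (VV i (i + 1) κ a) ^ 2 :=
    Finset.sum_nonneg fun a _ => sq_nonneg _
  have h4 : 0 ≤ ∑ z ∈ Z2 i κ, EK.Ek i K (Tz z) 2 := Finset.sum_nonneg h2
  have h5 : ∑ a ∈ univ.image κ, w3 (bb i (i + 1) κ a) (VV i (i + 1) κ a) ^ 2 = 0 := by linarith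
  have h6 : ∑ z ∈ Z2 i κ, EK.Ek i K (Tz z) 2 = 0 := by linarith
  constructor
  · intro a ha
    have h7 := (Finset.sum_eq_zero_iff_of_nonneg (fun a _ => sq_nonneg _)).1 h5 a ha
    exact pow_eq_zero_iff (two_ne_zero) |>.1 h7
  · intro z y v S hz
    rw [← (ek_SD hHK S).2]
    exact (Finset.sum_eq_zero_iff_of_nonneg h2).1 h6 z (mem_Z2.2 ⟨hz, y, v, S⟩)

end Pool.Agent.GaussPoset.Win.K2
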