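import Pool.Agent.W_448so_h63.FK

/-!
S9 with Z2 (MP_448cb3_co): joins of two pendants, description by covers.
-/

set_option autoImplicit false

namespace Pool.Agent.GaussPoset.Win.So

set_option linter.unusedSectionVars false

open Finset I2

universe u

variable {P : Type u} [Fintype P] [PartialOrder P] [DecidableEq P] {r i j : ℕ}

variable {ι : Type*} [DecidableEq ι] {κ : P → ι} {v p p' y y' x : P}

lemma not_cuni (D : CrV i κ v p p') (H : Gr P r) : v ∉ cuni (i + 2) κ := by
  unfold cuni
  rw [mem_biUnion]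
  rintro ⟨a, -, ha⟩
  rw [mem_cext] at ha
  have h1 := ha p D.cp.le (D.lp H).le
  have h2 := ha p' D.symm.cp.le (D.lp' H).le
  exact D.ne (h1.trans h2.symm)

/-- a join of two pendants over disjoint pairs of sites -/
theorem ZD.mem (D : ZD i κ v p p' y y') (H : Gr P r) (hκ : Split (i + 2) κ) : v ∈ Z2s i κ := by
  classical
  refine mem_Z2s.2 ⟨D.lv, not_cuni D.toCrV H, ?_, ?_⟩
  · rw [D.up1 H hκ, D.hp, D.hp', card_singleton, card_singleton]
  · rw [up_eq, ← D.four H hκ, ← D.sv H]
    congr 1
    ext z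
    rw [mem_filter, mem_lv, mem_Sv]

/-- the same from the covers: the two covers are below different tops, each has only one cover, and
this cover has two covers -/
theorem mem_Z2s_join (h : GoodTo P r (i + 2)) (hv : lev v = i + 3) (h1 : uc v = {p, p'})
    (hne : topOf p ≠ topOf p') (h2 : uc p = {y}) (h2' : uc p' = {y'}) (h3 : (uc y).card = 2)
    (h3' : (uc y').card = 2) : v ∈ Z2s i (topOf : P → Tops P) :=
  ZD.mem (⟨⟨hv, h1, hne⟩, h2, h2', h3, h3'⟩ : ZD i (topOf : P → Tops P) v p p' y y') h.H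
    (Wd.split_gt h)

/-- THE NUMBER OF JOINS of two pendants is the number of flips -/
theorem Z2_card (h : GoodTo P r (i + 2)) (hi1 : 1 ≤ i) :
    (Z2s i (topOf : P → Tops P)).card =
      ∑ t ∈ univ.image (topOf : P → Tops P), (SO.F5 i (Wd.SS i t)).card := by
  have h1 := Z2_count h hi1
  have h2 : ∑ t ∈ univ.image (topOf : P → Tops P),
      (((SO.O5 i (Wd.SS i t)).card : ℤ) + 2 * ((SO.F5 i (Wd.SS i t)).card : ℤ)) =
      2 * ∑ t ∈ univ.image (topOf : P → Tops P), ((SO.F5 i (Wd.SS i t)).card : ℤ) := by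
    rw [mul_sum]
    refine sum_congr rfl fun t _ => ?_
    rw [O5_empty h t]
    simp
  rw [h2] at h1
  have h3 : ((Z2s i (topOf : P → Tops P)).card : ℤ) =
      ∑ t ∈ univ.image (topOf : P → Tops P), ((SO.F5 i (Wd.SS i t)).card : ℤ) := by linarith
  exact_mod_cast h3

end Pool.Agent.GaussPoset.Win.So
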