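import Pool.Agent.W_448so_h63.FI

/-!
S9 with Z2 (MP_448cb3_co, case B): THE TOTAL IDENTITIES (5,2), (6,2) with joins of two pendants.
-/

set_option autoImplicit false

namespace Pool.Agent.GaussPoset.Win.So

set_option linter.unusedSectionVars false

open Finset SO I2

universe u

variable {P : Type u} [Fintype P] [PartialOrder P] [DecidableEq P] {r i : ℕ}

variable {ι : Type*} [DecidableEq ι] {κ : P → ι} {v p p' y y' x : P} {e : P → ℕ} {psi : P → P}

/-- the terms of energy one -/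
noncomputable def T1 (P : Type u) [Fintype P] [PartialOrder P] [DecidableEq P] (i : ℕ) : ℤ :=
  ∑ x : P, PowerSeries.coeff (lv P i).card (trm i (en ∅ x) : A)

lemma ph_TWsum (H : Gr P r) (hir : i ≤ r) (hκ : Split (i + 2) κ) :
    ph (lv P i).card (∑ q ∈ TWs i κ, trm i (fq i q)) = (TWs i κ).card := by
  rw [map_sum, sum_congr rfl fun q hq => ph_TW H hir hκ hq, sum_const]
  simp

/-- the leading coefficient of the cross configurations at the energy six -/
theorem ph_rest6 (H : Gr P r) (hi : 1 ≤ i) (hi2 : i + 1 ≤ r) (hg : Good P i)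
    (hκ : Split (i + 2) κ) (hb : 1 ≤ (lv P i).card)
    (hu : ∀ w w' : P, lev w = i + 1 → lev w' = i + 1 → w ≠ w' → (uc w ∩ uc w').card ≤ 1)
    [DecidablePred (CrO i κ)] :
    2 * ph (lv P i).card (∑ e ∈ ((univ : Finset P).piAntidiag 6).filter (CrO i κ), trm i e) =
      2 * ∑ v ∈ Z2s i κ, (T1 P i + env i v) - (TWs i κ).card - 2 * (N5s i κ).card := by
  classical
  obtain ⟨psi, hM⟩ := good_mat H hg
  have h := ph_dvd (restZ6 H hi hi2 hM hg hκ) hb
  rw [map_sub, sub_eq_zero, map_add, map_add] at h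
  have h1 : ph (lv P i).card (∑ v ∈ N5s i κ, trm i (eN i v)) = -((N5s i κ).card : ℤ) := by
    rw [map_sum, sum_congr rfl fun v hv => ph_N5 H (by omega) hv, sum_const]
    simp
  have h2 := congrArg (ph (lv P i).card) (sum_fq (i := i) (κ := κ) (psi := psi) H (trm i))
  rw [map_nsmul, map_sub, map_nsmul, ph_TWsum H (by omega) hκ, nsmul_eq_mul, nsmul_eq_mul,
    Nat.cast_ofNat] at h2
  have h3 : ph (lv P i).card (∑ q ∈ PPs i κ psi, trm i (fq i q)) +
      ph (lv P i).card (∑ v ∈ Z2s i κ, ∑ x ∈ Rst i ∅ psi (eN i v), trm i (fq i (v, x))) =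
      ∑ v ∈ Z2s i κ, (T1 P i + env i v) := by
    have h4 : ∑ q ∈ PPs i κ psi, trm i (fq i q) =
        ∑ v ∈ Z2s i κ, ∑ x ∈ (univ : Finset P).filter (fun x => x ∉ Rst i ∅ psi (eN i v)),
          trm i (fq i (v, x)) := by
      unfold PPs
      rw [sum_filter, sum_product]
      refine sum_congr rfl fun v _ => ?_
      rw [sum_filter]
    rw [h4, ← map_add, ← sum_add_distrib, map_sum]
    refine sum_congr rfl fun v hv => ?_
    obtain ⟨p, p', y, y', D⟩ := Z2s_ZD H hκ hv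
    have h5 : ∑ x ∈ (univ : Finset P).filter (fun x => x ∉ Rst i ∅ psi (eN i v)),
          trm i (fq i (v, x)) + ∑ x ∈ Rst i ∅ psi (eN i v), trm i (fq i (v, x)) =
        ∑ x : P, trm i (fq i (v, x)) := by
      rw [add_comm, ← sum_filter_add_sum_filter_not univ (fun x => x ∈ Rst i ∅ psi (eN i v))]
      congr 1
      refine sum_congr ?_ fun _ _ => rfl
      ext x
      simp
    rw [h5, map_sum]
    have h6 := env_sum H (by omega) hκ D hM hu
    unfold T1
    rw [← h6]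
    refine sum_congr rfl fun x _ => ?_
    rw [en_eq H D]
    rfl
  rw [h, h1]
  linarith

/-- energy one: no cross terms -/
lemma rest_one (H : Gr P r) (hκ : Split (i + 2) κ) [DecidablePred (CrO i κ)] :
    ∑ e ∈ ((univ : Finset P).piAntidiag 1).filter (CrO i κ), trm i e = 0 := by
  classical
  refine sum_eq_zero fun e he => ?_
  rw [mem_filter, Finset.mem_piAntidiag] at he
  obtain ⟨⟨h1, -⟩, z, hz, hze⟩ := he
  have hlz := (two_up H hκ hz).1
  have h2 : e = Pi.single z 1 := by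
    refine eq_of_sum (a := Pi.single z 1) ?_ ?_
    · intro x
      rw [Pi.single_apply]
      split_ifs with h
      · rw [h]; exact hze
      · exact Nat.zero_le _
    · rw [sum_single_one]
      exact h1.le
  rw [h2, ← en_eq0]
  exact e0_low_far H (by omega)

lemma cf1_prod (H : Gr P r) (hir : i ≤ r) (hκ : Split (i + 2) κ) :
    cf 1 (lv P i).card (∏ a ∈ univ.image κ, VV i (i + 2) κ a) = T1 P i := by
  classical
  rw [cf_one, prod_eq H hir hκ, rest_one H hκ, sub_zero, sum_pa_one, map_sum]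
  unfold T1
  refine sum_congr rfl fun x _ => ?_
  rw [en_eq0]

lemma ph_tot (H : Gr P r) (hi : 1 ≤ i) (hi2 : i + 1 ≤ r) (hb : 1 ≤ (lv P i).card) (n : ℕ) :
    ph (lv P i).card (∑ e ∈ (univ : Finset P).piAntidiag n, trm i e) = 0 :=
  ph_dvd ((pow_dvd_pow dd (Nat.sub_le _ _)).trans (dvd_sum_trm H (by omega) n)) hb

lemma cf5_prod (H : Gr P r) (hi : 1 ≤ i) (hi2 : i + 1 ≤ r) (hg : Good P i)
    (hκ : Split (i + 2) κ) (hb : 1 ≤ (lv P i).card) :
    cf 5 (lv P i).card (∏ a ∈ univ.image κ, VV i (i + 2) κ a) = -((Z2s i κ).card : ℤ) := by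
  classical
  rw [cf_five]
  unfold be
  rw [prod_eq H (by omega) hκ, ← ph_apply, map_sub, ph_tot H hi hi2 hb, zero_sub]
  congr 1
  have h := ph_dvd (restZ5 H hi hi2 hg hκ) hb
  rw [map_sub, sub_eq_zero] at h
  rw [h, map_sum, sum_congr rfl fun v hv => ph_Z2 H (show i ≤ r by omega) hv, sum_const]
  simp

lemma cf6_prod (H : Gr P r) (hi : 1 ≤ i) (hi2 : i + 1 ≤ r) (hg : Good P i)
    (hκ : Split (i + 2) κ) (hb : 1 ≤ (lv P i).card)
    (hu : ∀ w w' : P, lev w = i + 1 → lev w' = i + 1 → w ≠ w' → (uc w ∩ uc w').card ≤ 1) :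
    2 * cf 6 (lv P i).card (∏ a ∈ univ.image κ, VV i (i + 2) κ a) =
      -(2 * ∑ v ∈ Z2s i κ, (T1 P i + env i v) - (TWs i κ).card - 2 * (N5s i κ).card) := by
  classical
  rw [cf_six]
  unfold be
  rw [prod_eq H (by omega) hκ, ← ph_apply, map_sub, ph_tot H hi hi2 hb, zero_sub, mul_neg,
    ph_rest6 H hi hi2 hg hκ hb hu]

/-- the product of the components -/
theorem Q6_prod (H : Gr P r) (hi : 1 ≤ i) (hi2 : i + 1 ≤ r) (hg : Good P i)
    (hκ : Split (i + 2) κ) (hb : 1 ≤ (lv P i).card)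
    (hu : ∀ w w' : P, lev w = i + 1 → lev w' = i + 1 → w ≠ w' → (uc w ∩ uc w').card ≤ 1) :
    Q6 (lv P i).card (∏ a ∈ univ.image κ, VV i (i + 2) κ a) =
      2 * ∑ v ∈ Z2s i κ, env i v - (TWs i κ).card - 2 * (N5s i κ).card := by
  classical
  unfold Q6
  rw [cf1_prod H (by omega) hκ, cf5_prod H hi hi2 hg hκ hb, cf6_prod H hi hi2 hg hκ hb hu,
    cf_three, al3_prod H (by omega) hκ, sum_add_distrib, sum_const, nsmul_eq_mul]
  ring

section total

variable (H : Gr P r) (hi : 1 ≤ i) (hi2 : i + 1 ≤ r) (hg : Good P i)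
  (hκ : Split (i + 2) κ) (hb : 1 ≤ (lv P i).card)
include H hi hi2 hg hκ hb

/-- TOTAL (5,2) at the window `i = j - 1`, case B: minus the number of joins of two pendants -/
theorem tot_five_Z
    (hP : ∀ a ∈ univ.image κ, P6 (bb i (i + 2) κ a) (VV i (i + 2) κ a)) :
    ∑ a ∈ univ.image κ, be 5 (bb i (i + 2) κ a) (VV i (i + 2) κ a) = -((Z2s i κ).card : ℤ) := by
  obtain ⟨-, -, -, -, h5, -⟩ := prod_six (univ.image κ) (bb i (i + 2) κ) (VV i (i + 2) κ) hP
    (fun a _ => by rw [cf_zero]; exact eps_VV H (by omega) a)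
  rw [sum_bb hκ, cf5_prod H hi hi2 hg hκ hb] at h5
  rw [h5]
  refine sum_congr rfl fun a _ => ?_
  rw [cf_five]

/-- TOTAL (6,2) at the window `i = j - 1`, case B -/
theorem tot_six_Z
    (hu : ∀ w w' : P, lev w = i + 1 → lev w' = i + 1 → w ≠ w' → (uc w ∩ uc w').card ≤ 1)
    (hP : ∀ a ∈ univ.image κ, P6 (bb i (i + 2) κ a) (VV i (i + 2) κ a)) :
    ∑ a ∈ univ.image κ, Q6 (bb i (i + 2) κ a) (VV i (i + 2) κ a) =
      2 * ∑ v ∈ Z2s i κ, env i v - (TWs i κ).card - 2 * (N5s i κ).card := by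
  obtain ⟨-, -, -, -, -, h6⟩ := prod_six (univ.image κ) (bb i (i + 2) κ) (VV i (i + 2) κ) hP
    (fun a _ => by rw [cf_zero]; exact eps_VV H (by omega) a)
  rw [sum_bb hκ, Q6_prod H hi hi2 hg hκ hb hu] at h6
  exact h6.symm

end total

/-- the profile of a component at the energies up to six -/
lemma P6_VV (H : Gr P r) (hir : i ≤ r) (hκ : Split (i + 2) κ) (a : ι)
    (hP : Prof 3 5 (bb i (i + 2) κ a) (VV i (i + 2) κ a))
    (h6 : 3 ≤ bb i (i + 2) κ a →
      dd ^ bb i (i + 2) κ a ∣ dd ^ 2 * PowerSeries.coeff 6 (VV i (i + 2) κ a)) :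
    P6 (bb i (i + 2) κ a) (VV i (i + 2) κ a) := by
  refine P6.of_prof hP ?_
  rcases Nat.lt_or_ge (bb i (i + 2) κ a) 3 with h | h
  · exact dvd_small H hir (by omega) hκ a (by omega) 6
  · exact h6 h

end Pool.Agent.GaussPoset.Win.So
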