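import Pool.Agent.W_448so_h61.CB

/-!
Classification of the cores of S9 (row 476), one side of the window: basic facts.
-/

set_option autoImplicit false

namespace Pool.Agent.GaussPoset.Win.So

set_option linter.unusedSectionVars false

open Finset I2

universe u

variable {P : Type u} [DecidableEq P]

/-- one side of the window with a configuration of energy at most six -/
structure OS (c c' : P → Finset P) (t : P → ℕ) (V Sd : Finset P) (e : P → ℕ) : Prop
    extends Side0 c c' t V Sd where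
  adm : ∀ z ∈ Sd, ¬ (kd c' e z ∧ gu c e z)
  nl : ∀ z ∈ Sd, t z = 2 → 1 ≤ e z → ∀ x ∈ c z, ∀ x' ∈ c z, x ≠ x' → (c x).card = 2 →
    (c x ∩ c x').card = 1
  nc : ∀ x ∈ Sd, ∀ x' ∈ Sd, x ≠ x' → t x = 1 → t x' = 1 → (c x).card = 2 → (c x').card = 2 →
    ∀ z z', z ∈ c' x → z ∈ c' x' → z' ∈ c' x → z' ∈ c' x' → 1 ≤ e z → 1 ≤ e z' → z = z'
  pd : ∀ z ∈ Sd, ∀ z' ∈ Sd, t z = 2 → t z' = 2 → 1 ≤ e z → 1 ≤ e z' → (c z).card = 1 →
    (c z').card = 1 → (∃ x ∈ c z, (c x).card = 2) → (∃ x ∈ c z', (c x).card = 2) → z = z'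
  tch : ∀ x ∈ Sd, t x = 1 → 1 ≤ e x → ∃ z ∈ c' x, 1 ≤ e z
  en : ∑ x ∈ Sd ∪ V, e x ≤ 6

open Classical in
/-- the positive part of the charge of a killer -/
noncomputable def gg (c c' : P → Finset P) (e : P → ℕ) (z : P) : ℤ :=
  if kl c e z then max (cc c c' e z) 0 else 0

/-- killed sites minus free elements -/
noncomputable def kS (c c' : P → Finset P) (e : P → ℕ) (V Sd : Finset P) : ℤ :=
  ((KD c' e V).card : ℤ) - (fr c c' e Sd).card

variable {c c' : P → Finset P} {e : P → ℕ} {t : P → ℕ} {V Sd : Finset P}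

lemma gg_nonneg (z : P) : 0 ≤ gg c c' e z := by
  classical
  unfold gg
  split_ifs
  · exact le_max_right _ _
  · exact le_rfl

lemma gg_pos {z : P} (h : 0 < gg c c' e z) : kl c e z ∧ gg c c' e z = cc c c' e z := by
  classical
  unfold gg at h ⊢
  split_ifs at h ⊢ with h1
  · refine ⟨h1, ?_⟩
    rw [max_eq_left]
    by_contra h2
    rw [max_eq_right (by omega)] at h
    omega
  · omega

lemma gg_zero_of_not_kl {z : P} (h : ¬ kl c e z) : gg c c' e z = 0 := by
  classical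
  unfold gg
  rw [if_neg h]

lemma gg_le {z : P} {n : ℤ} (hn : 0 ≤ n) (h : cc c c' e z ≤ n) : gg c c' e z ≤ n := by
  classical
  unfold gg
  split_ifs
  · exact max_le h hn
  · exact hn

namespace OS

variable (S : OS c c' t V Sd e)

include S

lemma kS_le : 2 * kS c c' e V Sd ≤ ∑ z ∈ Sd, gg c c' e z := by
  classical
  have h1 := S.toSide0.sum_cc S.adm
  unfold kS
  rw [mul_sub, ← h1]
  have h2 : ∑ z ∈ Sd, gg c c' e z = ∑ z ∈ KK c e Sd, max (cc c c' e z) 0 := by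
    unfold KK gg
    rw [Finset.sum_filter]
  rw [h2]
  exact Finset.sum_le_sum fun z _ => le_max_left _ _

/-- the sum is bounded by the sum over any set containing the positive elements -/
lemma sum_le (F : Finset P) (h : ∀ z ∈ Sd, 0 < gg c c' e z → z ∈ F) :
    ∑ z ∈ Sd, gg c c' e z ≤ ∑ z ∈ F, gg c c' e z := by
  classical
  have h1 : ∑ z ∈ Sd, gg c c' e z = ∑ z ∈ Sd ∩ F, gg c c' e z := by
    symm
    apply Finset.sum_subset inter_subset_left
    intro z hz hz'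
    by_contra h2
    have h3 := gg_nonneg (c := c) (c' := c') (e := e) z
    exact hz' (mem_inter.2 ⟨hz, h z hz (by omega)⟩)
  rw [h1]
  exact Finset.sum_le_sum_of_subset_of_nonneg inter_subset_right fun z _ _ => gg_nonneg z

lemma gg2 (z : P) : gg c c' e z ≤ 2 := gg_le (by norm_num) (S.toSide0.cc_le_two z)

/-- energy of a list of different elements -/
lemma en_list (l : List P) (h : l.Nodup) (hm : ∀ z ∈ l, z ∈ Sd ∪ V) : (l.map e).sum ≤ 6 := by
  have h1 : (l.map e).sum = ∑ z ∈ l.toFinset, e z := by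
    rw [List.sum_toFinset _ h]
  rw [h1]
  refine le_trans (Finset.sum_le_sum_of_subset ?_) S.en
  intro z hz
  exact hm z (List.mem_toFinset.1 hz)

lemma disj {z : P} (h : z ∈ Sd) : z ∉ V := by
  intro h'
  have := S.tS z h
  have := S.tV z h'
  omega

lemma cov {z y : P} (hz : z ∈ Sd) (ht : 2 ≤ t z) (he : 1 ≤ e z) (hy : y ∈ c z) :
    y ∈ Sd ∧ t z = t y + 1 ∧ 1 ≤ e y := by
  obtain ⟨h1, h2⟩ := S.cin z hz y hy
  have h3 : y ∈ Sd := by
    rcases h1 with h1 | h1
    · exact h1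
    · have := S.tV y h1
      omega
  refine ⟨h3, h2, ?_⟩
  by_contra h4
  have h5 : kd c' e y := ⟨z, (S.dual z y).1 hy, by omega⟩
  obtain ⟨a, ha⟩ := S.ne y h3
  have := not_gu_of_kd S.adm h3 h5 a ha
  omega

lemma chd {x z : P} (hx : x ∈ Sd ∨ x ∈ V) (hz : z ∈ c' x) : z ∈ Sd ∧ t z = t x + 1 ∧ x ∈ c z := by
  have h1 := S.cout x hx z hz
  have h2 := (S.dual z x).2 hz
  exact ⟨h1, (S.cin z h1 x h2).2, h2⟩

lemma site {x v : P} (hx : x ∈ Sd) (ht : t x = 1) (hv : v ∈ c x) : v ∈ V ∧ t v = 0 := by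
  obtain ⟨h1, h2⟩ := S.cin x hx v hv
  rcases h1 with h1 | h1
  · have := S.tS v h1
    omega
  · exact ⟨h1, by omega⟩

lemma kd_all {z : P} (hz : z ∈ Sd) {q : P} (hq : q ∈ c' z) (h : e z < e q) :
    ∀ a ∈ c z, e a < e z := not_gu_of_kd S.adm hz ⟨q, hq, h⟩

lemma kl_e {z : P} (hk : kl c e z) : 1 ≤ e z := by
  obtain ⟨a, _, h⟩ := hk
  omega

lemma pos_two {z : P} (hz : z ∈ Sd) (h : 0 < gg c c' e z) :
    (c z).card = 2 ∧ kl c e z ∧ 0 < cc c c' e z := by
  obtain ⟨h1, h2⟩ := gg_pos h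
  refine ⟨?_, h1, by omega⟩
  by_contra h3
  have h4 := S.c2 z
  have h5 := (S.ne z hz).card_pos
  have h6 := cc_le_zero (c' := c') (show (c z).card = 1 by omega) h1
  omega

end OS

end Pool.Agent.GaussPoset.Win.So
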