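import Pool.Agent.W_448so_h63.DA

/-!
Classification of the cores of S9 (row 476), one side of the window: positive killers.
-/

set_option autoImplicit false

namespace Pool.Agent.GaussPoset.Win.So

set_option linter.unusedSectionVars false

open Finset I2

universe u

variable {P : Type u} [DecidableEq P]



variable {c c' : P → Finset P} {e : P → ℕ} {t : P → ℕ} {V Sd : Finset P}

/-- two elements of a set with two elements -/
lemma card_two_other {s : Finset P} (h : s.card = 2) {a : P} (ha : a ∈ s) :
    ∃ b, b ≠ a ∧ s = {a, b} := by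
  obtain ⟨x, y, hxy, rfl⟩ := card_eq_two.1 h
  rw [mem_insert, mem_singleton] at ha
  rcases ha with rfl | rfl
  · exact ⟨y, hxy.symm, rfl⟩
  · exact ⟨x, hxy, pair_comm _ _⟩

/-- shared victims -/
lemma not_mem_so {z z' a : P} (dual : ∀ x y, y ∈ c x ↔ x ∈ c' y) (hne : z ≠ z')
    (h1 : a ∈ kn c e z) (h2 : a ∈ kn c e z') : a ∉ so c c' e z := by
  intro h3
  rw [mem_so] at h3
  rw [mem_kn] at h1 h2
  obtain ⟨y, hy⟩ := card_eq_one.1 h3.2
  have h4 : z ∈ kr c' e a := mem_kr.2 ⟨(dual z a).1 h1.1, h1.2⟩
  have h5 : z' ∈ kr c' e a := mem_kr.2 ⟨(dual z' a).1 h2.1, h2.2⟩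
  rw [hy, mem_singleton] at h4 h5
  exact hne (h4.trans h5.symm)

namespace OS

variable (S : OS c c' t V Sd e)

include S

/-- a killer which shares a victim has charge at most one -/
lemma cc_one_of {z a : P} (h1 : a ∈ kn c e z) (h2 : a ∉ so c c' e z) : cc c c' e z ≤ 1 := by
  classical
  have h3 : (so c c' e z).card + 1 ≤ (kn c e z).card := by
    have h4 : so c c' e z ⊆ (kn c e z).erase a := by
      intro b hb
      rw [mem_erase]
      refine ⟨?_, so_sub_kn hb⟩
      rintro rfl
      exact h2 hb
    have h5 := card_le_card h4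
    rw [card_erase_of_mem h1] at h5
    have h6 := card_pos.2 ⟨a, h1⟩
    omega
  unfold cc
  split_ifs with h
  · have := S.kn_le_one h
    omega
  · have := S.kn_le (e := e) z
    omega

/-- a killer which shares two victims has no positive charge -/
lemma cc_zero_of {z a b : P} (hab : a ≠ b) (h1 : a ∈ kn c e z) (h2 : a ∉ so c c' e z)
    (h3 : b ∈ kn c e z) (h4 : b ∉ so c c' e z) : cc c c' e z ≤ 0 := by
  classical
  have h5 := S.kn_le (e := e) z
  have h6 : kn c e z = {a, b} := by
    symm
    apply Finset.eq_of_subset_of_card_le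
    · intro q hq
      rw [mem_insert, mem_singleton] at hq
      rcases hq with rfl | rfl
      · exact h1
      · exact h3
    · rw [card_pair hab]
      exact h5
  have h7 : so c c' e z = ∅ := by
    apply Finset.eq_empty_of_forall_notMem
    intro q hq
    have h8 := so_sub_kn hq
    rw [h6, mem_insert, mem_singleton] at h8
    rcases h8 with rfl | rfl
    · exact h2 hq
    · exact h4 hq
  have h8 : ¬ gu c e z := by
    intro h9
    have := S.kn_le_one h9
    rw [h6, card_pair hab] at this
    omega
  unfold cc
  rw [if_neg h8, h6, card_pair hab, h7, card_empty]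
  norm_num

lemma pos_t {z : P} (hz : z ∈ Sd) (h : 0 < gg c c' e z) : t z ≤ 2 := by
  by_contra h3
  obtain ⟨h1, h2, -⟩ := S.pos_two hz h
  have h4 := h2
  obtain ⟨a, ha, hlt⟩ := h4
  obtain ⟨a', hne, hc⟩ := card_two_other h1 ha
  have h5 := S.toSide0.t_le_of_kl S.adm (t z) z hz h2 rfl
  obtain ⟨a1, a2, a3⟩ := S.cov hz (by omega) (by omega) ha
  obtain ⟨b1, b2, b3⟩ := S.cov hz (by omega) (by omega)
    (show a' ∈ c z by rw [hc]; exact mem_insert_of_mem (mem_singleton_self _))
  obtain ⟨b, hb⟩ := S.ne a a1
  have h6 := S.kd_all a1 ((S.dual z a).1 ha) hlt b hb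
  have h7 := S.toSide0.t_le_of_kl S.adm (t a) a a1 ⟨b, hb, h6⟩ rfl
  obtain ⟨c1, c2, c3⟩ := S.cov a1 (by omega) (by omega) hb
  have hE := S.en_list [z, a, a', b] (by
        simp only [List.nodup_cons, List.mem_cons, List.not_mem_nil, or_false, not_or, List.nodup_nil,
          and_true, not_false_eq_true]
        and_intros
        all_goals first
          | assumption
          | (apply Ne.symm; assumption)
          | (intro hnd; subst hnd; omega)
          | (intro hnd; rw [hnd] at *; omega)) (by
        simp only [List.forall_mem_cons, mem_union, List.not_mem_nil, false_imp_iff, implies_true,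
          and_true]
        and_intros
        all_goals first
          | exact Or.inl (by assumption)
          | exact Or.inr (by assumption))
  simp only [List.map_cons, List.sum_cons, List.map_nil, List.sum_nil] at hE
  omega

lemma pos_t' {z : P} (hz : z ∈ Sd) (h : 0 < gg c c' e z) : t z = 1 ∨ t z = 2 := by
  have := S.pos_t hz h
  have := S.tS z hz
  omega

lemma far_two {w : P} (hw : w ∈ Sd) (ht : t w = 2) (h : 0 < gg c c' e w) : 2 ≤ e w := by
  obtain ⟨-, h2, -⟩ := S.pos_two hw h
  exact S.toSide0.t_le_of_kl S.adm 2 w hw h2 ht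

/-- at most one far element has positive charge -/
lemma far_one {w w' : P} (hw : w ∈ Sd) (hw' : w' ∈ Sd) (ht : t w = 2) (ht' : t w' = 2)
    (h : 0 < gg c c' e w) (h' : 0 < gg c c' e w') : w = w' := by
  by_contra hne
  obtain ⟨a1, a2, a3⟩ := S.pos_two hw h
  obtain ⟨b1, b2, b3⟩ := S.pos_two hw' h'
  have a4 := S.far_two hw ht h
  have b4 := S.far_two hw' ht' h'
  obtain ⟨x, x', hx, hc⟩ := card_eq_two.1 a1
  obtain ⟨c1, c2, c3⟩ := S.cov hw (by omega) (by omega)
    (show x ∈ c w by rw [hc]; exact mem_insert_self _ _)
  obtain ⟨d1, d2, d3⟩ := S.cov hw (by omega) (by omega)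
    (show x' ∈ c w by rw [hc]; exact mem_insert_of_mem (mem_singleton_self _))
  have hE := S.en_list [w, w', x, x'] (by
        simp only [List.nodup_cons, List.mem_cons, List.not_mem_nil, or_false, not_or, List.nodup_nil,
          and_true, not_false_eq_true]
        and_intros
        all_goals first
          | assumption
          | (apply Ne.symm; assumption)
          | (intro hnd; subst hnd; omega)
          | (intro hnd; rw [hnd] at *; omega)) (by
        simp only [List.forall_mem_cons, mem_union, List.not_mem_nil, false_imp_iff, implies_true,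
          and_true]
        and_intros
        all_goals first
          | exact Or.inl (by assumption)
          | exact Or.inr (by assumption))
  simp only [List.map_cons, List.sum_cons, List.map_nil, List.sum_nil] at hE
  by_cases hs : c w' ⊆ c w
  · have hcc : c w' = c w := Finset.eq_of_subset_of_card_le hs (by omega)
    have k1 : ∀ z, z = x ∨ z = x' → z ∈ kn c e w ∧ z ∈ kn c e w' := by
      intro z hz
      have : z ∈ c w := by rw [hc, mem_insert, mem_singleton]; exact hz
      rw [mem_kn, mem_kn, hcc]
      refine ⟨⟨this, ?_⟩, this, ?_⟩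
      · rcases hz with rfl | rfl <;> omega
      · rcases hz with rfl | rfl <;> omega
    have k2 := S.cc_zero_of hx (k1 x (Or.inl rfl)).1
      (not_mem_so S.dual hne (k1 x (Or.inl rfl)).1 (k1 x (Or.inl rfl)).2) (k1 x' (Or.inr rfl)).1
      (not_mem_so S.dual hne (k1 x' (Or.inr rfl)).1 (k1 x' (Or.inr rfl)).2)
    omega
  · obtain ⟨q, hq, hq'⟩ := Finset.not_subset.1 hs
    obtain ⟨q1, q2, q3⟩ := S.cov hw' (by omega) (by omega) hq
    have n1 : q ≠ x := by
      rintro rfl
      exact hq' (by rw [hc]; exact mem_insert_self _ _)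
    have n2 : q ≠ x' := by
      rintro rfl
      exact hq' (by rw [hc]; exact mem_insert_of_mem (mem_singleton_self _))
    have hE := S.en_list [w, w', x, x', q] (by
          simp only [List.nodup_cons, List.mem_cons, List.not_mem_nil, or_false, not_or, List.nodup_nil,
            and_true, not_false_eq_true]
          and_intros
          all_goals first
            | assumption
            | (apply Ne.symm; assumption)
            | (intro hnd; subst hnd; omega)
            | (intro hnd; rw [hnd] at *; omega)) (by
          simp only [List.forall_mem_cons, mem_union, List.not_mem_nil, false_imp_iff, implies_true,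
            and_true]
          and_intros
          all_goals first
            | exact Or.inl (by assumption)
            | exact Or.inr (by assumption))
    simp only [List.map_cons, List.sum_cons, List.map_nil, List.sum_nil] at hE
    omega

/-- the common site of two covers -/
lemma common {w x x' : P} (hw : w ∈ Sd) (ht : t w = 2) (he : 1 ≤ e w) (hx : x ∈ c w)
    (hx' : x' ∈ c w) (hne : x ≠ x') (h2 : (c x).card = 2) :
    ∃ a s, a ≠ s ∧ c x = {a, s} ∧ s ∈ c x' ∧ a ∉ c x' ∧ a ∈ V ∧ s ∈ V ∧ c' s = {x, x'} := by
  have h3 := S.nl w hw ht he x hx x' hx' hne h2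
  obtain ⟨s, hs⟩ := card_eq_one.1 h3
  have h4 : s ∈ c x ∩ c x' := by rw [hs]; exact mem_singleton_self _
  rw [mem_inter] at h4
  obtain ⟨a, ha, hc⟩ := card_two_other h2 h4.1
  have h5 : a ∈ c x := by rw [hc]; exact mem_insert_of_mem (mem_singleton_self _)
  obtain ⟨x1, x2, x3⟩ := S.cov hw (by omega) he hx
  obtain ⟨y1, y2, y3⟩ := S.cov hw (by omega) he hx'
  have h6 : a ∉ c x' := by
    intro h7
    have : a ∈ c x ∩ c x' := mem_inter.2 ⟨h5, h7⟩
    rw [hs, mem_singleton] at this
    exact ha this
  refine ⟨a, s, ha, ?_, h4.2, h6, (S.site x1 (by omega) h5).1, (S.site x1 (by omega) h4.1).1, ?_⟩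
  · rw [hc, pair_comm]
  · symm
    apply Finset.eq_of_subset_of_card_le
    · intro q hq
      rw [mem_insert, mem_singleton] at hq
      rcases hq with rfl | rfl
      · exact (S.dual _ _).1 h4.1
      · exact (S.dual _ _).1 h4.2
    · rw [card_pair hne]
      exact S.c2' s

end OS

end Pool.Agent.GaussPoset.Win.So
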