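import Pool.Agent.W_448so_h63.DB

/-!
Classification of the cores of S9 (row 476), one side of the window: a joined pair of positive
near elements.
-/

set_option autoImplicit false

namespace Pool.Agent.GaussPoset.Win.So

set_option linter.unusedSectionVars false

open Finset I2

universe u

variable {P : Type u} [DecidableEq P]

/-- `w` over two double elements with one common site -/
structure TT (c c' : P → Finset P) (t : P → ℕ) (V Sd : Finset P) (w x x' a s b : P) : Prop where
  mw : w ∈ Sd
  mx : x ∈ Sd
  mx' : x' ∈ Sd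
  tw : t w = 2
  tx : t x = 1
  tx' : t x' = 1
  uw : c w = {x, x'}
  ux : c x = {a, s}
  ux' : c x' = {s, b}
  as : a ≠ s
  sb : s ≠ b
  ab : a ≠ b
  xx' : x ≠ x'
  ds : c' s = {x, x'}
  ma : a ∈ V
  ms : s ∈ V
  mb : b ∈ V

/-- the toggle structure on one side -/
structure TG (c c' : P → Finset P) (t : P → ℕ) (V Sd : Finset P) (e : P → ℕ)
    (w x x' a s b : P) : Prop extends TT c c' t V Sd w x x' a s b where
  hw : 1 ≤ e w
  hx : 1 ≤ e x
  hx' : 1 ≤ e x'
  st : ((e x < e w ∨ e x' < e w) ∧ e s < e x ∧ e s < e x') ∨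
    (e w ≤ e x ∧ e w ≤ e x' ∧ (e x ≤ e s ∨ e x' ≤ e s))
  cw : ∀ z ∈ c' w, e z ≤ e w ∧ e z ≤ e s + 1
  ca : e x < e w ∨ e x < e s + 1 → e a < e x
  cc : e x' < e w ∨ e x' < e s + 1 → e b < e x'
  dx : ∀ y ∈ c' x, y ≠ w → e y ≤ e x
  dx' : ∀ y ∈ c' x', y ≠ w → e y ≤ e x'

/-- the reflection structure on one side -/
structure RF (c c' : P → Finset P) (t : P → ℕ) (V Sd : Finset P) (e : P → ℕ) (y p : P) :
    Prop where
  my : y ∈ Sd
  mp : p ∈ Sd
  ty : t y = 1
  tp : t p = 2
  cp : c p = {y}
  two : (c y).card = 2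
  hy : 1 ≤ e y
  hp : 1 ≤ e p
  ch : ∀ z ∈ c' y, z ≠ p → e z = 0
  chp : ∀ z ∈ c' p, e z = 0

/-- six different excited elements -/
def Six (e : P → ℕ) (a1 a2 a3 a4 a5 a6 : P) : Prop :=
  [a1, a2, a3, a4, a5, a6].Nodup ∧ ∀ z ∈ [a1, a2, a3, a4, a5, a6], 1 ≤ e z

variable {c c' : P → Finset P} {e : P → ℕ} {t : P → ℕ} {V Sd : Finset P}

lemma TT.symm {w x x' a s b : P} (T : TT c c' t V Sd w x x' a s b) :
    TT c c' t V Sd w x' x b s a where
  mw := T.mw
  mx := T.mx'
  mx' := T.mx
  tw := T.tw
  tx := T.tx'
  tx' := T.tx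
  uw := by rw [T.uw, pair_comm]
  ux := by rw [T.ux', pair_comm]
  ux' := by rw [T.ux, pair_comm]
  as := T.sb.symm
  sb := T.as.symm
  ab := T.ab.symm
  xx' := T.xx'.symm
  ds := by rw [T.ds, pair_comm]
  ma := T.mb
  ms := T.ms
  mb := T.ma

lemma TG.symm {w x x' a s b : P} (T : TG c c' t V Sd e w x x' a s b) :
    TG c c' t V Sd e w x' x b s a where
  toTT := T.toTT.symm
  hw := T.hw
  hx := T.hx'
  hx' := T.hx
  st := by
    rcases T.st with ⟨h1, h2, h3⟩ | ⟨h1, h2, h3⟩
    · exact Or.inl ⟨h1.symm, h3, h2⟩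
    · exact Or.inr ⟨h2, h1, h3.symm⟩
  cw := T.cw
  ca := T.cc
  cc := T.ca
  dx := T.dx'
  dx' := T.dx

namespace TT

variable {w x x' a s b : P} (T : TT c c' t V Sd w x x' a s b)

include T

lemma xw : x ∈ c w := by rw [T.uw]; exact mem_insert_self _ _

lemma xw' : x' ∈ c w := by rw [T.uw]; exact mem_insert_of_mem (mem_singleton_self _)

lemma ax : a ∈ c x := by rw [T.ux]; exact mem_insert_self _ _

lemma sx : s ∈ c x := by rw [T.ux]; exact mem_insert_of_mem (mem_singleton_self _)

lemma sx' : s ∈ c x' := by rw [T.ux']; exact mem_insert_self _ _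

lemma bx' : b ∈ c x' := by rw [T.ux']; exact mem_insert_of_mem (mem_singleton_self _)

lemma cx2 : (c x).card = 2 := by rw [T.ux]; exact card_pair T.as

lemma cx2' : (c x').card = 2 := by rw [T.ux']; exact card_pair T.sb

end TT

namespace OS

variable (S : OS c c' t V Sd e)

include S

/-- the labels outside a list of energy six vanish -/
lemma rest_zero {l : List P} (h : l.Nodup) (hm : ∀ z ∈ l, z ∈ Sd ∪ V) (h6 : 6 ≤ (l.map e).sum)
    {q : P} (hq : q ∈ Sd ∪ V) (hl : q ∉ l) : e q = 0 := by
  have h1 := S.en_list (q :: l) (List.nodup_cons.2 ⟨hl, h⟩) (by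
    intro z hz
    rw [List.mem_cons] at hz
    rcases hz with rfl | hz
    · exact hq
    · exact hm z hz)
  rw [List.map_cons, List.sum_cons] at h1
  omega

lemma rest_pos {l : List P} (h : l.Nodup) (hm : ∀ z ∈ l, z ∈ Sd ∪ V) (h6 : 6 ≤ (l.map e).sum)
    {q : P} (hq : q ∈ Sd ∪ V) (he : 1 ≤ e q) : q ∈ l := by
  by_contra h1
  have := S.rest_zero h hm h6 hq h1
  omega

lemma mkTT {w x x' : P} (hw : w ∈ Sd) (tw : t w = 2) (ew : 1 ≤ e w) (cw : c w = {x, x'})
    (hne : x ≠ x') (h2 : (c x).card = 2) (h2' : (c x').card = 2) :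
    ∃ a s b, TT c c' t V Sd w x x' a s b := by
  have hx : x ∈ c w := by rw [cw]; exact mem_insert_self _ _
  have hx' : x' ∈ c w := by rw [cw]; exact mem_insert_of_mem (mem_singleton_self _)
  obtain ⟨a, s, h3, h4, h5, h6, h7, h8, h9⟩ := S.common hw tw ew hx hx' hne h2
  obtain ⟨b, hb, hc⟩ := card_two_other h2' h5
  obtain ⟨x1, x2, x3⟩ := S.cov hw (by omega) ew hx
  obtain ⟨y1, y2, y3⟩ := S.cov hw (by omega) ew hx'
  have h10 : b ∈ c x' := by rw [hc]; exact mem_insert_of_mem (mem_singleton_self _)
  refine ⟨a, s, b, hw, x1, y1, tw, by omega, by omega, cw, h4, hc, h3, hb.symm, ?_, hne, h9, h7, h8,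
    (S.site y1 (by omega) h10).1⟩
  rintro rfl
  exact h6 h10

/-- no further child of `x` kills it if `w` has a large label -/
lemma noextra {w x x' a s b : P} (T : TT c c' t V Sd w x x' a s b) (h2 : 2 ≤ e w)
    (ex : 1 ≤ e x) (ex' : 1 ≤ e x') (h4 : 4 ≤ ∑ z ∈ Sd, gg c c' e z) {y : P} (hy : y ∈ c' x)
    (hyw : y ≠ w) : e y ≤ e x := by
  by_contra h3
  have mw := T.mw
  have mx := T.mx
  have mx' := T.mx'
  have ms := T.ms
  have tw := T.tw
  have tx := T.tx
  have tx' := T.tx'
  have xx' := T.xx'
  have ts := S.tV s T.ms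
  obtain ⟨my, ty, cy⟩ := S.chd (Or.inl mx) hy
  have n1 : [y, w, x, x'].Nodup := by
    simp only [List.nodup_cons, List.mem_cons, List.not_mem_nil, or_false, not_or, List.nodup_nil,
      and_true, not_false_eq_true]
    and_intros
    all_goals first
      | assumption
      | (apply Ne.symm; assumption)
      | (intro hnd; subst hnd; omega)
      | (intro hnd; rw [hnd] at *; omega)
  have n2 : ∀ z ∈ [y, w, x, x'], z ∈ Sd ∪ V := by
    simp only [List.forall_mem_cons, mem_union, List.not_mem_nil, false_imp_iff, implies_true,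
      and_true]
    and_intros
    all_goals first
      | exact Or.inl (by assumption)
      | exact Or.inr (by assumption)
  have hE := S.en_list _ n1 n2
  simp only [List.map_cons, List.sum_cons, List.map_nil, List.sum_nil] at hE
  have n3 : 6 ≤ ([y, w, x, x'].map e).sum := by
    simp only [List.map_cons, List.sum_cons, List.map_nil, List.sum_nil]
    omega
  have hs : e s = 0 := by
    apply S.rest_zero n1 n2 n3 (mem_union_right _ ms)
    intro h5
    simp only [List.mem_cons, List.not_mem_nil, or_false] at h5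
    rcases h5 with rfl | rfl | rfl | rfl <;> omega
  have gy : gg c c' e y = 0 := by
    by_contra h5
    have h6 := gg_nonneg (c := c) (c' := c') (e := e) y
    obtain ⟨k1, k2, -⟩ := S.pos_two my (by omega)
    obtain ⟨q, q1, q2⟩ := card_two_other k1 cy
    have q3 : q ∈ c y := by rw [q2]; exact mem_insert_of_mem (mem_singleton_self _)
    obtain ⟨q4, q5, q6⟩ := S.cov my (by omega) (by omega) q3
    have q7 := S.rest_pos n1 n2 n3 (mem_union_left _ q4) q6
    simp only [List.mem_cons, List.not_mem_nil, or_false] at q7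
    have q8 : q = x' := by
      rcases q7 with q7 | q7 | q7 | q7
      · subst q7; omega
      · subst q7; omega
      · exact absurd q7 q1
      · exact q7
    subst q8
    exact hyw (S.nc x mx q mx' xx' tx tx' T.cx2 T.cx2' y w hy ((S.dual _ _).1 q3)
      ((S.dual _ _).1 T.xw) ((S.dual _ _).1 T.xw') (by omega) (by omega))
  have hF : ∀ z ∈ Sd, 0 < gg c c' e z → z ∈ ({w, x, x'} : Finset P) := by
    intro z hz hg
    obtain ⟨-, k2, -⟩ := S.pos_two hz hg
    have k3 := S.rest_pos n1 n2 n3 (mem_union_left _ hz) (S.kl_e k2)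
    simp only [List.mem_cons, List.not_mem_nil, or_false] at k3
    simp only [mem_insert, mem_singleton]
    rcases k3 with k3 | k3
    · subst k3; omega
    · exact k3
  have h5 := S.sum_le _ hF
  have hwx : w ≠ x := by rintro rfl; omega
  have hwx' : w ≠ x' := by rintro rfl; omega
  rw [sum_insert (by simp only [mem_insert, mem_singleton, not_or]; exact ⟨hwx, hwx'⟩),
    sum_pair xx'] at h5
  have g1 : gg c c' e w ≤ 1 := by
    apply gg_le (by norm_num)
    have a1 : x ∈ kn c e w := mem_kn.2 ⟨T.xw, by omega⟩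
    have a2 : x ∈ kn c e y := mem_kn.2 ⟨cy, by omega⟩
    exact S.cc_one_of a1 (not_mem_so S.dual hyw.symm a1 a2)
  have a1 : s ∈ kn c e x := mem_kn.2 ⟨T.sx, by omega⟩
  have a2 : s ∈ kn c e x' := mem_kn.2 ⟨T.sx', by omega⟩
  have g2 : gg c c' e x ≤ 1 := gg_le (by norm_num) (S.cc_one_of a1 (not_mem_so S.dual xx' a1 a2))
  have g3 : gg c c' e x' ≤ 1 :=
    gg_le (by norm_num) (S.cc_one_of a2 (not_mem_so S.dual xx'.symm a2 a1))
  omega

/-- a joined pair with a killer below: toggle or `N1` -/
lemma stateA {w x x' a s b : P} (T : TT c c' t V Sd w x x' a s b) (ex : 1 ≤ e x)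
    (ex' : 1 ≤ e x') (h4 : 4 ≤ ∑ z ∈ Sd, gg c c' e z) (h : e x < e w) :
    TG c c' t V Sd e w x x' a s b ∨
      ∃ z, z ∈ Sd ∧ t z = 3 ∧ c z = {w} ∧ 2 ≤ e z ∧ 2 ≤ e w := by
  have mw := T.mw
  have mx := T.mx
  have mx' := T.mx'
  have ms := T.ms
  have tw := T.tw
  have tx := T.tx
  have tx' := T.tx'
  have xx' := T.xx'
  have ts := S.tV s T.ms
  have k1 := S.kd_all mx ((S.dual _ _).1 T.xw) h
  have k2 := k1 a T.ax
  have k3 := k1 s T.sx
  have k4 : e x' < e w → ∀ q ∈ c x', e q < e x' := fun h5 =>
    S.kd_all mx' ((S.dual _ _).1 T.xw') h5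
  have k5 : e s < e x' := by
    by_contra h5
    have := k4 (by omega) s T.sx'
    omega
  by_cases hz : ∃ z ∈ c' w, e s + 1 < e z
  · right
    obtain ⟨z, hz1, hz2⟩ := hz
    obtain ⟨mz, tz, cz⟩ := S.chd (Or.inl mw) hz1
    have n1 : [z, w, x, x'].Nodup := by
      simp only [List.nodup_cons, List.mem_cons, List.not_mem_nil, or_false, not_or, List.nodup_nil,
        and_true, not_false_eq_true]
      and_intros
      all_goals first
        | assumption
        | (apply Ne.symm; assumption)
        | (intro hnd; subst hnd; omega)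
        | (intro hnd; rw [hnd] at *; omega)
    have n2 : ∀ z' ∈ [z, w, x, x'], z' ∈ Sd ∪ V := by
      simp only [List.forall_mem_cons, mem_union, List.not_mem_nil, false_imp_iff, implies_true,
        and_true]
      and_intros
      all_goals first
        | exact Or.inl (by assumption)
        | exact Or.inr (by assumption)
    have hE := S.en_list _ n1 n2
    simp only [List.map_cons, List.sum_cons, List.map_nil, List.sum_nil] at hE
    have n3 : 6 ≤ ([z, w, x, x'].map e).sum := by
      simp only [List.map_cons, List.sum_cons, List.map_nil, List.sum_nil]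
      omega
    refine ⟨z, mz, by omega, ?_, by omega, by omega⟩
    ext q
    rw [mem_singleton]
    constructor
    · intro hq
      obtain ⟨q4, q5, q6⟩ := S.cov mz (by omega) (by omega) hq
      have q7 := S.rest_pos n1 n2 n3 (mem_union_left _ q4) q6
      simp only [List.mem_cons, List.not_mem_nil, or_false] at q7
      rcases q7 with q7 | q7 | q7 | q7
      · subst q7; omega
      · exact q7
      · subst q7; omega
      · subst q7; omega
    · rintro rfl
      exact cz
  · left
    push Not at hz
    refine ⟨T, by omega, ex, ex', Or.inl ⟨Or.inl h, k3, k5⟩, ?_, ?_, ?_, ?_, ?_⟩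
    · intro z hz1
      refine ⟨?_, hz z hz1⟩
      by_contra h5
      obtain ⟨mz, tz, cz⟩ := S.chd (Or.inl mw) hz1
      have h6 := S.toSide0.t_le_of_kl S.adm (t z) z mz ⟨w, cz, by omega⟩ rfl
      have hE := S.en_list [z, w, x, x'] (by
            simp only [List.nodup_cons, List.mem_cons, List.not_mem_nil, or_false, not_or, List.nodup_nil,
              and_true, not_false_eq_true]
            and_intros
            all_goals first
              | assumption
              | (apply Ne.symm; assumption)
              | (intro hnd; subst hnd; omega)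
              | (intro hnd; rw [hnd] at *; omega)) (by
            simp only [List.forall_mem_cons, mem_union, List.not_mem_nil, false_imp_iff, implies_true,
              and_true]
            and_intros
            all_goals first
              | exact Or.inl (by assumption)
              | exact Or.inr (by assumption))
      simp only [List.map_cons, List.sum_cons, List.map_nil, List.sum_nil] at hE
      omega
    · exact fun _ => k2
    · rintro (h5 | h5)
      · exact k4 h5 b T.bx'
      · omega
    · intro y hy hyw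
      exact S.noextra T (by omega) ex ex' h4 hy hyw
    · intro y hy hyw
      exact S.noextra T.symm (by omega) ex' ex h4 hy hyw

/-- a joined pair with an excited site: toggle -/
lemma stateB {w x x' a s b : P} (T : TT c c' t V Sd w x x' a s b) (ew : 1 ≤ e w)
    (gx : 0 < gg c c' e x) (gx' : 0 < gg c c' e x') (h1 : e w ≤ e x) (h2 : e w ≤ e x')
    (h3 : e x ≤ e s ∨ e x' ≤ e s) : TG c c' t V Sd e w x x' a s b := by
  have main : ∀ {x x' a b : P} (T : TT c c' t V Sd w x x' a s b)
      (gx : 0 < gg c c' e x) (h1 : e w ≤ e x) (h2 : e w ≤ e x')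
      (h3 : e x ≤ e s ∨ e x' ≤ e s), (e x < e w ∨ e x < e s + 1 → e a < e x) ∧
      (∀ y ∈ c' x, y ≠ w → e y ≤ e x) := by
    intro x x' a b T gx h1 h2 h3
    have mw := T.mw
    have mx := T.mx
    have mx' := T.mx'
    have ms := T.ms
    have tw := T.tw
    have tx := T.tx
    have tx' := T.tx'
    have xx' := T.xx'
    have ts := S.tV s T.ms
    constructor
    · intro h5
      obtain ⟨-, ⟨q, hq, hlt⟩, -⟩ := S.pos_two mx gx
      rw [T.ux, mem_insert, mem_singleton] at hq
      rcases hq with rfl | rfl
      · exact hlt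
      · omega
    · intro y hy hyw
      by_contra h5
      obtain ⟨my, ty, cy⟩ := S.chd (Or.inl mx) hy
      have hE := S.en_list [w, y, x, x', s] (by
            simp only [List.nodup_cons, List.mem_cons, List.not_mem_nil, or_false, not_or, List.nodup_nil,
              and_true, not_false_eq_true]
            and_intros
            all_goals first
              | assumption
              | (apply Ne.symm; assumption)
              | (intro hnd; subst hnd; omega)
              | (intro hnd; rw [hnd] at *; omega)) (by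
            simp only [List.forall_mem_cons, mem_union, List.not_mem_nil, false_imp_iff, implies_true,
              and_true]
            and_intros
            all_goals first
              | exact Or.inl (by assumption)
              | exact Or.inr (by assumption))
      simp only [List.map_cons, List.sum_cons, List.map_nil, List.sum_nil] at hE
      have h6 := S.kd_all mx hy (by omega) s T.sx
      omega
  have mw := T.mw
  obtain ⟨a1, a2⟩ := main T gx h1 h2 h3
  obtain ⟨b1, b2⟩ := main T.symm gx' h2 h1 h3.symm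
  refine ⟨T, ew, by omega, by omega, Or.inr ⟨h1, h2, h3⟩, ?_, a1, b1, a2, b2⟩
  intro z hz
  have h5 : e z ≤ e w := by
    by_contra h6
    have := S.kd_all mw hz (by omega) x T.xw
    omega
  refine ⟨h5, by omega⟩

end OS

end Pool.Agent.GaussPoset.Win.So
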