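import Pool.Agent.W_448so_h63.DC

/-!
Classification of the cores of S9 (row 476), one side of the window: a single positive near
element; a third positive near element beside a joined pair.
-/

set_option autoImplicit false

namespace Pool.Agent.GaussPoset.Win.So

set_option linter.unusedSectionVars false

open Finset I2

universe u

variable {P : Type u} [DecidableEq P]

/-- the exceptional configurations of one side -/
def Out (c c' : P → Finset P) (t : P → ℕ) (V Sd : Finset P) (e : P → ℕ) : Prop :=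
  (∃ w x x' a s b, TG c c' t V Sd e w x x' a s b) ∨
  (∃ w x x' a s b z, TT c c' t V Sd w x x' a s b ∧ 1 ≤ e x ∧ 1 ≤ e x' ∧ z ∈ Sd ∧ t z = 3 ∧
    c z = {w} ∧ 2 ≤ e z ∧ 2 ≤ e w) ∨
  (∃ w x x' a s b z p y, TT c c' t V Sd w x x' a s b ∧ y ∈ Sd ∧ p ∈ Sd ∧ z ∈ Sd ∧ t y = 1 ∧
    t p = 2 ∧ t z = 3 ∧ (c y).card = 2 ∧ c p = {y} ∧ (c z = {p} ∨ c z = {p, w}) ∧
    Disjoint {a, s, b} (c y) ∧ Six e w x x' z p y) ∨
  (∃ w x x' a s b w' y y' a' s' b', TT c c' t V Sd w x x' a s b ∧
    TT c c' t V Sd w' y y' a' s' b' ∧ Disjoint ({a, s, b} : Finset P) {a', s', b'} ∧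
    Six e w x x' w' y y')

variable {c c' : P → Finset P} {e : P → ℕ} {t : P → ℕ} {V Sd : Finset P}

namespace OS

variable (S : OS c c' t V Sd e)

include S

/-- shared site of two killers -/
lemma shared_one {x x' s : P} (hne : x ≠ x') (h1 : s ∈ c x) (h2 : s ∈ c x') (h3 : e s < e x)
    (h4 : e s < e x') : gg c c' e x ≤ 1 := by
  have a1 : s ∈ kn c e x := mem_kn.2 ⟨h1, h3⟩
  have a2 : s ∈ kn c e x' := mem_kn.2 ⟨h2, h4⟩
  exact gg_le (by norm_num) (S.cc_one_of a1 (not_mem_so S.dual hne a1 a2))

/-- two shared sites -/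
lemma shared_two {x x' x'' s s' : P} (hss : s ≠ s') (hne : x ≠ x') (hne' : x ≠ x'')
    (h1 : s ∈ c x) (h2 : s ∈ c x') (h3 : e s < e x) (h4 : e s < e x')
    (h1' : s' ∈ c x) (h2' : s' ∈ c x'') (h3' : e s' < e x) (h4' : e s' < e x'') :
    gg c c' e x ≤ 0 := by
  have a1 : s ∈ kn c e x := mem_kn.2 ⟨h1, h3⟩
  have a2 : s ∈ kn c e x' := mem_kn.2 ⟨h2, h4⟩
  have b1 : s' ∈ kn c e x := mem_kn.2 ⟨h1', h3'⟩
  have b2 : s' ∈ kn c e x'' := mem_kn.2 ⟨h2', h4'⟩
  exact gg_le le_rfl (S.cc_zero_of hss a1 (not_mem_so S.dual hne a1 a2) b1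
    (not_mem_so S.dual hne' b1 b2))

/-- an excited private child: the reflection structure or a further excited child -/
lemma rf_or {v z : P} (hv : v ∈ Sd) (tv : t v = 1) (c2 : (c v).card = 2) (ev : 1 ≤ e v)
    (cz : c z = {v}) (ez : 1 ≤ e z) (hR : ¬ ∃ y p, RF c c' t V Sd e y p) :
    ∃ q ∈ Sd, 1 ≤ e q ∧ ((t q = 2 ∧ v ∈ c q ∧ q ≠ z ∧ ∃ v', v' ≠ v ∧ c q = {v, v'} ∧ v' ∈ Sd ∧
      t v' = 1 ∧ 1 ≤ e v') ∨ (t q = 3 ∧ z ∈ c q)) := by
  have hz : z ∈ c' v := (S.dual _ _).1 (by rw [cz]; exact mem_singleton_self _)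
  obtain ⟨mz, tz, -⟩ := S.chd (Or.inl hv) hz
  by_contra h
  push Not at h
  apply hR
  refine ⟨v, z, hv, mz, tv, by omega, cz, c2, ev, ez, ?_, ?_⟩
  · intro q hq hqz
    by_contra h1
    obtain ⟨mq, tq, cq⟩ := S.chd (Or.inl hv) hq
    have h2 := (h q mq (by omega)).1 (by omega) cq hqz
    by_cases h3 : (c q).card = 2
    · obtain ⟨v', h4, h5⟩ := card_two_other h3 cq
      obtain ⟨q4, q5, q6⟩ := S.cov mq (by omega) (by omega)
        (show v' ∈ c q by rw [h5]; exact mem_insert_of_mem (mem_singleton_self _))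
      have := h2 v' h4 h5 q4 (by omega)
      omega
    · have h4 := S.c2 q
      have h5 := (S.ne q mq).card_pos
      exact hqz (S.pd q mq z mz (by omega) (by omega) (by omega) ez (by omega)
        (by rw [cz, card_singleton]) ⟨v, cq, c2⟩
        ⟨v, by rw [cz]; exact mem_singleton_self _, c2⟩)
  · intro q hq
    by_contra h1
    obtain ⟨mq, tq, cq⟩ := S.chd (Or.inl mz) hq
    exact (h q mq (by omega)).2 (by omega) cq

/-- a single positive near element -/
lemma single_near {x1 : P} (h1 : x1 ∈ Sd) (t1 : t x1 = 1)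
    (hN : ∀ x ∈ Sd, t x = 1 → 0 < gg c c' e x → x = x1) (h4 : 4 ≤ ∑ z ∈ Sd, gg c c' e z) :
    ∃ y p, RF c c' t V Sd e y p := by
  have g1 := S.gg2 x1
  obtain ⟨w, hw, tw, gw⟩ : ∃ w ∈ Sd, t w = 2 ∧ 0 < gg c c' e w := by
    by_contra h
    push Not at h
    have h2 := S.sum_le {x1} (by
      intro z hz hg
      rw [mem_singleton]
      rcases S.pos_t' hz hg with h3 | h3
      · exact hN z hz h3 hg
      · have := h z hz h3
        omega)
    rw [sum_singleton] at h2
    omega
  have g2 := S.gg2 w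
  have hwx : x1 ≠ w := by rintro rfl; omega
  have h5 := S.sum_le {x1, w} (by
    intro z hz hg
    rw [mem_insert, mem_singleton]
    rcases S.pos_t' hz hg with h3 | h3
    · exact Or.inl (hN z hz h3 hg)
    · exact Or.inr (S.far_one hz hw h3 tw hg gw))
  rw [sum_pair hwx] at h5
  obtain ⟨-, hx2⟩ := gg_pos (show 0 < gg c c' e x1 by omega)
  obtain ⟨k1, k2, -⟩ := S.pos_two h1 (show 0 < gg c c' e x1 by omega)
  obtain ⟨m1, m2, -⟩ := S.pos_two hw gw
  have ew := S.far_two hw tw gw
  have e1 := S.kl_e k2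
  by_cases hin : x1 ∈ c w
  · exfalso
    obtain ⟨x', hne, hc⟩ := card_two_other m1 hin
    have hx' : x' ∈ c w := by rw [hc]; exact mem_insert_of_mem (mem_singleton_self _)
    obtain ⟨a, s, as, ux, sx', ax', ma, ms, ds⟩ :=
      S.common hw tw (by omega) hin hx' hne.symm k1
    obtain ⟨q4, q5, q6⟩ := S.cov hw (by omega) (by omega) hx'
    have sx : s ∈ c x1 := by rw [ux]; exact mem_insert_of_mem (mem_singleton_self _)
    have key : ¬ (e s < e x1 ∧ e s < e x') := by
      rintro ⟨b1, b2⟩
      have := S.shared_one hne.symm sx sx' b1 b2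
      omega
    obtain ⟨q, hq, hlt⟩ := m2
    rw [hc, mem_insert, mem_singleton] at hq
    rcases hq with rfl | rfl
    · have b1 := S.kd_all h1 ((S.dual _ _).1 hin) hlt s sx
      have b2 : ¬ e s < e x' := fun h => key ⟨b1, h⟩
      have b3 := S.kd_all q4 ((S.dual _ _).1 hx') (by omega) s sx'
      omega
    · have b1 := S.kd_all q4 ((S.dual _ _).1 hx') hlt s sx'
      by_cases b2 : e x1 < e w
      · have b3 := S.kd_all h1 ((S.dual _ _).1 hin) b2 s sx
        exact key ⟨b3, b1⟩
      · exact key ⟨by omega, b1⟩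
  · obtain ⟨x, x', hne, hc⟩ := card_eq_two.1 m1
    have hx : x ∈ c w := by rw [hc]; exact mem_insert_self _ _
    have hx' : x' ∈ c w := by rw [hc]; exact mem_insert_of_mem (mem_singleton_self _)
    obtain ⟨a4, a5, a6⟩ := S.cov hw (by omega) (by omega) hx
    obtain ⟨b4, b5, b6⟩ := S.cov hw (by omega) (by omega) hx'
    obtain ⟨z, hz, ez⟩ := S.tch x1 h1 t1 e1
    obtain ⟨mz, tz, cz⟩ := S.chd (Or.inl h1) hz
    have hzw : z ≠ w := by
      rintro rfl
      exact hin cz
    have d1 : x1 ≠ x := by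
      rintro rfl
      exact hin hx
    have d2 : x1 ≠ x' := by
      rintro rfl
      exact hin hx'
    have n1 : [w, x, x', x1, z].Nodup := by
      simp only [List.nodup_cons, List.mem_cons, List.not_mem_nil, or_false, not_or, List.nodup_nil,
        and_true, not_false_eq_true]
      and_intros
      all_goals first
        | assumption
        | (apply Ne.symm; assumption)
        | (intro hnd; subst hnd; omega)
        | (intro hnd; rw [hnd] at *; omega)
    have n2 : ∀ z' ∈ [w, x, x', x1, z], z' ∈ Sd ∪ V := by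
      simp only [List.forall_mem_cons, mem_union, List.not_mem_nil, false_imp_iff, implies_true,
        and_true]
      and_intros
      all_goals first
        | exact Or.inl (by assumption)
        | exact Or.inr (by assumption)
    have hE := S.en_list _ n1 n2
    simp only [List.map_cons, List.sum_cons, List.map_nil, List.sum_nil] at hE
    have n3 : 6 ≤ ([w, x, x', x1, z].map e).sum := by
      simp only [List.map_cons, List.sum_cons, List.map_nil, List.sum_nil]
      omega
    have hV : ∀ s ∈ V, e s = 0 := by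
      intro s hs
      have ts := S.tV s hs
      apply S.rest_zero n1 n2 n3 (mem_union_right _ hs)
      intro h5
      simp only [List.mem_cons, List.not_mem_nil, or_false] at h5
      rcases h5 with rfl | rfl | rfl | rfl | rfl <;> omega
    by_cases h3 : (c z).card = 2
    · exfalso
      obtain ⟨q, hq, hcq⟩ := card_two_other h3 cz
      have hq' : q ∈ c z := by rw [hcq]; exact mem_insert_of_mem (mem_singleton_self _)
      obtain ⟨q4, q5, q6⟩ := S.cov mz (by omega) (by omega) hq'
      obtain ⟨a, s, as, ux, sx', ax', ma, ms, ds⟩ :=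
        S.common mz (by omega) (by omega) cz hq' hq.symm k1
      have sx : s ∈ c x1 := by rw [ux]; exact mem_insert_of_mem (mem_singleton_self _)
      have := hV s ms
      have := S.shared_one hq.symm sx sx' (by omega) (by omega)
      omega
    · have h6 := S.c2 z
      have h7 := (S.ne z mz).card_pos
      obtain ⟨y, hy⟩ := card_eq_one.1 (show (c z).card = 1 by omega)
      have hy2 : y = x1 := by
        rw [hy, mem_singleton] at cz
        exact cz.symm
      subst hy2
      refine ⟨y, z, h1, mz, t1, by omega, hy, k1, e1, ez, ?_, ?_⟩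
      · intro q hq hqz
        obtain ⟨mq, tq, cq⟩ := S.chd (Or.inl h1) hq
        apply S.rest_zero n1 n2 n3 (mem_union_left _ mq)
        intro h5
        simp only [List.mem_cons, List.not_mem_nil, or_false] at h5
        rcases h5 with h5 | h5 | h5 | h5 | h5
        · subst h5; exact hin cq
        · subst h5; omega
        · subst h5; omega
        · subst h5; omega
        · exact hqz h5
      · intro q hq
        obtain ⟨mq, tq, cq⟩ := S.chd (Or.inl mz) hq
        apply S.rest_zero n1 n2 n3 (mem_union_left _ mq)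
        intro h5
        simp only [List.mem_cons, List.not_mem_nil, or_false] at h5
        rcases h5 with rfl | rfl | rfl | rfl | rfl <;> omega

end OS

end Pool.Agent.GaussPoset.Win.So
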