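import Pool.Agent.W_448so_h63.DD

/-!
Classification of the cores of S9 (row 476), one side of the window: a third positive near
element beside a joined pair.
-/

set_option autoImplicit false

namespace Pool.Agent.GaussPoset.Win.So

set_option linter.unusedSectionVars false

open Finset I2

universe u

variable {P : Type u} [DecidableEq P]

variable {c c' : P → Finset P} {e : P → ℕ} {t : P → ℕ} {V Sd : Finset P}

namespace OS

variable (S : OS c c' t V Sd e)

include S

lemma sites_zero {l : List P} (n1 : l.Nodup) (n2 : ∀ z ∈ l, z ∈ Sd ∪ V)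
    (n3 : 6 ≤ (l.map e).sum) (hl : ∀ z ∈ l, 1 ≤ t z) : ∀ s ∈ V, e s = 0 := by
  intro s hs
  have ts := S.tV s hs
  apply S.rest_zero n1 n2 n3 (mem_union_right _ hs)
  intro h5
  have := hl s h5
  omega

lemma no_share {w x x' a s b v s' : P} (T : TT c c' t V Sd w x x' a s b) (ex : 1 ≤ e x)
    (ex' : 1 ≤ e x') (ev : 1 ≤ e v) (vx : v ≠ x) (vx' : v ≠ x') (hs : e s = 0) (hs' : e s' = 0)
    (h1 : s' ∈ c x) (h2 : s' ∈ c v) : gg c c' e x ≤ 0 := by
  have h3 : s ≠ s' := by
    rintro rfl
    have h4 : v ∈ c' s := (S.dual _ _).1 h2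
    rw [T.ds, mem_insert, mem_singleton] at h4
    rcases h4 with h4 | h4
    · exact vx h4
    · exact vx' h4
  exact S.shared_two h3 T.xx' vx.symm T.sx T.sx' (by omega) (by omega) h1 h2 (by omega) (by omega)

lemma third_ii1 {w x x' a s b v z : P} (T : TT c c' t V Sd w x x' a s b) (ew : 1 ≤ e w)
    (gx : 0 < gg c c' e x) (gx' : 0 < gg c c' e x') (hv : v ∈ Sd) (tv : t v = 1)
    (gv : 0 < gg c c' e v) (vx : v ≠ x) (vx' : v ≠ x') (mz : z ∈ Sd) (tz : t z = 2)
    (ez : 1 ≤ e z) (cz : c z = {v, x}) :
    ∑ z ∈ Sd, gg c c' e z ≤ 5 ∧ Out c c' t V Sd e := by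
  have mw := T.mw
  have mx := T.mx
  have mx' := T.mx'
  have ms := T.ms
  have tw := T.tw
  have tx := T.tx
  have tx' := T.tx'
  have xx' := T.xx'
  have ts := S.tV s T.ms
  obtain ⟨v1, v2, -⟩ := S.pos_two hv gv
  obtain ⟨x1, x2, -⟩ := S.pos_two mx gx
  obtain ⟨y1, y2, -⟩ := S.pos_two mx' gx'
  have ev := S.kl_e v2
  have ex := S.kl_e x2
  have ex' := S.kl_e y2
  have hvz : v ∈ c z := by rw [cz]; exact mem_insert_self _ _
  have hxz : x ∈ c z := by rw [cz]; exact mem_insert_of_mem (mem_singleton_self _)
  have hzw : z ≠ w := by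
    rintro rfl
    rw [T.uw, mem_insert, mem_singleton] at hvz
    rcases hvz with h | h
    · exact vx h
    · exact vx' h
  obtain ⟨a1, s1, as1, ux1, sv, av, ma1, ms1, ds1⟩ := S.common mz tz ez hxz hvz vx.symm x1
  have ts1 := S.tV s1 ms1
  have sx1 : s1 ∈ c x := by rw [ux1]; exact mem_insert_of_mem (mem_singleton_self _)
  have hss : s ≠ s1 := by
    rintro rfl
    have h4 : v ∈ c' s := (S.dual _ _).1 sv
    rw [T.ds, mem_insert, mem_singleton] at h4
    rcases h4 with h4 | h4
    · exact vx h4
    · exact vx' h4
  have n1 : [w, x, x', v, z].Nodup := by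
    simp only [List.nodup_cons, List.mem_cons, List.not_mem_nil, or_false, not_or, List.nodup_nil,
      and_true, not_false_eq_true]
    and_intros
    all_goals first
      | assumption
      | (apply Ne.symm; assumption)
      | (intro hnd; subst hnd; omega)
      | (intro hnd; rw [hnd] at *; omega)
  have n2 : ∀ z' ∈ [w, x, x', v, z], z' ∈ Sd ∪ V := by
    simp only [List.forall_mem_cons, mem_union, List.not_mem_nil, false_imp_iff, implies_true,
      and_true]
    and_intros
    all_goals first
      | exact Or.inl (by assumption)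
      | exact Or.inr (by assumption)
  have hE := S.en_list _ n1 n2
  simp only [List.map_cons, List.sum_cons, List.map_nil, List.sum_nil] at hE
  by_cases hk : e w ≤ e x ∧ e w ≤ e x'
  swap
  · exfalso
    have n3 : 6 ≤ ([w, x, x', v, z].map e).sum := by
      simp only [List.map_cons, List.sum_cons, List.map_nil, List.sum_nil]
      omega
    have hV := S.sites_zero n1 n2 n3 (by
      simp only [List.forall_mem_cons, List.not_mem_nil, false_imp_iff, implies_true, and_true]
      omega)
    have := S.no_share T ex ex' ev vx vx' (hV s ms) (hV s1 ms1) sx1 sv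
    omega
  by_cases hB : e x ≤ e s ∨ e x' ≤ e s
  · have n4 : [w, x, x', v, z, s].Nodup := by
      simp only [List.nodup_cons, List.mem_cons, List.not_mem_nil, or_false, not_or, List.nodup_nil,
        and_true, not_false_eq_true]
      and_intros
      all_goals first
        | assumption
        | (apply Ne.symm; assumption)
        | (intro hnd; subst hnd; omega)
        | (intro hnd; rw [hnd] at *; omega)
    have n5 : ∀ z' ∈ [w, x, x', v, z, s], z' ∈ Sd ∪ V := by
      simp only [List.forall_mem_cons, mem_union, List.not_mem_nil, false_imp_iff, implies_true,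
        and_true]
      and_intros
      all_goals first
        | exact Or.inl (by assumption)
        | exact Or.inr (by assumption)
    have n6 : 6 ≤ ([w, x, x', v, z, s].map e).sum := by
      simp only [List.map_cons, List.sum_cons, List.map_nil, List.sum_nil]
      omega
    have hE := S.en_list _ n4 n5
    simp only [List.map_cons, List.sum_cons, List.map_nil, List.sum_nil] at hE
    have hs1 : e s1 = 0 := by
      apply S.rest_zero n4 n5 n6 (mem_union_right _ ms1)
      intro h5
      simp only [List.mem_cons, List.not_mem_nil, or_false] at h5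
      rcases h5 with h5 | h5 | h5 | h5 | h5 | h5
      · subst h5; omega
      · subst h5; omega
      · subst h5; omega
      · subst h5; omega
      · subst h5; omega
      · exact hss h5.symm
    refine ⟨?_, Or.inl ⟨w, x, x', a, s, b, S.stateB T ew gx gx' hk.1 hk.2 hB⟩⟩
    have hF := S.sum_le {x, x', v} (by
      intro q hq hg
      obtain ⟨-, ⟨q1, q2, q3⟩, -⟩ := S.pos_two hq hg
      have q4 := S.rest_pos n4 n5 n6 (mem_union_left _ hq) (by omega)
      simp only [List.mem_cons, List.not_mem_nil, or_false] at q4
      simp only [mem_insert, mem_singleton]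
      rcases q4 with h5 | h5 | h5 | h5 | h5 | h5
      · subst h5
        obtain ⟨-, -, q5⟩ := S.cov hq (by omega) (by omega) q2
        omega
      · exact Or.inl h5
      · exact Or.inr (Or.inl h5)
      · exact Or.inr (Or.inr h5)
      · subst h5
        obtain ⟨-, -, q5⟩ := S.cov hq (by omega) (by omega) q2
        omega
      · subst h5
        exact absurd ms (S.disj hq))
    rw [sum_insert (by simp only [mem_insert, mem_singleton, not_or]; exact ⟨xx', vx.symm⟩),
      sum_pair vx'.symm] at hF
    have g1 := S.shared_one vx.symm sx1 sv (by omega) (by omega)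
    have g2 := S.shared_one vx sv sx1 (by omega) (by omega)
    have g3 := S.gg2 x'
    omega
  · push Not at hB
    have hs1 : 1 ≤ e s1 := by
      by_contra h5
      have := S.shared_two hss T.xx' vx.symm T.sx T.sx' (by omega) (by omega) sx1 sv
        (by omega) (by omega)
      omega
    have n4 : [w, x, x', v, z, s1].Nodup := by
      simp only [List.nodup_cons, List.mem_cons, List.not_mem_nil, or_false, not_or, List.nodup_nil,
        and_true, not_false_eq_true]
      and_intros
      all_goals first
        | assumption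
        | (apply Ne.symm; assumption)
        | (intro hnd; subst hnd; omega)
        | (intro hnd; rw [hnd] at *; omega)
    have n5 : ∀ z' ∈ [w, x, x', v, z, s1], z' ∈ Sd ∪ V := by
      simp only [List.forall_mem_cons, mem_union, List.not_mem_nil, false_imp_iff, implies_true,
        and_true]
      and_intros
      all_goals first
        | exact Or.inl (by assumption)
        | exact Or.inr (by assumption)
    have n6 : 6 ≤ ([w, x, x', v, z, s1].map e).sum := by
      simp only [List.map_cons, List.sum_cons, List.map_nil, List.sum_nil]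
      omega
    have hE := S.en_list _ n4 n5
    simp only [List.map_cons, List.sum_cons, List.map_nil, List.sum_nil] at hE
    obtain ⟨a2, s2, b2, T2⟩ := S.mkTT mz tz ez cz vx v1 x1
    have hs2 : s2 = s1 := by
      have h5 := T2.sx'
      rw [ux1, mem_insert, mem_singleton] at h5
      rcases h5 with h5 | h5
      · exact absurd (h5 ▸ T2.sx) av
      · exact h5
    refine ⟨?_, Or.inl ⟨z, v, x, a2, s2, b2, S.stateB T2 ez gv gx (by omega) (by omega)
      (by rw [hs2]; omega)⟩⟩
    have hF := S.sum_le {x, x', v} (by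
      intro q hq hg
      obtain ⟨-, ⟨q1, q2, q3⟩, -⟩ := S.pos_two hq hg
      have q4 := S.rest_pos n4 n5 n6 (mem_union_left _ hq) (by omega)
      simp only [List.mem_cons, List.not_mem_nil, or_false] at q4
      simp only [mem_insert, mem_singleton]
      rcases q4 with h5 | h5 | h5 | h5 | h5 | h5
      · subst h5
        obtain ⟨-, -, q5⟩ := S.cov hq (by omega) (by omega) q2
        omega
      · exact Or.inl h5
      · exact Or.inr (Or.inl h5)
      · exact Or.inr (Or.inr h5)
      · subst h5
        obtain ⟨-, -, q5⟩ := S.cov hq (by omega) (by omega) q2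
        omega
      · subst h5
        exact absurd ms1 (S.disj hq))
    rw [sum_insert (by simp only [mem_insert, mem_singleton, not_or]; exact ⟨xx', vx.symm⟩),
      sum_pair vx'.symm] at hF
    have g1 := S.shared_one xx' T.sx T.sx' (by omega) (by omega)
    have g2 := S.shared_one xx'.symm T.sx' T.sx (by omega) (by omega)
    have g3 := S.gg2 v
    omega

lemma third_ii2 {w x x' a s b v v' z : P} (T : TT c c' t V Sd w x x' a s b) (ew : 1 ≤ e w)
    (gx : 0 < gg c c' e x) (gx' : 0 < gg c c' e x') (h4 : 4 ≤ ∑ z ∈ Sd, gg c c' e z)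
    (hv : v ∈ Sd) (tv : t v = 1)
    (gv : 0 < gg c c' e v) (vx : v ≠ x) (vx' : v ≠ x') (mz : z ∈ Sd) (tz : t z = 2)
    (ez : 1 ≤ e z) (cz : c z = {v, v'}) (vv' : v ≠ v') (v'x : v' ≠ x) (v'x' : v' ≠ x') :
    ∑ z ∈ Sd, gg c c' e z ≤ 5 ∧ Out c c' t V Sd e := by
  have mw := T.mw
  have mx := T.mx
  have mx' := T.mx'
  have ms := T.ms
  have tw := T.tw
  have tx := T.tx
  have tx' := T.tx'
  have xx' := T.xx'
  have ts := S.tV s T.ms
  obtain ⟨v1, v2, -⟩ := S.pos_two hv gv
  obtain ⟨x1, x2, -⟩ := S.pos_two mx gx
  obtain ⟨y1, y2, -⟩ := S.pos_two mx' gx'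
  have ev := S.kl_e v2
  have ex := S.kl_e x2
  have ex' := S.kl_e y2
  have hvz : v ∈ c z := by rw [cz]; exact mem_insert_self _ _
  have hvz' : v' ∈ c z := by rw [cz]; exact mem_insert_of_mem (mem_singleton_self _)
  obtain ⟨mv', tv', ev'⟩ := S.cov mz (by omega) ez hvz'
  have hzw : z ≠ w := by
    rintro rfl
    rw [T.uw, mem_insert, mem_singleton] at hvz
    rcases hvz with h | h
    · exact vx h
    · exact vx' h
  have n1 : [w, x, x', z, v, v'].Nodup := by
    simp only [List.nodup_cons, List.mem_cons, List.not_mem_nil, or_false, not_or, List.nodup_nil,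
      and_true, not_false_eq_true]
    and_intros
    all_goals first
      | assumption
      | (apply Ne.symm; assumption)
      | (intro hnd; subst hnd; omega)
      | (intro hnd; rw [hnd] at *; omega)
  have n2 : ∀ z' ∈ [w, x, x', z, v, v'], z' ∈ Sd ∪ V := by
    simp only [List.forall_mem_cons, mem_union, List.not_mem_nil, false_imp_iff, implies_true,
      and_true]
    and_intros
    all_goals first
      | exact Or.inl (by assumption)
      | exact Or.inr (by assumption)
  have hE := S.en_list _ n1 n2
  have n3 : 6 ≤ ([w, x, x', z, v, v'].map e).sum := by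
    simp only [List.map_cons, List.sum_cons, List.map_nil, List.sum_nil]
    omega
  simp only [List.map_cons, List.sum_cons, List.map_nil, List.sum_nil] at hE
  have hV := S.sites_zero n1 n2 n3 (by
    simp only [List.forall_mem_cons, List.not_mem_nil, false_imp_iff, implies_true, and_true]
    omega)
  have hF := S.sum_le {x, x', v, v'} (by
    intro q hq hg
    obtain ⟨-, ⟨q1, q2, q3⟩, -⟩ := S.pos_two hq hg
    have q4 := S.rest_pos n1 n2 n3 (mem_union_left _ hq) (by omega)
    simp only [List.mem_cons, List.not_mem_nil, or_false] at q4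
    simp only [mem_insert, mem_singleton]
    rcases q4 with h5 | h5 | h5 | h5 | h5 | h5
    · subst h5
      obtain ⟨-, -, q5⟩ := S.cov hq (by omega) (by omega) q2
      omega
    · exact Or.inl h5
    · exact Or.inr (Or.inl h5)
    · subst h5
      obtain ⟨-, -, q5⟩ := S.cov hq (by omega) (by omega) q2
      omega
    · exact Or.inr (Or.inr (Or.inl h5))
    · exact Or.inr (Or.inr (Or.inr h5)))
  rw [sum_insert (by
      simp only [mem_insert, mem_singleton, not_or]
      exact ⟨xx', vx.symm, v'x.symm⟩),
    sum_insert (by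
      simp only [mem_insert, mem_singleton, not_or]
      exact ⟨vx'.symm, v'x'.symm⟩),
    sum_pair vv'] at hF
  obtain ⟨a1, s1, as1, ux1, sv, av, ma1, ms1, ds1⟩ := S.common mz tz ez hvz hvz' vv' v1
  have sv1 : s1 ∈ c v := by rw [ux1]; exact mem_insert_of_mem (mem_singleton_self _)
  have e0 := hV s ms
  have e1 := hV s1 ms1
  have g1 := S.shared_one xx' T.sx T.sx' (by omega) (by omega)
  have g2 := S.shared_one xx'.symm T.sx' T.sx (by omega) (by omega)
  have g3 := S.shared_one vv' sv1 sv (by omega) (by omega)
  have g4 := S.shared_one vv'.symm sv sv1 (by omega) (by omega)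
  refine ⟨by omega, ?_⟩
  obtain ⟨v3, -, -⟩ := S.pos_two mv' (show 0 < gg c c' e v' by omega)
  obtain ⟨a2, s2, b2, T2⟩ := S.mkTT mz tz ez cz vv' v1 v3
  refine Or.inr (Or.inr (Or.inr ⟨w, x, x', a, s, b, z, v, v', a2, s2, b2, T, T2, ?_, ?_⟩))
  · rw [Finset.disjoint_left]
    intro q hq hq'
    have k1 : q ∈ c x ∨ q ∈ c x' := by
      simp only [mem_insert, mem_singleton] at hq
      rcases hq with rfl | rfl | rfl
      · exact Or.inl T.ax
      · exact Or.inl T.sx
      · exact Or.inr T.bx'
    have k2 : q ∈ c v ∨ q ∈ c v' := by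
      simp only [mem_insert, mem_singleton] at hq'
      rcases hq' with rfl | rfl | rfl
      · exact Or.inl T2.ax
      · exact Or.inl T2.sx
      · exact Or.inr T2.bx'
    have k3 : e q = 0 := by
      rcases k1 with k1 | k1
      · exact hV q (S.site mx tx k1).1
      · exact hV q (S.site mx' tx' k1).1
    rcases k1 with k1 | k1 <;> rcases k2 with k2 | k2
    · have := S.no_share T ex ex' ev vx vx' e0 k3 k1 k2
      omega
    · have := S.no_share T ex ex' ev' v'x v'x' e0 k3 k1 k2
      omega
    · have := S.no_share T.symm ex' ex ev vx' vx e0 k3 k1 k2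
      omega
    · have := S.no_share T.symm ex' ex ev' v'x' v'x e0 k3 k1 k2
      omega
  · refine ⟨n1, ?_⟩
    simp only [List.forall_mem_cons, List.not_mem_nil, false_imp_iff, implies_true, and_true]
    exact ⟨ew, ex, ex', ez, ev, ev'⟩

lemma third_i {w x x' a s b v z : P} (T : TT c c' t V Sd w x x' a s b) (ew : 1 ≤ e w)
    (gx : 0 < gg c c' e x) (gx' : 0 < gg c c' e x')
    (hv : v ∈ Sd) (tv : t v = 1)
    (gv : 0 < gg c c' e v) (vx : v ≠ x) (vx' : v ≠ x') (mz : z ∈ Sd) (tz : t z = 2)
    (ez : 1 ≤ e z) (cz : c z = {v}) (hR : ¬ ∃ y p, RF c c' t V Sd e y p) :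
    ∑ z ∈ Sd, gg c c' e z ≤ 5 ∧ Out c c' t V Sd e := by
  have mw := T.mw
  have mx := T.mx
  have mx' := T.mx'
  have ms := T.ms
  have tw := T.tw
  have tx := T.tx
  have tx' := T.tx'
  have xx' := T.xx'
  have ts := S.tV s T.ms
  obtain ⟨v1, v2, -⟩ := S.pos_two hv gv
  obtain ⟨x1, x2, -⟩ := S.pos_two mx gx
  obtain ⟨y1, y2, -⟩ := S.pos_two mx' gx'
  have ev := S.kl_e v2
  have ex := S.kl_e x2
  have ex' := S.kl_e y2
  have hvw : v ∉ c w := by
    rw [T.uw, mem_insert, mem_singleton]
    rintro (h | h)
    · exact vx h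
    · exact vx' h
  have hvz : v ∈ c z := by rw [cz]; exact mem_singleton_self _
  have hzw : z ≠ w := by
    rintro rfl
    exact hvw hvz
  obtain ⟨q, mq, eq, hq⟩ := S.rf_or hv tv v1 ev cz ez hR
  have hqz : q ≠ z := by
    rcases hq with ⟨-, -, h, -⟩ | ⟨h, -⟩
    · exact h
    · rintro rfl
      omega
  have hqw : q ≠ w := by
    rcases hq with ⟨-, h, -, -⟩ | ⟨h, -⟩
    · rintro rfl
      exact hvw h
    · rintro rfl
      omega
  have tq : t q = 2 ∨ t q = 3 := by
    rcases hq with ⟨h, -⟩ | ⟨h, -⟩
    · exact Or.inl h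
    · exact Or.inr h
  have n1 : [w, x, x', q, z, v].Nodup := by
    simp only [List.nodup_cons, List.mem_cons, List.not_mem_nil, or_false, not_or, List.nodup_nil,
      and_true, not_false_eq_true]
    and_intros
    all_goals first
      | assumption
      | (apply Ne.symm; assumption)
      | (intro hnd; subst hnd; omega)
      | (intro hnd; rw [hnd] at *; omega)
  have n2 : ∀ z' ∈ [w, x, x', q, z, v], z' ∈ Sd ∪ V := by
    simp only [List.forall_mem_cons, mem_union, List.not_mem_nil, false_imp_iff, implies_true,
      and_true]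
    and_intros
    all_goals first
      | exact Or.inl (by assumption)
      | exact Or.inr (by assumption)
  have hE := S.en_list _ n1 n2
  have n3 : 6 ≤ ([w, x, x', q, z, v].map e).sum := by
    simp only [List.map_cons, List.sum_cons, List.map_nil, List.sum_nil]
    omega
  simp only [List.map_cons, List.sum_cons, List.map_nil, List.sum_nil] at hE
  have hV := S.sites_zero n1 n2 n3 (by
    simp only [List.forall_mem_cons, List.not_mem_nil, false_imp_iff, implies_true, and_true]
    omega)
  have e0 := hV s ms
  rcases hq with ⟨tq, hvq, -, v', hv', cq, mv', tv', ev'⟩ | ⟨tq, hzq⟩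
  · exfalso
    have hv'q : v' ∈ c q := by rw [cq]; exact mem_insert_of_mem (mem_singleton_self _)
    obtain ⟨a1, s1, as1, ux1, sv, av, ma1, ms1, ds1⟩ := S.common mq tq (by omega) hvq hv'q hv'.symm v1
    have sv1 : s1 ∈ c v := by rw [ux1]; exact mem_insert_of_mem (mem_singleton_self _)
    have q4 := S.rest_pos n1 n2 n3 (mem_union_left _ mv') ev'
    simp only [List.mem_cons, List.not_mem_nil, or_false] at q4
    rcases q4 with h5 | h5 | h5 | h5 | h5 | h5
    · subst h5; omega
    · subst h5
      have := S.no_share T ex ex' ev vx vx' e0 (hV s1 ms1) sv sv1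
      omega
    · subst h5
      have := S.no_share T.symm ex' ex ev vx' vx e0 (hV s1 ms1) sv sv1
      omega
    · subst h5; omega
    · subst h5; omega
    · exact hv' h5
  · have hF := S.sum_le {x, x', v} (by
      intro q' hq' hg
      obtain ⟨-, ⟨q1, q2, q3⟩, -⟩ := S.pos_two hq' hg
      have q4 := S.rest_pos n1 n2 n3 (mem_union_left _ hq') (by omega)
      simp only [List.mem_cons, List.not_mem_nil, or_false] at q4
      simp only [mem_insert, mem_singleton]
      rcases q4 with h5 | h5 | h5 | h5 | h5 | h5
      · subst h5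
        obtain ⟨-, -, q5⟩ := S.cov hq' (by omega) (by omega) q2
        omega
      · exact Or.inl h5
      · exact Or.inr (Or.inl h5)
      · subst h5
        obtain ⟨-, -, q5⟩ := S.cov hq' (by omega) (by omega) q2
        omega
      · subst h5
        obtain ⟨-, -, q5⟩ := S.cov hq' (by omega) (by omega) q2
        omega
      · exact Or.inr (Or.inr h5))
    rw [sum_insert (by simp only [mem_insert, mem_singleton, not_or]; exact ⟨xx', vx.symm⟩),
      sum_pair vx'.symm] at hF
    have g1 := S.shared_one xx' T.sx T.sx' (by omega) (by omega)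
    have g2 := S.shared_one xx'.symm T.sx' T.sx (by omega) (by omega)
    have g3 := S.gg2 v
    refine ⟨by omega, Or.inr (Or.inr (Or.inl ⟨w, x, x', a, s, b, q, z, v, T, hv, mz, mq, tv, tz, tq,
      v1, cz, ?_, ?_, ?_⟩))⟩
    · by_cases hc : (c q).card = 2
      · right
        obtain ⟨q', h6, h7⟩ := card_two_other hc hzq
        have h8 : q' ∈ c q := by rw [h7]; exact mem_insert_of_mem (mem_singleton_self _)
        obtain ⟨r1, r2, r3⟩ := S.cov mq (by omega) (by omega) h8
        have q4 := S.rest_pos n1 n2 n3 (mem_union_left _ r1) r3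
        simp only [List.mem_cons, List.not_mem_nil, or_false] at q4
        rcases q4 with h5 | h5 | h5 | h5 | h5 | h5
        · rw [h7, h5]
        · subst h5; omega
        · subst h5; omega
        · subst h5; omega
        · exact absurd h5 h6
        · subst h5; omega
      · left
        have h6 := S.c2 q
        have h7 := (S.ne q mq).card_pos
        obtain ⟨y, hy⟩ := card_eq_one.1 (show (c q).card = 1 by omega)
        rw [hy, mem_singleton] at hzq
        rw [hy, hzq]
    · rw [Finset.disjoint_left]
      intro q' hq hq'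
      have k1 : q' ∈ c x ∨ q' ∈ c x' := by
        simp only [mem_insert, mem_singleton] at hq
        rcases hq with rfl | rfl | rfl
        · exact Or.inl T.ax
        · exact Or.inl T.sx
        · exact Or.inr T.bx'
      have k3 := hV q' (S.site hv tv hq').1
      rcases k1 with k1 | k1
      · have := S.no_share T ex ex' ev vx vx' e0 k3 k1 hq'
        omega
      · have := S.no_share T.symm ex' ex ev vx' vx e0 k3 k1 hq'
        omega
    · refine ⟨n1, ?_⟩
      simp only [List.forall_mem_cons, List.not_mem_nil, false_imp_iff, implies_true, and_true]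
      exact ⟨ew, ex, ex', eq, ez, ev⟩

/-- a third positive near element beside a joined pair -/
theorem third {w x x' a s b v : P} (T : TT c c' t V Sd w x x' a s b) (ew : 1 ≤ e w)
    (gx : 0 < gg c c' e x) (gx' : 0 < gg c c' e x') (h4 : 4 ≤ ∑ z ∈ Sd, gg c c' e z)
    (hv : v ∈ Sd) (tv : t v = 1) (gv : 0 < gg c c' e v) (vx : v ≠ x) (vx' : v ≠ x')
    (hR : ¬ ∃ y p, RF c c' t V Sd e y p) :
    ∑ z ∈ Sd, gg c c' e z ≤ 5 ∧ Out c c' t V Sd e := by
  obtain ⟨v1, v2, -⟩ := S.pos_two hv gv
  obtain ⟨z, hz, ez⟩ := S.tch v hv tv (S.kl_e v2)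
  obtain ⟨mz, tz, cz⟩ := S.chd (Or.inl hv) hz
  by_cases h2 : (c z).card = 2
  · obtain ⟨v', hne, hc⟩ := card_two_other h2 cz
    by_cases h5 : v' = x
    · subst h5
      exact S.third_ii1 T ew gx gx' hv tv gv vx vx' mz (by omega) ez hc
    · by_cases h6 : v' = x'
      · subst h6
        exact S.third_ii1 T.symm ew gx' gx hv tv gv vx' vx mz (by omega) ez hc
      · exact S.third_ii2 T ew gx gx' h4 hv tv gv vx vx' mz (by omega) ez hc hne.symm h5 h6
  · have h6 := S.c2 z
    have h7 := (S.ne z mz).card_pos
    obtain ⟨y, hy⟩ := card_eq_one.1 (show (c z).card = 1 by omega)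
    have hy2 : y = v := by
      rw [hy, mem_singleton] at cz
      exact cz.symm
    subst hy2
    exact S.third_i T ew gx gx' hv tv gv vx vx' mz (by omega) ez hy hR

end OS

end Pool.Agent.GaussPoset.Win.So
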