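import Pool.Agent.W_448so_h63.DE

/-!
Classification of the cores of S9 (row 476), one side of the window: the one-sided theorem.
-/

set_option autoImplicit false

namespace Pool.Agent.GaussPoset.Win.So

set_option linter.unusedSectionVars false

open Finset I2

universe u

variable {P : Type u} [DecidableEq P]

variable {c c' : P → Finset P} {e : P → ℕ} {t : P → ℕ} {V Sd : Finset P}

namespace OS

variable (S : OS c c' t V Sd e)

include S

/-- both near elements above a killer kill the common site -/
lemma stateA_s {w x x' a s b : P} (T : TT c c' t V Sd w x x' a s b) (h : e x < e w) :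
    e s < e x ∧ e s < e x' := by
  have k1 := S.kd_all T.mx ((S.dual _ _).1 T.xw) h s T.sx
  refine ⟨k1, ?_⟩
  by_contra h5
  have := S.kd_all T.mx' ((S.dual _ _).1 T.xw') (by omega) s T.sx'
  omega

theorem joined_pair {w x x' a s b : P} (T : TT c c' t V Sd w x x' a s b) (ew : 1 ≤ e w)
    (gx : 0 < gg c c' e x) (gx' : 0 < gg c c' e x') (h4 : 4 ≤ ∑ z ∈ Sd, gg c c' e z)
    (hR : ¬ ∃ y p, RF c c' t V Sd e y p) :
    ∑ z ∈ Sd, gg c c' e z ≤ 5 ∧ Out c c' t V Sd e := by
  have mw := T.mw
  have mx := T.mx
  have mx' := T.mx'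
  have ms := T.ms
  have tw := T.tw
  have tx := T.tx
  have tx' := T.tx'
  have xx' := T.xx'
  have ts := S.tV s T.ms
  obtain ⟨x1, x2, -⟩ := S.pos_two mx gx
  obtain ⟨y1, y2, -⟩ := S.pos_two mx' gx'
  have ex := S.kl_e x2
  have ex' := S.kl_e y2
  by_cases hN : ∃ v ∈ Sd, t v = 1 ∧ 0 < gg c c' e v ∧ v ≠ x ∧ v ≠ x'
  · obtain ⟨v, hv, tv, gv, vx, vx'⟩ := hN
    exact S.third T ew gx gx' h4 hv tv gv vx vx' hR
  have hN' : ∀ v ∈ Sd, t v = 1 → 0 < gg c c' e v → v = x ∨ v = x' := by
    intro v hv tv gv
    by_contra h5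
    rw [not_or] at h5
    exact hN ⟨v, hv, tv, gv, h5.1, h5.2⟩
  by_cases hF : ∃ v ∈ Sd, t v = 2 ∧ 0 < gg c c' e v
  · obtain ⟨v, hv, tv, gv⟩ := hF
    have ev := S.far_two hv tv gv
    obtain ⟨v1, v2, -⟩ := S.pos_two hv gv
    have hs := S.sum_le {x, x', v} (by
      intro q hq hg
      simp only [mem_insert, mem_singleton]
      rcases S.pos_t' hq hg with h6 | h6
      · rcases hN' q hq h6 hg with h7 | h7
        · exact Or.inl h7
        · exact Or.inr (Or.inl h7)
      · exact Or.inr (Or.inr (S.far_one hq hv h6 tv hg gv)))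
    have hxv : x ≠ v := by rintro rfl; omega
    have hxv' : x' ≠ v := by rintro rfl; omega
    rw [sum_insert (by simp only [mem_insert, mem_singleton, not_or]; exact ⟨xx', hxv⟩),
      sum_pair hxv'] at hs
    have gv2 := S.gg2 v
    by_cases hvw : v = w
    · subst hvw
      have key : e s < e x ∧ e s < e x' := by
        obtain ⟨q, hq, hlt⟩ := v2
        rw [T.uw, mem_insert, mem_singleton] at hq
        rcases hq with rfl | rfl
        · exact S.stateA_s T hlt
        · exact (S.stateA_s T.symm hlt).symm
      have g1 := S.shared_one xx' T.sx T.sx' key.1 key.2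
      have g2 := S.shared_one xx'.symm T.sx' T.sx key.2 key.1
      refine ⟨by omega, ?_⟩
      obtain ⟨q, hq, hlt⟩ := v2
      rw [T.uw, mem_insert, mem_singleton] at hq
      rcases hq with rfl | rfl
      · rcases S.stateA T ex ex' h4 hlt with h | ⟨z, h⟩
        · exact Or.inl ⟨_, _, _, _, _, _, h⟩
        · exact Or.inr (Or.inl ⟨_, _, _, _, _, _, z, T, by omega, by omega, h⟩)
      · rcases S.stateA T.symm ex' ex h4 hlt with h | ⟨z, h⟩
        · exact Or.inl ⟨_, _, _, _, _, _, h⟩
        · exact Or.inr (Or.inl ⟨_, _, _, _, _, _, z, T.symm, by omega, by omega, h⟩)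
    · exfalso
      obtain ⟨x3, h31, h32, h33⟩ : ∃ x3 ∈ c v, x3 ≠ x ∧ x3 ≠ x' := by
        by_contra h5
        push Not at h5
        have h6 : c v ⊆ {x, x'} := by
          intro q hq
          rw [mem_insert, mem_singleton]
          by_cases h7 : q = x
          · exact Or.inl h7
          · exact Or.inr (h5 q hq h7)
        have h7 : c v = {x, x'} := by
          apply Finset.eq_of_subset_of_card_le h6
          rw [card_pair xx']
          omega
        have h8 : x ∈ c v := by rw [h7]; exact mem_insert_self _ _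
        have h9 : x' ∈ c v := by rw [h7]; exact mem_insert_of_mem (mem_singleton_self _)
        exact hvw (S.nc x mx x' mx' xx' tx tx' x1 y1 v w ((S.dual _ _).1 h8) ((S.dual _ _).1 h9)
          ((S.dual _ _).1 T.xw) ((S.dual _ _).1 T.xw') (by omega) ew)
      obtain ⟨x4, h41, h42⟩ := card_two_other v1 h31
      have h43 : x4 ∈ c v := by rw [h42]; exact mem_insert_of_mem (mem_singleton_self _)
      obtain ⟨a4, a5, a6⟩ := S.cov hv (by omega) (by omega) h31
      obtain ⟨b4, b5, b6⟩ := S.cov hv (by omega) (by omega) h43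
      have n1 : [w, v, x, x', x3].Nodup := by
        simp only [List.nodup_cons, List.mem_cons, List.not_mem_nil, or_false, not_or, List.nodup_nil,
          and_true, not_false_eq_true]
        and_intros
        all_goals first
          | assumption
          | (apply Ne.symm; assumption)
          | (intro hnd; subst hnd; omega)
          | (intro hnd; rw [hnd] at *; omega)
      have n2 : ∀ z' ∈ [w, v, x, x', x3], z' ∈ Sd ∪ V := by
        simp only [List.forall_mem_cons, mem_union, List.not_mem_nil, false_imp_iff, implies_true,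
          and_true]
        and_intros
        all_goals first
          | exact Or.inl (by assumption)
          | exact Or.inr (by assumption)
      have hE := S.en_list _ n1 n2
      have n3 : 6 ≤ ([w, v, x, x', x3].map e).sum := by
        simp only [List.map_cons, List.sum_cons, List.map_nil, List.sum_nil]
        omega
      simp only [List.map_cons, List.sum_cons, List.map_nil, List.sum_nil] at hE
      have hV := S.sites_zero n1 n2 n3 (by
        simp only [List.forall_mem_cons, List.not_mem_nil, false_imp_iff, implies_true, and_true]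
        omega)
      have e0 := hV s ms
      have q4 := S.rest_pos n1 n2 n3 (mem_union_left _ b4) b6
      simp only [List.mem_cons, List.not_mem_nil, or_false] at q4
      have key : ∀ {x x' a b : P}, TT c c' t V Sd w x x' a s b → x ∈ c v → (c x).card = 2 →
          1 ≤ e x → 1 ≤ e x' → x3 ≠ x → x3 ≠ x' → gg c c' e x ≤ 0 := by
        intro x x' a b T h1 h2 h3 h3' h4 h5
        obtain ⟨a1, s1, as1, ux1, sv, av, ma1, ms1, ds1⟩ :=
          S.common hv tv (by omega) h1 h31 h4.symm h2
        have sv1 : s1 ∈ c x := by rw [ux1]; exact mem_insert_of_mem (mem_singleton_self _)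
        exact S.no_share T h3 h3' a6 h4 h5 e0 (hV s1 ms1) sv1 sv
      rcases q4 with h5 | h5 | h5 | h5 | h5
      · subst h5; omega
      · subst h5; omega
      · subst h5
        have := key T h43 x1 ex ex' h32 h33
        omega
      · subst h5
        have := key T.symm h43 y1 ex' ex h33 h32
        omega
      · exact h41 h5
  · have hs := S.sum_le {x, x'} (by
      intro q hq hg
      simp only [mem_insert, mem_singleton]
      rcases S.pos_t' hq hg with h6 | h6
      · exact hN' q hq h6 hg
      · exact absurd ⟨q, hq, h6, hg⟩ hF)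
    rw [sum_pair xx'] at hs
    have g1 := S.gg2 x
    have g2 := S.gg2 x'
    have hns : ¬ (e s < e x ∧ e s < e x') := by
      rintro ⟨h5, h6⟩
      have := S.shared_one xx' T.sx T.sx' h5 h6
      omega
    have k1 : ¬ e x < e w := fun h => hns (S.stateA_s T h)
    have k2 : ¬ e x' < e w := fun h => hns (S.stateA_s T.symm h).symm
    exact ⟨by omega, Or.inl ⟨_, _, _, _, _, _, S.stateB T ew gx gx' (by omega) (by omega)
      (by omega)⟩⟩

/-- no joined pair, one of the two positive near elements has a private child -/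
lemma unj_i {x1 x2 x1' z1 z2 : P} (hJ : ∀ w ∈ Sd, t w = 2 → 1 ≤ e w → ∀ x x', c w = {x, x'} →
      x ≠ x' → 0 < gg c c' e x → 0 < gg c c' e x' → False)
    (h4 : 4 ≤ ∑ z ∈ Sd, gg c c' e z) (h1 : x1 ∈ Sd) (t1 : t x1 = 1) (g1 : 0 < gg c c' e x1)
    (h2 : x2 ∈ Sd) (t2 : t x2 = 1) (g2 : 0 < gg c c' e x2) (h12 : x1 ≠ x2)
    (m1 : z1 ∈ Sd) (tz1 : t z1 = 2) (ez1 : 1 ≤ e z1) (m2 : z2 ∈ Sd) (tz2 : t z2 = 2)
    (ez2 : 1 ≤ e z2) (cz1 : c z1 = {x1, x1'}) (hx1' : x1 ≠ x1') (cz2 : c z2 = {x2}) :
    ∃ y p, RF c c' t V Sd e y p := by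
  by_contra hR
  obtain ⟨a1, a2, -⟩ := S.pos_two h1 g1
  obtain ⟨b1, b2, -⟩ := S.pos_two h2 g2
  have e1 := S.kl_e a2
  have e2 := S.kl_e b2
  have hx1 : x1 ∈ c z1 := by rw [cz1]; exact mem_insert_self _ _
  have hx1'z : x1' ∈ c z1 := by rw [cz1]; exact mem_insert_of_mem (mem_singleton_self _)
  obtain ⟨c4, c5, c6⟩ := S.cov m1 (by omega) (by omega) hx1'z
  have hx2 : x2 ∉ c z1 := by
    intro h5
    rw [cz1, mem_insert, mem_singleton] at h5
    rcases h5 with h5 | h5
    · exact h12 h5.symm
    · subst h5
      exact hJ z1 m1 tz1 ez1 x1 x2 cz1 hx1' g1 g2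
  have n0 : x1' ≠ x2 := by
    rintro rfl
    exact hx2 hx1'z
  have hz12 : z1 ≠ z2 := by
    rintro rfl
    exact hx2 (by rw [cz2]; exact mem_singleton_self _)
  obtain ⟨q, mq, eq, hq⟩ := S.rf_or h2 t2 b1 e2 cz2 ez2 hR
  have hqz : q ≠ z2 := by
    rcases hq with ⟨-, -, h, -⟩ | ⟨h, -⟩
    · exact h
    · rintro rfl
      omega
  have hqw : q ≠ z1 := by
    rcases hq with ⟨-, h, -, -⟩ | ⟨h, -⟩
    · rintro rfl
      exact hx2 h
    · rintro rfl
      omega
  have tq : t q = 2 ∨ t q = 3 := by
    rcases hq with ⟨h, -⟩ | ⟨h, -⟩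
    · exact Or.inl h
    · exact Or.inr h
  have n1 : [z1, z2, x1, x1', x2, q].Nodup := by
    simp only [List.nodup_cons, List.mem_cons, List.not_mem_nil, or_false, not_or, List.nodup_nil,
      and_true, not_false_eq_true]
    and_intros
    all_goals first
      | assumption
      | (apply Ne.symm; assumption)
      | (intro hnd; subst hnd; omega)
      | (intro hnd; rw [hnd] at *; omega)
  have n2 : ∀ z' ∈ [z1, z2, x1, x1', x2, q], z' ∈ Sd ∪ V := by
    simp only [List.forall_mem_cons, mem_union, List.not_mem_nil, false_imp_iff, implies_true,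
      and_true]
    and_intros
    all_goals first
      | exact Or.inl (by assumption)
      | exact Or.inr (by assumption)
  have hE := S.en_list _ n1 n2
  have n3 : 6 ≤ ([z1, z2, x1, x1', x2, q].map e).sum := by
    simp only [List.map_cons, List.sum_cons, List.map_nil, List.sum_nil]
    omega
  simp only [List.map_cons, List.sum_cons, List.map_nil, List.sum_nil] at hE
  have hV := S.sites_zero n1 n2 n3 (by
    simp only [List.forall_mem_cons, List.not_mem_nil, false_imp_iff, implies_true, and_true]
    omega)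
  have hF := S.sum_le {x1, x1', x2} (by
    intro q' hq' hg
    obtain ⟨-, ⟨q1, q2, q3⟩, -⟩ := S.pos_two hq' hg
    have q4 := S.rest_pos n1 n2 n3 (mem_union_left _ hq') (by omega)
    simp only [List.mem_cons, List.not_mem_nil, or_false] at q4
    simp only [mem_insert, mem_singleton]
    rcases q4 with h5 | h5 | h5 | h5 | h5 | h5
    · subst h5
      obtain ⟨-, -, q5⟩ := S.cov hq' (by omega) (by omega) q2
      omega
    · subst h5
      obtain ⟨-, -, q5⟩ := S.cov hq' (by omega) (by omega) q2
      omega
    · exact Or.inl h5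
    · exact Or.inr (Or.inl h5)
    · exact Or.inr (Or.inr h5)
    · subst h5
      obtain ⟨-, -, q5⟩ := S.cov hq' (by omega) (by omega) q2
      omega)
  rw [sum_insert (by simp only [mem_insert, mem_singleton, not_or]; exact ⟨hx1', h12⟩),
    sum_pair n0] at hF
  obtain ⟨a3, s1, as1, ux1, sv, av, ma1, ms1, ds1⟩ :=
    S.common m1 tz1 (by omega) hx1 hx1'z hx1' a1
  have sv1 : s1 ∈ c x1 := by rw [ux1]; exact mem_insert_of_mem (mem_singleton_self _)
  have e0 := hV s1 ms1
  have g3 := S.shared_one hx1' sv1 sv (by omega) (by omega)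
  have g4 := S.gg2 x2
  have g5 : gg c c' e x1' ≤ 0 := by
    by_contra h5
    exact hJ z1 m1 tz1 ez1 x1 x1' cz1 hx1' g1 (by omega)
  omega

/-- no joined pair, no private children -/
lemma unj_ii {x1 x2 x1' x2' z1 z2 : P} (hJ : ∀ w ∈ Sd, t w = 2 → 1 ≤ e w → ∀ x x',
      c w = {x, x'} → x ≠ x' → 0 < gg c c' e x → 0 < gg c c' e x' → False)
    (h4 : 4 ≤ ∑ z ∈ Sd, gg c c' e z) (h1 : x1 ∈ Sd) (t1 : t x1 = 1) (g1 : 0 < gg c c' e x1)
    (h2 : x2 ∈ Sd) (t2 : t x2 = 1) (g2 : 0 < gg c c' e x2) (h12 : x1 ≠ x2)
    (m1 : z1 ∈ Sd) (tz1 : t z1 = 2) (ez1 : 1 ≤ e z1) (m2 : z2 ∈ Sd) (tz2 : t z2 = 2)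
    (ez2 : 1 ≤ e z2) (cz1 : c z1 = {x1, x1'}) (hx1' : x1 ≠ x1') (cz2 : c z2 = {x2, x2'})
    (hx2' : x2 ≠ x2') :
    ∑ z ∈ Sd, gg c c' e z ≤ 5 ∧ Out c c' t V Sd e := by
  obtain ⟨a1, a2, -⟩ := S.pos_two h1 g1
  obtain ⟨b1, b2, -⟩ := S.pos_two h2 g2
  have e1 := S.kl_e a2
  have e2 := S.kl_e b2
  have hx1 : x1 ∈ c z1 := by rw [cz1]; exact mem_insert_self _ _
  have hx1'z : x1' ∈ c z1 := by rw [cz1]; exact mem_insert_of_mem (mem_singleton_self _)
  have hx2 : x2 ∈ c z2 := by rw [cz2]; exact mem_insert_self _ _
  have hx2'z : x2' ∈ c z2 := by rw [cz2]; exact mem_insert_of_mem (mem_singleton_self _)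
  obtain ⟨c4, c5, c6⟩ := S.cov m1 (by omega) (by omega) hx1'z
  obtain ⟨d4, d5, d6⟩ := S.cov m2 (by omega) (by omega) hx2'z
  have g5 : ¬ 0 < gg c c' e x1' := fun h5 => hJ z1 m1 tz1 ez1 x1 x1' cz1 hx1' g1 h5
  have g6 : ¬ 0 < gg c c' e x2' := fun h5 => hJ z2 m2 tz2 ez2 x2 x2' cz2 hx2' g2 h5
  have n0 : x1' ≠ x2 := by
    rintro rfl
    exact g5 g2
  have n0' : x2' ≠ x1 := by
    rintro rfl
    exact g6 g1
  have hx2z : x2 ∉ c z1 := by
    rw [cz1, mem_insert, mem_singleton]
    rintro (h5 | h5)
    · exact h12 h5.symm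
    · exact n0 h5.symm
  have hx1z : x1 ∉ c z2 := by
    rw [cz2, mem_insert, mem_singleton]
    rintro (h5 | h5)
    · exact h12 h5
    · exact n0' h5.symm
  have hz12 : z1 ≠ z2 := by
    rintro rfl
    exact hx2z hx2
  obtain ⟨a3, s1, as1, ux1, sv, av, ma1, ms1, ds1⟩ :=
    S.common m1 tz1 (by omega) hx1 hx1'z hx1' a1
  have sv1 : s1 ∈ c x1 := by rw [ux1]; exact mem_insert_of_mem (mem_singleton_self _)
  obtain ⟨b3, s2, bs2, ux2, sv', bv', mb2, ms2, ds2⟩ :=
    S.common m2 tz2 (by omega) hx2 hx2'z hx2' b1
  have sv2 : s2 ∈ c x2 := by rw [ux2]; exact mem_insert_of_mem (mem_singleton_self _)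
  by_cases hv : x1' = x2'
  swap
  · exfalso
    have n1 : [z1, z2, x1, x1', x2, x2'].Nodup := by
      simp only [List.nodup_cons, List.mem_cons, List.not_mem_nil, or_false, not_or, List.nodup_nil,
        and_true, not_false_eq_true]
      and_intros
      all_goals first
        | assumption
        | (apply Ne.symm; assumption)
        | (intro hnd; subst hnd; omega)
        | (intro hnd; rw [hnd] at *; omega)
    have n2 : ∀ z' ∈ [z1, z2, x1, x1', x2, x2'], z' ∈ Sd ∪ V := by
      simp only [List.forall_mem_cons, mem_union, List.not_mem_nil, false_imp_iff, implies_true,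
        and_true]
      and_intros
      all_goals first
        | exact Or.inl (by assumption)
        | exact Or.inr (by assumption)
    have hE := S.en_list _ n1 n2
    have n3 : 6 ≤ ([z1, z2, x1, x1', x2, x2'].map e).sum := by
      simp only [List.map_cons, List.sum_cons, List.map_nil, List.sum_nil]
      omega
    simp only [List.map_cons, List.sum_cons, List.map_nil, List.sum_nil] at hE
    have hV := S.sites_zero n1 n2 n3 (by
      simp only [List.forall_mem_cons, List.not_mem_nil, false_imp_iff, implies_true, and_true]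
      omega)
    have hF := S.sum_le {x1, x2} (by
      intro q' hq' hg
      obtain ⟨-, ⟨q1, q2, q3⟩, -⟩ := S.pos_two hq' hg
      have q4 := S.rest_pos n1 n2 n3 (mem_union_left _ hq') (by omega)
      simp only [List.mem_cons, List.not_mem_nil, or_false] at q4
      simp only [mem_insert, mem_singleton]
      rcases q4 with h5 | h5 | h5 | h5 | h5 | h5
      · subst h5
        obtain ⟨-, -, q5⟩ := S.cov hq' (by omega) (by omega) q2
        omega
      · subst h5
        obtain ⟨-, -, q5⟩ := S.cov hq' (by omega) (by omega) q2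
        omega
      · exact Or.inl h5
      · subst h5
        exact absurd hg g5
      · exact Or.inr h5
      · subst h5
        exact absurd hg g6)
    rw [sum_pair h12] at hF
    have e3 := hV s1 ms1
    have e4 := hV s2 ms2
    have g3 := S.shared_one hx1' sv1 sv (by omega) (by omega)
    have g4 := S.shared_one hx2' sv2 sv' (by omega) (by omega)
    omega
  · subst hv
    have hss : s1 ≠ s2 := by
      rintro rfl
      have h5 : x2 ∈ c' s1 := by rw [ds2]; exact mem_insert_self _ _
      rw [ds1, mem_insert, mem_singleton] at h5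
      rcases h5 with h5 | h5
      · exact h12 h5.symm
      · exact n0 h5.symm
    have cv : (c x1').card = 2 := by
      have h5 : ({s1, s2} : Finset P) ⊆ c x1' := by
        intro q hq
        rw [mem_insert, mem_singleton] at hq
        rcases hq with rfl | rfl
        · exact sv
        · exact sv'
      have h6 := card_le_card h5
      rw [card_pair hss] at h6
      have := S.c2 x1'
      omega
    have ts1 := S.tV s1 ms1
    have ts2 := S.tV s2 ms2
    have n1 : [z1, z2, x1, x1', x2].Nodup := by
      simp only [List.nodup_cons, List.mem_cons, List.not_mem_nil, or_false, not_or, List.nodup_nil,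
        and_true, not_false_eq_true]
      and_intros
      all_goals first
        | assumption
        | (apply Ne.symm; assumption)
        | (intro hnd; subst hnd; omega)
        | (intro hnd; rw [hnd] at *; omega)
    have n2 : ∀ z' ∈ [z1, z2, x1, x1', x2], z' ∈ Sd ∪ V := by
      simp only [List.forall_mem_cons, mem_union, List.not_mem_nil, false_imp_iff, implies_true,
        and_true]
      and_intros
      all_goals first
        | exact Or.inl (by assumption)
        | exact Or.inr (by assumption)
    have hE := S.en_list _ n1 n2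
    simp only [List.map_cons, List.sum_cons, List.map_nil, List.sum_nil] at hE
    -- the positive elements are among x1, x2, z1, z2
    have hp : ∀ z ∈ Sd, 0 < gg c c' e z → z = x1 ∨ z = x2 ∨ z = z1 ∨ z = z2 := by
      intro q mq hg
      by_contra hne
      simp only [not_or] at hne
      obtain ⟨q1, q2, q3, q4⟩ := hne
      have q5 : q ≠ x1' := by
        rintro rfl
        exact g5 hg
      obtain ⟨-, q6, -⟩ := S.pos_two mq hg
      have q7 := S.kl_e q6
      have n4 : [q, z1, z2, x1, x1', x2].Nodup := by
        simp only [List.nodup_cons, List.mem_cons, List.not_mem_nil, or_false, not_or, List.nodup_nil,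
          and_true, not_false_eq_true]
        and_intros
        all_goals first
          | assumption
          | (apply Ne.symm; assumption)
          | (intro hnd; subst hnd; omega)
          | (intro hnd; rw [hnd] at *; omega)
      have n5 : ∀ z' ∈ [q, z1, z2, x1, x1', x2], z' ∈ Sd ∪ V := by
        simp only [List.forall_mem_cons, mem_union, List.not_mem_nil, false_imp_iff, implies_true,
          and_true]
        and_intros
        all_goals first
          | exact Or.inl (by assumption)
          | exact Or.inr (by assumption)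
      have hE' := S.en_list _ n4 n5
      have n6 : 6 ≤ ([q, z1, z2, x1, x1', x2].map e).sum := by
        simp only [List.map_cons, List.sum_cons, List.map_nil, List.sum_nil]
        omega
      simp only [List.map_cons, List.sum_cons, List.map_nil, List.sum_nil] at hE'
      rcases S.pos_t' mq hg with tq | tq
      · obtain ⟨z, hz, ez⟩ := S.tch q mq tq q7
        obtain ⟨mz, tz, cz⟩ := S.chd (Or.inl mq) hz
        have q8 := S.rest_pos n4 n5 n6 (mem_union_left _ mz) ez
        simp only [List.mem_cons, List.not_mem_nil, or_false] at q8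
        rcases q8 with h5 | h5 | h5 | h5 | h5 | h5
        · subst h5; omega
        · subst h5
          rw [cz1, mem_insert, mem_singleton] at cz
          rcases cz with cz | cz
          · exact q1 cz
          · exact q5 cz
        · subst h5
          rw [cz2, mem_insert, mem_singleton] at cz
          rcases cz with cz | cz
          · exact q2 cz
          · exact q5 cz
        · subst h5; omega
        · subst h5; omega
        · subst h5; omega
      · have := S.far_two mq tq hg
        omega
    have main : ∀ {x1 x2 z1 z2 s1 s2 : P}, x1 ∈ Sd → t x1 = 1 → (c x1).card = 2 → 1 ≤ e x1 →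
        x2 ∈ Sd → t x2 = 1 → 1 ≤ e x2 → x1 ≠ x2 → z1 ∈ Sd → t z1 = 2 → z2 ∈ Sd → t z2 = 2 →
        1 ≤ e z2 → z1 ≠ z2 → c z1 = {x1, x1'} → x1 ≠ x1' → x2 ≠ x1' →
        s1 ∈ c x1 → s1 ∈ c x1' → s2 ∈ c x2 → s2 ∈ c x1' →
        (∀ z ∈ Sd, 0 < gg c c' e z → z = x1 ∨ z = x2 ∨ z = z1 ∨ z = z2) → 0 < gg c c' e z1 →
        ∑ z ∈ Sd, gg c c' e z ≤ 5 ∧ Out c c' t V Sd e := by
      intro x1 x2 z1 z2 s1 s2 h1 t1 a1 e1 h2 t2 e2 h12 m1 tz1 m2 tz2 ez2 hz12 cz1 hx1' hx2'
        sv1 sv sv2 sv' hp gz
      have ez := S.far_two m1 tz1 gz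
      obtain ⟨-, k2, -⟩ := S.pos_two m1 gz
      have n1 : [z1, z2, x1, x1', x2].Nodup := by
        simp only [List.nodup_cons, List.mem_cons, List.not_mem_nil, or_false, not_or, List.nodup_nil,
          and_true, not_false_eq_true]
        and_intros
        all_goals first
          | assumption
          | (apply Ne.symm; assumption)
          | (intro hnd; subst hnd; omega)
          | (intro hnd; rw [hnd] at *; omega)
      have n2 : ∀ z' ∈ [z1, z2, x1, x1', x2], z' ∈ Sd ∪ V := by
        simp only [List.forall_mem_cons, mem_union, List.not_mem_nil, false_imp_iff, implies_true,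
          and_true]
        and_intros
        all_goals first
          | exact Or.inl (by assumption)
          | exact Or.inr (by assumption)
      have hE := S.en_list _ n1 n2
      have n3 : 6 ≤ ([z1, z2, x1, x1', x2].map e).sum := by
        simp only [List.map_cons, List.sum_cons, List.map_nil, List.sum_nil]
        omega
      simp only [List.map_cons, List.sum_cons, List.map_nil, List.sum_nil] at hE
      have hV := S.sites_zero n1 n2 n3 (by
        simp only [List.forall_mem_cons, List.not_mem_nil, false_imp_iff, implies_true, and_true]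
        omega)
      have e3 := hV s1 (S.site h1 t1 sv1).1
      have e4 := hV s2 (S.site h2 t2 sv2).1
      obtain ⟨a, s, b, T⟩ := S.mkTT m1 tz1 (by omega) cz1 hx1' a1 cv
      have hF := S.sum_le {x1, x2, z1} (by
        intro q mq hg
        simp only [mem_insert, mem_singleton]
        rcases hp q mq hg with h5 | h5 | h5 | h5
        · exact Or.inl h5
        · exact Or.inr (Or.inl h5)
        · exact Or.inr (Or.inr h5)
        · exfalso
          subst h5
          exact hz12 (S.far_one m1 m2 tz1 tz2 gz hg))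
      rw [sum_insert (by
          simp only [mem_insert, mem_singleton, not_or]
          exact ⟨h12, by rintro rfl; omega⟩),
        sum_pair (by rintro rfl; omega)] at hF
      have g3 := S.shared_one hx1' sv1 sv (by omega) (by omega)
      have g4 := S.shared_one hx2' sv2 sv' (by omega) (by omega)
      have g7 := S.gg2 z1
      refine ⟨by omega, ?_⟩
      rcases S.stateA T e1 c6 h4 (by omega) with h | ⟨z, h⟩
      · exact Or.inl ⟨_, _, _, _, _, _, h⟩
      · exact Or.inr (Or.inl ⟨_, _, _, _, _, _, z, T, by omega, by omega, h⟩)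
    by_cases gz1 : 0 < gg c c' e z1
    · exact main h1 t1 a1 e1 h2 t2 e2 h12 m1 tz1 m2 tz2 ez2 hz12 cz1 hx1' n0.symm sv1 sv sv2 sv'
        hp gz1
    · by_cases gz2 : 0 < gg c c' e z2
      · refine main h2 t2 b1 e2 h1 t1 e1 h12.symm m2 tz2 m1 tz1 ez1 hz12.symm cz2 hx2' hx1'
          sv2 sv' sv1 sv ?_ gz2
        intro z hz hg
        rcases hp z hz hg with h | h | h | h
        · exact Or.inr (Or.inl h)
        · exact Or.inl h
        · exact Or.inr (Or.inr (Or.inr h))
        · exact Or.inr (Or.inr (Or.inl h))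
      · exfalso
        have hF := S.sum_le {x1, x2} (by
          intro q mq hg
          simp only [mem_insert, mem_singleton]
          rcases hp q mq hg with h5 | h5 | h5 | h5
          · exact Or.inl h5
          · exact Or.inr h5
          · subst h5; exact absurd hg gz1
          · subst h5; exact absurd hg gz2)
        rw [sum_pair h12] at hF
        have g3 := S.gg2 x1
        have g4 := S.gg2 x2
        have k1 : 1 ≤ e s1 := by
          by_contra h5
          have := S.shared_one hx1' sv1 sv (by omega) (by omega)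
          omega
        have k2 : 1 ≤ e s2 := by
          by_contra h5
          have := S.shared_one hx2' sv2 sv' (by omega) (by omega)
          omega
        have hE' := S.en_list [z1, z2, x1, x1', x2, s1, s2] (by
              simp only [List.nodup_cons, List.mem_cons, List.not_mem_nil, or_false, not_or, List.nodup_nil,
                and_true, not_false_eq_true]
              and_intros
              all_goals first
                | assumption
                | (apply Ne.symm; assumption)
                | (intro hnd; subst hnd; omega)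
                | (intro hnd; rw [hnd] at *; omega)) (by
              simp only [List.forall_mem_cons, mem_union, List.not_mem_nil, false_imp_iff, implies_true,
                and_true]
              and_intros
              all_goals first
                | exact Or.inl (by assumption)
                | exact Or.inr (by assumption))
        simp only [List.map_cons, List.sum_cons, List.map_nil, List.sum_nil] at hE'
        omega

/-- THE ONE-SIDED CLASSIFICATION -/
theorem one_sided (h4 : 4 ≤ ∑ z ∈ Sd, gg c c' e z) (hR : ¬ ∃ y p, RF c c' t V Sd e y p) :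
    ∑ z ∈ Sd, gg c c' e z ≤ 5 ∧ Out c c' t V Sd e := by
  by_cases hJ : ∃ w ∈ Sd, t w = 2 ∧ 1 ≤ e w ∧ ∃ x x', c w = {x, x'} ∧ x ≠ x' ∧
      0 < gg c c' e x ∧ 0 < gg c c' e x'
  · obtain ⟨w, mw, tw, ew, x, x', cw, hne, gx, gx'⟩ := hJ
    obtain ⟨mx, -, -⟩ := S.cov mw (by omega) ew (show x ∈ c w by rw [cw]; exact mem_insert_self _ _)
    obtain ⟨mx', -, -⟩ := S.cov mw (by omega) ew
      (show x' ∈ c w by rw [cw]; exact mem_insert_of_mem (mem_singleton_self _))
    obtain ⟨a, s, b, T⟩ := S.mkTT mw tw ew cw hne (S.pos_two mx gx).1 (S.pos_two mx' gx').1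
    exact S.joined_pair T ew gx gx' h4 hR
  have hJ' : ∀ w ∈ Sd, t w = 2 → 1 ≤ e w → ∀ x x', c w = {x, x'} →
      x ≠ x' → 0 < gg c c' e x → 0 < gg c c' e x' → False := by
    intro w mw tw ew x x' cw hne gx gx'
    exact hJ ⟨w, mw, tw, ew, x, x', cw, hne, gx, gx'⟩
  -- a positive near element
  obtain ⟨x1, h1, t1, g1⟩ : ∃ x ∈ Sd, t x = 1 ∧ 0 < gg c c' e x := by
    by_contra h
    push Not at h
    by_cases hw : ∃ w ∈ Sd, 0 < gg c c' e w
    · obtain ⟨w, mw, gw⟩ := hw
      have tw : t w = 2 := by
        rcases S.pos_t' mw gw with h5 | h5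
        · have := h w mw h5
          omega
        · exact h5
      have hF := S.sum_le {w} (by
        intro q mq hg
        rw [mem_singleton]
        rcases S.pos_t' mq hg with h5 | h5
        · have := h q mq h5
          omega
        · exact S.far_one mq mw h5 tw hg gw)
      rw [sum_singleton] at hF
      have := S.gg2 w
      omega
    · have hF := S.sum_le ∅ (by
        intro q mq hg
        exact absurd ⟨q, mq, hg⟩ hw)
      rw [sum_empty] at hF
      omega
  obtain ⟨x2, h2, t2, g2, h12⟩ : ∃ x ∈ Sd, t x = 1 ∧ 0 < gg c c' e x ∧ x1 ≠ x := by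
    by_contra h
    push Not at h
    exact hR (S.single_near h1 t1 (fun x hx tx gx => (h x hx tx gx).symm) h4)
  obtain ⟨a1, a2, -⟩ := S.pos_two h1 g1
  obtain ⟨b1, b2, -⟩ := S.pos_two h2 g2
  obtain ⟨z1, hz1, ez1⟩ := S.tch x1 h1 t1 (S.kl_e a2)
  obtain ⟨z2, hz2, ez2⟩ := S.tch x2 h2 t2 (S.kl_e b2)
  obtain ⟨m1, tz1, cz1⟩ := S.chd (Or.inl h1) hz1
  obtain ⟨m2, tz2, cz2⟩ := S.chd (Or.inl h2) hz2
  have one : ∀ {z x : P}, z ∈ Sd → x ∈ c z → (c z).card ≠ 2 → c z = {x} := by
    intro z x mz hx hc
    have h6 := S.c2 z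
    have h7 := (S.ne z mz).card_pos
    obtain ⟨y, hy⟩ := card_eq_one.1 (show (c z).card = 1 by omega)
    rw [hy, mem_singleton] at hx
    rw [hy, hx]
  by_cases k1 : (c z1).card = 2
  · obtain ⟨x1', p1, p2⟩ := card_two_other k1 cz1
    by_cases k2 : (c z2).card = 2
    · obtain ⟨x2', r1, r2⟩ := card_two_other k2 cz2
      exact S.unj_ii hJ' h4 h1 t1 g1 h2 t2 g2 h12 m1 (by omega) ez1 m2 (by omega) ez2 p2 p1.symm
        r2 r1.symm
    · exact absurd (S.unj_i hJ' h4 h1 t1 g1 h2 t2 g2 h12 m1 (by omega) ez1 m2 (by omega) ez2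
        p2 p1.symm (one m2 cz2 k2)) hR
  · have k1' := one m1 cz1 k1
    by_cases k2 : (c z2).card = 2
    · obtain ⟨x2', r1, r2⟩ := card_two_other k2 cz2
      exact absurd (S.unj_i hJ' h4 h2 t2 g2 h1 t1 g1 h12.symm m2 (by omega) ez2 m1 (by omega) ez1
        r2 r1.symm k1') hR
    · exfalso
      have k2' := one m2 cz2 k2
      have h5 := S.pd z1 m1 z2 m2 (by omega) (by omega) ez1 ez2 (by rw [k1', card_singleton])
        (by rw [k2', card_singleton]) ⟨x1, cz1, a1⟩ ⟨x2, cz2, b1⟩
      subst h5
      rw [k1', mem_singleton] at cz2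
      exact h12 cz2.symm

end OS

end Pool.Agent.GaussPoset.Win.So
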