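import Pool.Agent.W_448so_h63.DF
import Pool.Agent.W_448so_h64.SoB

/-!
Classification of the cores of S9 (row 476), two sides: partners, one-sided data from two-sided data.
-/

set_option autoImplicit false

namespace Pool.Agent.GaussPoset.Win.So

set_option linter.unusedSectionVars false

open Finset I2

universe u

variable {P : Type u} [DecidableEq P]
variable {c c' : P → Finset P} {e : P → ℕ} {t t' : P → ℕ} {V Sd Sd' : Finset P} {psi : P → P}

lemma mem_KD {v : P} : v ∈ KD c' e V ↔ v ∈ V ∧ kd c' e v := by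
  classical
  unfold KD
  rw [mem_filter]

lemma side0_of (S : SO.Sde c c' t V Sd) : Side0 c c' t V Sd :=
  ⟨S.dual, S.c2, S.c2', S.ne, S.tS, S.tV, S.cin, S.cout⟩

lemma z_kS (S : Side0 c c' t V Sd) (adm : ∀ z ∈ Sd, ¬ (kd c' e z ∧ gu c e z)) :
    2 * SO.kS c c' V Sd e ≤ ∑ z ∈ Sd, gg c c' e z := by
  classical
  have h1 := S.sum_cc adm
  unfold SO.kS
  rw [mul_sub, ← h1]
  have h2 : ∑ z ∈ Sd, gg c c' e z = ∑ z ∈ KK c e Sd, max (cc c c' e z) 0 := by
    unfold KK gg
    rw [Finset.sum_filter]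
  rw [h2]
  exact Finset.sum_le_sum fun z _ => le_max_left _ _

lemma z_sum_le (F : Finset P) (h : ∀ z ∈ Sd, 0 < gg c c' e z → z ∈ F) :
    ∑ z ∈ Sd, gg c c' e z ≤ ∑ z ∈ F, gg c c' e z := by
  classical
  have h1 : ∑ z ∈ Sd, gg c c' e z = ∑ z ∈ Sd ∩ F, gg c c' e z := by
    symm
    apply Finset.sum_subset inter_subset_left
    intro z hz hz'
    by_contra h2
    have h3 := gg_nonneg (c := c) (c' := c') (e := e) z
    exact hz' (mem_inter.2 ⟨hz, h z hz (by omega)⟩)
  rw [h1]
  exact Finset.sum_le_sum_of_subset_of_nonneg inter_subset_right fun z _ _ => gg_nonneg z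

lemma z_sum_zero (h : ∀ z ∈ Sd, ¬ 0 < gg c c' e z) : ∑ z ∈ Sd, gg c c' e z ≤ 0 := by
  have := z_sum_le (c := c) (c' := c') (e := e) (Sd := Sd) ∅ (fun z hz hg => absurd hg (h z hz))
  rwa [sum_empty] at this

lemma z_sum_one (S : Side0 c c' t V Sd) {q : P} (h : ∀ z ∈ Sd, 0 < gg c c' e z → z = q) :
    ∑ z ∈ Sd, gg c c' e z ≤ 2 := by
  have := z_sum_le (c := c) (c' := c') (e := e) (Sd := Sd) {q}
    (fun z hz hg => mem_singleton.2 (h z hz hg))
  rw [sum_singleton] at this
  exact this.trans (gg_le (by norm_num) (S.cc_le_two q))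

lemma z_pos (S : Side0 c c' t V Sd) {z : P} (hz : z ∈ Sd) (h : 0 < gg c c' e z) :
    (c z).card = 2 ∧ kl c e z := by
  obtain ⟨h1, h2⟩ := gg_pos h
  refine ⟨?_, h1⟩
  by_contra h3
  have h4 := S.c2 z
  have h5 := (S.ne z hz).card_pos
  have h6 := cc_le_zero (c' := c') (show (c z).card = 1 by omega) h1
  omega

lemma z_kl {z : P} (h : kl c e z) : 1 ≤ e z := by
  obtain ⟨a, _, h⟩ := h
  omega

lemma z_cov (S : Side0 c c' t V Sd) (adm : ∀ z ∈ Sd, ¬ (kd c' e z ∧ gu c e z)) {z y : P}
    (hz : z ∈ Sd) (ht : 2 ≤ t z) (he : 1 ≤ e z) (hy : y ∈ c z) :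
    y ∈ Sd ∧ t z = t y + 1 ∧ 1 ≤ e y := by
  obtain ⟨h1, h2⟩ := S.cin z hz y hy
  have h3 : y ∈ Sd := by
    rcases h1 with h1 | h1
    · exact h1
    · have := S.tV y h1
      omega
  refine ⟨h3, h2, ?_⟩
  by_contra h4
  have h5 : kd c' e y := ⟨z, (S.dual z y).1 hy, by omega⟩
  obtain ⟨a, ha⟩ := S.ne y h3
  have := not_gu_of_kd adm h3 h5 a ha
  omega

lemma z_chd (S : Side0 c c' t V Sd) {x z : P} (hx : x ∈ Sd ∨ x ∈ V) (hz : z ∈ c' x) :
    z ∈ Sd ∧ t z = t x + 1 ∧ x ∈ c z := by
  have h1 := S.cout x hx z hz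
  have h2 := (S.dual z x).2 hz
  exact ⟨h1, (S.cin z h1 x h2).2, h2⟩

variable [Fintype P]

lemma tot {l : List P} (h : l.Nodup) : (l.map e).sum ≤ ∑ x, e x := by
  have h1 : (l.map e).sum = ∑ z ∈ l.toFinset, e z := by
    rw [List.sum_toFinset _ h]
  rw [h1]
  exact Finset.sum_le_sum_of_subset (subset_univ _)

lemma tot_zero {l : List P} (h : l.Nodup) {n : ℕ} (hE : ∑ x, e x ≤ n) (hl : n ≤ (l.map e).sum)
    {q : P} (hq : q ∉ l) : e q = 0 := by
  have h1 := tot (e := e) (List.nodup_cons.2 ⟨hq, h⟩)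
  rw [List.map_cons, List.sum_cons] at h1
  omega

lemma tot_pos {l : List P} (h : l.Nodup) {n : ℕ} (hE : ∑ x, e x ≤ n) (hl : n ≤ (l.map e).sum)
    {q : P} (hq : 1 ≤ e q) : q ∈ l := by
  by_contra h1
  have := tot_zero h hE hl h1
  omega


/-- PARTNER: an excited near element with an excited partner which is touched: then at most one
positive killer.  `n` excited, `u = psi n` excited and touched by `z`. -/
theorem partner_main (W : SO.Two c c' t t' V Sd Sd' psi)
    (C : SO.Cfg c c' t t' V Sd Sd' psi e) (hE : ∑ x, e x ≤ 6) {n z : P} (hn : n ∈ Sd)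
    (tn : t n = 1) (en : 1 ≤ e n) (c2 : (c n).card = 2) (hz : z ∈ c (psi n)) (ez : 1 ≤ e z) :
    SO.kS c c' V Sd e + SO.kS c' c V Sd' e ≤ 1 := by
  have S := side0_of W.s1
  have S' := side0_of W.s2
  obtain ⟨hu, tu, cu, -⟩ := W.psi1 n hn tn c2
  obtain ⟨hz', tz', cz'⟩ := z_chd S' (Or.inl hu) hz
  obtain ⟨-, -, eu⟩ := z_cov S' C.adm2 hz' (by omega) ez cz'
  obtain ⟨a, b, hab, hc⟩ := card_eq_two.1 c2
  have site : ∀ v, v ∈ c n → v ∈ V ∧ 1 ≤ e v ∧ (e n ≤ e v ∨ e (psi n) ≤ e v) := by
    intro v hv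
    obtain ⟨h1, h2⟩ := S.cin n hn v hv
    have h3 : v ∈ V := by
      rcases h1 with h1 | h1
      · have := S.tS v h1
        omega
      · exact h1
    have h4 : e n ≤ e v ∨ e (psi n) ≤ e v := by
      by_contra h5
      push Not at h5
      have k1 : v ∈ KD c' e V := mem_KD.2 ⟨h3, n, (S.dual _ _).1 hv, h5.1⟩
      have k2 : v ∈ KD c e V := by
        refine mem_KD.2 ⟨h3, psi n, (S'.dual _ _).1 ?_, h5.2⟩
        rw [cu]
        exact hv
      exact disjoint_left.1 C.dis k1 k2
    exact ⟨h3, by omega, h4⟩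
  obtain ⟨va, ea, ka⟩ := site a (by rw [hc]; exact mem_insert_self _ _)
  obtain ⟨vb, eb, kb⟩ := site b (by rw [hc]; exact mem_insert_of_mem (mem_singleton_self _))
  have sV : ∀ {x v : P}, x ∈ Sd → v ∈ V → x ≠ v := by
    rintro x v h1 h2 rfl
    exact disjoint_left.1 W.d1 h1 h2
  have sV' : ∀ {x v : P}, x ∈ Sd' → v ∈ V → x ≠ v := by
    rintro x v h1 h2 rfl
    exact disjoint_left.1 W.d2 h1 h2
  have sS : ∀ {x v : P}, x ∈ Sd → v ∈ Sd' → x ≠ v := by
    rintro x v h1 h2 rfl
    exact disjoint_left.1 W.d3 h1 h2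
  have hzu : z ≠ psi n := by
    intro h5
    rw [h5] at tz'
    omega
  have n0 : [n, psi n, z, a, b].Nodup := by
    simp only [List.nodup_cons, List.mem_cons, List.not_mem_nil, or_false, not_or, List.nodup_nil,
      and_true, not_false_eq_true]
    exact ⟨⟨sS hn hu, sS hn hz', sV hn va, sV hn vb⟩, ⟨hzu.symm, sV' hu va, sV' hu vb⟩,
      ⟨sV' hz' va, sV' hz' vb⟩, hab⟩
  have hT := tot (e := e) n0
  simp only [List.map_cons, List.sum_cons, List.map_nil, List.sum_nil] at hT
  have more : ∀ q, q ≠ n → q ≠ psi n → q ≠ z → q ≠ a → q ≠ b → 1 ≤ e q →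
      e q = 1 ∧ e n = 1 ∧ e (psi n) = 1 ∧ e z = 1 ∧ e a = 1 ∧ e b = 1 ∧
        ∀ q', q' ≠ n → q' ≠ psi n → q' ≠ z → q' ≠ a → q' ≠ b → 1 ≤ e q' → q' = q := by
    intro q h1 h2 h3 h4 h5 h6
    have n1 : [q, n, psi n, z, a, b].Nodup := by
      rw [List.nodup_cons]
      refine ⟨?_, n0⟩
      simp only [List.mem_cons, List.not_mem_nil, or_false, not_or]
      exact ⟨h1, h2, h3, h4, h5⟩
    have hT := tot (e := e) n1
    simp only [List.map_cons, List.sum_cons, List.map_nil, List.sum_nil] at hT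
    refine ⟨by omega, by omega, by omega, by omega, by omega, by omega, ?_⟩
    intro q' g1 g2 g3 g4 g5 g6
    have := tot_pos n1 hE (by
      simp only [List.map_cons, List.sum_cons, List.map_nil, List.sum_nil]
      omega) g6
    simp only [List.mem_cons, List.not_mem_nil, or_false] at this
    rcases this with h | h | h | h | h | h
    · exact h
    · exact absurd h g1
    · exact absurd h g2
    · exact absurd h g3
    · exact absurd h g4
    · exact absurd h g5
  have notn : e n = 1 → ¬ 0 < gg c c' e n := by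
    intro h1 h2
    obtain ⟨-, v, hv, hlt⟩ := z_pos S hn h2
    have := (site v hv).2.1
    omega
  have notu : e (psi n) = 1 → ¬ 0 < gg c' c e (psi n) := by
    intro h1 h2
    obtain ⟨-, v, hv, hlt⟩ := z_pos S' hu h2
    rw [cu] at hv
    have := (site v hv).2.1
    omega
  have notz : e z = 1 → ¬ 0 < gg c' c e z := by
    intro h1 h2
    obtain ⟨-, k⟩ := z_pos S' hz' h2
    have := S'.t_le_of_kl C.adm2 (t' z) z hz' k rfl
    omega
  have g1 := z_kS S C.adm1
  have g2 := z_kS S' C.adm2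
  by_cases hq : ∃ q ∈ Sd, q ≠ n ∧ 0 < gg c c' e q
  · obtain ⟨q, mq, qn, gq⟩ := hq
    obtain ⟨m1, m2, m3, m4, m5, m6, m7⟩ := more q qn (sS mq hu) (sS mq hz') (sV mq va) (sV mq vb)
      (z_kl (z_pos S mq gq).2)
    have h1 : ∑ z ∈ Sd, gg c c' e z ≤ 2 := by
      apply z_sum_one S (q := q)
      intro q' mq' gq'
      have hne : q' ≠ n := by
        rintro rfl
        exact notn m2 gq'
      exact m7 q' hne (sS mq' hu) (sS mq' hz') (sV mq' va) (sV mq' vb)
        (z_kl (z_pos S mq' gq').2)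
    have h2 : ∑ z ∈ Sd', gg c' c e z ≤ 0 := by
      apply z_sum_zero
      intro q' mq' gq'
      have hne : q' ≠ psi n := by
        rintro rfl
        exact notu m3 gq'
      have hne' : q' ≠ z := by
        rintro rfl
        exact notz m4 gq'
      have := m7 q' (sS hn mq').symm hne hne' (sV' mq' va) (sV' mq' vb)
        (z_kl (z_pos S' mq' gq').2)
      exact sS mq mq' this.symm
    omega
  · have h1 : ∀ z ∈ Sd, 0 < gg c c' e z → z = n := by
      intro z hz hg
      by_contra h5
      exact hq ⟨z, hz, h5, hg⟩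
    by_cases gn : 0 < gg c c' e n
    · have en2 : 2 ≤ e n := by
        by_contra h5
        exact notn (by omega) gn
      have h2 : ∑ z ∈ Sd', gg c' c e z ≤ 0 := by
        apply z_sum_zero
        intro q' mq' gq'
        have hne : q' ≠ psi n := by
          rintro rfl
          exact notu (by omega) gq'
        have hne' : q' ≠ z := by
          rintro rfl
          exact notz (by omega) gq'
        have := more q' (sS hn mq').symm hne hne' (sV' mq' va) (sV' mq' vb)
          (z_kl (z_pos S' mq' gq').2)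
        omega
      have h3 := z_sum_one S h1
      omega
    · have h2 : ∑ z ∈ Sd, gg c c' e z ≤ 0 := by
        apply z_sum_zero
        intro q mq gq
        rw [h1 q mq gq] at gq
        exact gn gq
      by_cases hq' : ∃ q ∈ Sd', q ≠ psi n ∧ q ≠ z ∧ 0 < gg c' c e q
      · obtain ⟨q, mq, q1, q2, gq⟩ := hq'
        obtain ⟨m1, m2, m3, m4, m5, m6, m7⟩ := more q (sS hn mq).symm q1 q2 (sV' mq va)
          (sV' mq vb) (z_kl (z_pos S' mq gq).2)
        have h3 : ∑ z ∈ Sd', gg c' c e z ≤ 2 := by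
          apply z_sum_one S' (q := q)
          intro q' mq' gq'
          have hne : q' ≠ psi n := by
            rintro rfl
            exact notu m3 gq'
          have hne' : q' ≠ z := by
            rintro rfl
            exact notz m4 gq'
          exact m7 q' (sS hn mq').symm hne hne' (sV' mq' va) (sV' mq' vb)
            (z_kl (z_pos S' mq' gq').2)
        omega
      · have h3 : ∀ q ∈ Sd', 0 < gg c' c e q → q = psi n ∨ q = z := by
          intro q mq gq
          by_contra h5
          rw [not_or] at h5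
          exact hq' ⟨q, mq, h5.1, h5.2, gq⟩
        by_cases g3 : 0 < gg c' c e (psi n)
        · have h4 : 2 ≤ e (psi n) := by
            by_contra h5
            exact notu (by omega) g3
          have h5 := z_sum_one S' (q := psi n) (e := e) (fun q mq gq => by
            rcases h3 q mq gq with h6 | h6
            · exact h6
            · subst h6
              exact absurd gq (notz (by omega)))
          omega
        · have h5 := z_sum_one S' (q := z) (e := e) (fun q mq gq => by
            rcases h3 q mq gq with h6 | h6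
            · subst h6
              exact absurd gq g3
            · exact h6)
          omega

end Pool.Agent.GaussPoset.Win.So
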