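import Pool.Agent.W_448so_h63.DG

/-!
Classification of the cores of S9 (row 476): energy five, structure of a side with surplus one.
-/

set_option autoImplicit false

namespace Pool.Agent.GaussPoset.Win.So

set_option linter.unusedSectionVars false

open Finset I2

universe u

variable {P : Type u} [DecidableEq P]
variable {c c' : P → Finset P} {e : P → ℕ} {t t' : P → ℕ} {V Sd Sd' : Finset P} {psi : P → P}

lemma one_cov (S : Side0 c c' t V Sd) {z x : P} (mz : z ∈ Sd) (hx : x ∈ c z)
    (hc : (c z).card ≠ 2) : c z = {x} := by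
  have h6 := S.c2 z
  have h7 := (S.ne z mz).card_pos
  obtain ⟨y, hy⟩ := card_eq_one.1 (show (c z).card = 1 by omega)
  rw [hy, mem_singleton] at hx
  rw [hy, hx]

/-- exactly the touched pair `x`, `x'` below which `w` hangs can be positive, sites are not excited -/
lemma t_of (S : OS c c' t V Sd e) {w x x' : P} (mw : w ∈ Sd) (tw : t w = 2) (ew : 1 ≤ e w)
    (cw : c w = {x, x'}) (hne : x ≠ x') (hp : ∀ z ∈ Sd, 0 < gg c c' e z → z = x ∨ z = x')
    (hV : ∀ s ∈ V, e s = 0) (h2 : 2 ≤ ∑ z ∈ Sd, gg c c' e z) :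
    ∃ a s b, TT c c' t V Sd w x x' a s b := by
  have hx : x ∈ c w := by rw [cw]; exact mem_insert_self _ _
  have hx' : x' ∈ c w := by rw [cw]; exact mem_insert_of_mem (mem_singleton_self _)
  obtain ⟨mx, tx, ex⟩ := S.cov mw (by omega) ew hx
  obtain ⟨mx', tx', ex'⟩ := S.cov mw (by omega) ew hx'
  have h3 := S.sum_le {x, x'} (by
    intro z hz hg
    rw [mem_insert, mem_singleton]
    exact hp z hz hg)
  rw [sum_pair hne] at h3
  have key : ∀ {x x' : P}, x ∈ Sd → x' ∈ Sd → x ∈ c w → x' ∈ c w → x ≠ x' → 1 ≤ e x → 1 ≤ e x' →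
      (c x).card = 2 → gg c c' e x ≤ 1 ∧ gg c c' e x' ≤ 1 := by
    intro x x' mx mx' hx hx' hne ex ex' h4
    obtain ⟨a1, s1, as1, ux1, sv, av, ma1, ms1, ds1⟩ := S.common mw tw ew hx hx' hne h4
    have sx1 : s1 ∈ c x := by rw [ux1]; exact mem_insert_of_mem (mem_singleton_self _)
    have := hV s1 ms1
    exact ⟨S.shared_one hne sx1 sv (by omega) (by omega),
      S.shared_one hne.symm sv sx1 (by omega) (by omega)⟩
  by_cases h4 : (c x).card = 2
  · obtain ⟨k1, k2⟩ := key mx mx' hx hx' hne ex ex' h4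
    exact S.mkTT mw tw ew cw hne h4 (S.pos_two mx' (by omega)).1
  · exfalso
    have h5 : ¬ 0 < gg c c' e x := fun h => h4 (S.pos_two mx h).1
    have h6 : (c x').card = 2 := (S.pos_two mx' (by omega)).1
    obtain ⟨k1, k2⟩ := key mx' mx hx' hx hne.symm ex' ex h6
    omega

/-- a side with surplus: an excited pendant or an excited double at distance two -/
lemma one_struct (S : OS c c' t V Sd e) (h2 : 1 ≤ ∑ z ∈ Sd, gg c c' e z) :
    (∃ y p, y ∈ Sd ∧ p ∈ Sd ∧ t y = 1 ∧ t p = 2 ∧ c p = {y} ∧ 1 ≤ e p ∧ 1 ≤ e y ∧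
      (c y).card = 2) ∨
    (∃ w x x', w ∈ Sd ∧ x ∈ Sd ∧ x' ∈ Sd ∧ t w = 2 ∧ t x = 1 ∧ t x' = 1 ∧ 1 ≤ e w ∧ 1 ≤ e x ∧
      1 ≤ e x' ∧ c w = {x, x'} ∧ x ≠ x') := by
  obtain ⟨q, mq, gq⟩ : ∃ q ∈ Sd, 0 < gg c c' e q := by
    by_contra h
    push Not at h
    have := S.sum_le ∅ (fun z hz hg => by
      have := h z hz
      omega)
    rw [sum_empty] at this
    omega
  obtain ⟨h3, h4, -⟩ := S.pos_two mq gq
  have eq := S.kl_e h4
  have dbl : ∀ {w x : P}, w ∈ Sd → t w = 2 → 1 ≤ e w → x ∈ c w → (c w).card = 2 →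
      (∃ w x x', w ∈ Sd ∧ x ∈ Sd ∧ x' ∈ Sd ∧ t w = 2 ∧ t x = 1 ∧ t x' = 1 ∧ 1 ≤ e w ∧ 1 ≤ e x ∧
      1 ≤ e x' ∧ c w = {x, x'} ∧ x ≠ x') := by
    intro w x mw tw ew hx hc
    obtain ⟨x', hne, hw⟩ := card_two_other hc hx
    have hx' : x' ∈ c w := by rw [hw]; exact mem_insert_of_mem (mem_singleton_self _)
    obtain ⟨mx, tx, ex⟩ := S.cov mw (by omega) ew hx
    obtain ⟨mx', tx', ex'⟩ := S.cov mw (by omega) ew hx'
    exact ⟨w, x, x', mw, mx, mx', tw, by omega, by omega, ew, ex, ex', hw, hne.symm⟩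
  rcases S.pos_t' mq gq with tq | tq
  · obtain ⟨z, hz, ez⟩ := S.tch q mq tq eq
    obtain ⟨mz, tz, cz⟩ := S.chd (Or.inl mq) hz
    by_cases h5 : (c z).card = 2
    · exact Or.inr (dbl mz (by omega) ez cz h5)
    · exact Or.inl ⟨q, z, mq, mz, tq, by omega, one_cov S.toSide0 mz cz h5, ez, eq, h3⟩
  · obtain ⟨x, x', hne, hc⟩ := card_eq_two.1 h3
    exact Or.inr (dbl mq tq eq (by rw [hc]; exact mem_insert_self _ _) h3)

variable [Fintype P]

lemma on_list {l : List P} (h : l.Nodup) (hE : ∑ x, e x ≤ l.length) (h1 : ∀ z ∈ l, 1 ≤ e z) :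
    ∀ q, e q = if q ∈ l then 1 else 0 := by
  have h2 : l.length ≤ (l.map e).sum := by
    clear hE h
    induction l with
    | nil => simp
    | cons a l ih =>
      rw [List.map_cons, List.sum_cons, List.length_cons]
      have := h1 a List.mem_cons_self
      have := ih (fun z hz => h1 z (List.mem_cons_of_mem _ hz))
      omega
  intro q
  split_ifs with hq
  · have h3 : (l.map e).sum = ∑ z ∈ l.toFinset, e z := by rw [List.sum_toFinset _ h]
    have h4 := List.toFinset_card_of_nodup h
    have h5 : q ∈ l.toFinset := List.mem_toFinset.2 hq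
    have h6 := Finset.add_sum_erase l.toFinset e h5
    have h7 : (l.toFinset.erase q).card ≤ ∑ z ∈ l.toFinset.erase q, e z := by
      rw [Finset.card_eq_sum_ones]
      apply Finset.sum_le_sum
      intro z hz
      rw [mem_erase, List.mem_toFinset] at hz
      exact h1 z hz.2
    rw [card_erase_of_mem h5] at h7
    have h8 := tot (e := e) h
    have h9 := h1 q hq
    omega
  · exact tot_zero h hE h2 hq

lemma on_list' {l : List P} (h : l.Nodup) (hE : ∑ x, e x ≤ l.length) (h1 : ∀ z ∈ l, 1 ≤ e z)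
    {F : Finset P} (hF : ∀ q, q ∈ l ↔ q ∈ F) : SO.On e F := by
  intro q
  rw [on_list h hE h1 q]
  simp only [hF]

/-- energy five: reflection structure and enough charge -/
lemma rf5 (S : OS c c' t V Sd e) {y p : P} (R : RF c c' t V Sd e y p)
    (h4 : 4 ≤ ∑ z ∈ Sd, gg c c' e z) (hE : ∑ x, e x ≤ 5) :
    ∃ w x x' a s b, TT c c' t V Sd w x x' a s b ∧ Disjoint {a, s, b} (c y) ∧
      SO.On e {w, x, x', p, y} := by
  have my := R.my
  have mp := R.mp
  have ty := R.ty
  have tp := R.tp
  have ey := R.hy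
  have ep := R.hp
  have noy : ∀ z, z ∈ Sd → 1 ≤ e z → z ≠ p → y ∉ c z := by
    intro z _ ez hne hy
    have := R.ch z ((S.dual _ _).1 hy) hne
    omega
  have hfar : ∀ w ∈ Sd, t w = 2 → ¬ 0 < gg c c' e w := by
    intro w mw tw gw
    obtain ⟨h1, -, -⟩ := S.pos_two mw gw
    have ew := S.far_two mw tw gw
    obtain ⟨x, x', hne, hc⟩ := card_eq_two.1 h1
    have hx : x ∈ c w := by rw [hc]; exact mem_insert_self _ _
    have hx' : x' ∈ c w := by rw [hc]; exact mem_insert_of_mem (mem_singleton_self _)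
    obtain ⟨mx, tx, ex⟩ := S.cov mw (by omega) (by omega) hx
    obtain ⟨mx', tx', ex'⟩ := S.cov mw (by omega) (by omega) hx'
    have hwp : w ≠ p := by
      rintro rfl
      rw [R.cp, card_singleton] at h1
      omega
    have hn := noy w mw (by omega) hwp
    have d1 : y ≠ x := by
      rintro rfl
      exact hn hx
    have d2 : y ≠ x' := by
      rintro rfl
      exact hn hx'
    have hT := tot (e := e) (show [w, x, x', p, y].Nodup by
          simp only [List.nodup_cons, List.mem_cons, List.not_mem_nil, or_false, not_or, List.nodup_nil,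
            and_true, not_false_eq_true]
          and_intros
          all_goals first
            | assumption
            | (apply Ne.symm; assumption)
            | (intro hnd; subst hnd; omega)
            | (intro hnd; rw [hnd] at *; omega))
    simp only [List.map_cons, List.sum_cons, List.map_nil, List.sum_nil] at hT
    omega
  obtain ⟨x1, m1, t1, g1, h1y⟩ : ∃ x ∈ Sd, t x = 1 ∧ 0 < gg c c' e x ∧ x ≠ y := by
    by_contra h
    push Not at h
    have h5 := S.sum_le {y} (fun z hz hg => by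
      rw [mem_singleton]
      rcases S.pos_t' hz hg with tz | tz
      · exact h z hz tz hg
      · exact absurd hg (hfar z hz tz))
    rw [sum_singleton] at h5
    have := S.gg2 y
    omega
  obtain ⟨k1, k2, -⟩ := S.pos_two m1 g1
  have e1 := S.kl_e k2
  obtain ⟨z1, hz1, ez1⟩ := S.tch x1 m1 t1 e1
  obtain ⟨mz, tz, cz⟩ := S.chd (Or.inl m1) hz1
  have hzp : z1 ≠ p := by
    rintro rfl
    rw [R.cp, mem_singleton] at cz
    exact h1y cz
  have hyz := noy z1 mz ez1 hzp
  have hc2 : (c z1).card = 2 := by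
    by_contra h5
    have h6 := one_cov S.toSide0 mz cz h5
    exact hzp (S.pd z1 mz p mp (by omega) tp ez1 ep (by rw [h6, card_singleton])
      (by rw [R.cp, card_singleton]) ⟨x1, cz, k1⟩ ⟨y, by rw [R.cp]; exact mem_singleton_self _, R.two⟩)
  obtain ⟨x2, h21, hc⟩ := card_two_other hc2 cz
  have hx2 : x2 ∈ c z1 := by rw [hc]; exact mem_insert_of_mem (mem_singleton_self _)
  obtain ⟨m2, t2, e2⟩ := S.cov mz (by omega) ez1 hx2
  have d2 : x2 ≠ y := by
    rintro rfl
    exact hyz hx2
  have n1 : [z1, x1, x2, p, y].Nodup := by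
    simp only [List.nodup_cons, List.mem_cons, List.not_mem_nil, or_false, not_or, List.nodup_nil,
      and_true, not_false_eq_true]
    and_intros
    all_goals first
      | assumption
      | (apply Ne.symm; assumption)
      | (intro hnd; subst hnd; omega)
      | (intro hnd; rw [hnd] at *; omega)
  have n3 : 5 ≤ ([z1, x1, x2, p, y].map e).sum := by
    simp only [List.map_cons, List.sum_cons, List.map_nil, List.sum_nil]
    omega
  have hT := tot (e := e) n1
  simp only [List.map_cons, List.sum_cons, List.map_nil, List.sum_nil] at hT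
  have hV : ∀ s ∈ V, e s = 0 := by
    intro s hs
    have ts := S.tV s hs
    apply tot_zero n1 hE n3
    intro h5
    simp only [List.mem_cons, List.not_mem_nil, or_false] at h5
    rcases h5 with h5 | h5 | h5 | h5 | h5 <;> (subst h5; omega)
  obtain ⟨a1, s1, as1, ux1, sv, av, ma1, ms1, ds1⟩ :=
    S.common mz (by omega) ez1 cz hx2 h21.symm k1
  have sx1 : s1 ∈ c x1 := by rw [ux1]; exact mem_insert_of_mem (mem_singleton_self _)
  have es1 := hV s1 ms1
  have g3 := S.shared_one h21.symm sx1 sv (by omega) (by omega)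
  have g4 := S.shared_one h21 sv sx1 (by omega) (by omega)
  have g5 := S.gg2 y
  have hF := S.sum_le {x1, x2, y} (by
    intro q mq gq
    simp only [mem_insert, mem_singleton]
    rcases S.pos_t' mq gq with tq | tq
    · obtain ⟨-, k3, -⟩ := S.pos_two mq gq
      have h5 := tot_pos n1 hE n3 (S.kl_e k3)
      simp only [List.mem_cons, List.not_mem_nil, or_false] at h5
      rcases h5 with h5 | h5 | h5 | h5 | h5
      · subst h5; omega
      · exact Or.inl h5
      · exact Or.inr (Or.inl h5)
      · subst h5; omega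
      · exact Or.inr (Or.inr h5)
    · exact absurd gq (hfar q mq tq))
  rw [sum_insert (by simp only [mem_insert, mem_singleton, not_or]; exact ⟨h21.symm, h1y⟩),
    sum_pair d2] at hF
  obtain ⟨k5, -, -⟩ := S.pos_two m2 (show 0 < gg c c' e x2 by omega)
  obtain ⟨a, s, b, T⟩ := S.mkTT mz (by omega) ez1 hc h21.symm k1 k5
  refine ⟨z1, x1, x2, a, s, b, T, ?_, on_list' n1 hE ?_ ?_⟩
  · rw [Finset.disjoint_left]
    intro q hq hq'
    have e0 := hV q (S.site my ty hq').1
    have k1 : q ∈ c x1 ∨ q ∈ c x2 := by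
      simp only [mem_insert, mem_singleton] at hq
      rcases hq with rfl | rfl | rfl
      · exact Or.inl T.ax
      · exact Or.inl T.sx
      · exact Or.inr T.bx'
    rcases k1 with k1 | k1
    · have := S.shared_one h1y.symm hq' k1 (by omega) (by omega)
      omega
    · have := S.shared_one d2.symm hq' k1 (by omega) (by omega)
      omega
  · simp only [List.forall_mem_cons, List.not_mem_nil, false_imp_iff, implies_true, and_true]
    omega
  · intro q
    simp only [List.mem_cons, List.not_mem_nil, or_false, mem_insert, mem_singleton]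

end Pool.Agent.GaussPoset.Win.So
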