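import Pool.Agent.W_448so_h63.DH

/-!
Classification of the cores of S9 (row 476), two sides.
-/

set_option autoImplicit false

namespace Pool.Agent.GaussPoset.Win.So

set_option linter.unusedSectionVars false

open Finset I2

universe u



variable {P : Type u} [DecidableEq P]
variable {c c' : P → Finset P} {e : P → ℕ} {t t' : P → ℕ} {V Sd Sd' : Finset P} {psi : P → P}

lemma TT.td {w x x' a s b : P} (T : TT c c' t V Sd w x x' a s b) : SO.TD c t Sd w x x' s where
  m := T.mw
  tw := T.tw
  cw := T.uw
  ne := T.xx'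
  cx := T.cx2
  cx' := T.cx2'
  sx := T.sx
  sx' := T.sx'
  only := by
    intro v h1 h2
    rw [T.ux, mem_insert, mem_singleton] at h1
    rcases h1 with h1 | h1
    · subst h1
      rw [T.ux', mem_insert, mem_singleton] at h2
      rcases h2 with h2 | h2
      · exact h2
      · exact absurd h2 T.ab
    · exact h1

lemma TT.sites {w x x' a s b : P} (T : TT c c' t V Sd w x x' a s b) :
    c x ∪ c x' = {a, s, b} := by
  rw [T.ux, T.ux']
  ext q
  simp only [mem_union, mem_insert, mem_singleton]
  tauto

lemma TG.tog {w x x' a s b : P} (T : TG c c' t V Sd e w x x' a s b) (h : e (psi x) = 0)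
    (h' : e (psi x') = 0) : SO.Tog c c' t Sd psi e w x x' s where
  T := T.toTT.td
  w1 := T.hw
  x1 := T.hx
  x1' := T.hx'
  st := by
    rcases T.st with ⟨h1, h2, h3⟩ | ⟨h1, h2, h3⟩
    · left; omega
    · right; omega
  p0 := h
  p0' := h'
  dw := by
    intro z hz
    have := T.cw z hz
    omega
  vx := by
    intro h1 v hv hvs
    rw [T.ux, mem_insert, mem_singleton] at hv
    rcases hv with rfl | rfl
    · exact T.ca (by omega)
    · exact absurd rfl hvs
  vx' := by
    intro h1 v hv hvs
    rw [T.ux', mem_insert, mem_singleton] at hv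
    rcases hv with rfl | rfl
    · exact absurd rfl hvs
    · exact T.cc (by omega)
  dx := T.dx
  dx' := T.dx'

lemma RF.ref {y p : P} (R : RF c c' t V Sd e y p) (h : e (psi y) = 0) :
    SO.Ref c c' t Sd psi e p y where
  pen := ⟨R.mp, R.tp, R.cp, R.two⟩
  p1 := R.hp
  u0 := h
  dy := R.ch
  dp := R.chp

variable [Fintype P]

/-- the whole surplus on one side -/
theorem case_i (S : OS c c' t V Sd e)
    (ps : ∀ y ∈ Sd, t y = 1 → (c y).card = 2 → 1 ≤ e y → e (psi y) = 0)
    (hE : ∑ x, e x ≤ 6) (h2 : 2 ≤ SO.kS c c' V Sd e) (h0 : SO.kS c' c V Sd' e ≤ 0) :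
    (SO.kS c c' V Sd e + SO.kS c' c V Sd' e ≤ 2 ∧
      ∃ w x x' s, SO.Tog c c' t Sd psi e w x x' s) ∨
    ((∃ p y, SO.Ref c c' t Sd psi e p y) ∧ (∑ x, e x ≤ 5 → SO.TPp c t Sd e)) ∨
    SO.TTp c t Sd e ∨ SO.TCp c t Sd e ∨ SO.N1 c t Sd e ∨ SO.N5 c t Sd e := by
  have h4 := z_kS (e := e) S.toSide0 S.adm
  by_cases hR : ∃ y p, RF c c' t V Sd e y p
  · obtain ⟨y, p, R⟩ := hR
    refine Or.inr (Or.inl ⟨⟨p, y, R.ref (ps y R.my R.ty R.two R.hy)⟩, fun h5 => ?_⟩)
    obtain ⟨w, x, x', a, s, b, T, hd, ho⟩ := rf5 S R (by omega) h5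
    refine ⟨w, x, x', s, p, y, T.td, ⟨R.mp, R.tp, R.cp, R.two⟩, ?_, ho⟩
    rw [T.sites]
    exact hd
  · obtain ⟨h5, h6⟩ := S.one_sided (by omega) hR
    rcases h6 with ⟨w, x, x', a, s, b, T⟩ | ⟨w, x, x', a, s, b, z, T, ex, ex', mz, tz, cz, ez, ew⟩ |
      ⟨w, x, x', a, s, b, z, p, y, T, my, mp, mz, ty, tp, tz, c2, cp, cz, hd, n1, hl⟩ |
      ⟨w, x, x', a, s, b, w', y, y', a', s', b', T, T', hd, n1, hl⟩
    · exact Or.inl ⟨by omega, w, x, x', s, T.tog (ps x T.mx T.tx T.cx2 T.hx)
        (ps x' T.mx' T.tx' T.cx2' T.hx')⟩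
    · refine Or.inr (Or.inr (Or.inr (Or.inr (Or.inl ⟨z, w, x, x', s, T.td, mz, cz, ?_⟩))))
      have mw := T.mw
      have mx := T.mx
      have mx' := T.mx'
      have tw := T.tw
      have tx := T.tx
      have tx' := T.tx'
      have xx' := T.xx'
      have n1 : [z, w, x, x'].Nodup := by
        simp only [List.nodup_cons, List.mem_cons, List.not_mem_nil, or_false, not_or, List.nodup_nil,
          and_true, not_false_eq_true]
        and_intros
        all_goals first
          | assumption
          | (apply Ne.symm; assumption)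
          | (intro hnd; subst hnd; omega)
          | (intro hnd; rw [hnd] at *; omega)
      have hT := tot (e := e) n1
      simp only [List.map_cons, List.sum_cons, List.map_nil, List.sum_nil] at hT
      have n3 : 6 ≤ ([z, w, x, x'].map e).sum := by
        simp only [List.map_cons, List.sum_cons, List.map_nil, List.sum_nil]
        omega
      intro q
      have hwx : w ≠ x := by rintro rfl; omega
      have hwx' : w ≠ x' := by rintro rfl; omega
      have hzx : z ≠ x := by rintro rfl; omega
      have hzx' : z ≠ x' := by rintro rfl; omega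
      have hzw : z ≠ w := by rintro rfl; omega
      by_cases q1 : q = z
      · subst q1; rw [if_pos (Or.inl rfl)]; omega
      by_cases q2 : q = w
      · subst q2; rw [if_pos (Or.inr rfl)]; omega
      by_cases q3 : q = x
      · subst q3; rw [if_neg (by rw [not_or]; exact ⟨q1, q2⟩), if_pos (Or.inl rfl)]; omega
      by_cases q4 : q = x'
      · subst q4; rw [if_neg (by rw [not_or]; exact ⟨q1, q2⟩), if_pos (Or.inr rfl)]; omega
      rw [if_neg (by rw [not_or]; exact ⟨q1, q2⟩), if_neg (by rw [not_or]; exact ⟨q3, q4⟩)]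
      apply tot_zero n1 hE n3
      simp only [List.mem_cons, List.not_mem_nil, or_false, not_or]
      exact ⟨q1, q2, q3, q4⟩
    · rcases cz with cz | cz
      · refine Or.inr (Or.inr (Or.inr (Or.inl ⟨w, x, x', s, z, p, y, T.td,
          ⟨mz, cz, ⟨mp, tp, cp, c2⟩⟩, ?_, on_list' n1 hE hl ?_⟩)))
        · rw [T.sites]
          exact hd
        · intro q
          simp only [List.mem_cons, List.not_mem_nil, or_false, mem_insert, mem_singleton]
      · refine Or.inr (Or.inr (Or.inr (Or.inr (Or.inr ⟨z, p, y, w, x, x', s, ⟨mp, tp, cp, c2⟩, T.td,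
          mz, ?_, ?_, ?_, cz, ?_, on_list' n1 hE hl ?_⟩))))
        · rintro rfl; omega
        · rintro rfl
          have := T.tw
          omega
        · rintro rfl
          have h7 := T.uw
          rw [cp] at h7
          have h8 := congrArg Finset.card h7
          rw [card_singleton, card_pair T.xx'] at h8
          omega
        · rw [T.sites]
          exact hd.symm
        · intro q
          simp only [List.mem_cons, List.not_mem_nil, or_false, mem_insert, mem_singleton]
          tauto
    · refine Or.inr (Or.inr (Or.inl ⟨w, x, x', s, w', y, y', s', T.td, T'.td, ?_,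
        on_list' n1 hE hl ?_⟩))
      · rw [T.sites, T'.sites]
        exact hd
      · intro q
        simp only [List.mem_cons, List.not_mem_nil, or_false, mem_insert, mem_singleton]

/-- sites of positive labels above and below -/
lemma dis_sites (W : SO.Two c c' t t' V Sd Sd' psi) (C : SO.Cfg c c' t t' V Sd Sd' psi e)
    (hV : ∀ s ∈ V, e s = 0) {x v : P} (mx : x ∈ Sd) (tx : t x = 1) (ex : 1 ≤ e x)
    (ev : 1 ≤ e v) : Disjoint (c x) (c' v) := by
  rw [Finset.disjoint_left]
  intro q h1 h2
  have hq : q ∈ V := by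
    obtain ⟨k1, k2⟩ := W.s1.cin x mx q h1
    rcases k1 with k1 | k1
    · have := W.s1.tS q k1
      omega
    · exact k1
  have h0 := hV q hq
  have k1 : q ∈ KD c' e V := mem_KD.2 ⟨hq, x, (W.s1.dual _ _).1 h1, by omega⟩
  have k2 : q ∈ KD c e V := mem_KD.2 ⟨hq, v, (W.s2.dual _ _).1 h2, by omega⟩
  exact disjoint_left.1 C.dis k1 k2

/-- an excited pendant on one side, an excited double at distance two on the other side -/
theorem case_AB (W : SO.Two c c' t t' V Sd Sd' psi) (C : SO.Cfg c c' t t' V Sd Sd' psi e)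
    (S : OS c c' t V Sd e) (S' : OS c' c t' V Sd' e)
    (ps : ∀ y ∈ Sd, t y = 1 → (c y).card = 2 → 1 ≤ e y → e (psi y) = 0)
    (hE : ∑ x, e x ≤ 6) (hG : 2 ≤ ∑ z ∈ Sd', gg c' c e z) {y p w v v' : P}
    (my : y ∈ Sd) (mp : p ∈ Sd) (ty : t y = 1) (tp : t p = 2) (cp : c p = {y}) (ep : 1 ≤ e p)
    (ey : 1 ≤ e y) (c2 : (c y).card = 2)
    (mw : w ∈ Sd') (mv : v ∈ Sd') (mv' : v' ∈ Sd') (tw : t' w = 2) (tv : t' v = 1)
    (tv' : t' v' = 1) (ew : 1 ≤ e w) (ev : 1 ≤ e v) (ev' : 1 ≤ e v') (cw : c' w = {v, v'})
    (vv' : v ≠ v') :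
    ((∃ p y, SO.Ref c c' t Sd psi e p y) ∧ (∑ x, e x ≤ 5 → SO.TQp c' c t' t Sd' Sd e)) ∨
      SO.TVp c' c t' t Sd' Sd e := by
  have sS : ∀ {x v : P}, x ∈ Sd → v ∈ Sd' → x ≠ v := by
    rintro x v h1 h2 rfl
    exact disjoint_left.1 W.d3 h1 h2
  have sV : ∀ {x v : P}, x ∈ Sd → v ∈ V → x ≠ v := by
    rintro x v h1 h2 rfl
    exact disjoint_left.1 W.d1 h1 h2
  have sV' : ∀ {x v : P}, x ∈ Sd' → v ∈ V → x ≠ v := by
    rintro x v h1 h2 rfl
    exact disjoint_left.1 W.d2 h1 h2
  by_cases hR : ∃ y p, RF c c' t V Sd e y p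
  · left
    obtain ⟨y1, p1, R⟩ := hR
    refine ⟨⟨p1, y1, R.ref (ps y1 R.my R.ty R.two R.hy)⟩, fun h5 => ?_⟩
    have n1 : [w, v, v', p, y].Nodup := by
      simp only [List.nodup_cons, List.mem_cons, List.not_mem_nil, or_false, not_or, List.nodup_nil,
        and_true, not_false_eq_true]
      and_intros
      all_goals first
        | assumption
        | (apply Ne.symm; assumption)
        | exact sS (by assumption) (by assumption)
        | exact Ne.symm (sS (by assumption) (by assumption))
        | (intro hnd; subst hnd; omega)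
    have hT := tot (e := e) n1
    have n3 : 5 ≤ ([w, v, v', p, y].map e).sum := by
      simp only [List.map_cons, List.sum_cons, List.map_nil, List.sum_nil]
      omega
    simp only [List.map_cons, List.sum_cons, List.map_nil, List.sum_nil] at hT
    have hV : ∀ s ∈ V, e s = 0 := by
      intro s hs
      apply tot_zero n1 h5 n3
      simp only [List.mem_cons, List.not_mem_nil, or_false, not_or]
      exact ⟨(sV' mw hs).symm, (sV' mv hs).symm, (sV' mv' hs).symm, (sV mp hs).symm,
        (sV my hs).symm⟩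
    obtain ⟨a, s, b, T⟩ := t_of S' mw tw ew cw vv' (by
      intro q mq gq
      obtain ⟨-, k3, -⟩ := S'.pos_two mq gq
      have h6 := tot_pos n1 h5 n3 (S'.kl_e k3)
      simp only [List.mem_cons, List.not_mem_nil, or_false] at h6
      rcases h6 with h6 | h6 | h6 | h6 | h6
      · subst h6
        have := S'.far_two mq tw gq
        omega
      · exact Or.inl h6
      · exact Or.inr h6
      · exact absurd h6.symm (sS mp mq)
      · exact absurd h6.symm (sS my mq)) hV hG
    refine ⟨w, v, v', s, p, y, T.td, ⟨mp, tp, cp, c2⟩, ?_, on_list' n1 h5 ?_ ?_⟩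
    · rw [Finset.disjoint_union_left]
      exact ⟨(dis_sites W C hV my ty ey ev).symm, (dis_sites W C hV my ty ey ev').symm⟩
    · simp only [List.forall_mem_cons, List.not_mem_nil, false_imp_iff, implies_true, and_true]
      first | omega | (and_intros <;> assumption)
    · intro q
      simp only [List.mem_cons, List.not_mem_nil, or_false, mem_insert, mem_singleton]
  · right
    obtain ⟨q, mq, eq, hq⟩ := S.rf_or my ty c2 ey cp ep hR
    have hqp : q ≠ p := by
      rcases hq with ⟨-, -, h, -⟩ | ⟨h, -⟩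
      · exact h
      · rintro rfl
        omega
    have tq : t q = 2 ∨ t q = 3 := by
      rcases hq with ⟨h, -⟩ | ⟨h, -⟩
      · exact Or.inl h
      · exact Or.inr h
    have n1 : [w, v, v', q, p, y].Nodup := by
      simp only [List.nodup_cons, List.mem_cons, List.not_mem_nil, or_false, not_or, List.nodup_nil,
        and_true, not_false_eq_true]
      and_intros
      all_goals first
        | assumption
        | (apply Ne.symm; assumption)
        | exact sS (by assumption) (by assumption)
        | exact Ne.symm (sS (by assumption) (by assumption))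
        | (intro hnd; subst hnd; omega)
    have hT := tot (e := e) n1
    have n3 : 6 ≤ ([w, v, v', q, p, y].map e).sum := by
      simp only [List.map_cons, List.sum_cons, List.map_nil, List.sum_nil]
      omega
    simp only [List.map_cons, List.sum_cons, List.map_nil, List.sum_nil] at hT
    have inl : ∀ z ∈ Sd, 1 ≤ e z → z = q ∨ z = p ∨ z = y := by
      intro z mz ez
      have h6 := tot_pos n1 hE n3 ez
      simp only [List.mem_cons, List.not_mem_nil, or_false] at h6
      rcases h6 with h6 | h6 | h6 | h6 | h6 | h6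
      · exact absurd h6 (sS mz mw)
      · exact absurd h6 (sS mz mv)
      · exact absurd h6 (sS mz mv')
      · exact Or.inl h6
      · exact Or.inr (Or.inl h6)
      · exact Or.inr (Or.inr h6)
    rcases hq with ⟨tq, hy, -, v1, h1, h2, mv1, tv1, ev1⟩ | ⟨tq, hp⟩
    · exfalso
      rcases inl v1 mv1 ev1 with h3 | h3 | h3
      · subst h3; omega
      · subst h3; omega
      · exact h1 h3
    · have cq : c q = {p} := by
        by_cases h3 : (c q).card = 2
        · exfalso
          obtain ⟨p1, h4, h5⟩ := card_two_other h3 hp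
          have h6 : p1 ∈ c q := by rw [h5]; exact mem_insert_of_mem (mem_singleton_self _)
          obtain ⟨k1, k2, k3⟩ := S.cov mq (by omega) eq h6
          rcases inl p1 k1 k3 with h7 | h7 | h7
          · subst h7; omega
          · exact h4 h7
          · subst h7; omega
        · exact one_cov S.toSide0 mq hp h3
      have hV : ∀ s ∈ V, e s = 0 := by
        intro s hs
        apply tot_zero n1 hE n3
        simp only [List.mem_cons, List.not_mem_nil, or_false, not_or]
        exact ⟨(sV' mw hs).symm, (sV' mv hs).symm, (sV' mv' hs).symm, (sV mq hs).symm,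
          (sV mp hs).symm, (sV my hs).symm⟩
      obtain ⟨a, s, b, T⟩ := t_of S' mw tw ew cw vv' (by
        intro z mz gz
        obtain ⟨-, k3, -⟩ := S'.pos_two mz gz
        have h6 := tot_pos n1 hE n3 (S'.kl_e k3)
        simp only [List.mem_cons, List.not_mem_nil, or_false] at h6
        rcases h6 with h6 | h6 | h6 | h6 | h6 | h6
        · subst h6
          have := S'.far_two mz tw gz
          omega
        · exact Or.inl h6
        · exact Or.inr h6
        · exact absurd h6.symm (sS mq mz)
        · exact absurd h6.symm (sS mp mz)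
        · exact absurd h6.symm (sS my mz)) hV hG
      refine ⟨w, v, v', s, q, p, y, T.td, ⟨mq, cq, ⟨mp, tp, cp, c2⟩⟩, ?_, on_list' n1 hE ?_ ?_⟩
      · rw [Finset.disjoint_union_left]
        exact ⟨(dis_sites W C hV my ty ey ev).symm, (dis_sites W C hV my ty ey ev').symm⟩
      · simp only [List.forall_mem_cons, List.not_mem_nil, false_imp_iff, implies_true, and_true]
        first | omega | (and_intros <;> assumption)
      · intro q
        simp only [List.mem_cons, List.not_mem_nil, or_false, mem_insert, mem_singleton]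

/-- excited doubles at distance two on both sides -/
theorem case_BB (W : SO.Two c c' t t' V Sd Sd' psi) (C : SO.Cfg c c' t t' V Sd Sd' psi e)
    (S : OS c c' t V Sd e) (S' : OS c' c t' V Sd' e)
    (hE : ∑ x, e x ≤ 6) (hG : 2 ≤ ∑ z ∈ Sd, gg c c' e z) (hG' : 2 ≤ ∑ z ∈ Sd', gg c' c e z)
    {w x x' w' v v' : P}
    (mw : w ∈ Sd) (mx : x ∈ Sd) (mx' : x' ∈ Sd) (tw : t w = 2) (tx : t x = 1)
    (tx' : t x' = 1) (ew : 1 ≤ e w) (ex : 1 ≤ e x) (ex' : 1 ≤ e x') (cw : c w = {x, x'})
    (xx' : x ≠ x')
    (mw' : w' ∈ Sd') (mv : v ∈ Sd') (mv' : v' ∈ Sd') (tw' : t' w' = 2) (tv : t' v = 1)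
    (tv' : t' v' = 1) (ew' : 1 ≤ e w') (ev : 1 ≤ e v) (ev' : 1 ≤ e v') (cw' : c' w' = {v, v'})
    (vv' : v ≠ v') : SO.TUp c c' t t' Sd Sd' e := by
  have sS : ∀ {x v : P}, x ∈ Sd → v ∈ Sd' → x ≠ v := by
    rintro x v h1 h2 rfl
    exact disjoint_left.1 W.d3 h1 h2
  have sV : ∀ {x v : P}, x ∈ Sd → v ∈ V → x ≠ v := by
    rintro x v h1 h2 rfl
    exact disjoint_left.1 W.d1 h1 h2
  have sV' : ∀ {x v : P}, x ∈ Sd' → v ∈ V → x ≠ v := by
    rintro x v h1 h2 rfl
    exact disjoint_left.1 W.d2 h1 h2
  have n1 : [w, x, x', w', v, v'].Nodup := by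
    simp only [List.nodup_cons, List.mem_cons, List.not_mem_nil, or_false, not_or, List.nodup_nil,
      and_true, not_false_eq_true]
    and_intros
    all_goals first
      | assumption
      | (apply Ne.symm; assumption)
      | exact sS (by assumption) (by assumption)
      | exact Ne.symm (sS (by assumption) (by assumption))
      | (intro hnd; subst hnd; omega)
  have hT := tot (e := e) n1
  have n3 : 6 ≤ ([w, x, x', w', v, v'].map e).sum := by
    simp only [List.map_cons, List.sum_cons, List.map_nil, List.sum_nil]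
    omega
  simp only [List.map_cons, List.sum_cons, List.map_nil, List.sum_nil] at hT
  have hV : ∀ s ∈ V, e s = 0 := by
    intro s hs
    apply tot_zero n1 hE n3
    simp only [List.mem_cons, List.not_mem_nil, or_false, not_or]
    exact ⟨(sV mw hs).symm, (sV mx hs).symm, (sV mx' hs).symm, (sV' mw' hs).symm,
      (sV' mv hs).symm, (sV' mv' hs).symm⟩
  obtain ⟨a, s, b, T⟩ := t_of S mw tw ew cw xx' (by
    intro z mz gz
    obtain ⟨-, k3, -⟩ := S.pos_two mz gz
    have h6 := tot_pos n1 hE n3 (S.kl_e k3)
    simp only [List.mem_cons, List.not_mem_nil, or_false] at h6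
    rcases h6 with h6 | h6 | h6 | h6 | h6 | h6
    · subst h6
      have := S.far_two mz tw gz
      omega
    · exact Or.inl h6
    · exact Or.inr h6
    · exact absurd h6 (sS mz mw')
    · exact absurd h6 (sS mz mv)
    · exact absurd h6 (sS mz mv')) hV hG
  obtain ⟨a', s', b', T'⟩ := t_of S' mw' tw' ew' cw' vv' (by
    intro z mz gz
    obtain ⟨-, k3, -⟩ := S'.pos_two mz gz
    have h6 := tot_pos n1 hE n3 (S'.kl_e k3)
    simp only [List.mem_cons, List.not_mem_nil, or_false] at h6
    rcases h6 with h6 | h6 | h6 | h6 | h6 | h6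
    · exact absurd h6.symm (sS mw mz)
    · exact absurd h6.symm (sS mx mz)
    · exact absurd h6.symm (sS mx' mz)
    · subst h6
      have := S'.far_two mz tw' gz
      omega
    · exact Or.inl h6
    · exact Or.inr h6) hV hG'
  refine ⟨w, x, x', s, w', v, v', s', T.td, T'.td, ?_, on_list' n1 hE ?_ ?_⟩
  · rw [Finset.disjoint_union_left, Finset.disjoint_union_right, Finset.disjoint_union_right]
    exact ⟨⟨dis_sites W C hV mx tx ex ev, dis_sites W C hV mx tx ex ev'⟩,
      dis_sites W C hV mx' tx' ex' ev, dis_sites W C hV mx' tx' ex' ev'⟩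
  · simp only [List.forall_mem_cons, List.not_mem_nil, false_imp_iff, implies_true, and_true]
    first | omega | (and_intros <;> assumption)
  · intro q
    simp only [List.mem_cons, List.not_mem_nil, or_false, mem_insert, mem_singleton]

end Pool.Agent.GaussPoset.Win.So
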