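import Pool.Agent.W_448so_h63.DI

/-!
Classification of the cores of S9 (row 476): THE CLASSIFICATION in the form of `W_448so_h64/SoE`.
-/

set_option autoImplicit false

namespace Pool.Agent.GaussPoset.Win.So

set_option linter.unusedSectionVars false

open Finset I2

universe u

variable {P : Type u} [DecidableEq P]
variable {c c' : P → Finset P} {e : P → ℕ} {t t' : P → ℕ} {V Sd Sd' : Finset P} {psi : P → P}

/-- the leftover list of energy six -/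
def L6 (c c' : P → Finset P) (t t' : P → ℕ) (Sd Sd' : Finset P) (e : P → ℕ) : Prop :=
  SO.TTp c t Sd e ∨ SO.TTp c' t' Sd' e ∨ SO.TCp c t Sd e ∨ SO.TCp c' t' Sd' e ∨
    SO.TUp c c' t t' Sd Sd' e ∨
    SO.TVp c c' t t' Sd Sd' e ∨ SO.TVp c' c t' t Sd' Sd e ∨ SO.N1 c t Sd e ∨ SO.N1 c' t' Sd' e ∨
    SO.N5 c t Sd e ∨ SO.N5 c' t' Sd' e

/-- the leftover list of energy five -/
def L5 (c c' : P → Finset P) (t t' : P → ℕ) (Sd Sd' : Finset P) (e : P → ℕ) : Prop :=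
  SO.TPp c t Sd e ∨ SO.TPp c' t' Sd' e ∨ SO.TQp c c' t t' Sd Sd' e ∨ SO.TQp c' c t' t Sd' Sd e

lemma eq_pair {s : Finset P} {x x' : P} (h : s.card ≤ 2) (hne : x ≠ x') (hx : x ∈ s)
    (hx' : x' ∈ s) : s = {x, x'} := by
  symm
  apply Finset.eq_of_subset_of_card_le
  · intro q hq
    rw [mem_insert, mem_singleton] at hq
    rcases hq with rfl | rfl
    · exact hx
    · exact hx'
  · rw [card_pair hne]
    exact h

variable [Fintype P]

lemma os_of (S : SO.Sde c c' t V Sd) (nl : SO.NL c t Sd)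
    (adm : ∀ z ∈ Sd, ¬ (kd c' e z ∧ gu c e z))
    (near : ∀ x ∈ Sd, t x = 1 → 0 < e x → ∃ z ∈ c' x, 0 < e z) (pd : SO.PDx c t Sd e)
    (hC : ¬ SO.Clo c t Sd e) (hE : ∑ x, e x ≤ 6) : OS c c' t V Sd e where
  toSide0 := side0_of S
  adm := adm
  nl := by
    intro z mz tz _ x hx x' hx' hne h2
    rcases nl z mz tz x hx x' hx' hne with h | h
    · exact h
    · omega
  nc := by
    intro x mx x' mx' hne tx tx' h2 h2' z z' h3 h4 h5 h6 ez ez'
    by_contra h7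
    have d : ∀ {x z : P}, x ∈ Sd → t x = 1 → z ∈ c' x → z ∈ Sd ∧ t z = 2 ∧ x ∈ c z := by
      intro x z mx tx hz
      obtain ⟨k1, k2, k3⟩ := z_chd (side0_of S) (Or.inl mx) hz
      exact ⟨k1, by omega, k3⟩
    exact hC ⟨z, z', x, x', (d mx tx h3).1, (d mx tx h5).1, (d mx tx h3).2.1, (d mx tx h5).2.1,
      h7, hne, eq_pair (S.c2 z) hne (d mx tx h3).2.2 (d mx' tx' h4).2.2,
      eq_pair (S.c2 z') hne (d mx tx h5).2.2 (d mx' tx' h6).2.2, h2, h2', ez, ez'⟩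
  pd := by
    intro z mz z' mz' tz tz' ez ez' h1 h1' h2 h2'
    have d : ∀ {z : P}, z ∈ Sd → t z = 2 → (c z).card = 1 → (∃ x ∈ c z, (c x).card = 2) →
        ∃ y, SO.Pen c t Sd z y := by
      intro z mz tz h1 h2
      obtain ⟨x, hx, h3⟩ := h2
      obtain ⟨y, hy⟩ := card_eq_one.1 h1
      rw [hy, mem_singleton] at hx
      subst hx
      exact ⟨x, mz, tz, hy, h3⟩
    obtain ⟨y, hy⟩ := d mz tz h1 h2
    obtain ⟨y', hy'⟩ := d mz' tz' h1' h2'
    exact pd z y z' y' hy hy' ez ez'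
  tch := near
  en := (Finset.sum_le_sum_of_subset (subset_univ _)).trans hE

/-- THE CLASSIFICATION, energy at most six -/
theorem classify (W : SO.Two c c' t t' V Sd Sd' psi) (C : SO.Cfg c c' t t' V Sd Sd' psi e)
    (pd : SO.PDx c t Sd e) (pd' : SO.PDx c' t' Sd' e) (hE : ∑ x, e x ≤ 6) :
    SO.kS c c' V Sd e + SO.kS c' c V Sd' e ≤ 1 ∨ SO.Clo c t Sd e ∨ SO.Clo c' t' Sd' e ∨
    (∃ p y p' u, SO.Pen c t Sd p y ∧ SO.Pen c' t' Sd' p' u ∧ 0 < e p ∧ 0 < e p' ∧ u ≠ psi y) ∨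
    (SO.kS c c' V Sd e + SO.kS c' c V Sd' e ≤ 2 ∧
      ((∃ w x x' s, SO.Tog c c' t Sd psi e w x x' s) ∨
        ∃ w x x' s, SO.Tog c' c t' Sd' psi e w x x' s)) ∨
    (((∃ p y, SO.Ref c c' t Sd psi e p y) ∨ ∃ p y, SO.Ref c' c t' Sd' psi e p y) ∧
      (∑ x, e x ≤ 5 → L5 c c' t t' Sd Sd' e)) ∨
    L6 c c' t t' Sd Sd' e := by
  by_cases hk : SO.kS c c' V Sd e + SO.kS c' c V Sd' e ≤ 1
  · exact Or.inl hk
  by_cases h1 : SO.Clo c t Sd e
  · exact Or.inr (Or.inl h1)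
  by_cases h2 : SO.Clo c' t' Sd' e
  · exact Or.inr (Or.inr (Or.inl h2))
  by_cases h3 : ∃ p y p' u, SO.Pen c t Sd p y ∧ SO.Pen c' t' Sd' p' u ∧ 0 < e p ∧ 0 < e p' ∧
      u ≠ psi y
  · exact Or.inr (Or.inr (Or.inr (Or.inl h3)))
  have hk' : ¬ SO.kS c' c V Sd' e + SO.kS c c' V Sd e ≤ 1 := by omega
  have near : ∀ x ∈ Sd, t x = 1 → 0 < e x → ∃ z ∈ c' x, 0 < e z := by
    intro x mx tx ex
    rcases C.core1 x mx tx ex with h | ⟨h4, z, hz, ez⟩
    · exact h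
    · exact absurd (partner_main W C hE mx tx ex h4 hz ez) hk
  have near' : ∀ x ∈ Sd', t' x = 1 → 0 < e x → ∃ z ∈ c x, 0 < e z := by
    intro x mx tx ex
    rcases C.core2 x mx tx ex with h | ⟨h4, z, hz, ez⟩
    · exact h
    · exact absurd (partner_main W.symm C.symm hE mx tx ex h4 hz ez) hk'
  have S := os_of W.s1 W.nl1 C.adm1 near pd h1 hE
  have S' := os_of W.s2 W.nl2 C.adm2 near' pd' h2 hE
  have ps : ∀ y ∈ Sd, t y = 1 → (c y).card = 2 → 1 ≤ e y → e (psi y) = 0 := by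
    intro y my ty hy ey
    by_contra h4
    obtain ⟨g1, g2, -, -⟩ := W.psi1 y my ty hy
    obtain ⟨z, hz, ez⟩ := near' _ g1 g2 (by omega)
    exact hk (partner_main W C hE my ty ey hy hz ez)
  have ps' : ∀ y ∈ Sd', t' y = 1 → (c' y).card = 2 → 1 ≤ e y → e (psi y) = 0 := by
    intro y my ty hy ey
    by_contra h4
    obtain ⟨g1, g2, -, -⟩ := W.psi2 y my ty hy
    obtain ⟨z, hz, ez⟩ := near _ g1 g2 (by omega)
    exact hk' (partner_main W.symm C.symm hE my ty ey hy hz ez)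
  have k1 := z_kS (e := e) S.toSide0 S.adm
  have k2 := z_kS (e := e) S'.toSide0 S'.adm
  by_cases h4 : SO.kS c' c V Sd' e ≤ 0
  · rcases case_i (Sd' := Sd') (psi := psi) S ps hE (by omega) h4 with h | h | h | h | h | h
    · exact Or.inr (Or.inr (Or.inr (Or.inr (Or.inl ⟨h.1, Or.inl h.2⟩))))
    · exact Or.inr (Or.inr (Or.inr (Or.inr (Or.inr (Or.inl ⟨Or.inl h.1, fun h5 =>
        Or.inl (h.2 h5)⟩)))))
    · exact Or.inr (Or.inr (Or.inr (Or.inr (Or.inr (Or.inr (Or.inl h))))))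
    · exact Or.inr (Or.inr (Or.inr (Or.inr (Or.inr (Or.inr (Or.inr (Or.inr (Or.inl h))))))))
    · exact Or.inr (Or.inr (Or.inr (Or.inr (Or.inr (Or.inr (Or.inr (Or.inr (Or.inr (Or.inr
        (Or.inr (Or.inr (Or.inr (Or.inl h)))))))))))))
    · exact Or.inr (Or.inr (Or.inr (Or.inr (Or.inr (Or.inr (Or.inr (Or.inr (Or.inr (Or.inr
        (Or.inr (Or.inr (Or.inr (Or.inr (Or.inr (Or.inl h)))))))))))))))
  by_cases h5 : SO.kS c c' V Sd e ≤ 0
  · rcases case_i (Sd' := Sd) (psi := psi) S' ps' hE (by omega) h5 with h | h | h | h | h | h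
    · exact Or.inr (Or.inr (Or.inr (Or.inr (Or.inl ⟨by omega, Or.inr h.2⟩))))
    · exact Or.inr (Or.inr (Or.inr (Or.inr (Or.inr (Or.inl ⟨Or.inr h.1, fun h5 =>
        Or.inr (Or.inl (h.2 h5))⟩)))))
    · exact Or.inr (Or.inr (Or.inr (Or.inr (Or.inr (Or.inr (Or.inr (Or.inl h)))))))
    · exact Or.inr (Or.inr (Or.inr (Or.inr (Or.inr (Or.inr (Or.inr (Or.inr (Or.inr
        (Or.inl h)))))))))
    · exact Or.inr (Or.inr (Or.inr (Or.inr (Or.inr (Or.inr (Or.inr (Or.inr (Or.inr (Or.inr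
        (Or.inr (Or.inr (Or.inr (Or.inr (Or.inl h))))))))))))))
    · exact Or.inr (Or.inr (Or.inr (Or.inr (Or.inr (Or.inr (Or.inr (Or.inr (Or.inr (Or.inr
        (Or.inr (Or.inr (Or.inr (Or.inr (Or.inr (Or.inr h)))))))))))))))
  rcases one_struct S (by omega) with ⟨y, p, my, mp, ty, tp, cp, ep, ey, c2⟩ |
    ⟨w, x, x', mw, mx, mx', tw, tx, tx', ew, ex, ex', cw, xx'⟩
  · rcases one_struct S' (by omega) with ⟨u, p', mu, mp', tu, tp', cp', ep', eu, c2'⟩ |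
      ⟨w', v, v', mw', mv, mv', tw', tv, tv', ew', ev, ev', cw', vv'⟩
    · exfalso
      apply h3
      refine ⟨p, y, p', u, ⟨mp, tp, cp, c2⟩, ⟨mp', tp', cp', c2'⟩, ep, ep', ?_⟩
      rintro rfl
      have := ps y my ty c2 ey
      omega
    · rcases case_AB W C S S' ps hE (by omega) my mp ty tp cp ep ey c2 mw' mv mv' tw' tv tv' ew'
        ev ev' cw' vv' with h | h
      · exact Or.inr (Or.inr (Or.inr (Or.inr (Or.inr (Or.inl ⟨Or.inl h.1, fun h5 =>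
          Or.inr (Or.inr (Or.inr (h.2 h5)))⟩)))))
      · exact Or.inr (Or.inr (Or.inr (Or.inr (Or.inr (Or.inr (Or.inr (Or.inr (Or.inr (Or.inr
          (Or.inr (Or.inr (Or.inl h))))))))))))
  · rcases one_struct S' (by omega) with ⟨u, p', mu, mp', tu, tp', cp', ep', eu, c2'⟩ |
      ⟨w', v, v', mw', mv, mv', tw', tv, tv', ew', ev, ev', cw', vv'⟩
    · rcases case_AB W.symm C.symm S' S ps' hE (by omega) mu mp' tu tp' cp' ep' eu c2' mw mx mx'
        tw tx tx' ew ex ex' cw xx' with h | h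
      · exact Or.inr (Or.inr (Or.inr (Or.inr (Or.inr (Or.inl ⟨Or.inr h.1, fun h5 =>
          Or.inr (Or.inr (Or.inl (h.2 h5)))⟩)))))
      · exact Or.inr (Or.inr (Or.inr (Or.inr (Or.inr (Or.inr (Or.inr (Or.inr (Or.inr (Or.inr
          (Or.inr (Or.inl h)))))))))))
    · exact Or.inr (Or.inr (Or.inr (Or.inr (Or.inr (Or.inr (Or.inr (Or.inr (Or.inr (Or.inr
        (Or.inl (case_BB W C S S' hE (by omega) (by omega) mw mx mx' tw tx tx' ew ex ex' cw xx'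
          mw' mv mv' tw' tv tv' ew' ev ev' cw' vv')))))))))))

end Pool.Agent.GaussPoset.Win.So
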