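import Pool.Agent.W_448so_h63.DJ

/-!
Classification of the cores of S9 (row 476): closed pairs and flips at energy five
(`clo5`, `flip5` of `W_448so_h64/SoE`).
-/

set_option autoImplicit false

namespace Pool.Agent.GaussPoset.Win.So

set_option linter.unusedSectionVars false

open Finset I2

universe u

variable {P : Type u} [DecidableEq P] [Fintype P]
variable {c c' : P → Finset P} {e : P → ℕ} {t t' : P → ℕ} {V Sd Sd' : Finset P} {psi : P → P}

/-- a site is not killed from both sides -/
lemma not_both (W : SO.Two c c' t t' V Sd Sd' psi) (C : SO.Cfg c c' t t' V Sd Sd' psi e)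
    {x v q : P} (mx : x ∈ Sd) (tx : t x = 1) (h1 : q ∈ c x) (h2 : q ∈ c' v) :
    q ∈ V ∧ (e x ≤ e q ∨ e v ≤ e q) := by
  have hq : q ∈ V := by
    obtain ⟨k1, k2⟩ := W.s1.cin x mx q h1
    rcases k1 with k1 | k1
    · have := W.s1.tS q k1
      omega
    · exact k1
  refine ⟨hq, ?_⟩
  by_contra h
  push Not at h
  have k1 : q ∈ KD c' e V := mem_KD.2 ⟨hq, x, (W.s1.dual _ _).1 h1, h.1⟩
  have k2 : q ∈ KD c e V := mem_KD.2 ⟨hq, v, (W.s2.dual _ _).1 h2, h.2⟩
  exact disjoint_left.1 C.dis k1 k2

theorem flip5 (W : SO.Two c c' t t' V Sd Sd' psi) (C : SO.Cfg c c' t t' V Sd Sd' psi e)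
    (hE : ∑ x, e x ≤ 5) {p y p' u s : P} (hp : SO.Pen c t Sd p y) (hp' : SO.Pen c' t' Sd' p' u)
    (h1 : 0 < e p) (h1' : 0 < e p') (hs : c y ∩ c' u = {s}) : SO.On e {p, y, s, u, p'} := by
  have sS : ∀ {x v : P}, x ∈ Sd → v ∈ Sd' → x ≠ v := by
    rintro x v h1 h2 rfl
    exact disjoint_left.1 W.d3 h1 h2
  have sV : ∀ {x v : P}, x ∈ Sd → v ∈ V → x ≠ v := by
    rintro x v h1 h2 rfl
    exact disjoint_left.1 W.d1 h1 h2
  have sV' : ∀ {x v : P}, x ∈ Sd' → v ∈ V → x ≠ v := by
    rintro x v h1 h2 rfl
    exact disjoint_left.1 W.d2 h1 h2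
  have mp := hp.m
  have mp' := hp'.m
  have tp := hp.tp
  have tp' := hp'.tp
  obtain ⟨my, ty, ey⟩ := z_cov (side0_of W.s1) C.adm1 mp (by omega) h1
    (show y ∈ c p by rw [hp.cp]; exact mem_singleton_self _)
  obtain ⟨mu, tu, eu⟩ := z_cov (side0_of W.s2) C.adm2 mp' (by omega) h1'
    (show u ∈ c' p' by rw [hp'.cp]; exact mem_singleton_self _)
  have h2 : s ∈ c y ∩ c' u := by rw [hs]; exact mem_singleton_self _
  rw [mem_inter] at h2
  obtain ⟨ms, h3⟩ := not_both W C my (by omega) h2.1 h2.2
  have d1 : p ≠ y := by rintro rfl; omega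
  have d2 : u ≠ p' := by rintro rfl; omega
  have n1 : [p, y, s, u, p'].Nodup := by
    simp only [List.nodup_cons, List.mem_cons, List.not_mem_nil, or_false, not_or, List.nodup_nil,
      and_true, not_false_eq_true]
    exact ⟨⟨d1, sV mp ms, sS mp mu, sS mp mp'⟩, ⟨sV my ms, sS my mu, sS my mp'⟩,
      ⟨(sV' mu ms).symm, (sV' mp' ms).symm⟩, d2⟩
  refine on_list' n1 hE ?_ ?_
  · simp only [List.forall_mem_cons, List.not_mem_nil, false_imp_iff, implies_true, and_true]
    first | omega | (and_intros <;> assumption)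
  · intro q
    simp only [List.mem_cons, List.not_mem_nil, or_false, mem_insert, mem_singleton]

theorem clo5 (W : SO.Two c c' t t' V Sd Sd' psi) (C : SO.Cfg c c' t t' V Sd Sd' psi e)
    (hE : ∑ x, e x ≤ 5) (h : SO.Clo c t Sd e) :
    SO.kS c c' V Sd e + SO.kS c' c V Sd' e ≤ 1 ∨
    (∃ w w' x x' s, SO.TD c t Sd w x x' s ∧ SO.TD c t Sd w' x x' s ∧ w ≠ w' ∧
      ((∀ y, e y = if y = w then 2 else if y = w' ∨ y = x ∨ y = x' then 1 else 0) ∨
        SO.On e {w, w', x, x', s})) := by
  obtain ⟨w, w', x, x', mw, mw', tw, tw', hww, xx', cw, cw', c2, c2', ew, ew'⟩ := h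
  have S := side0_of W.s1
  have S' := side0_of W.s2
  have sS : ∀ {x v : P}, x ∈ Sd → v ∈ Sd' → x ≠ v := by
    rintro x v h1 h2 rfl
    exact disjoint_left.1 W.d3 h1 h2
  have hx : x ∈ c w := by rw [cw]; exact mem_insert_self _ _
  have hx' : x' ∈ c w := by rw [cw]; exact mem_insert_of_mem (mem_singleton_self _)
  obtain ⟨mx, tx, ex⟩ := z_cov S C.adm1 mw (by omega) ew hx
  obtain ⟨mx', tx', ex'⟩ := z_cov S C.adm1 mw (by omega) ew hx'
  have tx1 : t x = 1 := by omega
  have tx1' : t x' = 1 := by omega
  obtain ⟨s, hs⟩ : ∃ s, c x ∩ c x' = {s} := by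
    rcases W.nl1 w mw tw x hx x' hx' xx' with h1 | h1
    · exact card_eq_one.1 h1
    · omega
  have hs1 : s ∈ c x ∩ c x' := by rw [hs]; exact mem_singleton_self _
  rw [mem_inter] at hs1
  have only : ∀ v, v ∈ c x → v ∈ c x' → v = s := by
    intro v h1 h2
    have : v ∈ c x ∩ c x' := mem_inter.2 ⟨h1, h2⟩
    rwa [hs, mem_singleton] at this
  have T : SO.TD c t Sd w x x' s := ⟨mw, tw, cw, xx', c2, c2', hs1.1, hs1.2, only⟩
  have T' : SO.TD c t Sd w' x x' s := ⟨mw', tw', cw', xx', c2, c2', hs1.1, hs1.2, only⟩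
  have ms : s ∈ V := by
    obtain ⟨k1, k2⟩ := S.cin x mx s hs1.1
    rcases k1 with k1 | k1
    · have := S.tS s k1
      omega
    · exact k1
  have ts := S.tV s ms
  have n0 : [w, w', x, x'].Nodup := by
    simp only [List.nodup_cons, List.mem_cons, List.not_mem_nil, or_false, not_or, List.nodup_nil,
      and_true, not_false_eq_true]
    and_intros
    all_goals first
      | assumption
      | (apply Ne.symm; assumption)
      | (intro hnd; subst hnd; omega)
      | (intro hnd; rw [hnd] at *; omega)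
  have hT := tot (e := e) n0
  simp only [List.map_cons, List.sum_cons, List.map_nil, List.sum_nil] at hT
  have two : ∀ {w w' : P}, [w, w', x, x'].Nodup → 2 ≤ e w → 1 ≤ e w' →
      ∀ y, e y = if y = w then 2 else if y = w' ∨ y = x ∨ y = x' then 1 else 0 := by
    intro w w' n0 h2 h3 y
    have hT := tot (e := e) n0
    simp only [List.map_cons, List.sum_cons, List.map_nil, List.sum_nil] at hT
    by_cases q1 : y = w
    · subst q1; rw [if_pos rfl]; omega
    rw [if_neg q1]
    by_cases q2 : y = w'
    · subst q2; rw [if_pos (Or.inl rfl)]; omega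
    by_cases q3 : y = x
    · subst q3; rw [if_pos (Or.inr (Or.inl rfl))]; omega
    by_cases q4 : y = x'
    · subst q4; rw [if_pos (Or.inr (Or.inr rfl))]; omega
    rw [if_neg (by rw [not_or, not_or]; exact ⟨q2, q3, q4⟩)]
    apply tot_zero n0 hE
    · simp only [List.map_cons, List.sum_cons, List.map_nil, List.sum_nil]
      omega
    · simp only [List.mem_cons, List.not_mem_nil, or_false, not_or]
      exact ⟨q1, q2, q3, q4⟩
  by_cases h2 : 2 ≤ e w
  · exact Or.inr ⟨w, w', x, x', s, T, T', hww, Or.inl (two n0 h2 ew')⟩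
  by_cases h2' : 2 ≤ e w'
  · have n0' : [w', w, x, x'].Nodup := by
      simp only [List.nodup_cons, List.mem_cons, List.not_mem_nil, or_false, not_or, List.nodup_nil,
        and_true, not_false_eq_true]
      and_intros
      all_goals first
        | assumption
        | (apply Ne.symm; assumption)
        | (intro hnd; subst hnd; omega)
        | (intro hnd; rw [hnd] at *; omega)
    exact Or.inr ⟨w', w, x, x', s, T', T, hww.symm, Or.inl (two n0' h2' ew)⟩
  by_cases hs0 : 1 ≤ e s
  · right
    refine ⟨w, w', x, x', s, T, T', hww, Or.inr ?_⟩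
    have n1 : [w, w', x, x', s].Nodup := by
      simp only [List.nodup_cons, List.mem_cons, List.not_mem_nil, or_false, not_or, List.nodup_nil,
        and_true, not_false_eq_true]
      and_intros
      all_goals first
        | assumption
        | (apply Ne.symm; assumption)
        | (intro hnd; subst hnd; omega)
        | (intro hnd; rw [hnd] at *; omega)
    refine on_list' n1 hE ?_ ?_
    · simp only [List.forall_mem_cons, List.not_mem_nil, false_imp_iff, implies_true, and_true]
      first | omega | (and_intros <;> assumption)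
    · intro q
      simp only [List.mem_cons, List.not_mem_nil, or_false, mem_insert, mem_singleton]
  left
  have g1 := z_kS (e := e) S C.adm1
  have g2 := z_kS (e := e) S' C.adm2
  have a1 : s ∈ kn c e x := mem_kn.2 ⟨hs1.1, by omega⟩
  have a2 : s ∈ kn c e x' := mem_kn.2 ⟨hs1.2, by omega⟩
  -- charge of a killer with a shared victim
  have sh : ∀ {z a : P}, a ∈ kn c e z → a ∉ so c c' e z → gg c c' e z ≤ 1 := by
    intro z a h1 h2
    classical
    apply gg_le (by norm_num)
    have h3 : (so c c' e z).card + 1 ≤ (kn c e z).card := by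
      have h4 : so c c' e z ⊆ (kn c e z).erase a := by
        intro b hb
        rw [mem_erase]
        refine ⟨?_, so_sub_kn hb⟩
        rintro rfl
        exact h2 hb
      have h5 := card_le_card h4
      rw [card_erase_of_mem h1] at h5
      have h6 := card_pos.2 ⟨a, h1⟩
      omega
    unfold cc
    split_ifs with h
    · have := S.kn_le_one h
      omega
    · have := S.kn_le (e := e) z
      omega
  have gx := sh a1 (not_mem_so S.dual xx' a1 a2)
  have gx' := sh a2 (not_mem_so S.dual xx'.symm a2 a1)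
  -- a further excited element
  have more : ∀ q, q ≠ w → q ≠ w' → q ≠ x → q ≠ x' → 1 ≤ e q → e q = 1 ∧ e x = 1 ∧ e x' = 1 ∧
      ∀ z, 1 ≤ e z → z = q ∨ z = w ∨ z = w' ∨ z = x ∨ z = x' := by
    intro q q1 q2 q3 q4 q5
    have n1 : [q, w, w', x, x'].Nodup := by
      rw [List.nodup_cons]
      refine ⟨?_, n0⟩
      simp only [List.mem_cons, List.not_mem_nil, or_false, not_or]
      exact ⟨q1, q2, q3, q4⟩
    have hT := tot (e := e) n1
    simp only [List.map_cons, List.sum_cons, List.map_nil, List.sum_nil] at hT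
    refine ⟨by omega, by omega, by omega, ?_⟩
    intro z hz
    have := tot_pos n1 hE (by
      simp only [List.map_cons, List.sum_cons, List.map_nil, List.sum_nil]
      omega) hz
    simpa only [List.mem_cons, List.not_mem_nil, or_false] using this
  have hF := z_sum_le (c := c) (c' := c') (e := e) (Sd := Sd) {x, x'} (by
    intro q mq gq
    rw [mem_insert, mem_singleton]
    by_contra hne
    rw [not_or] at hne
    obtain ⟨k1, k2⟩ := z_pos S mq gq
    have eq := z_kl k2
    have tq := S.t_le_of_kl C.adm1 (t q) q mq k2 rfl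
    have q1 : q ≠ w := by rintro rfl; omega
    have q2 : q ≠ w' := by rintro rfl; omega
    obtain ⟨m1, m2, m3, m4⟩ := more q q1 q2 hne.1 hne.2 eq
    have := S.tS q mq
    rcases C.core1 q mq (by omega) (by omega) with ⟨z, hz, ez⟩ | ⟨-, z, hz, ez⟩
    · obtain ⟨mz, tz, cz⟩ := z_chd S (Or.inl mq) hz
      have key : z = w ∨ z = w' := by
        rcases m4 z ez with h5 | h5 | h5 | h5 | h5
        · subst h5; omega
        · exact Or.inl h5
        · exact Or.inr h5
        · subst h5; omega
        · subst h5; omega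
      have hq : q ∈ ({x, x'} : Finset P) := by
        rcases key with h5 | h5
        · rw [← cw, ← h5]; exact cz
        · rw [← cw', ← h5]; exact cz
      rw [mem_insert, mem_singleton] at hq
      exact absurd hq (not_or.2 hne)
    · obtain ⟨p1, p2, -, -⟩ := W.psi1 q mq (by omega) k1
      obtain ⟨mz, tz, cz⟩ := z_chd S' (Or.inl p1) hz
      rcases m4 z ez with h5 | h5 | h5 | h5 | h5
      · exact sS mq mz h5.symm
      · exact sS mw mz h5.symm
      · exact sS mw' mz h5.symm
      · exact sS mx mz h5.symm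
      · exact sS mx' mz h5.symm)
  rw [sum_pair xx'] at hF
  have hF' : ∑ z ∈ Sd', gg c' c e z ≤ 0 := by
    apply z_sum_zero
    intro q mq gq
    obtain ⟨k1, k2⟩ := z_pos S' mq gq
    have eq := z_kl k2
    have tq := S'.t_le_of_kl C.adm2 (t' q) q mq k2 rfl
    obtain ⟨m1, m2, m3, m4⟩ := more q (sS mw mq).symm (sS mw' mq).symm (sS mx mq).symm
      (sS mx' mq).symm eq
    have := S'.tS q mq
    rcases C.core2 q mq (by omega) (by omega) with ⟨z, hz, ez⟩ | ⟨k3, z, hz, ez⟩
    · obtain ⟨mz, tz, cz⟩ := z_chd S' (Or.inl mq) hz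
      rcases m4 z ez with h5 | h5 | h5 | h5 | h5
      · subst h5; omega
      · exact sS mw mz h5.symm
      · exact sS mw' mz h5.symm
      · exact sS mx mz h5.symm
      · exact sS mx' mz h5.symm
    · obtain ⟨p1, p2, p3, p4⟩ := W.psi2 q mq (by omega) k1
      obtain ⟨mz, tz, cz⟩ := z_chd S (Or.inl p1) hz
      have key : z = w ∨ z = w' := by
        rcases m4 z ez with h5 | h5 | h5 | h5 | h5
        · exact absurd h5 (sS mz mq)
        · exact Or.inl h5
        · exact Or.inr h5
        · subst h5; omega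
        · subst h5; omega
      have hq : psi q ∈ ({x, x'} : Finset P) := by
        rcases key with h5 | h5
        · rw [← cw, ← h5]; exact cz
        · rw [← cw', ← h5]; exact cz
      rw [mem_insert, mem_singleton] at hq
      -- the common site is killed from both sides
      have hsq : s ∈ c (psi q) := by
        rcases hq with h5 | h5
        · rw [h5]; exact hs1.1
        · rw [h5]; exact hs1.2
      have hsq' : s ∈ c' q := by rw [← p3]; exact hsq
      have e1 : 1 ≤ e (psi q) := by
        rcases hq with h5 | h5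
        · rw [h5]; exact ex
        · rw [h5]; exact ex'
      have := (not_both W C p1 p2 hsq hsq').2
      omega
  omega

end Pool.Agent.GaussPoset.Win.So
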