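import Pool.Agent.W_448so_h39.FH
import Pool.Agent.W_448so_h64.SoR
import Pool.Agent.W_448so_h61.CF
import Pool.Agent.W_448al_h63.LK

/-!
S9 (row 476): second order values of natural components, energy six
(`be 6 = - #N1 - #N5` for a strip without a flip).
-/

set_option autoImplicit false

namespace Pool.Agent.GaussPoset.Win

set_option linter.unusedSectionVars false

open Finset

universe u

variable {P : Type u} [Fintype P] [PartialOrder P] [DecidableEq P] {r i j : ℕ} {t : P}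
  {lo hi : ℕ → ℕ} {x : ℕ → ℕ → P} {S : Finset P} {psi : P → P}

/-- a natural component, general case -/
lemma cm5_of (h : GoodTo P r j) (C : Comp P t j lo hi x) (ht : lev t = 0) (hi1 : 1 ≤ i)
    (h3 : i + 2 ≤ j) (hS : ∀ y, lev y ≤ i + 2 → (y ∈ S ↔ y ≤ t)) (hP : Part (i + 1) S) :
    Cm5 P r i t lo hi x S :=
  ⟨h.mono (by omega), hi1, ht, C.mono (by omega), hP, hS⟩

/-- a natural component without flip -/
theorem cm6_of (h : GoodTo P r j) (C : Comp P t j lo hi x) (ht : lev t = 0) (hi1 : 1 ≤ i)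
    (h3 : i + 2 ≤ j) (hS : ∀ y, lev y ≤ i + 2 → (y ∈ S ↔ y ≤ t)) (hP : Part (i + 1) S)
    (hf : ¬ Flip lo hi i) : Cm6 P r i t lo hi x S := by
  refine ⟨cm5_of h C ht hi1 h3 hS hP, ?_, ?_⟩
  · intro a a1 a2
    have f1 := C.lo_ge i (by omega)
    have f2 := C.hi_le i (by omega)
    have l1 := C.lev_x (i + 1) (by omega) a (by omega) (by omega)
    have l2 := C.lev_x (i + 1) (by omega) (a + 1) (by omega) (by omega)
    have hne := C.inj (i + 1) (by omega) a (a + 1) (by omega) (by omega) (by omega)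
    rw [← h.good (i + 1) (by omega) _ _ l1 l2 hne]
    exact ucv_le_one h (by omega) hne (by omega)
  · intro p hp hpt q hq hqt
    obtain ⟨hout⟩ := C.mtc h ht hi1 (by omega) hS hf
    have hpS := (hS p (lev_PD hp).1.le).2 hpt
    have lq := lev_PU hq
    have hqS := (hS q (by omega)).2 hqt
    rcases hout with ho | ⟨z, w, y, u, hz, hw, hz1, hw1, hy, hu, hyu, hy2, huz, huw, -⟩
    · exact absurd hp (ho p hpS).1
    · rw [huz p hpS hp, huw q hqS hq, ClE_sts h.H (lev_PD hz1).1 hy,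
        ClE_stD h.H (by have := lev_PU hw1; omega) hu, hyu]

/-- neighbours have one common lower cover -/
lemma dcv_nat (h : GoodTo P r j) (C : Comp P t j lo hi x) (ht : lev t = 0)
    (h3 : i + 2 ≤ j) {a : ℕ} (a1 : lo i < a) (a2 : a < hi i) :
    dcv (x (i + 1) a) (x (i + 1) (a + 1)) = 1 := by
  have f1 := C.lo_ge i (by omega)
  have f2 := C.hi_le i (by omega)
  have l1 := C.lev_x (i + 1) (by omega) a (by omega) (by omega)
  have l2 := C.lev_x (i + 1) (by omega) (a + 1) (by omega) (by omega)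
  have hne := C.inj (i + 1) (by omega) a (a + 1) (by omega) (by omega) (by omega)
  rw [← h.good (i + 1) (by omega) _ _ l1 l2 hne,
    C.ucv_eq h ht (by omega) (by omega) (by omega) (by omega) (by omega) (by omega)]
  rw [if_pos (Or.inl rfl)]

/-- the form of a natural component -/
theorem QQ_nat (h : GoodTo P r j) (C : Comp P t j lo hi x) (ht : lev t = 0) (hi1 : 1 ≤ i)
    (h3 : i + 2 ≤ j) (hS : ∀ y, lev y ≤ i + 2 → (y ∈ S ↔ y ≤ t)) (hP : Part (i + 1) S)
    (hf : ¬ Flip lo hi i) :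
    QQ i S = (((FL i S).card : ℤ) - ((FU' i S).card : ℤ)) ^ 2 := by
  classical
  have K := cm6_of h C ht hi1 h3 hS hP hf
  have K' := K.cmp (fun z hz => h.no_join z (by omega))
  have h0 : ∀ k ∈ Trs x lo hi i, phc i S k = 0 := by
    intro k hk
    unfold Trs at hk
    obtain ⟨a, ha, rfl⟩ := mem_image.1 hk
    rw [mem_Ioo] at ha
    rw [K'.phc_Tr ha.1 ha.2, dcv_nat h C ht h3 ha.1 ha.2]
    norm_num
  obtain ⟨N, h1, h2, h3⟩ := K'.QQ_eq
  rw [h3]
  have h4 : So.qf (Trs x lo hi i) (fun k l => ¬ Disjoint k l) (phc i S) = 0 := by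
    unfold So.qf
    refine sum_eq_zero fun k hk => sum_eq_zero fun l hl => ?_
    rw [h0 k hk, zero_mul, ite_self]
  have h5 : ∑ k ∈ N, phc i S k = 0 := sum_eq_zero fun k hk => h0 k (h1 hk)
  rw [h4, h5]
  ring

/-- THE SECOND ORDER VALUE of a natural component at energy six -/
theorem be6_nat (h : GoodTo P r j) (C : Comp P t j lo hi x) (ht : lev t = 0) (hi1 : 1 ≤ i)
    (h3 : i + 3 ≤ j) (hS : ∀ y, lev y ≤ i + 3 → (y ∈ S ↔ y ≤ t)) (hP : Part (i + 1) S)
    (hf : ¬ Flip lo hi i) :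
    I2.be 6 (st i S).card (ZS i S) =
      - ((SO.N1f i S).card : ℤ) - ((SO.N5f i S).card : ℤ) := by
  have hS' : ∀ y, lev y ≤ i + 2 → (y ∈ S ↔ y ≤ t) := fun y hy => hS y (by omega)
  have K := cm6_of h C ht hi1 (by omega) hS' hP hf
  obtain ⟨psi, hM⟩ := good_mat h.H (h.good i (by omega))
  have Q := K.ps6 hM
  have hc := C.card_st (i := i) (S := S) (by omega) (fun y hy => hS y (by omega))
  have hl := C.lohi i (by omega)
  have h4 := so_al3 Q
  have h5 : I2.al 3 (st i S).card (ZS i S) = ∑ z ∈ Chs i S, chg i S z := by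
    classical
    have h6 := sum_chg (i := i) (S := S) h.H (fun _ => True)
    rw [filter_true, filter_true, filter_true, filter_true, filter_true] at h6
    rw [h4, h6]
  have h6 := SO.PS6.six Q (by omega) h5
  have h7 : I2.al 3 (st i S).card (ZS i S) = ((FL i S).card : ℤ) - ((FU' i S).card : ℤ) := by
    rw [h4, C.card_ZL h ht (by omega) hS', C.card_ZU h ht hi1 (by omega)
      (fun y hy => hS y (by omega))]
    ring
  rw [h7, QQ_nat h C ht hi1 (by omega) hS' hP hf] at h6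
  linarith

/-- the pattern C, C, O below a window with three sites gives an element of `N1f` -/
theorem N1f_cco (h : GoodTo P r j) (C : Comp P t j lo hi x) (ht : lev t = 0)
    (h3 : i + 3 ≤ j) (hS : ∀ y, lev y ≤ i + 3 → (y ∈ S ↔ y ≤ t)) (hb : hi i = lo i + 2)
    (hc : (lo (i + 1) = lo i + 1 ∧ lo (i + 2) = lo (i + 1) + 1 ∧ lo (i + 3) = lo (i + 2)) ∨
      (hi (i + 1) = hi i ∧ hi (i + 2) = hi (i + 1) ∧ hi (i + 3) = hi (i + 2) + 1)) :
    (SO.N1f i S).Nonempty := by
  have e1 := C.lohi (i + 3) (by omega)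
  have e2 := C.lohi (i + 2) (by omega)
  have q1 : lo (i + 2 + 1) = lo (i + 3) := rfl
  have q2 : hi (i + 2 + 1) = hi (i + 3) := rfl
  have key : ∀ a b, lo (i + 3) ≤ a → a ≤ hi (i + 3) → lo (i + 2) ≤ b → b ≤ hi (i + 2) →
      uc (x (i + 3) a) = {x (i + 2) b} → lo i + 2 ≤ b → b ≤ hi i → (SO.N1f i S).Nonempty := by
    intro a b a1 a2 b1 b2 hu c1 c2
    have l1 := C.lev_x (i + 3) h3 a a1 a2
    have l2 := C.lev_x (i + 2) (by omega) b b1 b2
    refine ⟨x (i + 3) a, SO.mem_N1f.2 ⟨(hS _ (by omega)).2 (C.le_t _ h3 a a1 a2), Or.inl ⟨by omega,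
      x (i + 2) b, mem_ZL.2 ⟨(hS _ (by omega)).2 (C.le_t _ (by omega) b b1 b2), l2, ?_⟩, hu⟩⟩⟩
    exact (C.up_three h ht (by omega) b1 b2).2 ⟨c1, c2⟩
  rcases hc with ⟨g1, g2, g3⟩ | ⟨g1, g2, g3⟩
  · refine key (lo (i + 3)) (lo (i + 2)) le_rfl e1 le_rfl e2 ?_ (by omega) (by omega)
    exact (C.uc_single h ht (k := i + 2) (by omega) le_rfl e1 le_rfl e2).2 (Or.inl ⟨by omega, by omega⟩)
  · refine key (hi (i + 3)) (hi (i + 2)) e1 le_rfl e2 le_rfl ?_ (by omega) (by omega)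
    exact (C.uc_single h ht (k := i + 2) (by omega) e1 le_rfl e2 le_rfl).2 (Or.inr ⟨by omega, rfl⟩)

end Pool.Agent.GaussPoset.Win
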