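import Pool.Agent.W_448so_h17.CrD

/-!
S9 with Z2 (MP_448cb3_co, case B): the sum over the cores with exceptional cores of smaller energy.
-/

set_option autoImplicit false

namespace Pool.Agent.GaussPoset.Win.So

set_option linter.unusedSectionVars false

open Finset

universe u

variable {P : Type u} [Fintype P] [PartialOrder P] [DecidableEq P] {r i : ℕ}

open Classical in
/-- core theorem for a class `Q`, with a set `S'` of exceptional cores of smaller energy -/
theorem core_sum_E (H : Gr P r) {i : ℕ} (hi : 1 ≤ i) (hi2 : i + 1 ≤ r) {K : Finset P}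
    {psi : P → P} (hM : Mat P i K psi) (n k : ℕ) (Q : (P → ℕ) → Prop)
    (hQ : ∀ e l : P → ℕ, (∀ x, x ∉ near P i → l x = 0) → (Q (e + l) ↔ Q e))
    (S' : Finset (P → ℕ)) (hS' : ∀ e ∈ S', IsCore i K psi e ∧ ∑ x, e x < n ∧ Q e)
    (hk : ∀ e : P → ℕ, IsCore i K psi e → Q e → ∑ x, e x < n → e ∉ S' →
      Rk (lv P i) k (Fe i e))
    (S : Finset (P → ℕ)) (hS : ∀ e ∈ S, IsCore i K psi e ∧ ∑ x, e x = n ∧ Q e)
    (hall : ∀ e : P → ℕ, IsCore i K psi e → Q e → ∑ x, e x = n → e ∉ S →
      Rk (lv P i) k (Fe i e)) :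
    dd ^ ((lv P i).card - k) ∣
      ∑ e ∈ ((univ : Finset P).piAntidiag n).filter Q, trm i e - (∑ e ∈ S, trm i e +
        ∑ e ∈ S', ∑ l ∈ (Rst i K psi e).piAntidiag (n - ∑ x, e x), trm i (e + l)) := by
  have hl0 : ∀ (e0 l : P → ℕ) (m : ℕ), l ∈ (Rst i K psi e0).piAntidiag m →
      (Q (e0 + l) ↔ Q e0) := by
    intro e0 l m hl
    apply hQ
    intro x hx
    by_contra h
    rw [Finset.mem_piAntidiag] at hl
    exact hx (mem_Rst.mp (hl.2 x h)).1
  -- the value of a core
  set g : (P → ℕ) → A := fun e0 => ∑ l ∈ (Rst i K psi e0).piAntidiag (n - ∑ x, e0 x),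
    (if Q (e0 + l) then trm i (e0 + l) else 0) with hg
  set U : Finset (P → ℕ) := (range (n + 1)).biUnion
    (fun q => ((univ : Finset P).piAntidiag q).filter (IsCore i K psi)) with hU
  have mU : ∀ e, e ∈ U ↔ ∑ x, e x ≤ n ∧ IsCore i K psi e := by
    intro e
    rw [hU, mem_biUnion]
    constructor
    · rintro ⟨q, hq, he⟩
      rw [mem_range] at hq
      rw [mem_filter, Finset.mem_piAntidiag] at he
      have h1 : ∑ x, e x = q := he.1.1
      exact ⟨by omega, he.2⟩
    · rintro ⟨h1, h2⟩
      refine ⟨∑ x, e x, mem_range.2 (by omega), ?_⟩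
      rw [mem_filter, Finset.mem_piAntidiag]
      exact ⟨⟨rfl, fun x _ => mem_univ x⟩, h2⟩
  have htot : ∑ e ∈ ((univ : Finset P).piAntidiag n).filter Q, trm i e = ∑ e ∈ U, g e := by
    rw [Finset.sum_filter, core_group H (fun e => if Q e then trm i e else 0) i K psi n, hU,
      Finset.sum_biUnion]
    · refine Finset.sum_congr rfl fun q hq => Finset.sum_congr rfl fun e0 he => ?_
      rw [mem_filter, Finset.mem_piAntidiag] at he
      have h2 : ∑ x, e0 x = q := he.1.1
      simp only [hg, h2]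
    · intro q hq q' hq' hne
      rw [Function.onFun, disjoint_left]
      intro e he he'
      rw [mem_filter, Finset.mem_piAntidiag] at he he'
      exact hne (he.1.1.symm.trans he'.1.1)
  have hSU : S ⊆ U := fun e he => (mU e).2 ⟨(hS e he).2.1.le, (hS e he).1⟩
  have hSU' : S' ⊆ U := fun e he => (mU e).2 ⟨(hS' e he).2.1.le, (hS' e he).1⟩
  have hdis : Disjoint S S' := by
    rw [disjoint_left]
    intro e he he'
    have h1 := (hS e he).2.1
    have h2 := (hS' e he').2.1
    omega
  have gS : ∑ e ∈ S, g e = ∑ e ∈ S, trm i e := by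
    refine Finset.sum_congr rfl fun e he => ?_
    have h1 := (hS e he).2.1
    simp only [hg, h1, Nat.sub_self]
    rw [Finset.piAntidiag_zero, Finset.sum_singleton, add_zero, if_pos (hS e he).2.2]
  have gS' : ∑ e ∈ S', g e =
      ∑ e ∈ S', ∑ l ∈ (Rst i K psi e).piAntidiag (n - ∑ x, e x), trm i (e + l) := by
    refine Finset.sum_congr rfl fun e he => Finset.sum_congr rfl fun l hl => ?_
    rw [if_pos ((hl0 e l _ hl).2 (hS' e he).2.2)]
  have hrest : ∀ e ∈ U \ (S ∪ S'), dd ^ ((lv P i).card - k) ∣ g e := by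
    intro e he
    rw [mem_sdiff, mU, mem_union, not_or] at he
    obtain ⟨⟨h1, h2⟩, h3, h4⟩ := he
    by_cases hQ0 : Q e
    · have h5 : Rk (lv P i) k (Fe i e) := by
        rcases lt_or_eq_of_le h1 with h | h
        · exact hk e h2 hQ0 h h4
        · exact hall e h2 hQ0 h h3
      have h6 := Rk_II (core_cheap H hi hi2 hM h2 h5 (n - ∑ x, e x))
      have h7 : II i (fun S => ∑ l ∈ (Rst i K psi e).piAntidiag (n - ∑ x, e x), Fe i (e + l) S) =
          g e := by
        unfold II
        simp only [Finset.mul_sum, hg]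
        rw [Finset.sum_comm]
        refine Finset.sum_congr rfl fun l hl => ?_
        rw [if_pos ((hl0 e l _ hl).2 hQ0), ← II_Fe]
        rfl
      rw [h7] at h6
      exact h6
    · have h5 : g e = 0 := by
        simp only [hg]
        refine Finset.sum_eq_zero fun l hl => ?_
        rw [if_neg (fun h => hQ0 ((hl0 e l _ hl).1 h))]
      rw [h5]
      exact dvd_zero _
  rw [htot, ← Finset.sum_sdiff (union_subset hSU hSU'), Finset.sum_union hdis, gS, gS',
    add_sub_cancel_right]
  exact Finset.dvd_sum hrest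

/-- configurations of energy one -/
lemma sum_pa_one {M : Type*} [AddCommMonoid M] (R : Finset P) (f : (P → ℕ) → M) :
    ∑ l ∈ R.piAntidiag 1, f l = ∑ x ∈ R, f (Pi.single x 1) := by
  classical
  symm
  refine Finset.sum_bij (fun x _ => Pi.single x 1) ?_ ?_ ?_ (fun _ _ => rfl)
  · intro x hx
    rw [Finset.mem_piAntidiag]
    constructor
    · rw [Finset.sum_eq_single_of_mem x hx]
      · rw [Pi.single_apply, if_pos rfl]
      · intro y _ hyx
        rw [Pi.single_apply, if_neg hyx]
    · intro y hy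
      by_cases h : y = x
      · rw [h]; exact hx
      · exact absurd (by rw [Pi.single_apply, if_neg h]) hy
  · intro x hx y hy h
    by_contra hne
    have h1 := congrFun h x
    rw [Pi.single_apply, Pi.single_apply, if_pos rfl, if_neg hne] at h1
    exact absurd h1 one_ne_zero
  · intro l hl
    rw [Finset.mem_piAntidiag] at hl
    obtain ⟨h1, h2⟩ := hl
    have h3 : ∃ x ∈ R, l x ≠ 0 := by
      by_contra h
      push Not at h
      rw [Finset.sum_eq_zero h] at h1
      exact absurd h1 zero_ne_one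
    obtain ⟨x, hx, hlx⟩ := h3
    refine ⟨x, hx, ?_⟩
    have h4 : ∑ y ∈ R.erase x, l y = 0 ∧ l x = 1 := by
      have h5 : l x + ∑ y ∈ R.erase x, l y = ∑ y ∈ R, l y := Finset.add_sum_erase R l hx
      have h6 : ∑ y ∈ R, l y = 1 := h1
      constructor <;> omega
    funext y
    rw [Pi.single_apply]
    by_cases h : y = x
    · rw [if_pos h, h, h4.2]
    · rw [if_neg h]
      by_contra h6
      have h7 := (Finset.sum_eq_zero_iff.1 h4.1) y (Finset.mem_erase.2 ⟨h, h2 y (Ne.symm h6)⟩)
      exact h6 h7.symm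

end Pool.Agent.GaussPoset.Win.So
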