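import Pool.Agent.W_448so_h63.FB
import Pool.Agent.W_448so_h63.EC

/-!
S9 with Z2 (MP_448cb3_co, case B): a labelling one on a closed set of lower elements plus one unit.
-/

set_option autoImplicit false

namespace Pool.Agent.GaussPoset.Win.So

set_option linter.unusedSectionVars false

open Finset SO

universe u

variable {P : Type u} [Fintype P] [PartialOrder P] [DecidableEq P] {r i : ℕ}

/-- a closed set of lower elements, its near elements and its sites -/
structure Con (i : ℕ) (U F0 B0 : Finset P) : Prop where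
  lo : ∀ x ∈ U, i < lev x
  up : ∀ x ∈ U, i + 1 < lev x → ∀ y, x ⋖ y → y ∈ U
  F : ∀ z, z ∈ F0 ↔ z ∈ U ∧ lev z = i + 1
  B : ∀ v, v ∈ B0 ↔ lev v = i ∧ ∃ x ∈ U, x ⋖ v

/-- label one on `U`, one unit more at `x` -/
def en (U : Finset P) (x : P) : P → ℕ := fun z => (if z ∈ U then 1 else 0) + (if z = x then 1 else 0)

lemma con_empty : Con i (∅ : Finset P) ∅ ∅ where
  lo := fun x hx => absurd hx (notMem_empty x)
  up := fun x hx => absurd hx (notMem_empty x)
  F := by
    intro z
    constructor
    · intro h
      exact absurd h (notMem_empty z)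
    · rintro ⟨h, -⟩
      exact h
  B := by
    intro v
    constructor
    · intro h
      exact absurd h (notMem_empty v)
    · rintro ⟨-, x, hx, -⟩
      exact absurd hx (notMem_empty x)

section en

variable {U F0 B0 : Finset P} {x : P}

lemma en_self (hx : x ∉ U) : en U x x = 1 := by
  unfold en
  rw [if_neg hx, if_pos rfl]

lemma en_mem {z : P} (hz : z ∈ U) (h : z ≠ x) : en U x z = 1 := by
  unfold en
  rw [if_pos hz, if_neg h]

lemma en_out {z : P} (hz : z ∉ U) (h : z ≠ x) : en U x z = 0 := by
  unfold en
  rw [if_neg hz, if_neg h]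

lemma en_le {z : P} (hx : x ∉ U) : en U x z ≤ 1 := by
  unfold en
  by_cases h : z = x
  · subst h
    rw [if_neg hx, if_pos rfl]
  · rw [if_neg h]
    split_ifs <;> omega

lemma en_pos {z : P} (h : 0 < en U x z) : z ∈ U ∨ z = x := by
  by_contra hc
  push Not at hc
  rw [en_out hc.1 hc.2] at h
  exact lt_irrefl _ h

/-- a site outside: nothing changes -/
lemma en_site (H : Gr P r) (D : Con i U F0 B0) (hl : lev x = i) (hx : x ∉ B0) :
    SO.LowD i (en U x) ∅ F0 B0 := by
  have hxU : x ∉ U := fun h => by have := D.lo x h; omega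
  refine ⟨?_, ?_, ?_, ?_, ?_, fun v hv => ((D.B v).1 hv).1⟩
  · intro z hz
    refine ⟨?_, fun h => absurd h (notMem_empty z)⟩
    rintro ⟨y, hy, hlt⟩
    exfalso
    have ly := lev_cov H hy
    rcases en_pos (show 0 < en U x y by omega) with h | h
    · have h1 := D.up y h (by omega) z hy
      rw [en_mem h (by rintro rfl; omega), en_mem h1 (by rintro rfl; omega)] at hlt
      exact lt_irrefl _ hlt
    · rw [h] at ly
      omega
  · intro z hz
    rw [D.B]
    constructor
    · rintro ⟨y, hy, hlt⟩
      have ly := lev_cov H hy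
      rcases en_pos (show 0 < en U x y by omega) with h | h
      · exact ⟨hz, y, h, hy⟩
      · rw [h] at ly
        omega
    · rintro ⟨-, y, hy, hyz⟩
      refine ⟨y, hyz, ?_⟩
      have hzx : z ≠ x := by
        rintro rfl
        exact hx ((D.B z).2 ⟨hz, y, hy, hyz⟩)
      have hzU : z ∉ U := fun h => by have := D.lo z h; omega
      have ly := lev_cov H hyz
      rw [en_mem hy (by rintro rfl; omega), en_out hzU hzx]
      exact Nat.zero_lt_one
  · intro z hz
    rw [D.F]
    constructor
    · rintro ⟨y, hy, hle⟩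
      refine ⟨notMem_empty z, ?_⟩
      rintro ⟨h1, h2⟩
      have ly := lev_cov H hy
      have hyU : y ∉ U := fun h => by have := D.lo y h; omega
      have hyx : y ≠ x := by
        rintro rfl
        exact hx ((D.B y).2 ⟨hl, z, h1, hy⟩)
      rw [en_mem h1 (by rintro rfl; omega), en_out hyU hyx] at hle
      omega
    · rintro ⟨-, h⟩
      obtain ⟨y, hy⟩ := uc_nonempty H (x := z) (by omega)
      refine ⟨y, mem_uc.1 hy, ?_⟩
      by_cases h1 : z ∈ U
      · have h2 : lev z ≠ i + 1 := fun h3 => h ⟨h1, h3⟩
        have h3 := D.up z h1 (by omega) y (mem_uc.1 hy)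
        have ly := D.lo y h3
        rw [en_mem h1 (by rintro rfl; omega), en_mem h3 (by rintro rfl; omega)]
      · rw [en_out h1 (by rintro rfl; omega)]
        exact Nat.zero_le _
  · exact fun z hz => absurd hz (notMem_empty z)
  · intro z hz
    have := (D.F z).1 hz
    exact ⟨by omega, notMem_empty z⟩

/-- a site of the set: its near elements are not free any more, the site is not killed -/
lemma en_siteB (H : Gr P r) (D : Con i U F0 B0) (hl : lev x = i) :
    SO.LowD i (en U x) ∅ (F0 \ dc x) (B0.erase x) := by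
  have hxU : x ∉ U := fun h => by have := D.lo x h; omega
  refine ⟨?_, ?_, ?_, ?_, ?_, fun v hv => ((D.B v).1 (mem_of_mem_erase hv)).1⟩
  · intro z hz
    refine ⟨?_, fun h => absurd h (notMem_empty z)⟩
    rintro ⟨y, hy, hlt⟩
    exfalso
    have ly := lev_cov H hy
    rcases en_pos (show 0 < en U x y by omega) with h | h
    · have h1 := D.up y h (by omega) z hy
      rw [en_mem h (by rintro rfl; omega), en_mem h1 (by rintro rfl; omega)] at hlt
      exact lt_irrefl _ hlt
    · rw [h] at ly
      omega
  · intro z hz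
    rw [mem_erase, D.B]
    constructor
    · rintro ⟨y, hy, hlt⟩
      have ly := lev_cov H hy
      rcases en_pos (show 0 < en U x y by omega) with h | h
      · refine ⟨?_, hz, y, h, hy⟩
        rintro rfl
        rw [en_mem h (by rintro rfl; omega), en_self hxU] at hlt
        exact lt_irrefl _ hlt
      · rw [h] at ly
        omega
    · rintro ⟨hzx, -, y, hy, hyz⟩
      refine ⟨y, hyz, ?_⟩
      have hzU : z ∉ U := fun h => by have := D.lo z h; omega
      have ly := lev_cov H hyz
      rw [en_mem hy (by rintro rfl; omega), en_out hzU hzx]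
      exact Nat.zero_lt_one
  · intro z hz
    rw [mem_sdiff, D.F, mem_dc]
    constructor
    · rintro ⟨y, hy, hle⟩
      refine ⟨notMem_empty z, ?_⟩
      rintro ⟨⟨h1, h2⟩, h3⟩
      have ly := lev_cov H hy
      have hyU : y ∉ U := fun h => by have := D.lo y h; omega
      have hyx : y ≠ x := by
        rintro rfl
        exact h3 hy
      rw [en_mem h1 (by rintro rfl; omega), en_out hyU hyx] at hle
      omega
    · rintro ⟨-, h⟩
      by_cases h0 : z ∈ U ∧ lev z = i + 1
      · have h1 : z ⋖ x := by
          by_contra h2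
          exact h ⟨h0, h2⟩
        refine ⟨x, h1, ?_⟩
        rw [en_mem h0.1 (by rintro rfl; omega), en_self hxU]
      · obtain ⟨y, hy⟩ := uc_nonempty H (x := z) (by omega)
        refine ⟨y, mem_uc.1 hy, ?_⟩
        by_cases h1 : z ∈ U
        · have h2 : lev z ≠ i + 1 := fun h3 => h0 ⟨h1, h3⟩
          have h3 := D.up z h1 (by omega) y (mem_uc.1 hy)
          have ly := D.lo y h3
          rw [en_mem h1 (by rintro rfl; omega), en_mem h3 (by rintro rfl; omega)]
        · rw [en_out h1 (by rintro rfl; omega)]
          exact Nat.zero_le _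
  · exact fun z hz => absurd hz (notMem_empty z)
  · intro z hz
    have := (D.F z).1 (mem_sdiff.1 hz).1
    exact ⟨by omega, notMem_empty z⟩

/-- a lower element outside, all of whose lower covers towards the window are in the set -/
lemma en_low (H : Gr P r) (D : Con i U F0 B0) (hl : i < lev x) (hxU : x ∉ U)
    (hc : i + 1 < lev x → ∀ y, x ⋖ y → y ∈ U) {F1 B1 : Finset P}
    (hF : ∀ z, z ∈ F1 ↔ z ∈ F0 ∨ (z = x ∧ lev x = i + 1))
    (hB : ∀ v, v ∈ B1 ↔ v ∈ B0 ∨ (x ⋖ v ∧ lev x = i + 1)) :
    SO.LowD i (en U x) ∅ F1 B1 := by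
  have hpos : ∀ z, z ∈ U ∨ z = x → en U x z = 1 := by
    rintro z (h | h)
    · exact en_mem h (by rintro rfl; exact hxU h)
    · rw [h, en_self hxU]
  have hcl : ∀ z, (z ∈ U ∨ z = x) → i + 1 < lev z → ∀ y, z ⋖ y → y ∈ U := by
    rintro z (h | h) hz y hy
    · exact D.up z h hz y hy
    · subst h
      exact hc hz y hy
  have hsite : ∀ z, lev z ≤ i → en U x z = 0 := by
    intro z hz
    exact en_out (fun h => by have := D.lo z h; omega) (by rintro rfl; omega)
  refine ⟨?_, ?_, ?_, ?_, ?_, ?_⟩
  · intro z hz
    refine ⟨?_, fun h => absurd h (notMem_empty z)⟩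
    rintro ⟨y, hy, hlt⟩
    exfalso
    have ly := lev_cov H hy
    have h := en_pos (show 0 < en U x y by omega)
    have h1 := hcl y h (by omega) z hy
    rw [hpos y h, hpos z (Or.inl h1)] at hlt
    exact lt_irrefl _ hlt
  · intro z hz
    rw [hB, D.B]
    constructor
    · rintro ⟨y, hy, hlt⟩
      have ly := lev_cov H hy
      rcases en_pos (show 0 < en U x y by omega) with h | h
      · exact Or.inl ⟨hz, y, h, hy⟩
      · subst h
        exact Or.inr ⟨hy, by omega⟩
    · rintro (⟨-, y, hy, hyz⟩ | ⟨hxz, hx1⟩)
      · exact ⟨y, hyz, by rw [hpos y (Or.inl hy), hsite z hz.le]; exact Nat.zero_lt_one⟩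
      · exact ⟨x, hxz, by rw [hpos x (Or.inr rfl), hsite z hz.le]; exact Nat.zero_lt_one⟩
  · intro z hz
    rw [hF, D.F]
    constructor
    · rintro ⟨y, hy, hle⟩
      refine ⟨notMem_empty z, ?_⟩
      have ly := lev_cov H hy
      rintro (⟨h1, h2⟩ | ⟨rfl, h2⟩)
      · rw [hpos z (Or.inl h1), hsite y (by omega)] at hle
        omega
      · rw [hpos z (Or.inr rfl), hsite y (by omega)] at hle
        omega
    · rintro ⟨-, h⟩
      obtain ⟨y, hy⟩ := uc_nonempty H (x := z) (by omega)
      refine ⟨y, mem_uc.1 hy, ?_⟩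
      by_cases h1 : z ∈ U ∨ z = x
      · have h2 : lev z ≠ i + 1 := by
          intro h3
          rcases h1 with h1 | h1
          · exact h (Or.inl ⟨h1, h3⟩)
          · exact h (Or.inr ⟨h1, by rw [← h1]; exact h3⟩)
        rw [hpos z h1, hpos y (Or.inl (hcl z h1 (by omega) y (mem_uc.1 hy)))]
      · push Not at h1
        rw [en_out h1.1 h1.2]
        exact Nat.zero_le _
  · exact fun z hz => absurd hz (notMem_empty z)
  · intro z hz
    refine ⟨?_, notMem_empty z⟩
    rcases (hF z).1 hz with h | ⟨rfl, h⟩
    · have := (D.F z).1 h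
      omega
    · exact hl
  · intro z hz
    rcases (hB z).1 hz with h | ⟨h1, h2⟩
    · exact ((D.B z).1 h).1
    · have := lev_cov H h1
      omega

/-- a lower element with a cover outside the set which is not a site: not admissible -/
lemma en_bad (D : Con i U F0 B0) (hl : i + 1 < lev x) (H : Gr P r) (hxU : x ∉ U) {y : P}
    (hy : x ⋖ y) (hyU : y ∉ U) : ¬ AdmL i (en U x) := by
  intro hA
  have ly := lev_cov H hy
  have hyx : y ≠ x := by rintro rfl; omega
  apply hA y (by omega)
  constructor
  · exact ⟨x, hy, by rw [en_out hyU hyx, en_self hxU]; exact Nat.zero_lt_one⟩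
  · obtain ⟨z, hz⟩ := uc_nonempty H (x := y) (by omega)
    exact ⟨z, mem_uc.1 hz, by rw [en_out hyU hyx]; exact Nat.zero_le _⟩

/-- an upper element far from the window: not admissible -/
lemma en_badU (H : Gr P r) (hir : i ≤ r) (D : Con i U F0 B0) (hl : lev x + 1 < i) :
    ¬ AdmU i (en U x) := by
  intro hA
  obtain ⟨y, hy⟩ := dc_nonempty H (x := x) (by omega)
  have ly := lev_cov H (mem_dc.1 hy)
  have hyU : y ∉ U := fun h => by have := D.lo y h; omega
  have hxU : x ∉ U := fun h => by have := D.lo x h; omega
  have hyx : y ≠ x := by rintro rfl; omega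
  apply hA y (by omega)
  constructor
  · exact ⟨x, mem_dc.1 hy, by rw [en_out hyU hyx, en_self hxU]; exact Nat.zero_lt_one⟩
  · obtain ⟨z, hz⟩ := dc_nonempty H (x := y) (by omega)
    exact ⟨z, mem_dc.1 hz, by rw [en_out hyU hyx]; exact Nat.zero_le _⟩

/-- a near upper element -/
lemma en_upp (H : Gr P r) (hir : i ≤ r) (D : Con i U F0 B0) (hl : lev x + 1 = i) :
    SO.LowD i (en U x) ∅ F0 B0 ∧ SO.UppD i (en U x) ∅ {x} (dc x) := by
  have hxU : x ∉ U := fun h => by have := D.lo x h; omega
  have hlow : ∀ z, i ≤ lev z → en U x z = if z ∈ U then 1 else 0 := by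
    intro z hz
    unfold en
    rw [if_neg (show z ≠ x by rintro rfl; omega), add_zero]
  constructor
  · refine ⟨?_, ?_, ?_, ?_, ?_, fun v hv => ((D.B v).1 hv).1⟩
    · intro z hz
      refine ⟨?_, fun h => absurd h (notMem_empty z)⟩
      rintro ⟨y, hy, hlt⟩
      exfalso
      have ly := lev_cov H hy
      rw [hlow z (by omega), hlow y (by omega)] at hlt
      by_cases h : y ∈ U
      · rw [if_pos h, if_pos (D.up y h (by omega) z hy)] at hlt
        exact lt_irrefl _ hlt
      · rw [if_neg h] at hlt
        omega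
    · intro z hz
      rw [D.B]
      have hzU : z ∉ U := fun h => by have := D.lo z h; omega
      constructor
      · rintro ⟨y, hy, hlt⟩
        have ly := lev_cov H hy
        rw [hlow z (by omega), hlow y (by omega)] at hlt
        refine ⟨hz, y, ?_, hy⟩
        by_contra h
        rw [if_neg h] at hlt
        omega
      · rintro ⟨-, y, hy, hyz⟩
        have ly := lev_cov H hyz
        exact ⟨y, hyz, by rw [hlow z (by omega), hlow y (by omega), if_pos hy, if_neg hzU]
                          exact Nat.zero_lt_one⟩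
    · intro z hz
      rw [D.F]
      constructor
      · rintro ⟨y, hy, hle⟩
        refine ⟨notMem_empty z, ?_⟩
        rintro ⟨h1, h2⟩
        have ly := lev_cov H hy
        have hyU : y ∉ U := fun h => by have := D.lo y h; omega
        rw [hlow z (by omega), hlow y (by omega), if_pos h1, if_neg hyU] at hle
        omega
      · rintro ⟨-, h⟩
        obtain ⟨y, hy⟩ := uc_nonempty H (x := z) (by omega)
        refine ⟨y, mem_uc.1 hy, ?_⟩
        have ly := lev_cov H (mem_uc.1 hy)
        rw [hlow z (by omega), hlow y (by omega)]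
        by_cases h1 : z ∈ U
        · have h2 : lev z ≠ i + 1 := fun h3 => h ⟨h1, h3⟩
          rw [if_pos h1, if_pos (D.up z h1 (by omega) y (mem_uc.1 hy))]
        · rw [if_neg h1]
          exact Nat.zero_le _
    · exact fun z hz => absurd hz (notMem_empty z)
    · intro z hz
      have := (D.F z).1 hz
      exact ⟨by omega, notMem_empty z⟩
  · have hup : ∀ z, lev z ≤ i → z ≠ x → en U x z = 0 := by
      intro z hz h
      exact en_out (fun h => by have := D.lo z h; omega) h
    refine ⟨?_, ?_, ?_, ?_, ?_, ?_⟩
    · intro z hz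
      refine ⟨?_, fun h => absurd h (notMem_empty z)⟩
      rintro ⟨y, hy, hlt⟩
      exfalso
      have ly := lev_cov H hy
      rw [hup y (by omega) (by rintro rfl; omega)] at hlt
      omega
    · intro z hz
      rw [mem_dc]
      constructor
      · rintro ⟨y, hy, hlt⟩
        have ly := lev_cov H hy
        by_contra h
        have hyx : y ≠ x := by rintro rfl; exact h hy
        rw [hup y (by omega) hyx] at hlt
        omega
      · intro h
        exact ⟨x, h, by rw [en_self hxU, hup z hz.le (by rintro rfl; omega)]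
                        exact Nat.zero_lt_one⟩
    · intro z hz
      rw [mem_singleton]
      constructor
      · rintro ⟨y, hy, hle⟩
        refine ⟨notMem_empty z, ?_⟩
        rintro rfl
        have ly := lev_cov H hy
        rw [en_self hxU, hup y (by omega) (by rintro rfl; omega)] at hle
        omega
      · rintro ⟨-, h⟩
        obtain ⟨y, hy⟩ := dc_nonempty H (x := z) (by omega)
        refine ⟨y, mem_dc.1 hy, ?_⟩
        rw [hup z (by omega) h]
        exact Nat.zero_le _
    · exact fun z hz => absurd hz (notMem_empty z)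
    · intro z hz
      rw [mem_singleton] at hz
      subst hz
      exact ⟨by omega, notMem_empty z⟩
    · intro z hz
      have := lev_dc H hz
      omega

/-- nothing above the window if `x` is a site or a lower element -/
lemma en_none (H : Gr P r) (hir : i ≤ r) (D : Con i U F0 B0) (hl : i ≤ lev x) :
    SO.UppD i (en U x) ∅ ∅ ∅ := by
  refine SO.upp_none H hir fun z hz => ?_
  exact en_out (fun h => by have := D.lo z h; omega) (by rintro rfl; omega)

/-- a second unit on a near element of the set -/
lemma en_near (H : Gr P r) (D : Con i U F0 B0) (hx : x ∈ F0) : SO.LowD i (en U x) ∅ F0 B0 := by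
  obtain ⟨hxU, hl⟩ := (D.F x).1 hx
  have hx2 : en U x x = 2 := by
    unfold en
    rw [if_pos hxU, if_pos rfl]
  have h1 : ∀ z ∈ U, 1 ≤ en U x z := by
    intro z hz
    unfold en
    rw [if_pos hz]
    omega
  have hsite : ∀ z, lev z ≤ i → en U x z = 0 := by
    intro z hz
    exact en_out (fun h => by have := D.lo z h; omega) (by rintro rfl; omega)
  refine ⟨?_, ?_, ?_, ?_, ?_, fun v hv => ((D.B v).1 hv).1⟩
  · intro z hz
    refine ⟨?_, fun h => absurd h (notMem_empty z)⟩
    rintro ⟨y, hy, hlt⟩
    exfalso
    have ly := lev_cov H hy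
    have hyx : y ≠ x := by rintro rfl; omega
    rcases en_pos (show 0 < en U x y by omega) with h | h
    · rw [en_mem h hyx] at hlt
      have := h1 z (D.up y h (by omega) z hy)
      omega
    · exact hyx h
  · intro z hz
    rw [D.B]
    constructor
    · rintro ⟨y, hy, hlt⟩
      rcases en_pos (show 0 < en U x y by omega) with h | h
      · exact ⟨hz, y, h, hy⟩
      · exact ⟨hz, y, by rw [h]; exact hxU, hy⟩
    · rintro ⟨-, y, hy, hyz⟩
      exact ⟨y, hyz, by rw [hsite z hz.le]; exact h1 y hy⟩
  · intro z hz
    rw [D.F]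
    constructor
    · rintro ⟨y, hy, hle⟩
      refine ⟨notMem_empty z, ?_⟩
      rintro ⟨h2, h3⟩
      have ly := lev_cov H hy
      rw [hsite y (by omega)] at hle
      have := h1 z h2
      omega
    · rintro ⟨-, h⟩
      obtain ⟨y, hy⟩ := uc_nonempty H (x := z) (by omega)
      refine ⟨y, mem_uc.1 hy, ?_⟩
      by_cases h2 : z ∈ U
      · have h3 : lev z ≠ i + 1 := fun h3 => h ⟨h2, h3⟩
        rw [en_mem h2 (by rintro rfl; omega)]
        exact h1 y (D.up z h2 (by omega) y (mem_uc.1 hy))
      · rw [en_out h2 (by rintro rfl; exact h2 hxU)]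
        exact Nat.zero_le _
  · exact fun z hz => absurd hz (notMem_empty z)
  · intro z hz
    have := (D.F z).1 hz
    exact ⟨by omega, notMem_empty z⟩

end en

end Pool.Agent.GaussPoset.Win.So
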