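import Pool.Agent.W_448so_h63.FC

/-!
S9 with Z2 (MP_448cb3_co, case B): values of the labellings `en U x`.
-/

set_option autoImplicit false

namespace Pool.Agent.GaussPoset.Win.So

set_option linter.unusedSectionVars false

open Finset SO

universe u

variable {P : Type u} [Fintype P] [PartialOrder P] [DecidableEq P] {r i : ℕ}
  {e : P → ℕ} {K F B K' F' B' : Finset P}

lemma coeff_dd (m b : ℕ) (G : A) :
    PowerSeries.coeff b (dd ^ m * G : A) = if m ≤ b then PowerSeries.coeff (b - m) G else 0 := by
  unfold dd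
  exact PowerSeries.coeff_X_pow_mul' G m b

lemma xx_0 : PowerSeries.coeff 0 (xx : A) = -1 := by
  unfold xx dd
  simp

lemma xx_c : PowerSeries.constantCoeff (xx : A) = -1 := by
  have := xx_0
  rwa [PowerSeries.coeff_zero_eq_constantCoeff_apply] at this

lemma xx_1 : PowerSeries.coeff 1 (xx : A) = 1 := by
  unfold xx dd
  rw [map_sub, PowerSeries.coeff_one_X, PowerSeries.coeff_one, if_neg one_ne_zero, sub_zero]

lemma xi_n (n : ℕ) : PowerSeries.coeff n (xi : A) = -1 := by
  unfold xi
  rw [map_neg, PowerSeries.coeff_mk]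

lemma c0_units (m n : ℕ) : PowerSeries.coeff 0 (xx ^ m * xi ^ n : A) = (-1) ^ (m + n) := by
  have h := coef_units m n 0
  rwa [pow_zero, one_mul] at h

lemma c1_xx (m : ℕ) : PowerSeries.coeff 1 (xx ^ (m + 1) : A) = ((m : ℤ) + 1) * (-1) ^ m := by
  rw [PowerSeries.coeff_one_pow, xx_1]
  have h : PowerSeries.constantCoeff (xx : A) = -1 := by
    have := xx_0
    rwa [PowerSeries.coeff_zero_eq_constantCoeff_apply] at this
  rw [h]
  push_cast
  simp

lemma c1_mix : PowerSeries.coeff 1 (xx ^ 4 * xi ^ 1 : A) = 3 := by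
  have h : PowerSeries.constantCoeff (xx : A) = -1 := by
    have := xx_0
    rwa [PowerSeries.coeff_zero_eq_constantCoeff_apply] at this
  have h' : PowerSeries.constantCoeff (xi : A) = -1 := by
    have := xi_n 0
    rwa [PowerSeries.coeff_zero_eq_constantCoeff_apply] at this
  rw [pow_one, PowerSeries.coeff_one_mul, c1_xx 3, xi_n, map_pow, h, h']
  norm_num

/-- the term of a labelling -/
lemma trm_of (D : SO.LowD i e K F B) (D' : SO.UppD i e K' F' B') (hd : Disjoint B B') :
    trm i e = dd ^ (F.card + F'.card + ((lv P i).card - B.card - B'.card)) *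
      (xx ^ (K.card + B.card) * xi ^ (K'.card + F'.card)) ∧
      B.card + B'.card ≤ (lv P i).card := by
  classical
  have hdis : Disjoint (AL i e) (AU i e) := by rw [D.AL_eq, D'.AU_eq]; exact hd
  refine ⟨?_, ?_⟩
  · unfold trm cw
    rw [if_pos hdis, if_pos ⟨D.adm, D'.adm⟩, D.aL_eq, D.pL_eq, D.AL_eq, D'.aU_eq, D'.pU_eq,
      D'.AU_eq, pow_add (dd : A) (F.card + F'.card), pow_add (xx : A)]
    ring
  · rw [← card_union_of_disjoint hd]
    apply card_le_card
    intro v hv
    rw [mem_lv]
    rcases mem_union.1 hv with h | h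
    · exact D.lb v h
    · exact D'.lb v h

/-- the coefficient of a labelling -/
theorem coeff_trm (D : SO.LowD i e K F B) (D' : SO.UppD i e K' F' B') (hd : Disjoint B B')
    (s : ℕ) : PowerSeries.coeff (lv P i).card (dd ^ s * trm i e : A) =
      if F.card + F'.card + s ≤ B.card + B'.card then
        PowerSeries.coeff (B.card + B'.card - (F.card + F'.card + s))
          (xx ^ (K.card + B.card) * xi ^ (K'.card + F'.card) : A) else 0 := by
  obtain ⟨h1, h2⟩ := trm_of D D' hd
  rw [h1, ← mul_assoc, ← pow_add, coeff_dd]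
  by_cases h : F.card + F'.card + s ≤ B.card + B'.card
  · rw [if_pos h, if_pos (by omega)]
    congr 1
    congr 1
    omega
  · rw [if_neg h, if_neg (by omega)]

/-- two deficits -/
lemma coeff_trm2 (D : SO.LowD i e K F B) (D' : SO.UppD i e K' F' B') (hd : Disjoint B B')
    {s : ℕ} (h : B.card + B'.card = F.card + F'.card + s) :
    PowerSeries.coeff (lv P i).card (dd ^ s * trm i e : A) =
      (-1) ^ (K.card + B.card + (K'.card + F'.card)) := by
  rw [coeff_trm D D' hd, if_pos (by omega), show B.card + B'.card - (F.card + F'.card + s) = 0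
    by omega, c0_units]

lemma coeff_trm_small (D : SO.LowD i e K F B) (D' : SO.UppD i e K' F' B') (hd : Disjoint B B')
    {s : ℕ} (h : B.card + B'.card < F.card + F'.card + s) :
    PowerSeries.coeff (lv P i).card (dd ^ s * trm i e : A) = 0 := by
  rw [coeff_trm D D' hd, if_neg (by omega)]

lemma trm_zero_adm (h : ¬ (AdmL i e ∧ AdmU i e)) : trm i e = 0 := by
  unfold trm cw
  split_ifs
  · rw [zero_mul]
  · rfl

lemma trm_zero_dis (D : SO.LowD i e K F B) (D' : SO.UppD i e K' F' B') (hd : ¬ Disjoint B B') :
    trm i e = 0 := by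
  unfold trm
  rw [if_neg]
  rw [D.AL_eq, D'.AU_eq]
  exact hd

/-! ### the empty set -/

section zero

variable {x : P}

lemma e0_site (H : Gr P r) (hir : i ≤ r) (hl : lev x = i) :
    PowerSeries.coeff (lv P i).card (trm i (en ∅ x) : A) = 1 := by
  have h := coeff_trm2 (s := 0) (en_site H con_empty hl (notMem_empty x))
    (en_none H hir con_empty hl.ge) (disjoint_empty_left _) (by simp)
  rw [pow_zero, one_mul] at h
  rw [h]
  simp

lemma e0_low (H : Gr P r) (hir : i ≤ r) (hl : lev x = i + 1) :
    PowerSeries.coeff (lv P i).card (trm i (en ∅ x) : A) = - ((uc x).card : ℤ) := by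
  have D : SO.LowD i (en ∅ x) ∅ {x} (uc x) := by
    refine en_low H con_empty (by omega) (notMem_empty x) (by omega) ?_ ?_
    · intro z
      rw [mem_singleton]
      constructor
      · intro h
        exact Or.inr ⟨h, hl⟩
      · rintro (h | ⟨h, -⟩)
        · exact absurd h (notMem_empty z)
        · exact h
    · intro z
      rw [mem_uc]
      constructor
      · intro h
        exact Or.inr ⟨h, hl⟩
      · rintro (h | ⟨h, -⟩)
        · exact absurd h (notMem_empty z)
        · exact h
  have D' := en_none (U := ∅) (x := x) H hir con_empty (by omega)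
  have h := coeff_trm D D' (disjoint_empty_right _) 0
  rw [pow_zero, one_mul] at h
  rw [h]
  rcases uc_card_cases H (x := x) (by omega) with h1 | h1
  · rw [h1]
    simp only [card_singleton, card_empty]
    rw [if_pos (by omega)]
    norm_num
    exact xx_c
  · rw [h1]
    simp only [card_singleton, card_empty]
    rw [if_pos (by omega)]
    norm_num
    have := c1_xx 1
    norm_num at this
    exact this

lemma e0_upp (H : Gr P r) (hir : i ≤ r) (hl : lev x + 1 = i) :
    PowerSeries.coeff (lv P i).card (trm i (en ∅ x) : A) = -1 := by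
  obtain ⟨D, D'⟩ := en_upp (U := ∅) (x := x) H hir con_empty hl
  have h := coeff_trm D D' (disjoint_empty_left _) 0
  rw [pow_zero, one_mul] at h
  rw [h]
  have h1 : 1 ≤ (dc x).card := card_pos.2 (dc_nonempty H (by omega))
  simp only [card_singleton, card_empty]
  rw [if_pos (by omega)]
  norm_num
  exact xi_n _

lemma e0_low_far (H : Gr P r) (hl : i + 1 < lev x) :
    trm i (en ∅ x) = 0 := by
  obtain ⟨y, hy⟩ := uc_nonempty H (x := x) (by omega)
  apply trm_zero_adm
  rintro ⟨h, -⟩
  exact en_bad con_empty hl H (notMem_empty x) (mem_uc.1 hy) (notMem_empty y) h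

lemma e0_upp_far (H : Gr P r) (hir : i ≤ r) (hl : lev x + 1 < i) :
    trm i (en ∅ x) = 0 := by
  apply trm_zero_adm
  rintro ⟨-, h⟩
  exact en_badU H hir con_empty hl h

end zero

/-! ### a join of two pendants -/

/-- a join of level `i + 3` between two pendants of different components -/
structure ZD {ι : Type*} (i : ℕ) (κ : P → ι) (v p p' y y' : P) : Prop extends CrV i κ v p p' where
  hp : uc p = {y}
  hp' : uc p' = {y'}
  c : (uc y).card = 2
  c' : (uc y').card = 2

section join

variable {ι : Type*} [DecidableEq ι] {κ : P → ι} {v p p' y y' : P}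

lemma ZD.yp (D : ZD i κ v p p' y y') : p ⋖ y := by
  rw [← mem_uc, D.hp]
  exact mem_singleton_self y

lemma ZD.yp' (D : ZD i κ v p p' y y') : p' ⋖ y' := by
  rw [← mem_uc, D.hp']
  exact mem_singleton_self y'

lemma ZD.ly (H : Gr P r) (D : ZD i κ v p p' y y') : lev y = i + 1 := by
  have h1 := lev_cov H D.yp
  have h2 := D.lp H
  omega

lemma ZD.ly' (H : Gr P r) (D : ZD i κ v p p' y y') : lev y' = i + 1 := by
  have h1 := lev_cov H D.yp'
  have h2 := D.lp' H
  omega

lemma ZD.dis (H : Gr P r) (hκ : Split (i + 2) κ) (D : ZD i κ v p p' y y') :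
    Disjoint (uc y) (uc y') := by
  rw [disjoint_left]
  intro x hx hx'
  exact D.ne ((D.lab2 hκ H (mem_uc.2 D.yp) hx).symm.trans
    (D.toCrV.symm.lab2 hκ H (mem_uc.2 D.yp') hx'))

lemma ZD.nyy (H : Gr P r) (hκ : Split (i + 2) κ) (D : ZD i κ v p p' y y') : y ≠ y' := by
  rintro rfl
  have h1 := D.dis H hκ
  rw [disjoint_self, bot_eq_empty] at h1
  have h2 := D.c
  rw [h1, card_empty] at h2
  omega

lemma ZD.four (H : Gr P r) (hκ : Split (i + 2) κ) (D : ZD i κ v p p' y y') :
    (uc y ∪ uc y').card = 4 := by
  rw [card_union_of_disjoint (D.dis H hκ), D.c, D.c']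

/-- the cone of the join as a closed set -/
lemma ZD.con (H : Gr P r) (D : ZD i κ v p p' y y') :
    Con i {v, p, p', y, y'} {y, y'} (uc y ∪ uc y') := by
  have lv := D.lv
  have lp := D.lp H
  have lp' := D.lp' H
  have ly := D.ly H
  have ly' := D.ly' H
  have hm : ∀ z, z ∈ ({v, p, p', y, y'} : Finset P) ↔ z = v ∨ z = p ∨ z = p' ∨ z = y ∨ z = y' := by
    intro z
    simp only [mem_insert, mem_singleton]
  refine ⟨?_, ?_, ?_, ?_⟩
  · intro x hx
    rcases (hm x).1 hx with rfl | rfl | rfl | rfl | rfl <;> omega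
  · intro x hx hl z hz
    rw [hm]
    rcases (hm x).1 hx with rfl | rfl | rfl | rfl | rfl
    · rw [← mem_uc, D.cov, mem_insert, mem_singleton] at hz
      tauto
    · rw [← mem_uc, D.hp, mem_singleton] at hz
      tauto
    · rw [← mem_uc, D.hp', mem_singleton] at hz
      tauto
    · omega
    · omega
  · intro z
    rw [hm, mem_insert, mem_singleton]
    constructor
    · rintro (rfl | rfl)
      · exact ⟨by tauto, ly⟩
      · exact ⟨by tauto, ly'⟩
    · rintro ⟨rfl | rfl | rfl | h | h, h2⟩
      · omega
      · omega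
      · omega
      · exact Or.inl h
      · exact Or.inr h
  · intro z
    rw [mem_union, mem_uc, mem_uc]
    constructor
    · rintro (h | h)
      · have := lev_cov H h
        exact ⟨by omega, y, (hm y).2 (by tauto), h⟩
      · have := lev_cov H h
        exact ⟨by omega, y', (hm y').2 (by tauto), h⟩
    · rintro ⟨h1, x, hx, hxz⟩
      have lx := lev_cov H hxz
      rcases (hm x).1 hx with rfl | rfl | rfl | rfl | rfl
      · omega
      · omega
      · omega
      · exact Or.inl hxz
      · exact Or.inr hxz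

end join

end Pool.Agent.GaussPoset.Win.So
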