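import Pool.Agent.W_448so_h63.FD

/-!
S9 with Z2 (MP_448cb3_co, case B): the environment of a join of two pendants.
-/

set_option autoImplicit false

namespace Pool.Agent.GaussPoset.Win.So

set_option linter.unusedSectionVars false

open Finset SO

universe u

variable {P : Type u} [Fintype P] [PartialOrder P] [DecidableEq P] {r i : ℕ}

variable {ι : Type*} [DecidableEq ι] {κ : P → ι} {v p p' y y' x : P}

/-- the middle element of a cone: a second unit on a pendant -/
lemma en_mid {U F0 B0 : Finset P} (H : Gr P r) (D : Con i U F0 B0) (hxU : x ∈ U)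
    (hl : lev x = i + 2) {y : P} (hy : uc x = {y}) :
    SO.LowD i (en U x) {y} (insert x (F0.erase y)) B0 := by
  have hxy : x ⋖ y := by rw [← mem_uc, hy]; exact mem_singleton_self y
  have ly := lev_cov H hxy
  have hyU : y ∈ U := D.up x hxU (by omega) y hxy
  have hyx : y ≠ x := by rintro rfl; omega
  have hx2 : en U x x = 2 := by
    unfold en
    rw [if_pos hxU, if_pos rfl]
  have h1 : ∀ z ∈ U, 1 ≤ en U x z := by
    intro z hz
    unfold en
    rw [if_pos hz]
    omega
  have hsite : ∀ z, lev z ≤ i → en U x z = 0 := by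
    intro z hz
    exact en_out (fun h => by have := D.lo z h; omega) (by rintro rfl; omega)
  refine ⟨?_, ?_, ?_, ?_, ?_, fun v hv => ((D.B v).1 hv).1⟩
  · intro z hz
    rw [mem_singleton]
    constructor
    · rintro ⟨w, hw, hlt⟩
      have lw := lev_cov H hw
      rcases en_pos (show 0 < en U x w by omega) with h | h
      · by_cases hwx : w = x
        · subst hwx
          rw [← mem_uc, hy, mem_singleton] at hw
          exact hw
        · exfalso
          rw [en_mem h hwx] at hlt
          have := h1 z (D.up w h (by omega) z hw)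
          omega
      · subst h
        rw [← mem_uc, hy, mem_singleton] at hw
        exact hw
    · rintro rfl
      exact ⟨x, hxy, by rw [en_mem hyU hyx, hx2]; omega⟩
  · intro z hz
    rw [D.B]
    constructor
    · rintro ⟨w, hw, hlt⟩
      rcases en_pos (show 0 < en U x w by omega) with h | h
      · exact ⟨hz, w, h, hw⟩
      · exact ⟨hz, w, by rw [h]; exact hxU, hw⟩
    · rintro ⟨-, w, hw, hwz⟩
      exact ⟨w, hwz, by rw [hsite z hz.le]; exact h1 w hw⟩
  · intro z hz
    rw [mem_singleton, mem_insert, mem_erase, D.F]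
    constructor
    · rintro ⟨w, hw, hle⟩
      have lw := lev_cov H hw
      refine ⟨?_, ?_⟩
      · rintro rfl
        rw [en_mem hyU hyx, hsite w (by omega)] at hle
        omega
      · rintro (rfl | ⟨-, h2, h3⟩)
        · rw [← mem_uc, hy, mem_singleton] at hw
          subst hw
          rw [hx2, en_mem hyU hyx] at hle
          omega
        · rw [hsite w (by omega)] at hle
          have := h1 z h2
          omega
    · rintro ⟨hzy, h⟩
      push Not at h
      obtain ⟨w, hw⟩ := uc_nonempty H (x := z) (by omega)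
      refine ⟨w, mem_uc.1 hw, ?_⟩
      by_cases h2 : z ∈ U
      · have h3 : lev z ≠ i + 1 := h.2 hzy h2
        rw [en_mem h2 h.1]
        exact h1 w (D.up z h2 (by omega) w (mem_uc.1 hw))
      · rw [en_out h2 h.1]
        exact Nat.zero_le _
  · intro z hz
    rw [mem_singleton] at hz
    subst hz
    omega
  · intro z hz
    rw [mem_singleton]
    rw [mem_insert, mem_erase, D.F] at hz
    rcases hz with rfl | ⟨h2, -, h3⟩
    · exact ⟨by omega, Ne.symm hyx⟩
    · exact ⟨by omega, h2⟩

/-- a second unit on an element at distance at least three: not admissible -/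
lemma en_top {U F0 B0 : Finset P} (H : Gr P r) (D : Con i U F0 B0) (hxU : x ∈ U)
    (hl : i + 2 < lev x) : ¬ AdmL i (en U x) := by
  intro hA
  obtain ⟨w, hw⟩ := uc_nonempty H (x := x) (by omega)
  have lw := lev_uc H hw
  have hwU := D.up x hxU (by omega) w (mem_uc.1 hw)
  have hwx : w ≠ x := by rintro rfl; omega
  obtain ⟨z, hz⟩ := uc_nonempty H (x := w) (by omega)
  have lz := lev_uc H hz
  have hzU := D.up w hwU (by omega) z (mem_uc.1 hz)
  apply hA w (by omega)
  constructor
  · refine ⟨x, mem_uc.1 hw, ?_⟩
    rw [en_mem hwU hwx]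
    unfold en
    rw [if_pos hxU, if_pos rfl]
    omega
  · refine ⟨z, mem_uc.1 hz, ?_⟩
    rw [en_mem hwU hwx, en_mem hzU (by rintro rfl; omega)]

section values

variable (H : Gr P r) (hir : i ≤ r) (hκ : Split (i + 2) κ) (D : ZD i κ v p p' y y')
include H hir hκ D

/-- the coefficient of `q^6 dd^(b-2)` of the labelling with one more unit at `x` -/
lemma zv_site_out (hl : lev x = i) (hx : x ∉ uc y ∪ uc y') :
    PowerSeries.coeff (lv P i).card (dd ^ 2 * trm i (en {v, p, p', y, y'} x) : A) = 1 := by
  have c := D.con H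
  rw [coeff_trm2 (en_site H c hl hx) (en_none H hir c hl.ge) (disjoint_empty_right _) (by
    rw [D.four H hκ, card_pair (D.nyy H hκ)]
    simp), D.four H hκ]
  norm_num

lemma zv_site_in (hl : lev x = i) (hx : x ∈ uc y ∪ uc y') :
    PowerSeries.coeff (lv P i).card (dd ^ 2 * trm i (en {v, p, p', y, y'} x) : A) = -1 := by
  have c := D.con H
  have h1 : (({y, y'} : Finset P) \ dc x).card = 1 := by
    have hd := D.dis H hκ
    rw [disjoint_left] at hd
    rcases mem_union.1 hx with h | h
    · have h2 : ({y, y'} : Finset P) \ dc x = {y'} := by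
        ext z
        simp only [mem_sdiff, mem_insert, mem_singleton, mem_dc]
        constructor
        · rintro ⟨rfl | rfl, h3⟩
          · exact absurd (mem_uc.1 h) h3
          · rfl
        · rintro rfl
          exact ⟨Or.inr rfl, fun h3 => hd h (mem_uc.2 h3)⟩
      rw [h2, card_singleton]
    · have h2 : ({y, y'} : Finset P) \ dc x = {y} := by
        ext z
        simp only [mem_sdiff, mem_insert, mem_singleton, mem_dc]
        constructor
        · rintro ⟨rfl | rfl, h3⟩
          · rfl
          · exact absurd (mem_uc.1 h) h3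
        · rintro rfl
          exact ⟨Or.inl rfl, fun h3 => hd (mem_uc.2 h3) h⟩
      rw [h2, card_singleton]
  rw [coeff_trm2 (en_siteB H c hl) (en_none H hir c hl.ge) (disjoint_empty_right _) (by
    rw [card_erase_of_mem hx, D.four H hκ, h1]
    simp), card_erase_of_mem hx, D.four H hκ]
  norm_num

lemma zv_near_in (hx : x = y ∨ x = y') :
    PowerSeries.coeff (lv P i).card (dd ^ 2 * trm i (en {v, p, p', y, y'} x) : A) = 1 := by
  have c := D.con H
  have hx' : x ∈ ({y, y'} : Finset P) := by rw [mem_insert, mem_singleton]; exact hx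
  have hl := ((c.F x).1 hx').2
  rw [coeff_trm2 (en_near H c hx') (en_none H hir c (by omega)) (disjoint_empty_right _) (by
    rw [D.four H hκ, card_pair (D.nyy H hκ)]
    simp), D.four H hκ]
  norm_num

lemma zv_mid (hx : x = p ∨ x = p') :
    PowerSeries.coeff (lv P i).card (dd ^ 2 * trm i (en {v, p, p', y, y'} x) : A) = -1 := by
  have c := D.con H
  have lp := D.lp H
  have lp' := D.lp' H
  have ly := D.ly H
  have ly' := D.ly' H
  have hn := D.nyy H hκ
  rcases hx with rfl | rfl
  · have D1 := en_mid H c (x := x) (by simp) lp D.hp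
    have h1 : (insert x (({y, y'} : Finset P).erase y)).card = 2 := by
      rw [card_insert_of_notMem, card_erase_of_mem (by simp), card_pair hn]
      rw [mem_erase, mem_insert, mem_singleton]
      rintro ⟨-, rfl | rfl⟩ <;> omega
    rw [coeff_trm2 D1 (en_none H hir c (by omega)) (disjoint_empty_right _) (by
      rw [D.four H hκ, h1]
      simp), D.four H hκ]
    norm_num
  · have D1 := en_mid H c (x := x) (by simp) lp' D.hp'
    have h1 : (insert x (({y, y'} : Finset P).erase y')).card = 2 := by
      rw [card_insert_of_notMem, card_erase_of_mem (by simp), card_pair hn]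
      rw [mem_erase, mem_insert, mem_singleton]
      rintro ⟨-, rfl | rfl⟩ <;> omega
    rw [coeff_trm2 D1 (en_none H hir c (by omega)) (disjoint_empty_right _) (by
      rw [D.four H hκ, h1]
      simp), D.four H hκ]
    norm_num

lemma zv_top : trm i (en {v, p, p', y, y'} v) = 0 := by
  have c := D.con H
  apply trm_zero_adm
  rintro ⟨h, -⟩
  exact en_top H c (by simp) (by have := D.lv; omega) h

lemma zv_child (hl : i + 1 < lev x) (hxU : x ∉ ({v, p, p', y, y'} : Finset P))
    (hc : uc x ⊆ ({v, p, p', y, y'} : Finset P)) :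
    PowerSeries.coeff (lv P i).card (dd ^ 2 * trm i (en {v, p, p', y, y'} x) : A) = 1 := by
  have c := D.con H
  have D1 : SO.LowD i (en {v, p, p', y, y'} x) ∅ {y, y'} (uc y ∪ uc y') := by
    refine en_low H c (by omega) hxU (fun _ z hz => hc (mem_uc.2 hz)) ?_ ?_
    · intro z
      constructor
      · exact Or.inl
      · rintro (h | ⟨-, h⟩)
        · exact h
        · omega
    · intro z
      constructor
      · exact Or.inl
      · rintro (h | ⟨-, h⟩)
        · exact h
        · omega
  rw [coeff_trm2 D1 (en_none H hir c (by omega)) (disjoint_empty_right _) (by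
    rw [D.four H hκ, card_pair (D.nyy H hκ)]
    simp), D.four H hκ]
  norm_num

lemma zv_child_bad (hl : i + 1 < lev x) (hxU : x ∉ ({v, p, p', y, y'} : Finset P))
    (hc : ¬ uc x ⊆ ({v, p, p', y, y'} : Finset P)) :
    trm i (en {v, p, p', y, y'} x) = 0 := by
  rw [not_subset] at hc
  obtain ⟨z, hz, hzU⟩ := hc
  apply trm_zero_adm
  rintro ⟨h, -⟩
  exact en_bad (D.con H) hl H hxU (mem_uc.1 hz) hzU h

lemma zv_near_out (hl : lev x = i + 1) (hxU : x ≠ y ∧ x ≠ y') :
    PowerSeries.coeff (lv P i).card (dd ^ 2 * trm i (en {v, p, p', y, y'} x) : A) =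
      if (uc x \ (uc y ∪ uc y')).card = 0 then 0 else
        if (uc x \ (uc y ∪ uc y')).card = 1 then -1 else -6 := by
  have c := D.con H
  have lv := D.lv
  have lp := D.lp H
  have lp' := D.lp' H
  have hxU' : x ∉ ({v, p, p', y, y'} : Finset P) := by
    simp only [mem_insert, mem_singleton]
    rintro (rfl | rfl | rfl | h | h)
    · omega
    · omega
    · omega
    · exact hxU.1 h
    · exact hxU.2 h
  have D1 : SO.LowD i (en {v, p, p', y, y'} x) ∅ (insert x {y, y'})
      ((uc y ∪ uc y') ∪ (uc x \ (uc y ∪ uc y'))) := by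
    refine en_low H c (by omega) hxU' (by omega) ?_ ?_
    · intro z
      rw [mem_insert]
      tauto
    · intro z
      rw [mem_union, mem_sdiff, mem_uc (x := x)]
      tauto
  have h1 : (insert x ({y, y'} : Finset P)).card = 3 := by
    rw [card_insert_of_notMem, card_pair (D.nyy H hκ)]
    rw [mem_insert, mem_singleton]
    rintro (h | h)
    · exact hxU.1 h
    · exact hxU.2 h
  have h2 : ((uc y ∪ uc y') ∪ (uc x \ (uc y ∪ uc y'))).card =
      4 + (uc x \ (uc y ∪ uc y')).card := by
    rw [card_union_of_disjoint disjoint_sdiff, D.four H hκ]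
  have h3 : (uc x \ (uc y ∪ uc y')).card ≤ 2 :=
    (card_le_card sdiff_subset).trans (uc_card_le H x)
  have hn := en_none (x := x) H hir c (by omega)
  rcases Nat.lt_or_ge (uc x \ (uc y ∪ uc y')).card 1 with h4 | h4
  · have h5 : (uc x \ (uc y ∪ uc y')).card = 0 := by omega
    rw [if_pos h5]
    apply coeff_trm_small D1 hn (disjoint_empty_right _)
    rw [h1, h2, h5]
    simp
  · rw [if_neg (by omega)]
    rcases Nat.lt_or_ge (uc x \ (uc y ∪ uc y')).card 2 with h5 | h5
    · have h6 : (uc x \ (uc y ∪ uc y')).card = 1 := by omega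
      rw [if_pos h6, coeff_trm2 D1 hn (disjoint_empty_right _) (by
        rw [h1, h2, h6]
        simp), h2, h6]
      norm_num
    · have h6 : (uc x \ (uc y ∪ uc y')).card = 2 := by omega
      rw [if_neg (by omega), coeff_trm D1 hn (disjoint_empty_right _), h1, h2, h6]
      simp only [card_empty]
      rw [if_pos (by omega)]
      have := c1_xx 5
      norm_num at this ⊢
      exact this

lemma zv_upp_near (hl : lev x + 1 = i) (hd : Disjoint (uc y ∪ uc y') (dc x)) :
    PowerSeries.coeff (lv P i).card (dd ^ 2 * trm i (en {v, p, p', y, y'} x) : A) =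
      if (dc x).card = 1 then -1 else 3 := by
  have c := D.con H
  obtain ⟨D1, D2⟩ := en_upp (x := x) H hir c hl
  have h1 : 1 ≤ (dc x).card := card_pos.2 (dc_nonempty H (by omega))
  have h2 := dc_card_le H x
  rcases Nat.lt_or_ge (dc x).card 2 with h3 | h3
  · have h4 : (dc x).card = 1 := by omega
    rw [if_pos h4, coeff_trm2 D1 D2 hd (by
      rw [D.four H hκ, card_pair (D.nyy H hκ), h4]
      simp), D.four H hκ]
    norm_num
  · have h4 : (dc x).card = 2 := by omega
    rw [if_neg (by omega), coeff_trm D1 D2 hd, D.four H hκ, card_pair (D.nyy H hκ), h4]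
    simp only [card_empty, card_singleton]
    rw [if_pos (by omega)]
    have := c1_mix
    norm_num at this ⊢
    exact this

lemma zv_upp_meet (hl : lev x + 1 = i) (hd : ¬ Disjoint (uc y ∪ uc y') (dc x)) :
    trm i (en {v, p, p', y, y'} x) = 0 := by
  obtain ⟨D1, D2⟩ := en_upp (x := x) H hir (D.con H) hl
  exact trm_zero_dis D1 D2 hd

lemma zv_upp_far (hl : lev x + 1 < i) : trm i (en {v, p, p', y, y'} x) = 0 := by
  apply trm_zero_adm
  rintro ⟨-, h⟩
  exact en_badU H hir (D.con H) hl h

end values

end Pool.Agent.GaussPoset.Win.So
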