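import Pool.Agent.W_448so_h63.FG

/-!
S9 with Z2 (MP_448cb3_co, case B): the sums over the cross configurations at the energies five, six.
-/

set_option autoImplicit false

namespace Pool.Agent.GaussPoset.Win.So

set_option linter.unusedSectionVars false

open Finset SO

universe u

variable {P : Type u} [Fintype P] [PartialOrder P] [DecidableEq P] {r i : ℕ}

variable {ι : Type*} [DecidableEq ι] {κ : P → ι} {v p p' y y' x : P} {e : P → ℕ} {psi : P → P}

lemma eN_self (hv : i < lev v) : eN i v v = 1 := by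
  unfold eN
  rw [if_pos ⟨le_rfl, hv⟩]

lemma eN_CrO (hl : i < lev v) (hv : v ∉ cuni (i + 2) κ) : CrO i κ (eN i v) :=
  ⟨v, hv, (eN_self hl).ge⟩

/-- energies at most four: one deficit -/
theorem restZ4 (H : Gr P r) (hi : 1 ≤ i) (hi2 : i + 1 ≤ r) (hg : Good P i)
    (hκ : Split (i + 2) κ) {n : ℕ} (hn : n ≤ 4) [DecidablePred (CrO i κ)] :
    dd ^ ((lv P i).card - 1) ∣
      ∑ e ∈ ((univ : Finset P).piAntidiag n).filter (CrO i κ), trm i e := by
  obtain ⟨psi, hM⟩ := good_mat H hg
  have key : ∀ e : P → ℕ, IsCore i ∅ psi e → CrO i κ e → ∑ x, e x ≤ 4 →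
      Rk (lv P i) 1 (Fe i e) := by
    intro e hc hQ hs
    rcases cross_core' H hi hi2 hg hκ hM hc hQ (by omega) with h | h | ⟨v, hv, h⟩
    · exact Rk_of_cheap h
    · omega
    · have h1 := eN_sum5 H hκ hv
      have h2 : ∑ x, eN i v x ≤ ∑ x, e x := sum_le_sum fun x _ => h x
      omega
  have h := core_sum_Q H hi hi2 hM n 1 (CrO i κ) (CrO_add H hκ)
    (fun e hc hQ hs => key e hc hQ (by omega)) ∅ (fun e he => absurd he (notMem_empty e))
    (fun e hc hQ hs _ => key e hc hQ (by omega))
  rw [Finset.sum_empty, sub_zero] at h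
  convert h

/-- energy five: the joins of two pendants -/
theorem restZ5 (H : Gr P r) (hi : 1 ≤ i) (hi2 : i + 1 ≤ r) (hg : Good P i)
    (hκ : Split (i + 2) κ) [DecidablePred (CrO i κ)] :
    dd ^ ((lv P i).card - 1) ∣
      ∑ e ∈ ((univ : Finset P).piAntidiag 5).filter (CrO i κ), trm i e -
        ∑ v ∈ Z2s i κ, trm i (eN i v) := by
  classical
  obtain ⟨psi, hM⟩ := good_mat H hg
  have h := core_sum_Q H hi hi2 hM 5 1 (CrO i κ) (CrO_add H hκ) (fun e hc hQ hs => by
      rcases cross_core' H hi hi2 hg hκ hM hc hQ (by omega) with h | h | ⟨v, hv, h⟩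
      · exact Rk_of_cheap h
      · omega
      · have h1 := eN_sum5 H hκ hv
        have h2 : ∑ x, eN i v x ≤ ∑ x, e x := sum_le_sum fun x _ => h x
        omega) ((Z2s i κ).image (eN i)) (fun e he => by
      rw [mem_image] at he
      obtain ⟨v, hv, rfl⟩ := he
      obtain ⟨h1, h2, h3, h4⟩ := mem_Z2s.1 hv
      exact ⟨eN_core H (by omega), eN_sum5 H hκ hv, eN_CrO (by omega) h2⟩)
    (fun e hc hQ hs he => by
      rcases cross_core' H hi hi2 hg hκ hM hc hQ (by omega) with h | h | ⟨v, hv, h⟩
      · exact Rk_of_cheap h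
      · omega
      · exfalso
        apply he
        rw [mem_image]
        exact ⟨v, hv, (eq_of_sum h (by rw [hs, eN_sum5 H hκ hv])).symm⟩)
  rw [Finset.sum_image] at h
  · convert h
  · intro v hv v' hv' hvv
    have h1 := (mem_Z2s.1 hv).1
    have h1' := (mem_Z2s.1 hv').1
    exact eN_inj (by omega) (by omega) hvv

/-! ### energy six -/

open Classical in
/-- a join and a unit which is not a free near element -/
noncomputable def PPs (i : ℕ) (κ : P → ι) (psi : P → P) : Finset (P × P) :=
  ((Z2s i κ) ×ˢ (univ : Finset P)).filter (fun q => q.2 ∉ Rst i ∅ psi (eN i q.1))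

/-- the labelling of a join and a unit -/
noncomputable def fq (i : ℕ) (q : P × P) : P → ℕ := eN i q.1 + Pi.single q.2 1

open Classical in
/-- ordered pairs of joins with the same covers -/
noncomputable def TWs (i : ℕ) (κ : P → ι) : Finset (P × P) :=
  ((Z2s i κ) ×ˢ (Z2s i κ)).filter (fun q => q.1 ≠ q.2 ∧ uc q.1 = uc q.2)

lemma mem_PPs {q : P × P} : q ∈ PPs i κ psi ↔ q.1 ∈ Z2s i κ ∧ q.2 ∉ Rst i ∅ psi (eN i q.1) := by
  classical
  unfold PPs
  rw [mem_filter, mem_product]
  simp

lemma mem_TWs {q : P × P} : q ∈ TWs i κ ↔ q.1 ∈ Z2s i κ ∧ q.2 ∈ Z2s i κ ∧ q.1 ≠ q.2 ∧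
    uc q.1 = uc q.2 := by
  classical
  unfold TWs
  rw [mem_filter, mem_product, and_assoc]

lemma TWs_sub : TWs i κ ⊆ PPs i κ psi := by
  classical
  intro q hq
  obtain ⟨h1, h2, h3, h4⟩ := mem_TWs.1 hq
  refine mem_PPs.2 ⟨h1, fun h => ?_⟩
  have h5 := (mem_Rst.1 h).1
  have h6 := (mem_Z2s.1 h2).1
  rcases mem_near.1 h5 with h7 | h7 <;> omega

lemma swap_TWs {q : P × P} (hq : q ∈ TWs i κ) : q.swap ∈ TWs i κ := by
  obtain ⟨h1, h2, h3, h4⟩ := mem_TWs.1 hq
  exact mem_TWs.2 ⟨h2, h1, Ne.symm h3, h4.symm⟩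

/-- coincidences of the labellings -/
lemma fq_inj (H : Gr P r) {q q' : P × P} (hq : q ∈ PPs i κ psi) (hq' : q' ∈ PPs i κ psi)
    (h : fq i q = fq i q') : q = q' ∨ (q' = q.swap ∧ q ∈ TWs i κ) := by
  classical
  obtain ⟨v, x⟩ := q
  obtain ⟨v', x'⟩ := q'
  obtain ⟨h1, -⟩ := mem_PPs.1 hq
  obtain ⟨h1', -⟩ := mem_PPs.1 hq'
  have l1 := (mem_Z2s.1 h1).1
  have l1' := (mem_Z2s.1 h1').1
  simp only at h1 h1' l1 l1'
  have key : ∀ z, eN i v z + (if z = x then 1 else 0) = eN i v' z + (if z = x' then 1 else 0) := by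
    intro z
    have h2 := congrFun h z
    simp only [fq, Pi.add_apply, Pi.single_apply] at h2
    exact h2
  by_cases hv : v = v'
  · subst hv
    left
    have h2 := key x
    rw [if_pos rfl] at h2
    have h3 : x = x' := by
      by_contra hne
      rw [if_neg hne] at h2
      omega
    rw [h3]
  · right
    have e1 : ∀ a b : P, lev a = lev b → a ≠ b → eN i a b = 0 := by
      intro a b hl hne
      unfold eN
      rw [if_neg]
      rintro ⟨h2, -⟩
      have := lev_strictAnti (lt_of_le_of_ne h2 hne)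
      omega
    have hx : x = v' := by
      have h2 := key v'
      rw [e1 v v' (by omega) hv, eN_self (by omega)] at h2
      by_contra hne
      rw [if_neg (Ne.symm hne)] at h2
      omega
    have hx' : x' = v := by
      have h2 := key v
      rw [e1 v' v (by omega) (Ne.symm hv), eN_self (by omega)] at h2
      by_contra hne
      rw [if_neg (show ¬ v = x' from Ne.symm hne)] at h2
      omega
    have sub : ∀ a b : P, lev a = i + 3 → lev b = i + 3 →
        (∀ z, eN i a z + (if z = b then 1 else 0) = eN i b z + (if z = a then 1 else 0)) →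
        uc a ⊆ uc b := by
      intro a b la lb hk z hz
      have lz := lev_uc H hz
      have h2 := hk z
      have h3 : eN i a z = 1 := by
        unfold eN
        rw [if_pos ⟨(mem_uc.1 hz).le, by omega⟩]
      rw [h3, if_neg (show z ≠ a by rintro rfl; omega)] at h2
      have h4 : b ≤ z ∧ i < lev z := by
        by_contra h5
        unfold eN at h2
        rw [if_neg h5] at h2
        omega
      rw [mem_uc, H.covBy_iff]
      refine ⟨lt_of_le_of_ne h4.1 ?_, by omega⟩
      rintro rfl
      omega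
    have hk : ∀ z, eN i v z + (if z = v' then 1 else 0) = eN i v' z + (if z = v then 1 else 0) := by
      intro z
      have := key z
      rw [hx, hx'] at this
      exact this
    refine ⟨by rw [hx, hx']; rfl, ?_⟩
    rw [hx]
    exact mem_TWs.2 ⟨h1, h1', hv, Finset.Subset.antisymm (sub v v' l1 l1' hk)
      (sub v' v l1' l1 fun z => (hk z).symm)⟩

/-- the sum over the labellings, coincidences taken into account -/
lemma sum_fq {M : Type*} [AddCommGroup M] (H : Gr P r) [DecidableEq (P → ℕ)]
    (f : (P → ℕ) → M) :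
    (2 : ℕ) • ∑ e ∈ (PPs i κ psi).image (fq i), f e =
      (2 : ℕ) • ∑ q ∈ PPs i κ psi, f (fq i q) - ∑ q ∈ TWs i κ, f (fq i q) := by
  classical
  have hsub : TWs i κ ⊆ PPs i κ psi := TWs_sub
  have h1 : (PPs i κ psi).image (fq i) =
      (PPs i κ psi \ TWs i κ).image (fq i) ∪ (TWs i κ).image (fq i) := by
    rw [← image_union, sdiff_union_of_subset hsub]
  have h2 : Disjoint ((PPs i κ psi \ TWs i κ).image (fq i)) ((TWs i κ).image (fq i)) := by
    rw [disjoint_left]
    intro e he he'
    rw [mem_image] at he he'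
    obtain ⟨q, hq, rfl⟩ := he
    obtain ⟨q', hq', h⟩ := he'
    rw [mem_sdiff] at hq
    rcases fq_inj H (hsub hq') hq.1 h with h3 | ⟨h3, h4⟩
    · rw [h3] at hq'
      exact hq.2 hq'
    · apply hq.2
      rw [h3]
      exact swap_TWs h4
  have h3 : ∑ e ∈ (PPs i κ psi \ TWs i κ).image (fq i), f e =
      ∑ q ∈ PPs i κ psi \ TWs i κ, f (fq i q) := by
    rw [sum_image]
    intro q hq q' hq' h
    rw [mem_coe, mem_sdiff] at hq hq'
    rcases fq_inj H hq.1 hq'.1 h with h4 | ⟨-, h4⟩
    · exact h4
    · exact absurd h4 hq.2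
  have h4 : (2 : ℕ) • ∑ e ∈ (TWs i κ).image (fq i), f e = ∑ q ∈ TWs i κ, f (fq i q) := by
    rw [Finset.sum_comp f (fq i), Finset.smul_sum]
    refine sum_congr rfl fun e he => ?_
    rw [mem_image] at he
    obtain ⟨q, hq, rfl⟩ := he
    have h5 : (TWs i κ).filter (fun a => fq i a = fq i q) = {q, q.swap} := by
      ext q'
      rw [mem_filter, mem_insert, mem_singleton]
      constructor
      · rintro ⟨h6, h7⟩
        rcases fq_inj H (hsub hq) (hsub h6) h7.symm with h8 | ⟨h8, -⟩
        · exact Or.inl h8.symm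
        · exact Or.inr h8
      · have hsw : fq i q.swap = fq i q := by
          obtain ⟨k1, k2, k3, k4⟩ := mem_TWs.1 hq
          have l1 := (mem_Z2s.1 k1).1
          have l2 := (mem_Z2s.1 k2).1
          funext z
          simp only [fq, Pi.add_apply, Pi.single_apply, Prod.fst_swap, Prod.snd_swap]
          have cone : ∀ a b : P, lev a = i + 3 → lev b = i + 3 → uc a = uc b → z ≠ a →
              (a ≤ z ∧ i < lev z) → (b ≤ z ∧ i < lev z) := by
            intro a b la lb hab hza ⟨h6, h7⟩
            refine ⟨?_, h7⟩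
            obtain ⟨w, hw, hwz⟩ := exists_covBy_le_of_lt (lt_of_le_of_ne h6 (Ne.symm hza))
            have h8 : w ∈ uc b := by rw [← hab]; exact mem_uc.2 hw
            exact (mem_uc.1 h8).le.trans hwz
          by_cases z1 : z = q.1
          · subst z1
            have h9 : eN i q.2 q.1 = 0 := by
              unfold eN
              rw [if_neg]
              rintro ⟨h9, -⟩
              have := lev_strictAnti (lt_of_le_of_ne h9 (Ne.symm k3))
              omega
            rw [h9, eN_self (by omega)]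
            simp [k3]
          · by_cases z2 : z = q.2
            · subst z2
              have h9 : eN i q.1 q.2 = 0 := by
                unfold eN
                rw [if_neg]
                rintro ⟨h9, -⟩
                have := lev_strictAnti (lt_of_le_of_ne h9 k3)
                omega
              rw [h9, eN_self (by omega)]
              simp [Ne.symm k3]
            · rw [if_neg z1, if_neg z2]
              unfold eN
              by_cases hc : q.1 ≤ z ∧ i < lev z
              · rw [if_pos hc, if_pos (cone q.1 q.2 l1 l2 k4 z1 hc)]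
              · rw [if_neg hc, if_neg (fun h => hc (cone q.2 q.1 l2 l1 k4.symm z2 h))]
        rintro (rfl | rfl)
        · exact ⟨hq, rfl⟩
        · exact ⟨swap_TWs hq, hsw⟩
    rw [h5, card_pair]
    intro h6
    have h7 := (mem_TWs.1 hq).2.2.1
    exact h7 (congrArg Prod.fst h6)
  rw [h1, sum_union h2, smul_add, h3, h4, ← sum_sdiff hsub, smul_add]
  have h5 : (2 : ℕ) • ∑ q ∈ TWs i κ, f (fq i q) =
      ∑ q ∈ TWs i κ, f (fq i q) + ∑ q ∈ TWs i κ, f (fq i q) := two_nsmul _
  rw [h5]
  abel

end Pool.Agent.GaussPoset.Win.So
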