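import Pool.Agent.W_448so_h63.FH

/-!
S9 with Z2 (MP_448cb3_co, case B): THE TOTAL IDENTITIES (5,2), (6,2) with joins of two pendants.
-/

set_option autoImplicit false

namespace Pool.Agent.GaussPoset.Win.So

set_option linter.unusedSectionVars false

open Finset SO I2

universe u

variable {P : Type u} [Fintype P] [PartialOrder P] [DecidableEq P] {r i : ℕ}

variable {ι : Type*} [DecidableEq ι] {κ : P → ι} {v p p' y y' x : P} {e : P → ℕ} {psi : P → P}

lemma Rst_mono {a b : P → ℕ} (h : ∀ x, a x ≤ b x) (hx : x ∈ Rst i ∅ psi b) :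
    x ∈ Rst i ∅ psi a := by
  have hT : ∀ z, z ∈ Tch i a → z ∈ Tch i b := by
    intro z hz
    rw [mem_Tch] at hz ⊢
    rcases hz with ⟨h1, w, hw, h2⟩ | ⟨h1, w, hw, h2⟩
    · exact Or.inl ⟨h1, w, hw, lt_of_lt_of_le h2 (h w)⟩
    · exact Or.inr ⟨h1, w, hw, lt_of_lt_of_le h2 (h w)⟩
  obtain ⟨h1, h2, h3, h4⟩ := mem_Rst.1 hx
  exact mem_Rst.2 ⟨h1, h2, fun h5 => h3 (hT _ h5), fun h5 => h4 ⟨h5.1, hT _ h5.2⟩⟩

lemma fq_props (H : Gr P r) (hκ : Split (i + 2) κ) {q : P × P} (hq : q ∈ PPs i κ psi) :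
    IsCore i ∅ psi (fq i q) ∧ ∑ x, fq i q x = 6 ∧ CrO i κ (fq i q) := by
  classical
  obtain ⟨h1, h2⟩ := mem_PPs.1 hq
  obtain ⟨k1, k2, k3, k4⟩ := mem_Z2s.1 h1
  refine ⟨?_, ?_, ?_⟩
  · intro x hx
    have h3 : x ∈ Rst i ∅ psi (eN i q.1) :=
      Rst_mono (fun z => by simp only [fq, Pi.add_apply]; omega) hx
    have h4 := eN_core (psi := psi) H (i := i) (v := q.1) (by omega) x h3
    have h5 : x ≠ q.2 := by
      rintro rfl
      exact h2 h3
    simp only [fq, Pi.add_apply, Pi.single_apply]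
    rw [h4, if_neg h5, add_zero]
  · have h3 := eN_sum5 H hκ h1
    have h4 := sum_single_one q.2
    simp only [fq, Pi.add_apply, sum_add_distrib]
    rw [h3, h4]
  · refine ⟨q.1, k2, ?_⟩
    have := eN_self (i := i) (v := q.1) (by omega)
    simp only [fq, Pi.add_apply]
    omega

/-- energy six: the exceptional labellings -/
theorem restZ6 (H : Gr P r) (hi : 1 ≤ i) (hi2 : i + 1 ≤ r) (hM : Mat P i ∅ psi)
    (hg : Good P i) (hκ : Split (i + 2) κ) [DecidablePred (CrO i κ)] [DecidableEq (P → ℕ)] :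
    dd ^ ((lv P i).card - 1) ∣
      ∑ e ∈ ((univ : Finset P).piAntidiag 6).filter (CrO i κ), trm i e -
        (∑ e ∈ (PPs i κ psi).image (fq i), trm i e + ∑ v ∈ N5s i κ, trm i (eN i v) +
          ∑ v ∈ Z2s i κ, ∑ x ∈ Rst i ∅ psi (eN i v), trm i (fq i (v, x))) := by
  classical
  have hz5 : ∀ v ∈ Z2s i κ, ∑ x, eN i v x = 5 := fun v hv => eN_sum5 H hκ hv
  have h := core_sum_E H hi hi2 hM 6 1 (CrO i κ) (CrO_add H hκ) ((Z2s i κ).image (eN i))
    (fun e he => by
      rw [mem_image] at he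
      obtain ⟨v, hv, rfl⟩ := he
      obtain ⟨h1, h2, h3, h4⟩ := mem_Z2s.1 hv
      refine ⟨eN_core H (by omega), ?_, eN_CrO (by omega) h2⟩
      rw [hz5 v hv]
      omega)
    (fun e hc hQ hs he => by
      rcases cross_core' H hi hi2 hg hκ hM hc hQ (by omega) with h | h | ⟨v, hv, h⟩
      · exact Rk_of_cheap h
      · omega
      · exfalso
        apply he
        rw [mem_image]
        exact ⟨v, hv, (eq_of_sum h (by rw [hz5 v hv]; omega)).symm⟩)
    ((PPs i κ psi).image (fq i) ∪ (N5s i κ).image (eN i))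
    (fun e he => by
      rw [mem_union, mem_image, mem_image] at he
      rcases he with ⟨q, hq, rfl⟩ | ⟨v, hv, rfl⟩
      · exact fq_props H hκ hq
      · obtain ⟨h1, h2, h3, h4⟩ := mem_N5s.1 hv
        exact ⟨eN_core H (by omega), eN_sum H hκ hv, eN_CrO (by omega) h2⟩)
    (fun e hc hQ hs he => by
      rcases cross_core' H hi hi2 hg hκ hM hc hQ (by omega) with h | ⟨-, v, hv, h⟩ | ⟨v, hv, h⟩
      · exact Rk_of_cheap h
      · exfalso
        apply he
        rw [mem_union, mem_image, mem_image]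
        exact Or.inr ⟨v, hv, h.symm⟩
      · exfalso
        obtain ⟨x, hx⟩ := eq_add_single h (by rw [hz5 v hv, hs])
        have hx1 : 1 ≤ e x := by
          rw [hx, Pi.add_apply, Pi.single_apply, if_pos rfl]
          omega
        by_cases hR : x ∈ Rst i ∅ psi (eN i v)
        · have h5 := (Rst_add H ∅ psi (eN i v) (Pi.single x 1) (fun z hz => by
            rw [Pi.single_apply, if_neg]
            rintro rfl
            exact hz (mem_Rst.1 hR).1)).2
          rw [← hx] at h5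
          rw [← h5] at hR
          have := hc x hR
          omega
        · apply he
          rw [mem_union, mem_image, mem_image]
          exact Or.inl ⟨(v, x), mem_PPs.2 ⟨hv, hR⟩, hx.symm⟩)
  have hd : Disjoint ((PPs i κ psi).image (fq i)) ((N5s i κ).image (eN i)) := by
    rw [disjoint_left]
    intro e he he'
    rw [mem_image] at he he'
    obtain ⟨q, hq, rfl⟩ := he
    obtain ⟨v, hv, h1⟩ := he'
    obtain ⟨k1, k2, k3, k4⟩ := mem_Z2s.1 (mem_PPs.1 hq).1
    obtain ⟨m1, m2, m3, m4⟩ := mem_N5s.1 hv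
    have h2 := congrFun h1 q.1
    have h3 := eN_self (i := i) (v := q.1) (by omega)
    simp only [fq, Pi.add_apply] at h2
    have h4 : v ≤ q.1 := by
      by_contra h5
      have : eN i v q.1 = 0 := by
        unfold eN
        rw [if_neg (fun h6 => h5 h6.1)]
      omega
    have h5 : v = q.1 := by
      by_contra h6
      have := lev_strictAnti (lt_of_le_of_ne h4 h6)
      omega
    rw [h5] at m3
    omega
  rw [sum_union hd] at h
  rw [Finset.sum_image (s := N5s i κ)] at h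
  rw [Finset.sum_image (s := Z2s i κ)] at h
  · have h6 : ∑ v ∈ Z2s i κ, ∑ l ∈ (Rst i ∅ psi (eN i v)).piAntidiag (6 - ∑ x, eN i v x),
        trm i (eN i v + l) =
        ∑ v ∈ Z2s i κ, ∑ x ∈ Rst i ∅ psi (eN i v), trm i (fq i (v, x)) := by
      refine sum_congr rfl fun v hv => ?_
      rw [hz5 v hv]
      exact sum_pa_one (Rst i ∅ psi (eN i v)) (fun l => trm i (eN i v + l))
    rw [h6] at h
    convert h
  · intro v hv v' hv' hvv
    have h1 := (mem_Z2s.1 hv).1
    have h1' := (mem_Z2s.1 hv').1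
    exact eN_inj (by omega) (by omega) hvv
  · intro v hv v' hv' hvv
    have h1 := (mem_N5s.1 hv).1
    have h1' := (mem_N5s.1 hv').1
    exact eN_inj (by omega) (by omega) hvv

/-! ### leading coefficients -/

/-- leading coefficient with two deficits -/
noncomputable def ph (b : ℕ) : A →+ ℤ :=
  (PowerSeries.coeff b : A →ₗ[ℤ] ℤ).toAddMonoidHom.comp (AddMonoidHom.mulLeft (dd ^ 2 : A))

lemma ph_apply (b : ℕ) (F : A) : ph b F = PowerSeries.coeff b (dd ^ 2 * F : A) := rfl

lemma ph_dvd {b : ℕ} {F : A} (h : dd ^ (b - 1) ∣ F) (hb : 1 ≤ b) : ph b F = 0 :=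
  dvd_two h hb

lemma coeff_xxn (n : ℕ) : PowerSeries.coeff 0 (xx ^ n : A) = (-1) ^ n := by
  have h1 : PowerSeries.coeff 0 (xx : A) = -1 := by
    unfold xx dd
    simp
  rw [PowerSeries.coeff_zero_eq_constantCoeff] at h1 ⊢
  rw [map_pow, h1]

lemma ph_xx {b : ℕ} (n : ℕ) (hb : 2 ≤ b) : ph b (xx ^ n * dd ^ (b - 2)) = (-1) ^ n := by
  rw [ph_apply]
  have h1 : dd ^ 2 * (xx ^ n * dd ^ (b - 2)) = (dd ^ b * xx ^ n : A) := by
    have : (dd : A) ^ b = dd ^ 2 * dd ^ (b - 2) := by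
      rw [← pow_add]
      congr 1
      omega
    rw [this]
    ring
  rw [h1]
  have h7 : PowerSeries.coeff b (dd ^ b * xx ^ n : A) = PowerSeries.coeff 0 (xx ^ n : A) := by
    unfold dd
    have := PowerSeries.coeff_X_pow_mul (xx ^ n : A) b 0
    rwa [zero_add] at this
  rw [h7, coeff_xxn]

lemma ph_N5 (H : Gr P r) (hir : i ≤ r) (hv : v ∈ N5s i κ) :
    ph (lv P i).card (trm i (eN i v)) = -1 := by
  obtain ⟨h1, h2, h3, h4⟩ := mem_N5s.1 hv
  obtain ⟨h5, h6⟩ := eN_trm H hir h1 h3 h4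
  rw [h5, ph_xx 5 (by omega)]
  norm_num

lemma ph_Z2 (H : Gr P r) (hir : i ≤ r) (hv : v ∈ Z2s i κ) :
    ph (lv P i).card (trm i (eN i v)) = 1 := by
  classical
  obtain ⟨h1, h2, h3, h4⟩ := mem_Z2s.1 hv
  obtain ⟨a1, a2, a3, a4, a5, a6, a7⟩ := cone_data H hir (v := v)
  obtain ⟨a8, a9⟩ := a7 (by omega)
  rw [if_neg (by omega)] at a8
  have a10 : (AL i (eN i v)).card = 4 := by rw [a9, ← up_eq, h4]
  have a11 : 4 ≤ (lv P i).card := by
    rw [← a10, a9]
    exact card_le_card (filter_subset _ _)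
  have h5 : trm i (eN i v) = xx ^ 4 * dd ^ ((lv P i).card - 2) := by
    unfold trm
    rw [a6, if_pos (disjoint_empty_right _), a10, card_empty]
    unfold cw
    rw [if_pos ⟨a1, a2⟩, a3, a4, a5, a8, h3]
    have h5 : dd ^ ((lv P i).card - 2) = dd ^ 2 * dd ^ ((lv P i).card - 4 - 0) := by
      rw [← pow_add]
      congr 1
      omega
    rw [h5]
    ring
  rw [h5, ph_xx 4 (by omega)]
  norm_num

lemma ph_TW (H : Gr P r) (hir : i ≤ r) (hκ : Split (i + 2) κ) {q : P × P} (hq : q ∈ TWs i κ) :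
    ph (lv P i).card (trm i (fq i q)) = 1 := by
  classical
  obtain ⟨h1, h2, h3, h4⟩ := mem_TWs.1 hq
  obtain ⟨p, p', y, y', D⟩ := Z2s_ZD H hκ h1
  have l1 := (mem_Z2s.1 h1).1
  have l2 := (mem_Z2s.1 h2).1
  have lp := D.lp H
  have lp' := D.lp' H
  have ly := D.ly H
  have ly' := D.ly' H
  have h5 := zv_child H hir hκ D (x := q.2) (by omega) (by
    simp only [mem_insert, mem_singleton]
    rintro (h | h | h | h | h)
    · exact h3 h.symm
    · rw [← h] at lp; omega
    · rw [← h] at lp'; omega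
    · rw [← h] at ly; omega
    · rw [← h] at ly'; omega) (by
    intro z hz
    rw [← h4, D.cov, mem_insert, mem_singleton] at hz
    rcases hz with rfl | rfl <;> simp)
  rw [en_eq H D] at h5
  exact h5

end Pool.Agent.GaussPoset.Win.So
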