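import Pool.Agent.W_448so_h63.GA

/-!
The identity (6,4) at the window j (MP_448cb3_co, case B): the inequality on one side of a window
without quads.
-/

namespace Pool.Agent.GaussPoset.Win.K2

set_option linter.unusedSectionVars false

open Finset I2

universe u

variable {P : Type u} [DecidableEq P]

variable {c c' : P → Finset P} {e : P → ℕ} {t : P → ℕ} {V Sd : Finset P}

/-- a killer at distance `t` has label at least `t` -/
lemma t_le_of_kl (S : SideQ c c' t V Sd) (adm : ∀ z ∈ Sd, ¬ (kd c' e z ∧ gu c e z)) :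
    ∀ n, ∀ z ∈ Sd, kl c e z → t z = n → n ≤ e z := by
  intro n
  induction n with
  | zero => intro z _ _ _; exact Nat.zero_le _
  | succ n ih =>
    rintro z hz ⟨a, ha, hlt⟩ hn
    obtain ⟨h1, h2⟩ := S.cin z hz a ha
    rcases h1 with h1 | h1
    · have h3 : kd c' e a := ⟨z, (S.dual z a).1 ha, hlt⟩
      have h4 : kl c e a := kl_of_not_gu S h1 (fun h => adm a h1 ⟨h3, h⟩)
      have := ih a h1 h4 (by omega)
      omega
    · have := S.tV a h1
      omega

lemma kn_le (S : SideQ c c' t V Sd) (z : P) : (kn c e z).card ≤ 2 :=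
  (card_le_card (filter_subset _ _)).trans (S.c2 z)

lemma kn_le_one (S : SideQ c c' t V Sd) {z : P} (h : gu c e z) : (kn c e z).card ≤ 1 := by
  obtain ⟨a, ha, hle⟩ := h
  have h1 : kn c e z ⊆ (c z).erase a := by
    intro b hb
    rw [mem_kn] at hb
    rw [mem_erase]
    refine ⟨?_, hb.1⟩
    rintro rfl
    omega
  have h2 := card_le_card h1
  rw [card_erase_of_mem ha] at h2
  have := S.c2 z
  omega

lemma cc_le_two (S : SideQ c c' t V Sd) (z : P) : cc c c' e z ≤ 2 := by
  classical
  unfold cc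
  have h1 := so_le (c := c) (c' := c') (e := e) z
  split_ifs with h
  · have := kn_le_one S h
    omega
  · have := kn_le (e := e) S z
    omega

/-- the structure of an element with charge two -/
lemma cc_eq_two (S : SideQ c c' t V Sd) {z : P} (h : cc c c' e z = 2) :
    (c z).card = 2 ∧ ∀ a ∈ c z, e a < e z → (kr c' e a).card = 1 := by
  classical
  have h1 := so_le (c := c) (c' := c') (e := e) z
  have h2 : (so c c' e z).card = (kn c e z).card ∧ (c z).card = 2 := by
    unfold cc at h
    split_ifs at h with hg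
    · have h3 := kn_le_one S hg
      refine ⟨by omega, ?_⟩
      have h4 : (kn c e z).card = 1 := by omega
      have h5 : (kn c e z).card + ((c z).filter (fun a => ¬ e a < e z)).card = (c z).card := by
        unfold kn
        exact Finset.card_filter_add_card_filter_not _
      obtain ⟨a, ha, hle⟩ := hg
      have h6 : 0 < ((c z).filter (fun a => ¬ e a < e z)).card := by
        rw [card_pos]
        exact ⟨a, mem_filter.2 ⟨ha, by omega⟩⟩
      have := S.c2 z
      omega
    · have h3 := kn_le (e := e) S z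
      have h4 : (kn c e z).card ≤ (c z).card := card_le_card (filter_subset _ _)
      have := S.c2 z
      refine ⟨by omega, by omega⟩
  refine ⟨h2.2, fun a ha hlt => ?_⟩
  have h3 : so c c' e z = kn c e z := by
    apply Finset.eq_of_subset_of_card_le
    · exact filter_subset _ _
    · omega
  have h4 : a ∈ kn c e z := mem_kn.2 ⟨ha, hlt⟩
  rw [← h3, mem_so] at h4
  exact h4.2

lemma sur_ge (S : SideQ c c' t V Sd) (adm : ∀ z ∈ Sd, ¬ (kd c' e z ∧ gu c e z)) {z : P}
    (hz : z ∈ Sd) : -1 ≤ sur c c' e z := by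
  classical
  unfold sur
  split_ifs with h
  · have h1 := t_le_of_kl S adm (t z) z hz h rfl
    have h2 := S.tS z hz
    have h3 := cc_le_two (e := e) S z
    omega
  · omega

lemma sur_nonneg (S : SideQ c c' t V Sd) (adm : ∀ z ∈ Sd, ¬ (kd c' e z ∧ gu c e z)) {z : P}
    (hz : z ∈ Sd) (hb : z ∉ bd c c' e t Sd) : 0 ≤ sur c c' e z := by
  classical
  unfold sur
  split_ifs with h
  · have h1 := t_le_of_kl S adm (t z) z hz h rfl
    have h2 := S.tS z hz
    have h3 := cc_le_two (e := e) S z
    by_contra h4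
    apply hb
    rw [mem_bd]
    refine ⟨hz, by omega, by omega, h, by omega⟩
  · omega

lemma sur_pos (S : SideQ c c' t V Sd) (adm : ∀ z ∈ Sd, ¬ (kd c' e z ∧ gu c e z)) {z : P}
    (hz : z ∈ Sd) (h3 : 3 ≤ t z) (he : 1 ≤ e z) : 1 ≤ sur c c' e z := by
  classical
  unfold sur
  split_ifs with h
  · have h1 := t_le_of_kl S adm (t z) z hz h rfl
    have h4 := cc_le_two (e := e) S z
    omega
  · omega

/-- two bad elements with a common excited cover away from the window: their common cover is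
excited -/
lemma mid_of_bd (S : SideQ c c' t V Sd) (adm : ∀ z ∈ Sd, ¬ (kd c' e z ∧ gu c e z)) {y y' z : P}
    (hy : y ∈ bd c c' e t Sd) (hy' : y' ∈ bd c c' e t Sd) (hne : y ≠ y') (hz : z ∈ c' y)
    (hz' : z ∈ c' y') : ∃ x ∈ V, x ∈ c y ∧ x ∈ c y' ∧ 1 ≤ e x := by
  have hy2 := hy
  have hy2' := hy'
  rw [mem_bd] at hy hy'
  obtain ⟨hyS, ty, ey, ky, cy⟩ := hy
  obtain ⟨hyS', ty', ey', ky', cy'⟩ := hy'
  have hzS : z ∈ Sd := S.cout y (Or.inl hyS) z hz
  have hyz : y ∈ c z := (S.dual z y).2 hz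
  have hyz' : y' ∈ c z := (S.dual z y').2 hz'
  have tz : t z = 2 := by
    have := (S.cin z hzS y hyz).2
    omega
  obtain ⟨x, hx, hx'⟩ := S.good z hzS tz y hyz y' hyz' hne (cc_eq_two S cy).1
    (cc_eq_two S cy').1
  have hxV : x ∈ V := by
    have h1 := S.cin y hyS x hx
    rcases h1.1 with h | h
    · have := S.tS x h
      omega
    · exact h
  refine ⟨x, hxV, hx, hx', ?_⟩
  by_contra h
  have h1 := (cc_eq_two S cy).2 x hx (by omega)
  have h2 : y ∈ kr c' e x := mem_kr.2 ⟨(S.dual y x).1 hx, by omega⟩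
  have h3 : y' ∈ kr c' e x := mem_kr.2 ⟨(S.dual y' x).1 hx', by omega⟩
  rw [Finset.card_eq_one] at h1
  obtain ⟨w, hw⟩ := h1
  rw [hw, mem_singleton] at h2 h3
  exact hne (h2.trans h3.symm)

/-- an element with one cover only has the surplus at least its label -/
lemma sur_single {w : P} (h1 : (c w).card = 1) : (e w : ℤ) ≤ sur c c' e w := by
  classical
  unfold sur
  split_ifs with h
  · obtain ⟨a, ha⟩ := Finset.card_eq_one.1 h1
    have h3 : (kn c e w).card ≤ 1 := by
      rw [← h1]
      exact card_le_card (filter_subset _ _)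
    have h4 := so_le (c := c) (c' := c') (e := e) w
    have h5 : ¬ gu c e w := by
      rintro ⟨x, hx, hle⟩
      obtain ⟨b, hb, hlt⟩ := h
      rw [ha, mem_singleton] at hx hb
      subst hx
      subst hb
      omega
    unfold cc
    rw [if_neg h5]
    omega
  · omega

/-- an excited element away from a bad element has a surplus, or it has charge two and a single
cover -/
lemma far_cases (S : SideQ c c' t V Sd) (adm : ∀ z ∈ Sd, ¬ (kd c' e z ∧ gu c e z)) {y z : P}
    (hy : y ∈ bd c c' e t Sd) (hz : z ∈ c' y) (he : 1 ≤ e z) :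
    1 ≤ sur c c' e z ∨ (e z = 2 ∧ kl c e z ∧ cc c c' e z = 2 ∧
      ∃ w, w ∈ c z ∧ w ≠ y ∧ (c w).card = 1 ∧ 1 ≤ e w) := by
  classical
  rw [mem_bd] at hy
  obtain ⟨hyS, ty, ey, ky, cy⟩ := hy
  have hzS : z ∈ Sd := S.cout y (Or.inl hyS) z hz
  have hyz : y ∈ c z := (S.dual z y).2 hz
  have tz : t z = 2 := by
    have := (S.cin z hzS y hyz).2
    omega
  by_cases hk : kl c e z
  · have ez : 2 ≤ e z := t_le_of_kl S adm 2 z hzS hk tz
    have h2 := cc_le_two (e := e) S z
    by_cases h3 : e z = 2 ∧ cc c c' e z = 2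
    · right
      refine ⟨h3.1, hk, h3.2, ?_⟩
      have hcz := (cc_eq_two S h3.2).1
      obtain ⟨w, hw, hwy⟩ : ∃ w ∈ c z, w ≠ y :=
        Finset.exists_mem_ne (by omega) y
      have hwS : w ∈ Sd := by
        have h4 := S.cin z hzS w hw
        rcases h4.1 with h | h
        · exact h
        · have := S.tV w h
          omega
      have hw1 : 1 ≤ e w := by
        by_contra h4
        obtain ⟨a, ha⟩ := S.ne w hwS
        exact adm w hwS ⟨⟨z, (S.dual z w).1 hw, by omega⟩, a, ha, by omega⟩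
      refine ⟨w, hw, hwy, ?_, hw1⟩
      have h5 := S.c2 w
      have h6 := card_pos.2 (S.ne w hwS)
      by_contra h7
      obtain ⟨x, hx, hx'⟩ := S.good z hzS tz y hyz w hw (fun h => hwy h.symm)
        (cc_eq_two S cy).1 (by omega)
      have hky : kd c' e y := ⟨z, hz, by omega⟩
      have ex : e x < e y := not_gu_of_kd adm hyS hky x hx
      have h1 := (cc_eq_two S cy).2 x hx ex
      have h2' : y ∈ kr c' e x := mem_kr.2 ⟨(S.dual y x).1 hx, ex⟩
      have h3' : w ∈ kr c' e x := mem_kr.2 ⟨(S.dual w x).1 hx', by omega⟩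
      rw [Finset.card_eq_one] at h1
      obtain ⟨w', hw'⟩ := h1
      rw [hw', mem_singleton] at h2' h3'
      exact hwy (h3'.trans h2'.symm)
    · left
      unfold sur
      rw [if_pos hk]
      omega
  · left
    unfold sur
    rw [if_neg hk]
    omega

/-- payment for the bad elements with an excited cover away from the window -/
theorem pay (S : SideQ c c' t V Sd) (adm : ∀ z ∈ Sd, ¬ (kd c' e z ∧ gu c e z)) {B : Finset P}
    (hB : B ⊆ bd c c' e t Sd) (hex : ∀ y ∈ B, ∃ z ∈ c' y, 1 ≤ e z) :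
    ∃ Z X : Finset P, ∃ m : P → ℕ, (∀ z ∈ Z, z ∈ Sd ∧ t z = 2 ∧ 1 ≤ sur c c' e z) ∧
      (∀ x ∈ X, x ∈ V ∧ 1 ≤ e x ∧ (∃ y, y ∈ c' x) ∧ ∀ y ∈ c' x, y ∈ B) ∧
      (∀ w, 0 < m w → w ∈ Sd ∧ t w = 1 ∧ (c w).card = 1 ∧ (m w : ℤ) ≤ sur c c' e w) ∧
      B.card ≤ Z.card + X.card + ∑ w ∈ Sd, m w := by
  classical
  choose! f hf using hex
  set B1 := B.filter (fun y => 1 ≤ sur c c' e (f y)) with hB1
  set B2 := B.filter (fun y => ¬ 1 ≤ sur c c' e (f y)) with hB2
  have hB1B : ∀ y ∈ B1, y ∈ B := fun y hy => (mem_filter.1 hy).1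
  have hB2B : ∀ y ∈ B2, y ∈ B := fun y hy => (mem_filter.1 hy).1
  have hcard : B.card = B1.card + B2.card :=
    (Finset.card_filter_add_card_filter_not _).symm
  -- the first part
  set Z := B1.image f with hZ
  set Z2 := Z.filter (fun z => 2 ≤ (B1.filter (fun y => f y = z)).card) with hZ2
  have hzZ : ∀ z ∈ Z, ∃ y ∈ B1, f y = z := fun z hz => by simpa [hZ] using hz
  have hpair : ∀ z ∈ Z2, ∃ y ∈ B1, ∃ y' ∈ B1, y ≠ y' ∧ f y = z ∧ f y' = z := by
    intro z hz
    rw [hZ2, mem_filter] at hz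
    have h1 : 1 < (B1.filter (fun y => f y = z)).card := by omega
    rw [Finset.one_lt_card] at h1
    obtain ⟨y, hy, y', hy', hne⟩ := h1
    rw [mem_filter] at hy hy'
    exact ⟨y, hy.1, y', hy'.1, hne, hy.2, hy'.2⟩
  choose! g hg g' hg' hne hfg hfg' using hpair
  have hmid : ∀ z ∈ Z2, ∃ x ∈ V, x ∈ c (g z) ∧ x ∈ c (g' z) ∧ 1 ≤ e x := by
    intro z hz
    have h1 := (hf (g z) (hB1B _ (hg z hz))).1
    have h2 := (hf (g' z) (hB1B _ (hg' z hz))).1
    rw [hfg z hz] at h1
    rw [hfg' z hz] at h2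
    exact mid_of_bd S adm (hB (hB1B _ (hg z hz))) (hB (hB1B _ (hg' z hz))) (hne z hz) h1 h2
  choose! m hmV hm hm' hme using hmid
  have hlow : ∀ z ∈ Z2, c' (m z) = {g z, g' z} := by
    intro z hz
    symm
    apply Finset.eq_of_subset_of_card_le
    · intro y hy
      rw [mem_insert, mem_singleton] at hy
      rcases hy with rfl | rfl
      · exact (S.dual _ _).1 (hm z hz)
      · exact (S.dual _ _).1 (hm' z hz)
    · rw [Finset.card_pair (hne z hz)]
      exact S.c2' _
  have hinj : Set.InjOn m Z2 := by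
    intro z hz z' hz' h
    have h1 := hlow z hz
    rw [h, hlow z' hz'] at h1
    have h2 : g z ∈ ({g z', g' z'} : Finset P) := by
      rw [h1]
      exact mem_insert_self _ _
    rw [mem_insert, mem_singleton] at h2
    rw [← hfg z hz]
    rcases h2 with h2 | h2
    · rw [h2]
      exact hfg z' hz'
    · rw [h2]
      exact hfg' z' hz'
  -- the second part
  have hfar : ∀ y ∈ B2, e (f y) = 2 ∧ kl c e (f y) ∧ cc c c' e (f y) = 2 ∧
      ∃ w, w ∈ c (f y) ∧ w ≠ y ∧ (c w).card = 1 ∧ 1 ≤ e w := by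
    intro y hy
    have h1 := hf y (hB2B y hy)
    rcases far_cases S adm (hB (hB2B y hy)) h1.1 h1.2 with h | h
    · exact absurd h (mem_filter.1 hy).2
    · exact h
  choose! he2 hkl hcc w hwc hwy hw1 hwe using hfar
  have hfS : ∀ y ∈ B2, f y ∈ Sd ∧ t (f y) = 2 := by
    intro y hy
    have h1 := hB (hB2B y hy)
    have h2 := mem_bd.1 h1
    have h3 : f y ∈ Sd := S.cout y (Or.inl h2.1) _ (hf y (hB2B y hy)).1
    refine ⟨h3, ?_⟩
    have h4 := (S.cin (f y) h3 y ((S.dual _ _).2 (hf y (hB2B y hy)).1)).2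
    omega
  have hwS : ∀ y ∈ B2, w y ∈ Sd ∧ t (w y) = 1 := by
    intro y hy
    obtain ⟨h1, h2⟩ := hfS y hy
    have h3 := S.cin (f y) h1 (w y) (hwc y hy)
    have h4 : t (w y) = 1 := by omega
    refine ⟨?_, h4⟩
    rcases h3.1 with h | h
    · exact h
    · have := S.tV _ h
      omega
  have hne2 : ∀ y ∈ B2, ∀ y' ∈ B2, y ≠ y' → w y = w y' → f y ≠ f y' := by
    intro y hy y' hy' hne' hww hff
    have h1 := (cc_eq_two S (hcc y hy)).1
    have h2 : y ∈ c (f y) := (S.dual _ _).2 (hf y (hB2B y hy)).1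
    have h3 : y' ∈ c (f y) := by
      rw [hff]
      exact (S.dual _ _).2 (hf y' (hB2B y' hy')).1
    have h4 : w y ∈ c (f y) := hwc y hy
    have h5 : ({y, y', w y} : Finset P) ⊆ c (f y) := by
      intro x hx
      rw [mem_insert, mem_insert, mem_singleton] at hx
      rcases hx with rfl | rfl | rfl
      · exact h2
      · exact h3
      · exact h4
    have h6 : ({y, y', w y} : Finset P).card = 3 := by
      rw [Finset.card_eq_three]
      refine ⟨y, y', w y, hne', ?_, ?_, rfl⟩
      · exact (hwy y hy).symm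
      · rw [hww]
        exact (hwy y' hy').symm
    have h7 := card_le_card h5
    omega
  have hfib : ∀ v, (B2.filter (fun y => w y = v)).card ≤ e v ∨
      (B2.filter (fun y => w y = v)).card = 0 := by
    intro v
    rcases Nat.eq_zero_or_pos (B2.filter (fun y => w y = v)).card with h0 | h0
    · exact Or.inr h0
    left
    replace h0 := card_pos.1 h0
    obtain ⟨y0, hy0⟩ := h0
    rw [mem_filter] at hy0
    have hev : 1 ≤ e v := by
      rw [← hy0.2]
      exact hwe y0 hy0.1
    have hinj2 : Set.InjOn f (B2.filter (fun y => w y = v)) := by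
      intro y hy y' hy' hff
      rw [mem_coe, mem_filter] at hy hy'
      by_contra hne'
      exact hne2 y hy.1 y' hy'.1 hne' (hy.2.trans hy'.2.symm) hff
    have hle2 : (B2.filter (fun y => w y = v)).card ≤ 2 := by
      rw [← Finset.card_image_of_injOn hinj2]
      refine le_trans (card_le_card (t := c' v) ?_) (S.c2' v)
      intro z hz
      rw [mem_image] at hz
      obtain ⟨y, hy, rfl⟩ := hz
      rw [mem_filter] at hy
      rw [← S.dual, ← hy.2]
      exact hwc y hy.1
    rcases Nat.lt_or_ge 1 (e v) with h2 | h2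
    · omega
    · have h3 : e v = 1 := by omega
      rw [h3]
      by_contra h4
      have h5 : 1 < (B2.filter (fun y => w y = v)).card := by omega
      rw [Finset.one_lt_card] at h5
      obtain ⟨y, hy, y', hy', hne'⟩ := h5
      rw [mem_filter] at hy hy'
      have h6 := hne2 y hy.1 y' hy'.1 hne' (hy.2.trans hy'.2.symm)
      have h7 := (cc_eq_two S (hcc y hy.1)).2 v (by rw [← hy.2]; exact hwc y hy.1)
        (by rw [he2 y hy.1]; omega)
      have h8 : f y ∈ kr c' e v := mem_kr.2 ⟨(S.dual _ _).1 (by rw [← hy.2]; exact hwc y hy.1),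
        by rw [he2 y hy.1]; omega⟩
      have h9 : f y' ∈ kr c' e v := mem_kr.2 ⟨(S.dual _ _).1 (by
        rw [← hy'.2]; exact hwc y' hy'.1), by rw [he2 y' hy'.1]; omega⟩
      rw [Finset.card_eq_one] at h7
      obtain ⟨q, hq⟩ := h7
      rw [hq, mem_singleton] at h8 h9
      exact h6 (h8.trans h9.symm)
  refine ⟨Z, Z2.image m, fun v => (B2.filter (fun y => w y = v)).card, ?_, ?_, ?_, ?_⟩
  · intro z hz
    obtain ⟨y, hy, rfl⟩ := hzZ z hz
    have h1 := hB (hB1B y hy)
    have h2 := (mem_bd.1 h1)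
    have h3 : f y ∈ Sd := S.cout y (Or.inl h2.1) _ (hf y (hB1B y hy)).1
    refine ⟨h3, ?_, (mem_filter.1 hy).2⟩
    have h4 := (S.cin (f y) h3 y ((S.dual _ _).2 (hf y (hB1B y hy)).1)).2
    omega
  · intro x hx
    rw [mem_image] at hx
    obtain ⟨z, hz, rfl⟩ := hx
    have h1 := hlow z hz
    refine ⟨hmV z hz, hme z hz, ⟨g z, ?_⟩, ?_⟩
    · rw [h1]
      exact mem_insert_self _ _
    · intro y hy
      rw [h1, mem_insert, mem_singleton] at hy
      rcases hy with rfl | rfl
      · exact hB1B _ (hg z hz)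
      · exact hB1B _ (hg' z hz)
  · intro v hv
    have hv' := hv
    simp only at hv'
    rw [card_pos] at hv'
    obtain ⟨y, hy⟩ := hv'
    rw [mem_filter] at hy
    have h1 := hwS y hy.1
    have h2 := hw1 y hy.1
    rw [hy.2] at h1 h2
    refine ⟨h1.1, h1.2, h2, ?_⟩
    have h3 := sur_single (c' := c') (e := e) h2
    rcases hfib v with h4 | h4
    · simp only
      omega
    · simp only at hv ⊢
      omega
  · rw [Finset.card_image_of_injOn hinj]
    have h0 : ∑ v ∈ Sd, (B2.filter (fun y => w y = v)).card = B2.card :=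
      (Finset.card_eq_sum_card_fiberwise (fun y hy => (hwS y hy).1)).symm
    have h1 : B1.card = ∑ z ∈ Z, (B1.filter (fun y => f y = z)).card :=
      Finset.card_eq_sum_card_image f B1
    have h2 : ∀ z ∈ Z, (B1.filter (fun y => f y = z)).card ≤
        1 + (if 2 ≤ (B1.filter (fun y => f y = z)).card then 1 else 0) := by
      intro z hz
      have h3 : B1.filter (fun y => f y = z) ⊆ c z := by
        intro y hy
        rw [mem_filter] at hy
        have := (hf y (hB1B y hy.1)).1
        rw [hy.2] at this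
        exact (S.dual _ _).2 this
      have h4 := card_le_card h3
      have := S.c2 z
      split_ifs <;> omega
    have h5 : B1.card ≤ Z.card + Z2.card := by
      rw [h1]
      refine (Finset.sum_le_sum h2).trans (le_of_eq ?_)
      rw [Finset.sum_add_distrib, Finset.sum_const, smul_eq_mul, mul_one, ← Finset.card_filter]
    simp only
    rw [h0]
    omega

/-- THE INEQUALITY ON ONE SIDE -/
theorem side_bound (S : SideQ c c' t V Sd) (adm : ∀ z ∈ Sd, ¬ (kd c' e z ∧ gu c e z))
    {B : Finset P} (hB : B ⊆ bd c c' e t Sd) (hex : ∀ y ∈ B, ∃ z ∈ c' y, 1 ≤ e z) :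
    ∃ X : Finset P, (∀ x ∈ X, x ∈ V ∧ 1 ≤ e x ∧ (∃ y, y ∈ c' x) ∧ ∀ y ∈ c' x, y ∈ B) ∧
      (∀ δ : ℤ, (δ = 0 ∨ δ = 1 ∧ ∃ z ∈ Sd, 3 ≤ t z ∧ 1 ≤ e z) →
      2 * ((KD c' e V).card : ℤ) + δ ≤ ∑ z ∈ Sd, (e z : ℤ) + 2 * ((fr c c' e Sd).card : ℤ) +
        ((bd c c' e t Sd) \ B).card + X.card) := by
  classical
  obtain ⟨Z, X, m, hZ, hX, hm, hc⟩ := pay S adm hB hex
  refine ⟨X, hX, fun δ hδ => ?_⟩
  have h1 := sum_cc S adm
  have h2 : ∑ z ∈ Sd, sur c c' e z = ∑ z ∈ Sd, (e z : ℤ) - ∑ z ∈ KK c e Sd, cc c c' e z := by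
    unfold sur KK
    rw [Finset.sum_sub_distrib, Finset.sum_filter]
  have h3 : ∑ z ∈ Sd, ((if z ∈ Z then (1 : ℤ) else 0) + (m z : ℤ) -
      (if z ∈ bd c c' e t Sd then 1 else 0)) + δ ≤ ∑ z ∈ Sd, sur c c' e z := by
    have h4 : ∀ z ∈ Sd, ((if z ∈ Z then (1 : ℤ) else 0) + (m z : ℤ) -
        (if z ∈ bd c c' e t Sd then 1 else 0)) ≤ sur c c' e z := by
      intro z hz
      rcases Nat.eq_zero_or_pos (m z) with h0 | h0
      · rw [h0]
        by_cases h5 : z ∈ Z
        · have h6 := hZ z h5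
          have h7 : z ∉ bd c c' e t Sd := by
            intro h
            rw [mem_bd] at h
            omega
          rw [if_pos h5, if_neg h7]
          have := h6.2.2
          push_cast
          omega
        · rw [if_neg h5]
          split_ifs with h6
          · have := sur_ge S adm hz
            push_cast
            omega
          · have := sur_nonneg S adm hz h6
            push_cast
            omega
      · obtain ⟨k1, k2, k3, k4⟩ := hm z h0
        have h5 : z ∉ Z := by
          intro h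
          have := (hZ z h).2.1
          omega
        have h6 : z ∉ bd c c' e t Sd := by
          intro h
          rw [mem_bd] at h
          have := (cc_eq_two S h.2.2.2.2).1
          omega
        rw [if_neg h5, if_neg h6]
        omega
    rcases hδ with rfl | ⟨rfl, z, hz, hz3, hze⟩
    · rw [add_zero]
      exact Finset.sum_le_sum h4
    · rw [← Finset.add_sum_erase _ _ hz, ← Finset.add_sum_erase _ (fun z => sur c c' e z) hz]
      have h5 := Finset.sum_le_sum (fun x (hx : x ∈ Sd.erase z) => h4 x (Finset.mem_of_mem_erase hx))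
      have h6 := sur_pos S adm hz hz3 hze
      have h7 : z ∉ Z := by
        intro h
        have := (hZ z h).2.1
        omega
      have h8 : z ∉ bd c c' e t Sd := by
        intro h
        rw [mem_bd] at h
        omega
      have h9 : m z = 0 := by
        by_contra h
        have := (hm z (by omega)).2.1
        omega
      rw [if_neg h7, if_neg h8, h9]
      push_cast
      linarith
  rw [Finset.sum_sub_distrib, Finset.sum_add_distrib, ← Finset.sum_filter, ← Finset.sum_filter,
    Finset.sum_const, Finset.sum_const] at h3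
  have h9 : Sd.filter (fun z => z ∈ Z) = Z := by
    ext z
    rw [mem_filter]
    exact ⟨fun h => h.2, fun h => ⟨(hZ z h).1, h⟩⟩
  have h10 : Sd.filter (fun z => z ∈ bd c c' e t Sd) = bd c c' e t Sd := by
    ext z
    rw [mem_filter]
    exact ⟨fun h => h.2, fun h => ⟨(mem_bd.1 h).1, h⟩⟩
  rw [h9, h10] at h3
  simp only [nsmul_eq_mul, mul_one] at h3
  have h11 : ((bd c c' e t Sd) \ B).card + B.card = (bd c c' e t Sd).card :=
    Finset.card_sdiff_add_card_eq_card hB
  push_cast at h3
  rw [h2, h1] at h3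
  have h12 : (((bd c c' e t Sd) \ B).card : ℤ) + B.card = (bd c c' e t Sd).card := by
    exact_mod_cast h11
  have h13 : (B.card : ℤ) ≤ Z.card + X.card + ∑ w ∈ Sd, (m w : ℤ) := by exact_mod_cast hc
  linarith

end Pool.Agent.GaussPoset.Win.K2
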