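import Pool.Agent.W_448so_h63.GB

/-!
The identity (6,4) at the window j (MP_448cb3_co, case B): the inequality for a configuration of a
window whose near double elements are matched outside a set `K`.
-/

namespace Pool.Agent.GaussPoset.Win.K2

set_option linter.unusedSectionVars false

open Finset I2

universe u

variable {P : Type u} [Fintype P] [PartialOrder P] [DecidableEq P] {r i : ℕ} {e : P → ℕ}

/-- two double covers of an element of level `m` have a common cover -/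
def NoQ (P : Type u) [Fintype P] [PartialOrder P] [DecidableEq P] (m : ℕ) : Prop :=
  ∀ z : P, lev z = m → ∀ y ∈ uc z, ∀ y' ∈ uc z, y ≠ y' → (uc y).card = 2 → (uc y').card = 2 →
    ∃ x, x ∈ uc y ∧ x ∈ uc y'

lemma side_low (H : Gr P r) (hq : NoQ P (i + 2)) :
    SideQ uc dc (fun x : P => lev x - i) (lv P i) (lS P i) where
  dual := by
    intro x y
    rw [mem_uc, mem_dc]
  c2 := uc_card_le H
  c2' := dc_card_le H
  ne := by
    intro x hx
    rw [mem_lS] at hx
    exact uc_nonempty H (by omega)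
  tS := by
    intro x hx
    rw [mem_lS] at hx
    omega
  tV := by
    intro x hx
    rw [mem_lv] at hx
    omega
  cin := by
    intro x hx y hy
    rw [mem_lS] at hx
    have := lev_uc H hy
    rw [mem_lS, mem_lv]
    omega
  cout := by
    intro y hy x hx
    rw [mem_lS, mem_lv] at hy
    have := lev_dc H hx
    rw [mem_lS]
    omega
  good := by
    intro z hz ht y hy y' hy' hne h1 h2
    rw [mem_lS] at hz
    exact hq z (by omega) y hy y' hy' hne h1 h2

lemma side_up (H : Gr P r) (hir : i ≤ r) (hg : ∀ m, m + 1 = i → Good P m) :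
    SideQ dc uc (fun x : P => i - lev x) (lv P i) (uS P i) := by
  have S := I2.side_up H hir hg
  exact ⟨S.dual, S.c2, S.c2', S.ne, S.tS, S.tV, S.cin, S.cout,
    fun z hz ht y hy y' hy' hne _ _ => S.good z hz ht y hy y' hy' hne⟩

open Classical in
/-- the simple edges outside `K` -/
noncomputable def SK (i : ℕ) (K : Finset P) (psi : P → P) (e : P → ℕ) : Finset P :=
  (dbL P i).filter (fun y => y ∉ K ∧ Smp psi e y)

lemma mem_SK {K : Finset P} {psi : P → P} {y : P} :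
    y ∈ SK i K psi e ↔ y ∈ dbL P i ∧ y ∉ K ∧ Smp psi e y := by
  classical
  unfold SK
  rw [mem_filter]

/-- the bad lower elements -/
noncomputable def bL (i : ℕ) (e : P → ℕ) : Finset P :=
  bd uc dc e (fun x : P => lev x - i) (lS P i)

/-- the bad upper elements -/
noncomputable def bU (i : ℕ) (e : P → ℕ) : Finset P :=
  bd dc uc e (fun x : P => i - lev x) (uS P i)

open Classical in
/-- the bad elements of `K` without an excited element away from the window -/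
noncomputable def KB (i : ℕ) (K : Finset P) (e : P → ℕ) : Finset P :=
  K.filter (fun y => (y ∈ bL i e ∧ ∀ z ∈ dc y, e z = 0) ∨ (y ∈ bU i e ∧ ∀ z ∈ uc y, e z = 0))

lemma mem_KB {K : Finset P} {y : P} : y ∈ KB i K e ↔ y ∈ K ∧
    ((y ∈ bL i e ∧ ∀ z ∈ dc y, e z = 0) ∨ (y ∈ bU i e ∧ ∀ z ∈ uc y, e z = 0)) := by
  classical
  unfold KB
  rw [mem_filter]

section mat

variable {K : Finset P} {psi : P → P} (hM : Mat P i K psi)
include hM

lemma psi_low {y : P} (hy : y ∈ dbL P i) (hK : y ∉ K) :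
    psi y ∈ dbU P i ∧ dc (psi y) = uc y ∧ psi (psi y) = y ∧ psi y ∉ K := by
  have h1 := hM.low y hy hK
  have h2 := hM.invol y (mem_union_left _ hy) hK
  exact ⟨h1.1, h1.2, h2.1, h2.2⟩

lemma psi_up {w : P} (hw : w ∈ dbU P i) (hK : w ∉ K) :
    psi w ∈ dbL P i ∧ uc (psi w) = dc w ∧ psi (psi w) = w ∧ psi w ∉ K := by
  have h1 := hM.upp w hw hK
  have h2 := hM.invol w (mem_union_right _ hw) hK
  exact ⟨h1.1, h1.2, h2.1, h2.2⟩

/-- a bad lower element outside `K` without excited lower covers is simple -/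
lemma low_simple (H : Gr P r) (hq : NoQ P (i + 2)) (hU : AdmU i e)
    (hd : Disjoint (AL i e) (AU i e)) {y : P}
    (hy : y ∈ bL i e) (hK : y ∉ K) (h0 : ∀ z ∈ dc y, e z = 0) :
    y ∈ SK i K psi e ∧ e y = 1 := by
  have S := side_low (i := i) H hq
  unfold bL at hy
  rw [mem_bd, mem_lS] at hy
  obtain ⟨hyS, ty, ey, ⟨a, ha, hlt⟩, cy⟩ := hy
  obtain ⟨c1, c3⟩ := cc_eq_two S cy
  have hdb : y ∈ dbL P i := mem_dbL'.2 ⟨by omega, c1⟩
  obtain ⟨h1, h2, h3, -⟩ := psi_low hM hdb hK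
  have key : ∀ x ∈ uc y, e x = 0 → ∀ u ∈ uc x, e u = 0 := by
    intro x hx hx0 u hu
    by_contra hne
    have hlx := lev_uc H hx
    have h4 : x ∈ AL i e := by
      rw [NormD_mem_AL]
      exact ⟨by omega, y, mem_uc.1 hx, by omega⟩
    have h5 : x ∈ AU i e := by
      rw [NormD_mem_AU]
      exact ⟨by omega, u, mem_uc.1 hu, by omega⟩
    exact disjoint_left.1 hd h4 h5
  have ha0 : e a = 0 := by omega
  have hau : psi y ∈ uc a := by
    rw [mem_uc, ← mem_dc, h2]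
    exact ha
  have hp0 : e (psi y) = 0 := key a ha ha0 _ hau
  refine ⟨mem_SK.2 ⟨hdb, hK, Or.inl ⟨ey, hp0⟩, h0, ?_, ⟨a, ha, ha0⟩, ?_, ?_⟩, ey⟩
  · intro u hu
    by_contra hne
    rw [mem_dbU'] at h1
    refine hU (psi y) (by omega) ⟨⟨u, mem_uc.1 hu, by omega⟩, ⟨a, ?_, by omega⟩⟩
    rw [← mem_dc, h2]
    exact ha
  · intro x hx hx0 z hz hzy
    by_contra hne
    have h4 := c3 x hx (by omega)
    rw [Finset.card_eq_one] at h4
    obtain ⟨b, hb⟩ := h4
    have h5 : y ∈ kr dc e x := mem_kr.2 ⟨mem_dc.2 (mem_uc.1 hx), by omega⟩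
    have h6 : z ∈ kr dc e x := mem_kr.2 ⟨hz, by omega⟩
    rw [hb, mem_singleton] at h5 h6
    exact hzy (h6.trans h5.symm)
  · intro x hx hx0 u hu _
    exact key x hx hx0 u hu

/-- a bad upper element outside `K` without excited upper covers is simple -/
lemma up_simple (H : Gr P r) (hir : i ≤ r) (hg : ∀ m, m + 1 = i → Good P m) (hL : AdmL i e)
    (hd : Disjoint (AL i e) (AU i e)) {w : P}
    (hw : w ∈ bU i e) (hK : w ∉ K) (h0 : ∀ z ∈ uc w, e z = 0) :
    w ∈ dbU P i ∧ psi w ∈ SK i K psi e ∧ e (psi w) = 0 := by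
  have S := side_up (i := i) H hir hg
  unfold bU at hw
  rw [mem_bd, mem_uS] at hw
  obtain ⟨hwS, tw, ew, ⟨a, ha, hlt⟩, cw⟩ := hw
  obtain ⟨c1, c3⟩ := cc_eq_two S cw
  have hdb : w ∈ dbU P i := mem_dbU'.2 ⟨by omega, c1⟩
  obtain ⟨h1, h2, h3, hpK⟩ := psi_up hM hdb hK
  have key : ∀ x ∈ dc w, e x = 0 → ∀ u ∈ dc x, e u = 0 := by
    intro x hx hx0 u hu
    by_contra hne
    have hlx := lev_dc H hx
    have h4 : x ∈ AU i e := by
      rw [NormD_mem_AU]
      exact ⟨by omega, w, mem_dc.1 hx, by omega⟩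
    have h5 : x ∈ AL i e := by
      rw [NormD_mem_AL]
      exact ⟨by omega, u, mem_dc.1 hu, by omega⟩
    exact disjoint_left.1 hd h5 h4
  have ha0 : e a = 0 := by omega
  have hau : psi w ∈ dc a := by
    rw [mem_dc, ← mem_uc, h2]
    exact ha
  have hp0 : e (psi w) = 0 := key a ha ha0 _ hau
  refine ⟨hdb, mem_SK.2 ⟨h1, hpK, Or.inr ⟨hp0, by rw [h3]; exact ew⟩, ?_, ?_, ?_, ?_, ?_⟩, hp0⟩
  · intro u hu
    by_contra hne
    rw [mem_dbL'] at h1
    refine hL (psi w) (by omega) ⟨⟨u, mem_dc.1 hu, by omega⟩, ⟨a, ?_, by omega⟩⟩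
    rw [← mem_uc, h2]
    exact ha
  · rw [h3]
    exact h0
  · rw [h2]
    exact ⟨a, ha, ha0⟩
  · rw [h2]
    intro x hx hx0 u hu _
    exact key x hx hx0 u hu
  · rw [h2, h3]
    intro x hx hx0 z hz hzy
    by_contra hne
    have h4 := c3 x hx (by omega)
    rw [Finset.card_eq_one] at h4
    obtain ⟨b, hb⟩ := h4
    have h5 : w ∈ kr uc e x := mem_kr.2 ⟨mem_uc.2 (mem_dc.1 hx), by omega⟩
    have h6 : z ∈ kr uc e x := mem_kr.2 ⟨hz, by omega⟩
    rw [hb, mem_singleton] at h5 h6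
    exact hzy (h6.trans h5.symm)

lemma mem_bL {y : P} (H : Gr P r) (hq : NoQ P (i + 2)) (hy : y ∈ bL i e) :
    y ∈ dbL P i ∧ e y = 1 := by
  have S := side_low (i := i) H hq
  unfold bL at hy
  rw [mem_bd, mem_lS] at hy
  exact ⟨mem_dbL'.2 ⟨by omega, (cc_eq_two S hy.2.2.2.2).1⟩, hy.2.2.1⟩

lemma mem_bU {y : P} (H : Gr P r) (hir : i ≤ r) (hg : ∀ m, m + 1 = i → Good P m)
    (hy : y ∈ bU i e) : y ∈ dbU P i ∧ e y = 1 := by
  have S := side_up (i := i) H hir hg
  unfold bU at hy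
  rw [mem_bd, mem_uS] at hy
  exact ⟨mem_dbU'.2 ⟨by omega, (cc_eq_two S hy.2.2.2.2).1⟩, hy.2.2.1⟩

/-- THE INEQUALITY FOR A CONFIGURATION with unmatched near elements -/
theorem main_K (H : Gr P r) (hir : i ≤ r) (hq : NoQ P (i + 2))
    (hg : ∀ m, m + 1 = i → Good P m)
    (hL : AdmL i e) (hU : AdmU i e) (hd : Disjoint (AL i e) (AU i e)) {δ : ℕ}
    (hδ : δ = 0 ∨ δ = 1 ∧ ∃ z : P, (i + 3 ≤ lev z ∨ lev z + 3 ≤ i) ∧ 1 ≤ e z) :
    ∃ XL XU : Finset P,
      (∀ x ∈ XL, lev x = i ∧ 1 ≤ e x ∧ (∃ y, y ∈ dc x) ∧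
        ∀ y ∈ dc x, y ∈ bL i e ∧ ∃ z ∈ dc y, 1 ≤ e z) ∧
      (∀ x ∈ XU, lev x = i ∧ 1 ≤ e x ∧ (∃ y, y ∈ uc x) ∧
        ∀ y ∈ uc x, y ∈ bU i e ∧ ∃ z ∈ uc y, 1 ≤ e z) ∧
      2 * ((AL i e).card + (AU i e).card) + δ ≤
        ∑ x ∈ lS P i, e x + ∑ x ∈ uS P i, e x + 2 * (pL i e + pU i e) + (SK i K psi e).card +
          (KB i K e).card + XL.card + XU.card := by
  classical
  have SL := side_low (i := i) H hq
  have SU := side_up (i := i) H hir hg
  obtain ⟨BL, hBL⟩ : ∃ BL : Finset P, ∀ y, y ∈ BL ↔ y ∈ bL i e ∧ ∃ z ∈ dc y, 1 ≤ e z :=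
    ⟨(bL i e).filter (fun y => ∃ z ∈ dc y, 1 ≤ e z), fun y => mem_filter⟩
  obtain ⟨BU, hBU⟩ : ∃ BU : Finset P, ∀ y, y ∈ BU ↔ y ∈ bU i e ∧ ∃ z ∈ uc y, 1 ≤ e z :=
    ⟨(bU i e).filter (fun y => ∃ z ∈ uc y, 1 ≤ e z), fun y => mem_filter⟩
  obtain ⟨XL, hXL, iL⟩ := side_bound SL (adm_low hL) (B := BL) (fun y hy => ((hBL y).1 hy).1)
    (fun y hy => ((hBL y).1 hy).2)
  obtain ⟨XU, hXU, iU⟩ := side_bound SU (adm_up hU) (B := BU) (fun y hy => ((hBU y).1 hy).1)
    (fun y hy => ((hBU y).1 hy).2)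
  rw [KD_low, fr_low] at iL
  rw [KD_up, fr_up] at iU
  change ∀ δ : ℤ, _ → _ ≤ _ + ((bL i e \ BL).card : ℤ) + _ at iL
  change ∀ δ : ℤ, _ → _ ≤ _ + ((bU i e \ BU).card : ℤ) + _ at iU
  -- the unexcited bad elements
  have h1 : (bL i e \ BL).card ≤ ((SK i K psi e).filter (fun y => e y = 1)).card +
      ((KB i K e).filter (fun y => i < lev y)).card := by
    refine le_trans (card_le_card (t := ((SK i K psi e).filter (fun y => e y = 1)) ∪
      ((KB i K e).filter (fun y => i < lev y))) ?_) (card_union_le _ _)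
    intro y hy
    rw [mem_sdiff, hBL] at hy
    have h0 : ∀ z ∈ dc y, e z = 0 := by
      intro z hz
      by_contra hne
      exact hy.2 ⟨hy.1, z, hz, by omega⟩
    rw [mem_union, mem_filter, mem_filter]
    by_cases hK : y ∈ K
    · right
      have := (mem_dbL'.1 (mem_bL hM H hq hy.1).1).1
      exact ⟨mem_KB.2 ⟨hK, Or.inl ⟨hy.1, h0⟩⟩, by omega⟩
    · left
      exact low_simple hM H hq hU hd hy.1 hK h0
  have h2 : (bU i e \ BU).card ≤ ((SK i K psi e).filter (fun y => ¬ e y = 1)).card +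
      ((KB i K e).filter (fun y => ¬ i < lev y)).card := by
    have hs : (bU i e \ BU).card = ((bU i e \ BU).filter (fun y => y ∉ K)).card +
        ((bU i e \ BU).filter (fun y => ¬ y ∉ K)).card :=
      (Finset.card_filter_add_card_filter_not _).symm
    have ha : ((bU i e \ BU).filter (fun y => y ∉ K)).card ≤
        ((SK i K psi e).filter (fun y => ¬ e y = 1)).card := by
      have h0 : ∀ w ∈ (bU i e \ BU).filter (fun y => y ∉ K),
          w ∈ dbU P i ∧ w ∉ K ∧ psi w ∈ SK i K psi e ∧ e (psi w) = 0 := by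
        intro w hw
        rw [mem_filter, mem_sdiff, hBU] at hw
        have h0 : ∀ z ∈ uc w, e z = 0 := by
          intro z hz
          by_contra hne
          exact hw.1.2 ⟨hw.1.1, z, hz, by omega⟩
        obtain ⟨k1, k2, k3⟩ := up_simple hM H hir hg hL hd hw.1.1 hw.2 h0
        exact ⟨k1, hw.2, k2, k3⟩
      refine card_le_card_of_injOn psi ?_ ?_
      · intro w hw
        have := h0 w hw
        rw [mem_coe, mem_filter]
        exact ⟨this.2.2.1, by omega⟩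
      · intro w hw w' hw' heq
        have k := h0 w hw
        have k' := h0 w' hw'
        have h3 := (psi_up hM k.1 k.2.1).2.2.1
        have h4 := (psi_up hM k'.1 k'.2.1).2.2.1
        rw [← h3, ← h4, heq]
    have hb : ((bU i e \ BU).filter (fun y => ¬ y ∉ K)).card ≤
        ((KB i K e).filter (fun y => ¬ i < lev y)).card := by
      refine card_le_card ?_
      intro y hy
      rw [mem_filter, mem_sdiff, hBU, not_not] at hy
      have h0 : ∀ z ∈ uc y, e z = 0 := by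
        intro z hz
        by_contra hne
        exact hy.1.2 ⟨hy.1.1, z, hz, by omega⟩
      rw [mem_filter]
      have := (mem_dbU'.1 (mem_bU hM H hir hg hy.1.1).1).1
      exact ⟨mem_KB.2 ⟨hy.2, Or.inr ⟨hy.1.1, h0⟩⟩, by omega⟩
    omega
  have h3 : ((SK i K psi e).filter (fun y => e y = 1)).card +
      ((SK i K psi e).filter (fun y => ¬ e y = 1)).card = (SK i K psi e).card :=
    Finset.card_filter_add_card_filter_not _
  have h3' : ((KB i K e).filter (fun y => i < lev y)).card +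
      ((KB i K e).filter (fun y => ¬ i < lev y)).card = (KB i K e).card :=
    Finset.card_filter_add_card_filter_not _
  refine ⟨XL, XU, ?_, ?_, ?_⟩
  · intro x hx
    obtain ⟨h4, h5, h6, h7⟩ := hXL x hx
    exact ⟨mem_lv.1 h4, h5, h6, fun y hy => (hBL y).1 (h7 y hy)⟩
  · intro x hx
    obtain ⟨h4, h5, h6, h7⟩ := hXU x hx
    exact ⟨mem_lv.1 h4, h5, h6, fun y hy => (hBU y).1 (h7 y hy)⟩
  · have h6 : ((∑ x ∈ lS P i, e x : ℕ) : ℤ) = ∑ x ∈ lS P i, (e x : ℤ) := by push_cast; rfl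
    have h7 : ((∑ x ∈ uS P i, e x : ℕ) : ℤ) = ∑ x ∈ uS P i, (e x : ℤ) := by push_cast; rfl
    rw [← h6] at iL
    rw [← h7] at iU
    rcases hδ with rfl | ⟨rfl, z, hz | hz, hze⟩
    · have iL0 := iL 0 (Or.inl rfl)
      have iU0 := iU 0 (Or.inl rfl)
      omega
    · have iL0 := iL 1 (Or.inr ⟨rfl, z, mem_lS.2 (by omega), by omega, hze⟩)
      have iU0 := iU 0 (Or.inl rfl)
      omega
    · have iL0 := iL 0 (Or.inl rfl)
      have iU0 := iU 1 (Or.inr ⟨rfl, z, mem_uS.2 (by omega), by omega, hze⟩)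
      omega

end mat

end Pool.Agent.GaussPoset.Win.K2
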