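import Pool.Agent.W_448so_h63.GD
import Pool.Agent.W_448so_h17.CrA

/-!
The identity (6,4) at the window j (MP_448cb3_co, case B): the charges of a configuration which
excites an element outside the components.
-/

namespace Pool.Agent.GaussPoset.Win.K2

set_option linter.unusedSectionVars false

open Finset I2

universe u

variable {P : Type u} [Fintype P] [PartialOrder P] [DecidableEq P] {r i : ℕ} {e : P → ℕ}

open Classical in
/-- the charge of an element -/
noncomputable def ch (i : ℕ) (e : P → ℕ) (x : P) : ℤ :=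
  if i < lev x then (if kl uc e x then cc uc dc e x else 0)
  else if lev x < i then (if kl dc e x then cc dc uc e x else 0) else 0

/-- far below the window or near with one cover -/
def Dp (i : ℕ) (x : P) : Prop := i + 2 ≤ lev x ∨ (lev x = i + 1 ∧ (uc x).card = 1)

/-- the charges of a configuration -/
theorem sum_ch (H : Gr P r) (hir : i ≤ r) (hq : NoQ P (i + 2)) (hg : ∀ m, m + 1 = i → Good P m)
    (hL : AdmL i e) (hU : AdmU i e) :
    ∑ x, ch i e x = 2 * (((AL i e).card : ℤ) + (AU i e).card) -
      2 * ((pL i e : ℤ) + pU i e) := by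
  classical
  have SL := side_low (i := i) H hq
  have SU := side_up (i := i) H hir hg
  have h1 := sum_cc SL (adm_low hL)
  have h2 := sum_cc SU (adm_up hU)
  rw [KD_low, fr_low] at h1
  rw [KD_up, fr_up] at h2
  unfold KK at h1 h2
  rw [Finset.sum_filter] at h1 h2
  have h6 : (univ : Finset P) = (lS P i ∪ uS P i) ∪ lv P i := by
    ext x
    simp only [mem_univ, mem_union, mem_lS, mem_uS, mem_lv, true_iff]
    omega
  rw [h6, Finset.sum_union, Finset.sum_union]
  · have h3 : ∑ x ∈ lS P i, ch i e x = ∑ x ∈ lS P i, (if kl uc e x then cc uc dc e x else 0) := by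
      refine Finset.sum_congr rfl fun x hx => ?_
      unfold ch
      rw [if_pos (mem_lS.1 hx)]
    have h4 : ∑ x ∈ uS P i, ch i e x = ∑ x ∈ uS P i, (if kl dc e x then cc dc uc e x else 0) := by
      refine Finset.sum_congr rfl fun x hx => ?_
      have := mem_uS.1 hx
      unfold ch
      rw [if_neg (by omega), if_pos this]
    have h5 : ∑ x ∈ lv P i, ch i e x = 0 := by
      refine Finset.sum_eq_zero fun x hx => ?_
      have := mem_lv.1 hx
      unfold ch
      rw [if_neg (by omega), if_neg (by omega)]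
    rw [h3, h4, h5, h1, h2]
    ring
  · rw [disjoint_left]
    intro x hx hx'
    rw [mem_lS] at hx
    rw [mem_uS] at hx'
    omega
  · rw [disjoint_left]
    intro x hx hx'
    rw [mem_union, mem_lS, mem_uS] at hx
    rw [mem_lv] at hx'
    omega

section pt

variable (H : Gr P r) (hir : i ≤ r) (hq : NoQ P (i + 2)) (hg : ∀ m, m + 1 = i → Good P m)
include H hir hq hg

lemma ch_le (x : P) : ch i e x ≤ 2 * (e x : ℤ) := by
  classical
  have SL := side_low (i := i) H hq
  have SU := side_up (i := i) H hir hg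
  unfold ch
  split_ifs with h1 h2 h3 h4
  · have h5 := cc_le_two (e := e) SL x
    obtain ⟨a, ha, hlt⟩ := h2
    have : (1 : ℤ) ≤ e x := by exact_mod_cast (by omega : 1 ≤ e x)
    linarith
  · positivity
  · have h5 := cc_le_two (e := e) SU x
    obtain ⟨a, ha, hlt⟩ := h4
    have : (1 : ℤ) ≤ e x := by exact_mod_cast (by omega : 1 ≤ e x)
    linarith
  · positivity
  · positivity

lemma ch_le_one (hL : AdmL i e) (hU : AdmU i e) {x : P} (h0 : 1 ≤ e x) (hb : x ∉ bN i e) :
    ch i e x ≤ 2 * (e x : ℤ) - 1 := by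
  classical
  have SL := side_low (i := i) H hq
  have SU := side_up (i := i) H hir hg
  have h0' : (1 : ℤ) ≤ e x := by exact_mod_cast h0
  unfold ch
  split_ifs with h1 h2 h3 h4
  · have h5 := cc_le_two (e := e) SL x
    have hxS : x ∈ lS P i := mem_lS.2 h1
    have h6 := t_le_of_kl SL (adm_low hL) (lev x - i) x hxS h2 rfl
    by_cases h7 : e x = 1
    · have h8 : cc uc dc e x ≠ 2 := by
        intro h8
        apply hb
        unfold bN bL
        refine mem_union_left _ (mem_bd.2 ⟨hxS, by omega, h7, h2, h8⟩)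
      have : cc uc dc e x ≤ 1 := by omega
      linarith
    · have : (2 : ℤ) ≤ e x := by exact_mod_cast (by omega : 2 ≤ e x)
      linarith
  · linarith
  · have h5 := cc_le_two (e := e) SU x
    have hxS : x ∈ uS P i := mem_uS.2 h3
    have h6 := t_le_of_kl SU (adm_up hU) (i - lev x) x hxS h4 rfl
    by_cases h7 : e x = 1
    · have h8 : cc dc uc e x ≠ 2 := by
        intro h8
        apply hb
        unfold bN bU
        refine mem_union_right _ (mem_bd.2 ⟨hxS, by omega, h7, h4, h8⟩)
      have : cc dc uc e x ≤ 1 := by omega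
      linarith
    · have : (2 : ℤ) ≤ e x := by exact_mod_cast (by omega : 2 ≤ e x)
      linarith
  · linarith
  · linarith

lemma ch_le_D (hL : AdmL i e) {x : P} (h0 : 1 ≤ e x) (hD : Dp i x) :
    ch i e x ≤ 2 * (e x : ℤ) - 2 ∧ ch i e x ≤ 2 ∧
      (lev x = i + 1 → ch i e x ≤ 0) := by
  classical
  have SL := side_low (i := i) H hq
  have h0' : (1 : ℤ) ≤ e x := by exact_mod_cast h0
  have h1 : i < lev x := by
    unfold Dp at hD
    rcases hD with h | h <;> omega
  have hxS : x ∈ lS P i := mem_lS.2 h1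
  unfold ch
  rw [if_pos h1]
  split_ifs with h2
  · have h5 := cc_le_two (e := e) SL x
    have h6 := t_le_of_kl SL (adm_low hL) (lev x - i) x hxS h2 rfl
    unfold Dp at hD
    rcases hD with h | ⟨h, hc⟩
    · have : (2 : ℤ) ≤ e x := by exact_mod_cast (by omega : 2 ≤ e x)
      refine ⟨by linarith, h5, fun h7 => by omega⟩
    · have h7 := sur_single (c := uc) (c' := dc) (e := e) hc
      unfold sur at h7
      rw [if_pos h2] at h7
      refine ⟨by linarith, by linarith, fun _ => by linarith⟩
  · exact ⟨by linarith, by norm_num, fun _ => le_rfl⟩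

/-- ORDER BOUND with a set of far or single elements -/
theorem ord_le (hL : AdmL i e) (hU : AdmU i e) {D : Finset P}
    (hD : ∀ x ∈ D, 1 ≤ e x ∧ Dp i x) :
    (AL i e).card + (AU i e).card + D.card ≤ ∑ x, e x + (pL i e + pU i e) := by
  classical
  have h1 := sum_ch H hir hq hg hL hU
  have h2 : ∑ x, ch i e x ≤ ∑ x, (2 * (e x : ℤ) - (if x ∈ D then 2 else 0)) := by
    refine Finset.sum_le_sum fun x _ => ?_
    split_ifs with h
    · exact (ch_le_D H hir hq hg hL (hD x h).1 (hD x h).2).1
    · have := ch_le H hir hq hg (e := e) x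
      linarith
  rw [h1, Finset.sum_sub_distrib, ← Finset.mul_sum, Finset.sum_ite_mem, univ_inter,
    Finset.sum_const, nsmul_eq_mul] at h2
  have h3 : ((∑ x, e x : ℕ) : ℤ) = ∑ x, (e x : ℤ) := by push_cast; rfl
  rw [← h3] at h2
  omega

/-- EQUALITY in the order bound -/
theorem ord_eq (hL : AdmL i e) (hU : AdmU i e) {D : Finset P}
    (hD : ∀ x ∈ D, 1 ≤ e x ∧ Dp i x)
    (heq : ∑ x, e x + (pL i e + pU i e) ≤ (AL i e).card + (AU i e).card + D.card) :
    (∀ x, x ∉ D → 1 ≤ e x → x ∈ bN i e) ∧ (∀ x ∈ D, e x ≤ 2) ∧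
      ∀ x ∈ D, lev x = i + 1 → e x = 1 := by
  classical
  have h1 := sum_ch H hir hq hg hL hU
  have h2 : ∀ x ∈ (univ : Finset P), ch i e x ≤ 2 * (e x : ℤ) - (if x ∈ D then 2 else 0) := by
    intro x _
    split_ifs with h
    · exact (ch_le_D H hir hq hg hL (hD x h).1 (hD x h).2).1
    · have := ch_le H hir hq hg (e := e) x
      linarith
  have h3 : ((∑ x, e x : ℕ) : ℤ) = ∑ x, (e x : ℤ) := by push_cast; rfl
  have h4 : ∑ x, (2 * (e x : ℤ) - (if x ∈ D then 2 else 0)) ≤ ∑ x, ch i e x := by
    rw [h1, Finset.sum_sub_distrib, ← Finset.mul_sum, Finset.sum_ite_mem, univ_inter,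
      Finset.sum_const, nsmul_eq_mul, ← h3]
    omega
  have h5 : ∀ x ∈ (univ : Finset P), ch i e x = 2 * (e x : ℤ) - (if x ∈ D then 2 else 0) :=
    (Finset.sum_eq_sum_iff_of_le h2).1 (le_antisymm (Finset.sum_le_sum h2) h4)
  refine ⟨?_, ?_, ?_⟩
  · intro x hx h0
    by_contra hb
    have h6 := h5 x (mem_univ x)
    rw [if_neg hx] at h6
    have h7 := ch_le_one H hir hq hg hL hU h0 hb
    linarith
  · intro x hx
    have h6 := h5 x (mem_univ x)
    rw [if_pos hx] at h6
    have h7 := (ch_le_D H hir hq hg hL (hD x hx).1 (hD x hx).2).2.1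
    have : (e x : ℤ) ≤ 2 := by linarith
    exact_mod_cast this
  · intro x hx hl
    have h6 := h5 x (mem_univ x)
    rw [if_pos hx] at h6
    have h7 := (ch_le_D H hir hq hg hL (hD x hx).1 (hD x hx).2).2.2 hl
    have h8 := (hD x hx).1
    have : (e x : ℤ) ≤ 1 := by linarith
    have : e x ≤ 1 := by exact_mod_cast this
    omega

end pt

section cross

variable {ι : Type*} [DecidableEq ι] {κ : P → ι}

/-- elements above an excited element and below the window are excited -/
lemma exc_le (H : Gr P r) (hL : AdmL i e) {z : P} (h0 : 1 ≤ e z) {x : P} (hzx : z ≤ x)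
    (hx : i < lev x) : 1 ≤ e x := by
  have key : ∀ y : P, i < lev y → ∀ w, w ≤ y → 1 ≤ e w → 1 ≤ e y := by
    intro y hy
    refine normb_induct (C := fun w => 1 ≤ e w → 1 ≤ e y) (fun h => h) ?_
    intro w v hwv hvy ih hw
    have h1 := lev_uc H (mem_uc.2 hwv)
    have h2 : lev y ≤ lev v := by
      rcases eq_or_lt_of_le hvy with h | h
      · rw [h]
      · exact (lev_strictAnti h).le
    exact ih (pos_up H hL (by omega) hw hwv)
  exact key x hx z hzx h0

/-- the element of level `i + 2` under two components has a single cover -/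
lemma one_single (H : Gr P r) (hκ : Split (i + 1) κ) (hq : NoQ P (i + 2)) {z p p' : P}
    (hz : lev z = i + 2) (huc : uc z = {p, p'}) (hk : κ p ≠ κ p') :
    ((uc p).card = 2 ∧ (uc p').card = 1) ∨ ((uc p).card = 1 ∧ (uc p').card = 2) ∨
      ((uc p).card = 1 ∧ (uc p').card = 1) := by
  have hp : p ∈ uc z := by rw [huc]; exact mem_insert_self _ _
  have hp' : p' ∈ uc z := by rw [huc]; exact mem_insert_of_mem (mem_singleton_self _)
  have l1 := lev_uc H hp
  have l2 := lev_uc H hp'
  have c1 := uc_card_le H p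
  have c2 := uc_card_le H p'
  have c3 : 0 < (uc p).card := card_pos.2 (uc_nonempty H (by omega))
  have c4 : 0 < (uc p').card := card_pos.2 (uc_nonempty H (by omega))
  by_cases h : (uc p).card = 2 ∧ (uc p').card = 2
  · exfalso
    obtain ⟨x, hx, hx'⟩ := hq z hz p hp p' hp' (fun h => hk (by rw [h])) h.1 h.2
    exact hk ((hκ (mem_uc.1 hx) (by omega)).trans (hκ (mem_uc.1 hx') (by omega)).symm)
  · omega

/-- the far and single elements of a cross configuration -/
theorem cross_D (H : Gr P r) (hκ : Split (i + 1) κ) (hq : NoQ P (i + 2)) (hL : AdmL i e) {z : P}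
    (hz : z ∉ cuni (i + 1) κ) (h0 : 1 ≤ e z) :
    (∃ D : Finset P, D.card = 3 ∧ ∀ x ∈ D, 1 ≤ e x ∧ Dp i x) ∨
    (∃ y v, lev z = i + 2 ∧ uc z = {y, v} ∧ κ y ≠ κ v ∧ (uc y).card = 2 ∧ (uc v).card = 1 ∧
      1 ≤ e y ∧ 1 ≤ e v) := by
  classical
  have hl := (two_up H hκ hz).1
  rcases Nat.eq_or_lt_of_le (show i + 2 ≤ lev z by omega) with hz2 | hz2
  · obtain ⟨p, p', hk, huc⟩ := So.two_labels H hκ hz hz2.symm
    have hp : p ∈ uc z := by rw [huc]; exact mem_insert_self _ _
    have hp' : p' ∈ uc z := by rw [huc]; exact mem_insert_of_mem (mem_singleton_self _)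
    have l1 := lev_uc H hp
    have l2 := lev_uc H hp'
    have e1 := exc_le H hL h0 (mem_uc.1 hp).le (by omega)
    have e2 := exc_le H hL h0 (mem_uc.1 hp').le (by omega)
    rcases one_single H hκ hq hz2.symm huc hk with h | h | h
    · exact Or.inr ⟨p, p', hz2.symm, huc, hk, h.1, h.2, e1, e2⟩
    · exact Or.inr ⟨p', p, hz2.symm, by rw [huc, pair_comm], fun h => hk h.symm, h.2, h.1, e2, e1⟩
    · left
      refine ⟨{z, p, p'}, ?_, ?_⟩
      · rw [card_insert_of_notMem, card_pair (fun h => hk (by rw [h]))]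
        rw [mem_insert, mem_singleton]
        rintro (rfl | rfl) <;> omega
      · intro x hx
        rw [mem_insert, mem_insert, mem_singleton] at hx
        rcases hx with rfl | rfl | rfl
        · exact ⟨h0, Or.inl (by omega)⟩
        · exact ⟨e1, Or.inr ⟨by omega, h.1⟩⟩
        · exact ⟨e2, Or.inr ⟨by omega, h.2⟩⟩
  · left
    obtain ⟨y, hy, hy0⟩ := exists_top z
    have h1 : z ∉ cext (i + 1) κ (κ y) := by
      intro h
      apply hz
      unfold cuni
      rw [mem_biUnion]
      exact ⟨κ y, mem_image_of_mem κ (mem_univ y), h⟩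
    rw [mem_cext] at h1
    push Not at h1
    obtain ⟨y', hy', hl', hne⟩ := h1
    have mk : ∀ w, z ≤ w → lev w ≤ i + 1 → ∃ q p, z ≤ q ∧ lev q = i + 2 ∧ p ∈ uc q ∧
        lev p = i + 1 ∧ κ p = κ w := by
      intro w hw hwl
      obtain ⟨q, q1, q2, q3⟩ := exists_mid H hw (k := i + 2) (by omega) (by omega)
      have h2 : q < w := by
        refine lt_of_le_of_ne q2 ?_
        rintro rfl
        omega
      obtain ⟨p, hp, hpw⟩ := exists_covBy_le_of_lt h2
      have h3 := lev_uc H (mem_uc.2 hp)
      exact ⟨q, p, q1, q3, mem_uc.2 hp, by omega, hκ.le p hpw (by omega)⟩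
    obtain ⟨q, p, q1, q2, q3, q4, q5⟩ := mk y hy (by omega)
    obtain ⟨q', p', q1', q2', q3', q4', q5'⟩ := mk y' hy' hl'
    have hk : κ p ≠ κ p' := by
      rw [q5, q5']
      exact fun h => hne h.symm
    have e1 := exc_le H hL h0 q1 (by omega)
    have e1' := exc_le H hL h0 q1' (by omega)
    by_cases hqq : q = q'
    · have huc : uc q = {p, p'} := by
        symm
        apply Finset.eq_of_subset_of_card_le
        · intro x hx
          rw [mem_insert, mem_singleton] at hx
          rcases hx with rfl | rfl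
          · exact q3
          · rw [hqq]
            exact q3'
        · rw [Finset.card_pair (fun h => hk (by rw [h]))]
          exact uc_card_le H q
      have e2 := exc_le H hL e1 (mem_uc.1 q3).le (by omega)
      have e2' := exc_le H hL e1' (mem_uc.1 q3').le (by omega)
      have hs : ∃ v, lev v = i + 1 ∧ (uc v).card = 1 ∧ 1 ≤ e v := by
        rcases one_single H hκ hq q2 huc hk with h | h | h
        · exact ⟨p', q4', h.2, e2'⟩
        · exact ⟨p, q4, h.1, e2⟩
        · exact ⟨p, q4, h.1, e2⟩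
      obtain ⟨v, v1, v2, v3⟩ := hs
      refine ⟨{z, q, v}, ?_, ?_⟩
      · rw [card_insert_of_notMem, card_pair (by rintro rfl; omega)]
        rw [mem_insert, mem_singleton]
        rintro (rfl | rfl) <;> omega
      · intro x hx
        rw [mem_insert, mem_insert, mem_singleton] at hx
        rcases hx with rfl | rfl | rfl
        · exact ⟨h0, Or.inl (by omega)⟩
        · exact ⟨e1, Or.inl (by omega)⟩
        · exact ⟨v3, Or.inr ⟨v1, v2⟩⟩
    · refine ⟨{z, q, q'}, ?_, ?_⟩
      · rw [card_insert_of_notMem, card_pair hqq]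
        rw [mem_insert, mem_singleton]
        rintro (rfl | rfl) <;> omega
      · intro x hx
        rw [mem_insert, mem_insert, mem_singleton] at hx
        rcases hx with rfl | rfl | rfl
        · exact ⟨h0, Or.inl (by omega)⟩
        · exact ⟨e1, Or.inl (by omega)⟩
        · exact ⟨e1', Or.inl (by omega)⟩

end cross

end Pool.Agent.GaussPoset.Win.K2
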