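import Pool.Agent.W_448so_h63.GE
import Pool.Agent.W_448f_h83.FA

/-!
The identity (6,4) at the window j (MP_448cb3_co, case B): the extremal configurations of energy six
which excite an element outside the components.
-/

namespace Pool.Agent.GaussPoset.Win.K2

set_option linter.unusedSectionVars false

open Finset I2

universe u

variable {P : Type u} [Fintype P] [PartialOrder P] [DecidableEq P] {r i : ℕ} {e : P → ℕ}

variable {ι : Type*} [DecidableEq ι] {κ : P → ι} {K : Finset P} {psi : P → P}

/-- joins of level `i + 2` of a double and a single element of two components -/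
structure SD (i : ℕ) (κ : P → ι) (z y v : P) : Prop where
  lz : lev z = i + 2
  huc : uc z = {y, v}
  hk : κ y ≠ κ v
  cy : (uc y).card = 2
  cv : (uc v).card = 1

lemma SD.ne {z y v : P} (h : SD i κ z y v) : y ≠ v := fun h1 => h.hk (by rw [h1])

lemma SD.my {z y v : P} (h : SD i κ z y v) : y ∈ uc z := by rw [h.huc]; exact mem_insert_self _ _

lemma SD.mv {z y v : P} (h : SD i κ z y v) : v ∈ uc z := by
  rw [h.huc]; exact mem_insert_of_mem (mem_singleton_self _)

lemma SD.ly (H : Gr P r) {z y v : P} (h : SD i κ z y v) : lev y = i + 1 := by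
  have := lev_uc H h.my
  have := h.lz
  omega

lemma SD.lv' (H : Gr P r) {z y v : P} (h : SD i κ z y v) : lev v = i + 1 := by
  have := lev_uc H h.mv
  have := h.lz
  omega

/-- the extremal cross configurations of energy six -/
theorem cross_six (H : Gr P r) (hir : i ≤ r) (hq : NoQ P (i + 2))
    (hg : ∀ m, m + 1 = i → Good P m) (hκ : Split (i + 1) κ) (hM : Mat P i K psi)
    (hL : AdmL i e) (hU : AdmU i e) (hd : Disjoint (AL i e) (AU i e)) (h6 : ∑ x, e x = 6)
    {z0 : P} (hz0 : z0 ∉ cuni (i + 1) κ) (he0 : 1 ≤ e z0) :
    (AL i e).card + (AU i e).card ≤ 3 + (pL i e + pU i e) ∨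
      ((AL i e).card + (AU i e).card ≤ 4 + (pL i e + pU i e) ∧
      ((SK i K psi e).Nonempty ∨ ∃ z y v a M, SD i κ z y v ∧ z ∉ cuni (i + 1) κ ∧
        (a = 1 ∨ a = 2) ∧ M ⊆ K ∧ Disjoint M (uc z) ∧ M.card + a = 4 ∧ e = eZ a z M)) := by
  classical
  rcases cross_D H hκ hq hL hz0 he0 with ⟨D, hD3, hD⟩ | ⟨y, v, lz, huc, hk, cy, cv, ey, ev⟩
  · left
    have := ord_le H hir hq hg hL hU hD
    omega
  · have S : SD i κ z0 y v := ⟨lz, huc, hk, cy, cv⟩
    have hly := S.ly H
    have hlv := S.lv' H
    have hzv : z0 ≠ v := by rintro rfl; omega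
    have hzy : z0 ≠ y := by rintro rfl; omega
    have hD : ∀ x ∈ ({z0, v} : Finset P), 1 ≤ e x ∧ Dp i x := by
      intro x hx
      rw [mem_insert, mem_singleton] at hx
      rcases hx with rfl | rfl
      · exact ⟨he0, Or.inl (by omega)⟩
      · exact ⟨ev, Or.inr ⟨by omega, cv⟩⟩
    have h1 := ord_le H hir hq hg hL hU hD
    rw [card_pair hzv] at h1
    by_cases h2 : (AL i e).card + (AU i e).card ≤ 3 + (pL i e + pU i e)
    · exact Or.inl h2
    right
    refine ⟨by omega, ?_⟩
    obtain ⟨q1, q2, q3⟩ := ord_eq H hir hq hg hL hU hD (by rw [card_pair hzv]; omega)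
    have hbz : z0 ∉ bN i e := by
      intro h
      unfold bN at h
      rcases mem_union.1 h with h | h
      · have := (bL_data H hir hq hg h).1
        omega
      · have := (bU_data H hir hq hg h).1
        omega
    have hbv : v ∉ bN i e := by
      intro h
      unfold bN at h
      rcases mem_union.1 h with h | h
      · have := (bL_data H hir hq hg h).2.1
        omega
      · have := (bU_data H hir hq hg h).1
        omega
    have hby : y ∈ bN i e := by
      apply q1 y _ ey
      rw [mem_insert, mem_singleton]
      rintro (h | h)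
      · exact hzy h.symm
      · exact S.ne h
    have ha : e z0 ≤ 2 := q2 z0 (mem_insert_self _ _)
    have hv1 : e v = 1 := q3 v (mem_insert_of_mem (mem_singleton_self _)) hlv
    have hMd : Disjoint ((bN i e).erase y) (uc z0) := by
      rw [huc, disjoint_insert_right, disjoint_singleton_right]
      exact ⟨notMem_erase _ _, fun h => hbv (mem_erase.1 h).2⟩
    have heq : e = eZ (e z0) z0 ((bN i e).erase y) := by
      funext x
      unfold eZ
      split_ifs with h3 h4
      · rw [h3]
      · rw [mem_union, huc, mem_insert, mem_singleton, mem_erase] at h4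
        rcases h4 with (h4 | h4) | h4
        · rw [h4]
          exact (bN_data H hir hq hg hby).2.1
        · rw [h4, hv1]
        · exact (bN_data H hir hq hg h4.2).2.1
      · by_contra h5
        apply h4
        rw [mem_union, huc, mem_insert, mem_singleton, mem_erase]
        by_cases h6 : x = v
        · exact Or.inl (Or.inr h6)
        by_cases h7 : x = y
        · exact Or.inl (Or.inl h7)
        right
        refine ⟨h7, q1 x ?_ (by omega)⟩
        rw [mem_insert, mem_singleton]
        rintro (h | h)
        · exact h3 h
        · exact h6 h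
    have hcard : ((bN i e).erase y).card + e z0 = 4 := by
      have h3 : ∑ x, e x = e z0 + (uc z0 ∪ (bN i e).erase y).card := by
        rw [← Finset.add_sum_erase univ e (mem_univ z0)]
        congr 1
        have h4 : ∀ x ∈ univ.erase z0, e x = if x ∈ uc z0 ∪ (bN i e).erase y then 1 else 0 := by
          intro x hx
          have h5 := congrFun heq x
          unfold eZ at h5
          rwa [if_neg (mem_erase.1 hx).1] at h5
        rw [Finset.sum_congr rfl h4, Finset.sum_ite_mem, Finset.sum_const, smul_eq_mul, mul_one]
        congr 1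
        ext x
        rw [mem_inter, mem_erase]
        constructor
        · exact fun h => h.2
        · intro h
          refine ⟨⟨?_, mem_univ x⟩, h⟩
          rintro rfl
          rcases mem_union.1 h with h | h
          · have := lev_uc H h
            omega
          · exact hbz (mem_erase.1 h).2
      rw [h6, card_union_of_disjoint hMd.symm, huc, card_pair S.ne] at h3
      omega
    by_cases hMK : (bN i e).erase y ⊆ K
    · right
      exact ⟨z0, y, v, e z0, (bN i e).erase y, S, hz0, by omega, hMK, hMd, hcard, heq⟩
    · left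
      rw [Finset.not_subset] at hMK
      obtain ⟨k, hk1, hk2⟩ := hMK
      rw [mem_erase] at hk1
      have hkb := hk1.2
      unfold bN at hkb
      rcases mem_union.1 hkb with h | h
      · obtain ⟨b1, -, -, -, -, -⟩ := bL_data H hir hq hg h
        refine ⟨k, (low_simple hM H hq hU hd h hk2 ?_).1⟩
        intro w hw
        by_contra hne
        have hlw := lev_dc H hw
        have h3 : w ∉ bN i e := by
          intro h4
          unfold bN at h4
          rcases mem_union.1 h4 with h4 | h4
          · have := (bL_data H hir hq hg h4).1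
            omega
          · have := (bU_data H hir hq hg h4).1
            omega
        have h4 : w = z0 := by
          by_contra h5
          refine h3 (q1 w ?_ (by omega))
          rw [mem_insert, mem_singleton]
          rintro (h6 | h6)
          · exact h5 h6
          · rw [h6] at hlw
            omega
        rw [h4] at hw
        have h5 : k ∈ uc z0 := mem_uc.2 (mem_dc.1 hw)
        rw [huc, mem_insert, mem_singleton] at h5
        rcases h5 with h5 | h5
        · exact hk1.1 h5
        · rw [h5] at hk1
          exact hbv hk1.2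
      · obtain ⟨b1, -, -, -, -, -⟩ := bU_data H hir hq hg h
        refine ⟨psi k, (up_simple hM H hir hg hL hd h hk2 ?_).2.1⟩
        intro w hw
        by_contra hne
        have hlw := lev_uc H hw
        have h3 : w ∉ bN i e := by
          intro h4
          unfold bN at h4
          rcases mem_union.1 h4 with h4 | h4
          · have := (bL_data H hir hq hg h4).1
            omega
          · have := (bU_data H hir hq hg h4).1
            omega
        refine h3 (q1 w ?_ (by omega))
        rw [mem_insert, mem_singleton]
        rintro (h6 | h6)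
        · rw [h6] at hlw
          omega
        · rw [h6] at hlw
          omega

/-- order at energy three -/
theorem cross_three (H : Gr P r) (hir : i ≤ r) (hq : NoQ P (i + 2))
    (hg : ∀ m, m + 1 = i → Good P m) (hκ : Split (i + 1) κ)
    (hL : AdmL i e) (hU : AdmU i e) (h3 : ∑ x, e x ≤ 3)
    {z0 : P} (hz0 : z0 ∉ cuni (i + 1) κ) (he0 : 1 ≤ e z0) :
    (AL i e).card + (AU i e).card ≤ 1 + (pL i e + pU i e) := by
  classical
  rcases cross_D H hκ hq hL hz0 he0 with ⟨D, hD3, hD⟩ | ⟨y, v, lz, huc, hk, cy, cv, ey, ev⟩
  · have := ord_le H hir hq hg hL hU hD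
    omega
  · have S : SD i κ z0 y v := ⟨lz, huc, hk, cy, cv⟩
    have hlv := S.lv' H
    have hzv : z0 ≠ v := by rintro rfl; omega
    have hD : ∀ x ∈ ({z0, v} : Finset P), 1 ≤ e x ∧ Dp i x := by
      intro x hx
      rw [mem_insert, mem_singleton] at hx
      rcases hx with rfl | rfl
      · exact ⟨he0, Or.inl (by omega)⟩
      · exact ⟨ev, Or.inr ⟨by omega, cv⟩⟩
    have h1 := ord_le H hir hq hg hL hU hD
    rw [card_pair hzv] at h1
    omega

/-- the extremal configurations have no simple edge -/
theorem SK_eZ (H : Gr P r) (hM : Mat P i K psi) {z y v : P} (S : SD i κ z y v) {a : ℕ}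
    (ha : a = 1 ∨ a = 2) {M : Finset P} (hMK : M ⊆ K) : SK i K psi (eZ a z M) = ∅ := by
  classical
  rw [Finset.eq_empty_iff_forall_notMem]
  intro x hx
  rw [mem_SK] at hx
  obtain ⟨h1, h2, h3⟩ := hx
  obtain ⟨p1, p2, p3, p4⟩ := psi_low hM h1 h2
  have hl := mem_dbL'.1 h1
  have hp := mem_dbU'.1 p1
  have hlz := S.lz
  rcases h3.one with ⟨h4, -⟩ | ⟨-, h4⟩
  · have h5 : x ∈ uc z ∪ M := by
      by_contra h5
      unfold eZ at h4
      rw [if_neg (by rintro rfl; omega), if_neg h5] at h4
      omega
    rcases mem_union.1 h5 with h5 | h5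
    · have h6 := h3.lo z (mem_dc.2 (mem_uc.1 h5))
      unfold eZ at h6
      rw [if_pos rfl] at h6
      omega
    · exact h2 (hMK h5)
  · have h5 : psi x ∈ uc z ∪ M := by
      by_contra h5
      unfold eZ at h4
      rw [if_neg (by intro h; rw [h] at hp; omega), if_neg h5] at h4
      omega
    rcases mem_union.1 h5 with h5 | h5
    · have := lev_uc H h5
      omega
    · exact p4 (hMK h5)

end Pool.Agent.GaussPoset.Win.K2
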