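import Pool.Agent.W_448so_h63.GF
import Pool.Agent.W_448e_h97.EB

/-!
The identity (6,4) at the window j (MP_448cb3_co, case B): the sum over the extremal configurations
of energy six which excite an element outside the components.
-/

namespace Pool.Agent.GaussPoset.Win.K2

set_option linter.unusedSectionVars false

open Finset I2

universe u

variable {P : Type u} [Fintype P] [PartialOrder P] [DecidableEq P] {r i : ℕ} {e : P → ℕ}

variable {ι : Type*} [DecidableEq ι] {κ : P → ι} {K : Finset P} {psi : P → P}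

open Classical in
/-- the joins of level `i + 2` of a double and a single element -/
noncomputable def Z2 (i : ℕ) (κ : P → ι) : Finset P :=
  univ.filter (fun z => z ∉ cuni (i + 1) κ ∧ ∃ y v, SD i κ z y v)

lemma mem_Z2 {z : P} : z ∈ Z2 i κ ↔ z ∉ cuni (i + 1) κ ∧ ∃ y v, SD i κ z y v := by
  classical
  unfold Z2
  rw [mem_filter]
  simp

/-- the sites above an element of level `i + 2` -/
noncomputable def Tz (z : P) : Finset P := (uc z).biUnion uc

lemma SD.Tz {z y v : P} (h : SD i κ z y v) : Tz z = uc y ∪ uc v := by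
  unfold K2.Tz
  rw [h.huc, biUnion_insert, singleton_biUnion]

lemma SD.card_T (H : Gr P r) (hκ : Split (i + 1) κ) {z y v : P} (h : SD i κ z y v) :
    (uc y ∪ uc v).card = 3 := by
  rw [card_union_of_disjoint, h.cy, h.cv]
  rw [disjoint_left]
  intro s h1 h2
  have l1 := h.ly H
  have l2 := h.lv' H
  exact h.hk ((hκ (mem_uc.1 h1) (by omega)).trans (hκ (mem_uc.1 h2) (by omega)).symm)

open Classical in
/-- the index set of the extremal configurations -/
noncomputable def S0 (i : ℕ) (κ : P → ι) (K : Finset P) : Finset ((P × ℕ) × Finset P) :=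
  ((Z2 i κ ×ˢ ({1, 2} : Finset ℕ)) ×ˢ K.powerset).filter
    (fun p => Disjoint p.2 (uc p.1.1) ∧ p.2.card + p.1.2 = 4)

lemma mem_S0 {z : P} {a : ℕ} {M : Finset P} : ((z, a), M) ∈ S0 i κ K ↔
    z ∈ Z2 i κ ∧ (a = 1 ∨ a = 2) ∧ M ⊆ K ∧ Disjoint M (uc z) ∧ M.card + a = 4 := by
  classical
  unfold S0
  rw [mem_filter, mem_product, mem_product, mem_powerset, mem_insert, mem_singleton]
  tauto

/-- the extremal configuration of an index -/
noncomputable def F0 (p : (P × ℕ) × Finset P) : P → ℕ := eZ p.1.2 p.1.1 p.2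

lemma F0_inj (H : Gr P r) (hK : K ⊆ dbL P i ∪ dbU P i) : Set.InjOn F0 (↑(S0 i κ K) : Set ((P × ℕ) × Finset P)) := by
  classical
  rintro ⟨⟨z, a⟩, M⟩ h ⟨⟨z', a'⟩, M'⟩ h' heq
  rw [mem_coe, mem_S0] at h h'
  obtain ⟨hz, ha, hM, hd, hc⟩ := h
  obtain ⟨hz', ha', hM', hd', hc'⟩ := h'
  obtain ⟨-, y, v, S⟩ := mem_Z2.1 hz
  obtain ⟨-, y', v', S'⟩ := mem_Z2.1 hz'
  have hlz := S.lz
  have hlz' := S'.lz
  have hnear : ∀ x ∈ K, lev x = i + 1 ∨ lev x + 1 = i := by
    intro x hx
    rcases mem_union.1 (hK hx) with h | h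
    · exact Or.inl (mem_dbL'.1 h).1
    · exact Or.inr (mem_dbU'.1 h).1
  unfold F0 at heq
  simp only at heq
  have hzz : z = z' := by
    by_contra hne
    have h1 := congrFun heq z
    unfold eZ at h1
    rw [if_pos rfl, if_neg hne, if_neg] at h1
    · omega
    · intro h2
      rcases mem_union.1 h2 with h2 | h2
      · have := lev_uc H h2
        omega
      · have := hnear z (hM' h2)
        omega
  subst hzz
  have haa : a = a' := by
    have h1 := congrFun heq z
    unfold eZ at h1
    rwa [if_pos rfl, if_pos rfl] at h1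
  subst haa
  have key : ∀ {M M' : Finset P}, M ⊆ K → Disjoint M (uc z) → eZ a z M = eZ a z M' →
      M ⊆ M' := by
    intro M M' hM hd h x hx
    have hxz : x ≠ z := by
      rintro rfl
      have := hnear x (hM hx)
      omega
    have h1 := congrFun h x
    unfold eZ at h1
    rw [if_neg hxz, if_neg hxz, if_pos (mem_union_right _ hx)] at h1
    by_contra h2
    rw [if_neg] at h1
    · omega
    · rw [mem_union]
      rintro (h3 | h3)
      · exact disjoint_left.1 hd hx h3
      · exact h2 h3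
  rw [subset_antisymm (key hM hd heq) (key hM' hd' heq.symm)]

open Classical in
/-- the coefficient of an index -/
noncomputable def c0 (i : ℕ) (p : (P × ℕ) × Finset P) : ℤ :=
  if Dj i p.2 ∧ Disjoint (p.2.biUnion (ns i)) (Tz p.1.1) then ∏ k ∈ p.2, sgn i k else 0

/-- the sum of the coefficients -/
theorem sum_c0 (H : Gr P r) (hK : K ⊆ dbL P i ∪ dbU P i) :
    ∑ p ∈ S0 i κ K, c0 i p = ∑ z ∈ Z2 i κ, (EK.Ek i K (Tz z) 3 + EK.Ek i K (Tz z) 2) := by
  classical
  unfold S0
  rw [Finset.sum_filter, Finset.sum_product, Finset.sum_product]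
  refine Finset.sum_congr rfl fun z hz => ?_
  obtain ⟨-, y, v, S⟩ := mem_Z2.1 hz
  have hlz := S.lz
  have key : ∀ a k : ℕ, k + a = 4 → ∑ M ∈ K.powerset,
      (if Disjoint M (uc z) ∧ M.card + a = 4 then c0 i ((z, a), M) else 0) =
      EK.Ek i K (Tz z) k := by
    intro a k hk
    rw [EK.Ek_eq hK, Finset.sum_filter, Finset.powersetCard_eq_filter,
      Finset.sum_filter]
    refine Finset.sum_congr rfl fun M hM => ?_
    rw [mem_powerset] at hM
    unfold c0
    simp only
    by_cases h1 : M.card = k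
    · rw [if_pos h1]
      by_cases h2 : Dj i M ∧ Disjoint (M.biUnion (ns i)) (Tz z)
      · rw [if_pos h2, if_pos]
        refine ⟨?_, by omega⟩
        rw [disjoint_left]
        intro x hx hx'
        have h3 := hM hx
        have h4 : (ns i x).Nonempty := EK.ns_ne (hK h3)
        obtain ⟨s, hs⟩ := h4
        refine disjoint_left.1 h2.2 (mem_biUnion.2 ⟨x, hx, hs⟩) ?_
        unfold Tz
        rw [mem_biUnion]
        refine ⟨x, hx', ?_⟩
        have h5 := lev_uc H hx'
        unfold ns at hs
        rwa [if_pos (by omega)] at hs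
      · rw [if_neg h2]
        split_ifs <;> rfl
    · rw [if_neg h1, if_neg]
      rintro ⟨-, h2⟩
      omega
  rw [Finset.sum_pair (by norm_num : (1 : ℕ) ≠ 2), key 1 3 rfl, key 2 2 rfl]

end Pool.Agent.GaussPoset.Win.K2
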