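import Pool.Agent.W_448so_h63.GG
import Pool.Agent.W_448sk_h15.IFK

/-!
The identity (6,4) at the window j (MP_448cb3_co, case B): the sums over the configurations which
excite an element outside the components.
-/

namespace Pool.Agent.GaussPoset.Win.K2

set_option linter.unusedSectionVars false

open Finset I2

universe u

variable {P : Type u} [Fintype P] [PartialOrder P] [DecidableEq P] {r i : ℕ} {e : P → ℕ}

variable {ι : Type*} [DecidableEq ι] {κ : P → ι} {K : Finset P} {psi : P → P}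

/-- the configuration excites an element outside the components -/
def Cr (i : ℕ) (κ : P → ι) (e : P → ℕ) : Prop := ∃ z, z ∉ cuni (i + 1) κ ∧ 1 ≤ e z

/-- divisibility of a term by its order -/
lemma tC_dvd {C : Finset P} {m s : ℕ}
    (h : AdmL i e → AdmU i e → Disjoint (AL i e) (AU i e) →
      (AL i e).card + (AU i e).card ≤ m + (pL i e + pU i e) + s) :
    dd ^ ((st i C).card - m) ∣ tC i C e * dd ^ s := by
  unfold tC
  by_cases hd : Disjoint (AL i e) (AU i e)
  · rw [if_pos hd]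
    unfold cw
    by_cases hA : AdmL i e ∧ AdmU i e
    · rw [if_pos hA]
      have h1 := h hA.1 hA.2 hd
      have h3 : xx ^ aL i e * xi ^ (aU i e + pU i e) * dd ^ (pL i e + pU i e) *
          (xx ^ (AL i e).card * dd ^ ((st i C).card - (AL i e).card - (AU i e).card)) *
          dd ^ s =
          (xx ^ aL i e * xi ^ (aU i e + pU i e) * xx ^ (AL i e).card) *
            dd ^ ((pL i e + pU i e) + ((st i C).card - (AL i e).card - (AU i e).card) + s) := by
        ring
      rw [h3]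
      refine Dvd.dvd.mul_left (pow_dvd_pow _ ?_) _
      omega
    · rw [if_neg hA, zero_mul, zero_mul]
      exact dvd_zero _
  · rw [if_neg hd, zero_mul]
    exact dvd_zero _

lemma tC_univ : tC i univ e = trm i e := by
  unfold tC trm
  have : st i (univ : Finset P) = lv P i := by
    ext x
    rw [mem_st, mem_lv]
    exact ⟨fun h => h.2, fun h => ⟨mem_univ x, h⟩⟩
  rw [this]

lemma st_univ : st i (univ : Finset P) = lv P i := by
  ext x
  rw [mem_st, mem_lv]
  exact ⟨fun h => h.2, fun h => ⟨mem_univ x, h⟩⟩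

lemma trm_dvd {m : ℕ}
    (h : AdmL i e → AdmU i e → Disjoint (AL i e) (AU i e) →
      (AL i e).card + (AU i e).card ≤ m + (pL i e + pU i e)) :
    dd ^ ((lv P i).card - m) ∣ trm i e := by
  have := tC_dvd (C := (univ : Finset P)) (e := e) (i := i) (m := m) (s := 0)
    (fun h1 h2 h3 => by have := h h1 h2 h3; omega)
  rwa [pow_zero, mul_one, tC_univ, st_univ] at this

open Classical in
/-- ENERGY AT MOST THREE -/
theorem cross3 (H : Gr P r) (hir : i ≤ r) (hq : NoQ P (i + 2))
    (hg : ∀ m, m + 1 = i → Good P m) (hκ : Split (i + 1) κ) {n : ℕ} (hn : n ≤ 3) :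
    dd ^ ((lv P i).card - 1) ∣ ∑ e ∈ ((univ : Finset P).piAntidiag n).filter (Cr i κ), trm i e := by
  refine Finset.dvd_sum fun e he => ?_
  rw [mem_filter, mem_pa] at he
  obtain ⟨⟨h1, -⟩, z, hz, hz1⟩ := he
  exact trm_dvd fun hL hU _ => cross_three H hir hq hg hκ hL hU (by omega) hz hz1

lemma sum_eZ (H : Gr P r) (hK : K ⊆ dbL P i ∪ dbU P i) {z : P} {a : ℕ} {M : Finset P}
    (h : ((z, a), M) ∈ S0 i κ K) : ∑ x, eZ a z M x = 6 := by
  classical
  rw [mem_S0] at h
  obtain ⟨hz, ha, hM, hd, hc⟩ := h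
  obtain ⟨-, y, v, S⟩ := mem_Z2.1 hz
  have hlz := S.lz
  rw [← Finset.add_sum_erase univ _ (mem_univ z), eZ_self]
  have h4 : ∀ x ∈ univ.erase z, eZ a z M x = if x ∈ uc z ∪ M then 1 else 0 := by
    intro x hx
    unfold eZ
    rw [if_neg (mem_erase.1 hx).1]
  rw [Finset.sum_congr rfl h4, Finset.sum_ite_mem, Finset.sum_const, smul_eq_mul, mul_one]
  have h5 : univ.erase z ∩ (uc z ∪ M) = uc z ∪ M := by
    ext x
    rw [mem_inter, mem_erase]
    constructor
    · exact fun h => h.2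
    · intro h
      refine ⟨⟨?_, mem_univ x⟩, h⟩
      rintro rfl
      rcases mem_union.1 h with h | h
      · have := lev_uc H h
        omega
      · have := lev_M (hM.trans hK) h
        omega
  rw [h5, card_union_of_disjoint hd.symm, S.huc, card_pair S.ne]
  omega

open Classical in
/-- ENERGY SIX: the leading coefficient of the cross part -/
theorem cross6 (H : Gr P r) (hir : i ≤ r) (hq : NoQ P (i + 2))
    (hg : ∀ m, m + 1 = i → Good P m) (hκ : Split (i + 1) κ) (hM : Mat P i K psi)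
    (hK : K ⊆ dbL P i ∪ dbU P i) :
    dd ^ ((lv P i).card - 3) ∣
      ∑ e ∈ ((univ : Finset P).piAntidiag 6).filter (Cr i κ), trm i e +
        ((∑ z ∈ Z2 i κ, (EK.Ek i K (Tz z) 3 + EK.Ek i K (Tz z) 2) : ℤ) : A) *
          dd ^ ((lv P i).card - 4) := by
  set Ω := ((univ : Finset P).piAntidiag 6).filter (Cr i κ) with hΩ
  set Ω0 := (S0 i κ K).image F0 with hΩ0
  have hsub : Ω0 ⊆ Ω := by
    intro e he
    rw [hΩ0, mem_image] at he
    obtain ⟨⟨⟨z, a⟩, M⟩, hp, rfl⟩ := he
    rw [hΩ, mem_filter, mem_pa]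
    refine ⟨⟨sum_eZ H hK hp, fun x hx => absurd (mem_univ x) hx⟩, z, ?_⟩
    rw [mem_S0] at hp
    refine ⟨(mem_Z2.1 hp.1).1, ?_⟩
    unfold F0
    simp only
    rw [eZ_self]
    omega
  have h1 : dd ^ ((lv P i).card - 3) ∣ ∑ e ∈ Ω \ Ω0, trm i e := by
    have h2 : ∑ e ∈ Ω \ Ω0, trm i e = ∑ e ∈ Ω \ Ω0, tC i univ e :=
      Finset.sum_congr rfl fun e _ => tC_univ.symm
    rw [h2]
    refine class_dvd hM H ?_ ?_
    · intro e he y hy
      rw [mem_sdiff] at he ⊢
      have hSK := SK_sw hM H hy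
      obtain ⟨he1, he2⟩ := he
      rw [hΩ, mem_filter, mem_pa] at he1
      obtain ⟨⟨h3, -⟩, z, hz, hz1⟩ := he1
      constructor
      · rw [hΩ, mem_filter, mem_pa]
        refine ⟨⟨by rw [sum_sw]; exact h3, fun x hx => absurd (mem_univ x) hx⟩, z, hz, ?_⟩
        have h4 := (two_up H hκ hz).1
        have h5 := mem_SK.1 hy
        rw [sw_lev hM (mem_SK2.1 hy).1 (by omega) (by omega)]
        exact hz1
      · intro h4
        rw [hΩ0, mem_image] at h4
        obtain ⟨⟨⟨z', a⟩, M⟩, hp, hpe⟩ := h4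
        rw [mem_S0] at hp
        obtain ⟨hz', ha, hMK, -, -⟩ := hp
        obtain ⟨-, y', v', S⟩ := mem_Z2.1 hz'
        have h5 := SK_eZ H hM S ha hMK
        have h6 : eZ a z' M = sw psi y e := hpe
        rw [h6, hSK] at h5
        rw [h5] at hy
        exact absurd hy (notMem_empty _)
    · intro e he
      rw [mem_sdiff] at he
      obtain ⟨he1, he2⟩ := he
      rw [hΩ, mem_filter, mem_pa] at he1
      obtain ⟨⟨h3, -⟩, z, hz, hz1⟩ := he1
      have h4 := tC_dvd (C := (univ : Finset P)) (e := e) (i := i) (m := 3)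
        (s := (SK i K psi e).card) (fun hL hU hd => by
          rcases cross_six H hir hq hg hκ hM hL hU hd h3 hz hz1 with h | ⟨h, h5 | h5⟩
          · omega
          · have := card_pos.2 h5
            omega
          · exfalso
            obtain ⟨z', y', v', a, M, S, hz', ha, hMK, hdM, hc, heq⟩ := h5
            apply he2
            rw [hΩ0, mem_image]
            exact ⟨((z', a), M), mem_S0.2 ⟨mem_Z2.2 ⟨hz', y', v', S⟩, ha, hMK, hdM, hc⟩, heq.symm⟩)
      rwa [st_univ] at h4
  have h2 : ∑ e ∈ Ω, trm i e = ∑ e ∈ Ω \ Ω0, trm i e + ∑ p ∈ S0 i κ K, trm i (F0 p) := by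
    rw [← Finset.sum_image (F0_inj H hK), ← hΩ0, Finset.sum_sdiff hsub]
  have h3 : dd ^ ((lv P i).card - 3) ∣ ∑ p ∈ S0 i κ K,
      (trm i (F0 p) + ((c0 i p : ℤ) : A) * dd ^ ((lv P i).card - 4)) := by
    refine Finset.dvd_sum ?_
    rintro ⟨⟨z, a⟩, M⟩ hp
    rw [mem_S0] at hp
    obtain ⟨hz, ha, hMK, hdM, hc⟩ := hp
    obtain ⟨-, y, v, S⟩ := mem_Z2.1 hz
    have h4 := trm_eZ H hir S.lz S.huc S.ne (S.card_T H hκ) ha (hMK.trans hK) hdM hc
    unfold c0 F0
    simp only
    rw [S.Tz]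
    exact h4
  rw [← sum_c0 H hK, h2]
  rw [Finset.sum_add_distrib, ← Finset.sum_mul] at h3
  push_cast
  have h5 := dvd_add h1 h3
  rwa [← add_assoc] at h5

open Classical in
/-- the product over the components is the total minus the cross part -/
theorem prod_eq (H : Gr P r) (hir : i ≤ r) (hκ : Split (i + 1) κ) (n : ℕ) :
    PowerSeries.coeff n (∏ a ∈ univ.image κ, VV i (i + 1) κ a) =
      ∑ e ∈ (univ : Finset P).piAntidiag n, trm i e -
      ∑ e ∈ ((univ : Finset P).piAntidiag n).filter (Cr i κ), trm i e := by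
  unfold VV
  rw [← ZS_cuni H hir (by omega) hκ, coeff_ZS, eq_sub_iff_add_eq, add_comm]
  rw [← Finset.sum_filter_add_sum_filter_not ((univ : Finset P).piAntidiag n) (Cr i κ)]
  congr 1
  unfold ZC
  have h2 : ((univ : Finset P).piAntidiag n).filter (fun e => ¬ Cr i κ e) =
      (cuni (i + 1) κ).piAntidiag n := by
    ext e
    rw [mem_filter, mem_pa, mem_pa]
    constructor
    · rintro ⟨⟨h3, -⟩, h4⟩
      refine ⟨h3, fun x hx => ?_⟩
      by_contra h5
      exact h4 ⟨x, hx, by omega⟩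
    · rintro ⟨h3, h4⟩
      refine ⟨⟨h3, fun x hx => absurd (mem_univ x) hx⟩, ?_⟩
      rintro ⟨z, hz, hze⟩
      have := h4 z hz
      omega
  rw [h2]
  refine Finset.sum_congr rfl fun e _ => ?_
  unfold tC trm
  rw [st_cuni (by omega) hκ]

end Pool.Agent.GaussPoset.Win.K2
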