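import Pool.Agent.W_448so_h63.GH
import Pool.Agent.W_448p6_h15.PA

/-!
The identity (6,4) at the window j (MP_448cb3_co, case B): the assembly.
-/

namespace Pool.Agent.GaussPoset.Win.K2

set_option linter.unusedSectionVars false

open Finset I2

universe u

variable {P : Type u} [Fintype P] [PartialOrder P] [DecidableEq P] {r i : ℕ} {e : P → ℕ}

variable {ι : Type*} [DecidableEq ι] {κ : P → ι} {K : Finset P} {psi : P → P}

/-- there are at least four sites if two elements have disjoint sites -/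
lemma Ek_small (H : Gr P r) (hK : K ⊆ dbL P i ∪ dbU P i) (hb : (lv P i).card < 4) {k : ℕ}
    (hk : 2 ≤ k) (T : Finset P) : EK.Ek i K T k = 0 := by
  classical
  rw [EK.Ek_eq hK]
  refine Finset.sum_eq_zero fun M hM => ?_
  exfalso
  rw [mem_filter, mem_powersetCard] at hM
  obtain ⟨⟨-, h1⟩, h2, -⟩ := hM
  have h3 := Dj_two_le H h2
  omega

lemma coeff_int_dd (b : ℕ) (E : ℤ) : PowerSeries.coeff b (((E : ℤ) : A) * dd ^ b) = E := by
  have h : ((E : ℤ) : A) = PowerSeries.C E := by simp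
  rw [h, PowerSeries.coeff_C_mul]
  unfold dd
  rw [PowerSeries.coeff_X_pow, if_pos rfl, mul_one]

/-- THE IDENTITY (6,4), general form: for every set `K` of unmatched elements -/
theorem six_four (H : Gr P r) (hir : i ≤ r) (hq : NoQ P (i + 2))
    (hg : ∀ m, m + 1 = i → Good P m) (hκ : Split (i + 1) κ) (hM : Mat P i K psi)
    (hK : K ⊆ dbL P i ∪ dbU P i)
    (hP : ∀ a ∈ univ.image κ, PG (bb i (i + 1) κ a) (VV i (i + 1) κ a)) :
    ∑ a ∈ univ.image κ, (w3 (bb i (i + 1) κ a) (VV i (i + 1) κ a) ^ 2 -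
      2 * w6 (bb i (i + 1) κ a) (VV i (i + 1) κ a)) =
      - (2 * ∑ z ∈ Z2 i κ, (EK.Ek i K (Tz z) 3 + EK.Ek i K (Tz z) 2)) := by
  classical
  rw [sum_sq_PG _ _ _ hP (fun a _ => eps_VV H hir a)]
  have hB : ∑ a ∈ univ.image κ, bb i (i + 1) κ a = (lv P i).card := sum_card_st (by omega) hκ
  rw [hB]
  have htot : ∀ n, dd ^ (lv P i).card ∣ ∑ e ∈ (univ : Finset P).piAntidiag n, trm i e :=
    fun n => dvd_sum_trm H hir n
  have h3 : w3 (lv P i).card (∏ a ∈ univ.image κ, VV i (i + 1) κ a) = 0 := by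
    unfold w3
    apply coeff_zero_of_dvd (a := (lv P i).card + 1)
    · rw [prod_eq H hir hκ]
      have h4 : dd ^ ((lv P i).card - 1) ∣
          ∑ e ∈ (univ : Finset P).piAntidiag 3, trm i e -
            ∑ e ∈ ((univ : Finset P).piAntidiag 3).filter (Cr i κ), trm i e :=
        dvd_sub ((pow_dvd_pow dd (Nat.sub_le _ _)).trans (htot 3))
          (cross3 H hir hq hg hκ le_rfl)
      refine (pow_dvd_pow dd (show (lv P i).card + 1 ≤ 2 + ((lv P i).card - 1) by omega)).trans ?_
      rw [pow_add]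
      exact mul_dvd_mul_left _ h4
    · omega
  have h6 : w6 (lv P i).card (∏ a ∈ univ.image κ, VV i (i + 1) κ a) =
      ∑ z ∈ Z2 i κ, (EK.Ek i K (Tz z) 3 + EK.Ek i K (Tz z) 2) := by
    unfold w6
    rw [prod_eq H hir hκ]
    have h1 := cross6 (K := K) (psi := psi) H hir hq hg hκ hM hK
    set E : ℤ := ∑ z ∈ Z2 i κ, (EK.Ek i K (Tz z) 3 + EK.Ek i K (Tz z) 2) with hE
    set R := ∑ e ∈ ((univ : Finset P).piAntidiag 6).filter (Cr i κ), trm i e with hR
    set T := ∑ e ∈ (univ : Finset P).piAntidiag 6, trm i e with hT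
    have h2 : dd ^ 4 * (T - R) = dd ^ 4 * (T - (R + ((E : ℤ) : A) *
        dd ^ ((lv P i).card - 4))) + dd ^ 4 * (((E : ℤ) : A) * dd ^ ((lv P i).card - 4)) := by
      ring
    have h4 : dd ^ ((lv P i).card - 3) ∣ T - (R + ((E : ℤ) : A) * dd ^ ((lv P i).card - 4)) :=
      dvd_sub ((pow_dvd_pow dd (Nat.sub_le _ _)).trans (htot 6)) h1
    have h5 : PowerSeries.coeff (lv P i).card (dd ^ 4 * (T - (R + ((E : ℤ) : A) *
        dd ^ ((lv P i).card - 4))) : A) = 0 := by
      apply coeff_zero_of_dvd (a := (lv P i).card + 1)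
      · refine (pow_dvd_pow dd (show (lv P i).card + 1 ≤ 4 + ((lv P i).card - 3) by omega)).trans ?_
        rw [pow_add]
        exact mul_dvd_mul_left _ h4
      · omega
    rw [h2, map_add, h5, zero_add]
    by_cases hb : 4 ≤ (lv P i).card
    · have h7 : dd ^ 4 * (((E : ℤ) : A) * dd ^ ((lv P i).card - 4)) =
          ((E : ℤ) : A) * dd ^ (lv P i).card := by
        have : dd ^ (lv P i).card = dd ^ 4 * dd ^ ((lv P i).card - 4) := by
          rw [← pow_add]
          congr 1
          omega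
        rw [this]
        ring
      rw [h7, coeff_int_dd]
    · have hE0 : E = 0 := by
        rw [hE]
        refine Finset.sum_eq_zero fun z _ => ?_
        rw [Ek_small H hK (by omega) (by norm_num), Ek_small H hK (by omega) (by norm_num), add_zero]
      rw [hE0]
      simp
  rw [h3, h6]
  ring

end Pool.Agent.GaussPoset.Win.K2
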